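import Pool.Agent.Lib.MP_af3a4a_an.P1.CHK.H21.KL
import Pool.Agent.Lib.MP_af3a4a_an.P1.CHK.H39.Line4
import Pool.Agent.Lib.MP_af3a4a_an.P1.CHK.H39.Tab1

/-!
# Data, `60 ≤ N < 100`, `4 / 5 ≤ R ≤ 19 / 20` (helper21)
-/

set_option autoImplicit false

namespace Pool.Agent.Lib.MP_af3a4a_an.P1.CHK.H21.D60

open Pool.Agent.Lib.MP_af3a4a_an.SV (uu av)
open Pool.Agent.Lib.MP_af3a4a_an.P1.H80
open Pool.Agent.Lib.MP_af3a4a_an.P1.H74
open Pool.Agent.Lib.MP_af3a4a_an.P1.CHK.H39.Tab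
open Pool.Agent.Lib.MP_af3a4a_an.P1.CHK.H39.TabS

/-- profiles, `4 / 5 ≤ R ≤ 33 / 40` -/
def pf800 : List Pf := pfs 51 ln389_800 ln205_800 tab800

def gs800 : List (ℕ × ℕ × ℕ × List En) := [
  (64, 7931, 8192, [
    ⟨1844, 128, 640, 303, 23, 0, [(18, 15), (19, 3), (20, 3), (21, 3), (22, 3), (23, 3)], [(24, 4)]⟩,
    ⟨2910, 128, 384, 255, 24, 0, [(0, 4), (8, 2), (9, 3), (10, 3), (11, 2), (4, 1), (12, 1), (5, 2), (6, 3), (7, 2), (21, 1), (22, 3), (23, 3), (24, 4)], [(25, 3)]⟩,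
    ⟨3204, 128, 256, 231, 24, 25, [(0, 8), (9, 1), (0, 2), (10, 1), (0, 1), (11, 2), (0, 1), (12, 2), (0, 1), (13, 2), (0, 1), (14, 2), (0, 1), (15, 2), (0, 1), (16, 2), (0, 1), (17, 1), (24, 2)], [(25, 1)]⟩,
    ⟨0, 128, 128, 231, 25, 25, [(0, 35)], []⟩]),
  (72, 8192, 8689, [
    ⟨2092, 128, 640, 287, 23, 24, [(18, 16), (19, 3), (20, 3), (21, 3), (22, 3), (23, 4)], [(24, 1)]⟩,
    ⟨3232, 128, 384, 231, 24, 25, [(0, 4), (8, 2), (9, 3), (10, 3), (11, 4), (12, 2), (5, 1), (6, 3), (7, 3), (22, 3), (23, 4), (24, 3)], [(25, 1)]⟩,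
    ⟨0, 128, 128, 231, 25, 25, [(0, 15), (11, 1), (0, 2), (12, 1), (0, 2), (13, 1), (0, 2), (14, 1), (0, 2), (15, 1), (0, 3), (16, 1), (0, 2), (17, 1), (0, 1)], []⟩]),
  (80, 8688, 9159, [
    ⟨2504, 128, 640, 287, 24, 24, [(18, 16), (19, 4), (20, 3), (21, 4), (22, 3), (23, 3), (24, 2)], []⟩,
    ⟨0, 128, 256, 231, 24, 25, [(0, 5), (8, 1), (0, 1), (9, 3), (10, 3), (11, 3), (12, 4), (13, 3), (7, 4), (22, 3), (23, 3), (24, 4)], [(25, 1)]⟩]),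
  (90, 9158, 9715, [
    ⟨3072, 128, 640, 231, 24, 25, [(18, 17), (19, 4), (20, 4), (21, 3), (22, 4), (23, 3), (24, 4)], [(25, 2)]⟩,
    ⟨0, 128, 256, 231, 25, 25, [(0, 6), (8, 1), (0, 2), (9, 1), (0, 1), (10, 3), (11, 3), (12, 4), (13, 4), (14, 3), (15, 2), (22, 2), (23, 3), (24, 4), (25, 2)], []⟩]),
  (100, 9714, 10240, [
    ⟨3600, 128, 640, 231, 24, 25, [(18, 18), (19, 4), (20, 4), (21, 4), (22, 4), (23, 3), (24, 4)], [(25, 2)]⟩,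
    ⟨0, 128, 128, 231, 25, 25, [(0, 10), (9, 1), (0, 2), (10, 2), (0, 2), (11, 1), (0, 2), (12, 2), (0, 1), (13, 3), (0, 1), (14, 3), (0, 1), (15, 3), (16, 3), (0, 1), (17, 2), (24, 1), (0, 1), (25, 1)], []⟩])]

theorem gok800 : allN 819 845 432640 pf800 60 gs800 = true := by decide +kernel

theorem mid800 {N : ℕ} {z w : Fin N → ℂ} {R : ℝ} {σ : Fin N → ℂ} (hC : Cfg2 N z w R σ)
    (hN0 : 60 ≤ N) (hN1 : N < 100) (h0 : 4 / 5 ≤ R) (h1 : R ≤ 33 / 40) (hm : (av (uu w)).re ≤ R / 2) :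
    False := by
  have hN : 1 ≤ N := by omega
  have hw := hC.cfg.far
  have ht := hC.dist.le
  have hpf : ∀ p ∈ pf800, Ok N w R p := ok_pfs (ln389_800_ok h0 h1 hN hw ht) (ln205_800_ok h0 h1 hN hw ht) (tab800_ok (by linarith) (by linarith) hN hw ht)
  exact allN_sound hC (by norm_num; linarith) (by norm_num; linarith) (by norm_num; linarith) hpf gs800 60 gok800 hN0 (by
    show N < 100
    exact hN1)

/-- profiles, `33 / 40 ≤ R ≤ 17 / 20` -/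
def pf825 : List Pf := pfs 51 ln389_825 ln205_825 tab825

def gs825 : List (ℕ × ℕ × ℕ × List En) := [
  (64, 7931, 8192, [
    ⟨2112, 128, 640, 279, 25, 0, [(19, 15), (20, 3), (21, 3), (22, 3), (23, 3), (24, 3), (25, 4)], [(26, 3)]⟩,
    ⟨3307, 128, 384, 231, 25, 0, [(0, 4), (9, 2), (10, 3), (11, 3), (12, 3), (13, 3), (14, 1), (6, 2), (7, 3), (8, 1), (23, 2), (24, 3), (25, 4)], [(26, 3), (27, 3)]⟩,
    ⟨0, 128, 128, 231, 26, 0, [(0, 37)], [(27, 3)]⟩]),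
  (72, 8192, 8689, [
    ⟨2276, 128, 640, 311, 24, 25, [(19, 16), (20, 3), (21, 3), (22, 3), (23, 3), (24, 4)], [(25, 1)]⟩,
    ⟨3464, 128, 256, 207, 25, 27, [(0, 4), (9, 2), (10, 3), (11, 3), (12, 4), (13, 3), (14, 2), (6, 1), (7, 3), (8, 2), (23, 1), (24, 4), (25, 3)], [(26, 3), (27, 1)]⟩,
    ⟨0, 128, 128, 207, 27, 27, [(0, 39)], []⟩]),
  (80, 8688, 9159, [
    ⟨2832, 128, 640, 263, 25, 26, [(19, 16), (20, 4), (21, 3), (22, 4), (23, 3), (24, 3), (25, 4)], [(26, 1)]⟩,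
    ⟨0, 128, 256, 207, 27, 27, [(0, 5), (9, 1), (0, 2), (10, 2), (11, 3), (12, 3), (13, 4), (14, 3), (15, 4), (8, 3), (24, 3), (25, 4), (26, 3), (27, 2)], []⟩]),
  (90, 9158, 9715, [
    ⟨3240, 128, 640, 263, 25, 26, [(19, 17), (20, 4), (21, 4), (22, 3), (23, 4), (24, 3), (25, 4)], [(26, 1)]⟩,
    ⟨0, 128, 128, 207, 27, 27, [(0, 6), (9, 1), (0, 2), (10, 1), (0, 2), (11, 2), (0, 1), (12, 2), (13, 4), (14, 4), (15, 3), (16, 3), (8, 1), (24, 3), (25, 4), (26, 3), (27, 2)], []⟩]),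
  (100, 9714, 10240, [
    ⟨3888, 128, 640, 207, 26, 27, [(19, 18), (20, 4), (21, 4), (22, 4), (23, 4), (24, 3), (25, 4), (26, 4)], [(27, 2)]⟩,
    ⟨0, 128, 128, 207, 27, 27, [(0, 14), (11, 1), (0, 2), (12, 1), (0, 3), (13, 1), (0, 2), (14, 2), (0, 2), (15, 2), (0, 2), (16, 2), (0, 2), (17, 1), (0, 3), (18, 1), (0, 3), (26, 1), (0, 2)], []⟩])]

theorem gok825 : allN 844 871 445952 pf825 60 gs825 = true := by decide +kernel

theorem mid825 {N : ℕ} {z w : Fin N → ℂ} {R : ℝ} {σ : Fin N → ℂ} (hC : Cfg2 N z w R σ)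
    (hN0 : 60 ≤ N) (hN1 : N < 100) (h0 : 33 / 40 ≤ R) (h1 : R ≤ 17 / 20) (hm : (av (uu w)).re ≤ R / 2) :
    False := by
  have hN : 1 ≤ N := by omega
  have hw := hC.cfg.far
  have ht := hC.dist.le
  have hpf : ∀ p ∈ pf825, Ok N w R p := ok_pfs (ln389_825_ok h0 h1 hN hw ht) (ln205_825_ok h0 h1 hN hw ht) (tab825_ok (by linarith) (by linarith) hN hw ht)
  exact allN_sound hC (by norm_num; linarith) (by norm_num; linarith) (by norm_num; linarith) hpf gs825 60 gok825 hN0 (by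
    show N < 100
    exact hN1)

/-- profiles, `17 / 20 ≤ R ≤ 7 / 8` -/
def pf850 : List Pf := pfs 52 ln389_850 ln205_850 tab850

def gs850 : List (ℕ × ℕ × ℕ × List En) := [
  (64, 7931, 8192, [
    ⟨2304, 128, 640, 287, 26, 27, [(20, 15), (21, 3), (22, 3), (23, 3), (24, 3), (25, 3), (26, 4)], [(27, 1)]⟩,
    ⟨0, 128, 384, 231, 27, 28, [(0, 4), (9, 2), (10, 3), (11, 3), (12, 3), (13, 3), (14, 3), (15, 1), (7, 2), (8, 3), (25, 3), (26, 4), (27, 3)], [(28, 1)]⟩]),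
  (72, 8192, 8689, [
    ⟨2596, 128, 640, 287, 26, 27, [(20, 16), (21, 3), (22, 3), (23, 3), (24, 3), (25, 4), (26, 3)], [(27, 1)]⟩,
    ⟨0, 128, 256, 231, 27, 28, [(0, 5), (9, 1), (0, 1), (10, 2), (11, 3), (12, 4), (13, 3), (14, 3), (15, 3), (16, 1), (8, 2), (25, 4), (26, 3), (27, 3)], [(28, 1)]⟩]),
  (80, 8688, 9159, [
    ⟨3028, 128, 640, 231, 26, 28, [(20, 16), (21, 4), (22, 3), (23, 4), (24, 3), (25, 3), (26, 4)], [(27, 3), (28, 2)]⟩,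
    ⟨0, 128, 256, 231, 28, 28, [(0, 8), (10, 2), (0, 1), (11, 2), (12, 3), (13, 4), (14, 3), (15, 4), (16, 3), (25, 3), (26, 4), (27, 3), (28, 2)], []⟩]),
  (90, 9158, 9715, [
    ⟨3624, 128, 640, 231, 27, 28, [(20, 17), (21, 4), (22, 4), (23, 3), (24, 4), (25, 3), (26, 4), (27, 3)], [(28, 2)]⟩,
    ⟨0, 128, 128, 231, 28, 28, [(0, 13), (11, 1), (0, 2), (12, 1), (0, 2), (13, 2), (0, 1), (14, 3), (15, 3), (0, 1), (16, 3), (17, 3), (0, 1), (18, 2), (26, 1), (0, 1), (27, 2), (0, 1), (28, 1)], []⟩]),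
  (100, 9714, 10240, [
    ⟨4144, 128, 640, 231, 27, 28, [(20, 18), (21, 4), (22, 4), (23, 4), (24, 4), (25, 3), (26, 4), (27, 4)], [(28, 2)]⟩,
    ⟨0, 128, 128, 231, 28, 28, [(0, 25), (14, 1), (0, 3), (15, 1), (0, 3), (16, 1), (0, 13)], []⟩])]

theorem gok850 : allN 870 896 458752 pf850 60 gs850 = true := by decide +kernel

theorem mid850 {N : ℕ} {z w : Fin N → ℂ} {R : ℝ} {σ : Fin N → ℂ} (hC : Cfg2 N z w R σ)
    (hN0 : 60 ≤ N) (hN1 : N < 100) (h0 : 17 / 20 ≤ R) (h1 : R ≤ 7 / 8) (hm : (av (uu w)).re ≤ R / 2) :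
    False := by
  have hN : 1 ≤ N := by omega
  have hw := hC.cfg.far
  have ht := hC.dist.le
  have hpf : ∀ p ∈ pf850, Ok N w R p := ok_pfs (ln389_850_ok h0 h1 hN hw ht) (ln205_850_ok h0 h1 hN hw ht) (tab850_ok (by linarith) (by linarith) hN hw ht)
  exact allN_sound hC (by norm_num; linarith) (by norm_num; linarith) (by norm_num; linarith) hpf gs850 60 gok850 hN0 (by
    show N < 100
    exact hN1)

/-- profiles, `7 / 8 ≤ R ≤ 9 / 10` -/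
def pf875 : List Pf := pfs 51 ln389_875 ln205_875 tab875

def gs875 : List (ℕ × ℕ × ℕ × List En) := [
  (64, 7931, 8192, [
    ⟨2580, 128, 640, 287, 26, 0, [(20, 15), (21, 3), (22, 3), (23, 3), (24, 3), (25, 3), (26, 4)], [(27, 3), (28, 3)]⟩,
    ⟨0, 128, 256, 263, 27, 28, [(0, 5), (9, 1), (0, 1), (10, 2), (11, 3), (12, 3), (13, 3), (14, 3), (15, 3), (16, 2), (8, 1), (25, 3), (26, 4), (27, 3)], [(28, 1)]⟩]),
  (72, 8192, 8689, [
    ⟨2808, 128, 640, 263, 26, 28, [(20, 16), (21, 3), (22, 3), (23, 3), (24, 3), (25, 4), (26, 3)], [(27, 3), (28, 1)]⟩,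
    ⟨0, 128, 256, 263, 27, 28, [(0, 5), (9, 1), (0, 2), (10, 1), (0, 1), (11, 2), (12, 4), (13, 3), (14, 3), (15, 3), (16, 3), (17, 1), (25, 3), (26, 3), (27, 3)], [(28, 1)]⟩]),
  (80, 8688, 9159, [
    ⟨3336, 128, 640, 263, 27, 28, [(20, 16), (21, 4), (22, 3), (23, 4), (24, 3), (25, 3), (26, 4), (27, 3)], [(28, 1)]⟩,
    ⟨0, 128, 128, 263, 28, 28, [(0, 9), (10, 1), (0, 2), (11, 1), (0, 1), (12, 2), (0, 1), (13, 3), (14, 3), (15, 4), (16, 3), (17, 3), (18, 1), (26, 3), (27, 3), (28, 1)], []⟩]),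
  (90, 9158, 9715, [
    ⟨3720, 128, 640, 263, 27, 28, [(20, 17), (21, 4), (22, 4), (23, 3), (24, 4), (25, 3), (26, 4), (27, 3)], [(28, 2)]⟩,
    ⟨0, 128, 128, 263, 28, 28, [(0, 13), (11, 1), (0, 2), (12, 1), (0, 2), (13, 2), (0, 1), (14, 3), (15, 3), (16, 4), (17, 3), (18, 3), (26, 1), (27, 3), (0, 1), (28, 1)], []⟩]),
  (100, 9714, 10240, [
    ⟨4104, 128, 640, 263, 27, 28, [(20, 18), (21, 4), (22, 4), (23, 4), (24, 4), (25, 3), (26, 4), (27, 4)], [(28, 1)]⟩,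
    ⟨0, 128, 128, 263, 28, 28, [(0, 14), (11, 1), (0, 2), (12, 1), (0, 3), (13, 1), (0, 2), (14, 2), (0, 2), (15, 2), (0, 1), (16, 3), (0, 1), (17, 2), (0, 2), (18, 2), (0, 2), (27, 2), (0, 1)], []⟩])]

theorem gok875 : allN 896 922 472064 pf875 60 gs875 = true := by decide +kernel

theorem mid875 {N : ℕ} {z w : Fin N → ℂ} {R : ℝ} {σ : Fin N → ℂ} (hC : Cfg2 N z w R σ)
    (hN0 : 60 ≤ N) (hN1 : N < 100) (h0 : 7 / 8 ≤ R) (h1 : R ≤ 9 / 10) (hm : (av (uu w)).re ≤ R / 2) :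
    False := by
  have hN : 1 ≤ N := by omega
  have hw := hC.cfg.far
  have ht := hC.dist.le
  have hpf : ∀ p ∈ pf875, Ok N w R p := ok_pfs (ln389_875_ok h0 h1 hN hw ht) (ln205_875_ok h0 h1 hN hw ht) (tab875_ok (by linarith) (by linarith) hN hw ht)
  exact allN_sound hC (by norm_num; linarith) (by norm_num; linarith) (by norm_num; linarith) hpf gs875 60 gok875 hN0 (by
    show N < 100
    exact hN1)

/-- profiles, `9 / 10 ≤ R ≤ 37 / 40` -/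
def pf900 : List Pf := pfs 52 ln389_900 ln205_900 tab900

def gs900 : List (ℕ × ℕ × ℕ × List En) := [
  (64, 7931, 8192, [
    ⟨2796, 128, 640, 263, 27, 0, [(21, 15), (22, 3), (23, 3), (24, 3), (25, 3), (26, 3), (27, 4)], [(28, 3), (29, 3), (30, 3)]⟩,
    ⟨0, 128, 256, 231, 29, 30, [(0, 5), (10, 1), (0, 1), (11, 2), (12, 3), (13, 3), (14, 3), (15, 3), (16, 3), (17, 3), (18, 2), (9, 1), (27, 4), (28, 3), (29, 3)], [(30, 1)]⟩]),
  (72, 8192, 8689, [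
    ⟨3040, 128, 640, 287, 28, 29, [(21, 16), (22, 3), (23, 3), (24, 3), (25, 3), (26, 4), (27, 3), (28, 3)], [(29, 1)]⟩,
    ⟨0, 128, 256, 231, 30, 30, [(0, 8), (11, 1), (0, 1), (12, 2), (0, 1), (13, 3), (14, 3), (15, 3), (16, 3), (17, 3), (18, 4), (27, 3), (28, 3), (29, 3), (30, 2)], []⟩]),
  (80, 8688, 9159, [
    ⟨3688, 128, 640, 231, 28, 30, [(21, 16), (22, 4), (23, 3), (24, 4), (25, 3), (26, 3), (27, 4), (28, 3)], [(29, 4), (30, 1)]⟩,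
    ⟨0, 128, 128, 231, 30, 30, [(0, 12), (12, 1), (0, 2), (13, 1), (0, 2), (14, 2), (0, 1), (15, 2), (0, 1), (16, 3), (17, 3), (18, 3), (0, 1), (19, 3), (0, 1), (20, 1), (28, 1), (0, 1), (29, 3), (0, 1)], []⟩]),
  (90, 9158, 9715, [
    ⟨4176, 128, 640, 231, 28, 30, [(21, 17), (22, 4), (23, 4), (24, 3), (25, 4), (26, 3), (27, 4), (28, 3)], [(29, 4), (30, 2)]⟩,
    ⟨0, 128, 128, 231, 30, 30, [(0, 24), (15, 1), (0, 2), (16, 1), (0, 3), (17, 1), (0, 2), (18, 1), (0, 3), (19, 1), (0, 9)], []⟩]),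
  (100, 9714, 10240, [
    ⟨0, 128, 640, 231, 29, 30, [(21, 18), (22, 4), (23, 4), (24, 4), (25, 4), (26, 3), (27, 4), (28, 4), (29, 4)], [(30, 2)]⟩])]

theorem gok900 : allN 921 948 485376 pf900 60 gs900 = true := by decide +kernel

theorem mid900 {N : ℕ} {z w : Fin N → ℂ} {R : ℝ} {σ : Fin N → ℂ} (hC : Cfg2 N z w R σ)
    (hN0 : 60 ≤ N) (hN1 : N < 100) (h0 : 9 / 10 ≤ R) (h1 : R ≤ 37 / 40) (hm : (av (uu w)).re ≤ R / 2) :
    False := by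
  have hN : 1 ≤ N := by omega
  have hw := hC.cfg.far
  have ht := hC.dist.le
  have hpf : ∀ p ∈ pf900, Ok N w R p := ok_pfs (ln389_900_ok h0 h1 hN hw ht) (ln205_900_ok h0 h1 hN hw ht) (tab900_ok (by linarith) (by linarith) hN hw ht)
  exact allN_sound hC (by norm_num; linarith) (by norm_num; linarith) (by norm_num; linarith) hpf gs900 60 gok900 hN0 (by
    show N < 100
    exact hN1)

/-- profiles, `37 / 40 ≤ R ≤ 19 / 20` -/
def pf925 : List Pf := pfs 51 ln389_925 ln205_925 tab925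

def gs925 : List (ℕ × ℕ × ℕ × List En) := [
  (64, 7931, 8192, [
    ⟨3028, 128, 640, 287, 29, 0, [(22, 15), (23, 3), (24, 3), (25, 3), (26, 3), (27, 3), (28, 4), (29, 3)], [(30, 3), (31, 3)]⟩,
    ⟨0, 128, 256, 263, 30, 31, [(0, 5), (10, 1), (0, 2), (11, 1), (0, 1), (12, 2), (13, 3), (14, 3), (15, 3), (16, 3), (17, 3), (18, 3), (19, 2), (28, 2), (29, 3), (30, 3)], [(31, 1)]⟩]),
  (72, 8192, 8689, [
    ⟨3320, 128, 640, 263, 29, 31, [(22, 16), (23, 3), (24, 3), (25, 3), (26, 3), (27, 4), (28, 3), (29, 3)], [(30, 3), (31, 1)]⟩,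
    ⟨0, 128, 128, 263, 31, 31, [(0, 8), (11, 1), (0, 2), (12, 1), (0, 2), (13, 2), (14, 3), (15, 3), (16, 3), (17, 3), (18, 4), (19, 3), (29, 3), (30, 3), (31, 1)], []⟩]),
  (80, 8688, 9159, [
    ⟨3816, 128, 640, 263, 29, 31, [(22, 16), (23, 4), (24, 3), (25, 4), (26, 3), (27, 3), (28, 4), (29, 3)], [(30, 4), (31, 1)]⟩,
    ⟨0, 128, 128, 263, 31, 31, [(0, 18), (14, 2), (0, 1), (15, 2), (0, 1), (16, 3), (17, 3), (18, 3), (0, 1), (19, 3), (0, 1), (29, 2), (0, 1), (30, 3), (0, 1)], []⟩]),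
  (90, 9158, 9715, [
    ⟨4184, 128, 640, 263, 29, 31, [(22, 17), (23, 4), (24, 4), (25, 3), (26, 4), (27, 3), (28, 4), (29, 3)], [(30, 4), (31, 1)]⟩,
    ⟨0, 128, 128, 263, 31, 31, [(0, 20), (14, 1), (0, 2), (15, 2), (0, 1), (16, 2), (0, 2), (17, 2), (0, 1), (18, 2), (0, 2), (19, 2), (0, 2), (20, 1), (0, 3), (30, 1), (0, 1)], []⟩]),
  (100, 9714, 10240, [
    ⟨4584, 128, 640, 263, 29, 31, [(22, 18), (23, 4), (24, 4), (25, 4), (26, 4), (27, 3), (28, 4), (29, 4)], [(30, 4), (31, 1)]⟩,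
    ⟨0, 128, 128, 263, 31, 31, [(0, 25), (15, 1), (0, 3), (16, 1), (0, 3), (17, 1), (0, 16)], []⟩])]

theorem gok925 : allN 947 973 498176 pf925 60 gs925 = true := by decide +kernel

theorem mid925 {N : ℕ} {z w : Fin N → ℂ} {R : ℝ} {σ : Fin N → ℂ} (hC : Cfg2 N z w R σ)
    (hN0 : 60 ≤ N) (hN1 : N < 100) (h0 : 37 / 40 ≤ R) (h1 : R ≤ 19 / 20) (hm : (av (uu w)).re ≤ R / 2) :
    False := by
  have hN : 1 ≤ N := by omega
  have hw := hC.cfg.far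
  have ht := hC.dist.le
  have hpf : ∀ p ∈ pf925, Ok N w R p := ok_pfs (ln389_925_ok h0 h1 hN hw ht) (ln205_925_ok h0 h1 hN hw ht) (tab925_ok (by linarith) (by linarith) hN hw ht)
  exact allN_sound hC (by norm_num; linarith) (by norm_num; linarith) (by norm_num; linarith) hpf gs925 60 gok925 hN0 (by
    show N < 100
    exact hN1)

end Pool.Agent.Lib.MP_af3a4a_an.P1.CHK.H21.D60
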