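import Pool.Agent.Lib.MP_af3a4a_an.P1.CHK.H21.KL
import Pool.Agent.Lib.MP_af3a4a_an.P1.CHK.H39.Line4
import Pool.Agent.Lib.MP_af3a4a_an.P1.CHK.H39.Line5
import Pool.Agent.Lib.MP_af3a4a_an.P1.CHK.H39.Tab1

/-!
# Data, `60 ≤ N < 100`, `19 / 20 ≤ R ≤ 11 / 10` (helper21)
-/

set_option autoImplicit false

namespace Pool.Agent.Lib.MP_af3a4a_an.P1.CHK.H21.D60

open Pool.Agent.Lib.MP_af3a4a_an.SV (uu av)
open Pool.Agent.Lib.MP_af3a4a_an.P1.H80
open Pool.Agent.Lib.MP_af3a4a_an.P1.H74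
open Pool.Agent.Lib.MP_af3a4a_an.P1.CHK.H39.Tab
open Pool.Agent.Lib.MP_af3a4a_an.P1.CHK.H39.TabS

/-- profiles, `19 / 20 ≤ R ≤ 39 / 40` -/
def pf950 : List Pf := pfs 51 ln389_950 ln205_950 tab950

def gs950 : List (ℕ × ℕ × ℕ × List En) := [
  (64, 7931, 8192, [
    ⟨3288, 128, 640, 263, 29, 0, [(22, 15), (23, 3), (24, 3), (25, 3), (26, 3), (27, 3), (28, 4), (29, 3)], [(30, 3), (31, 3), (32, 3)]⟩,
    ⟨0, 128, 128, 231, 32, 32, [(0, 8), (11, 1), (0, 2), (12, 1), (0, 1), (13, 2), (0, 1), (14, 2), (15, 3), (16, 3), (17, 3), (18, 3), (19, 4), (29, 3), (30, 3), (31, 3), (32, 1)], []⟩]),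
  (72, 8192, 8689, [
    ⟨3504, 128, 640, 231, 29, 32, [(22, 16), (23, 3), (24, 3), (25, 3), (26, 3), (27, 4), (28, 3), (29, 3)], [(30, 3), (31, 3), (32, 2)]⟩,
    ⟨0, 128, 128, 231, 32, 32, [(0, 11), (12, 1), (0, 2), (13, 2), (0, 1), (14, 2), (15, 3), (16, 3), (17, 3), (18, 4), (19, 3), (29, 3), (30, 3), (31, 3), (32, 2)], []⟩]),
  (80, 8688, 9159, [
    ⟨4208, 128, 640, 231, 29, 32, [(22, 16), (23, 4), (24, 3), (25, 4), (26, 3), (27, 3), (28, 4), (29, 3)], [(30, 4), (31, 3), (32, 2)]⟩,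
    ⟨0, 128, 128, 231, 32, 32, [(0, 26), (16, 1), (0, 2), (17, 1), (0, 6), (19, 1), (0, 12)], []⟩]),
  (90, 9158, 9715, [
    ⟨0, 128, 640, 231, 31, 32, [(22, 17), (23, 4), (24, 4), (25, 3), (26, 4), (27, 3), (28, 4), (29, 3), (30, 4), (31, 4)], [(32, 1)]⟩]),
  (100, 9714, 10240, [
    ⟨0, 128, 640, 231, 32, 32, [(22, 18), (23, 4), (24, 4), (25, 4), (26, 4), (27, 3), (28, 4), (29, 4), (30, 4), (31, 4), (32, 1)], []⟩])]

theorem gok950 : allN 972 999 511488 pf950 60 gs950 = true := by decide +kernel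

theorem mid950 {N : ℕ} {z w : Fin N → ℂ} {R : ℝ} {σ : Fin N → ℂ} (hC : Cfg2 N z w R σ)
    (hN0 : 60 ≤ N) (hN1 : N < 100) (h0 : 19 / 20 ≤ R) (h1 : R ≤ 39 / 40) (hm : (av (uu w)).re ≤ R / 2) :
    False := by
  have hN : 1 ≤ N := by omega
  have hw := hC.cfg.far
  have ht := hC.dist.le
  have hpf : ∀ p ∈ pf950, Ok N w R p := ok_pfs (ln389_950_ok h0 h1 hN hw ht) (ln205_950_ok h0 h1 hN hw ht) (tab950_ok (by linarith) (by linarith) hN hw ht)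
  exact allN_sound hC (by norm_num; linarith) (by norm_num; linarith) (by norm_num; linarith) hpf gs950 60 gok950 hN0 (by
    show N < 100
    exact hN1)

/-- profiles, `39 / 40 ≤ R ≤ 1` -/
def pf975 : List Pf := pfs 51 ln389_975 ln205_975 tab975

def gs975 : List (ℕ × ℕ × ℕ × List En) := [
  (64, 7931, 8192, [
    ⟨3448, 128, 640, 263, 29, 32, [(22, 15), (23, 3), (24, 3), (25, 3), (26, 3), (27, 3), (28, 4), (29, 3)], [(30, 3), (31, 3), (32, 1)]⟩,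
    ⟨0, 128, 128, 263, 32, 32, [(0, 11), (12, 1), (0, 2), (13, 1), (0, 1), (14, 2), (15, 3), (16, 3), (17, 3), (18, 3), (19, 4), (20, 2), (29, 1), (30, 3), (31, 3), (32, 1)], []⟩]),
  (72, 8192, 8689, [
    ⟨3736, 128, 640, 263, 29, 32, [(22, 16), (23, 3), (24, 3), (25, 3), (26, 3), (27, 4), (28, 3), (29, 3)], [(30, 3), (31, 3), (32, 1)]⟩,
    ⟨0, 128, 128, 263, 32, 32, [(0, 15), (13, 1), (0, 1), (14, 2), (0, 1), (15, 2), (0, 1), (16, 2), (17, 3), (18, 4), (19, 3), (20, 3), (30, 3), (31, 3), (32, 1)], []⟩]),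
  (80, 8688, 9159, [
    ⟨4232, 128, 640, 263, 29, 32, [(22, 16), (23, 4), (24, 3), (25, 4), (26, 3), (27, 3), (28, 4), (29, 3)], [(30, 4), (31, 3), (32, 1)]⟩,
    ⟨0, 128, 128, 263, 32, 32, [(0, 26), (16, 1), (0, 2), (17, 1), (0, 2), (18, 1), (0, 2), (19, 2), (0, 2), (20, 1), (0, 3), (30, 1), (0, 4)], []⟩]),
  (90, 9158, 9715, [
    ⟨0, 128, 640, 263, 30, 32, [(22, 17), (23, 4), (24, 4), (25, 3), (26, 4), (27, 3), (28, 4), (29, 3), (30, 4)], [(31, 4), (32, 1)]⟩]),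
  (100, 9714, 10240, [
    ⟨0, 128, 640, 263, 31, 32, [(22, 18), (23, 4), (24, 4), (25, 4), (26, 4), (27, 3), (28, 4), (29, 4), (30, 4), (31, 4)], [(32, 1)]⟩])]

theorem gok975 : allN 998 1024 524288 pf975 60 gs975 = true := by decide +kernel

theorem mid975 {N : ℕ} {z w : Fin N → ℂ} {R : ℝ} {σ : Fin N → ℂ} (hC : Cfg2 N z w R σ)
    (hN0 : 60 ≤ N) (hN1 : N < 100) (h0 : 39 / 40 ≤ R) (h1 : R ≤ 1) (hm : (av (uu w)).re ≤ R / 2) :
    False := by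
  have hN : 1 ≤ N := by omega
  have hw := hC.cfg.far
  have ht := hC.dist.le
  have hpf : ∀ p ∈ pf975, Ok N w R p := ok_pfs (ln389_975_ok h0 h1 hN hw ht) (ln205_975_ok h0 h1 hN hw ht) (tab975_ok (by linarith) (by linarith) hN hw ht)
  exact allN_sound hC (by norm_num; linarith) (by norm_num; linarith) (by norm_num; linarith) hpf gs975 60 gok975 hN0 (by
    show N < 100
    exact hN1)

/-- profiles, `1 ≤ R ≤ 41 / 40` -/
def pf1000 : List Pf := pfs 51 ln389_1000 ln205_1000 tab1000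

def gs1000 : List (ℕ × ℕ × ℕ × List En) := [
  (64, 7833, 8192, [
    ⟨3456, 128, 640, 287, 31, 34, [(24, 15), (25, 3), (26, 3), (27, 3), (28, 3), (29, 3), (30, 3), (31, 3)], [(32, 3), (33, 3), (34, 2)]⟩,
    ⟨0, 128, 128, 231, 35, 35, [(0, 8), (12, 1), (0, 2), (13, 1), (0, 1), (14, 2), (15, 3), (16, 3), (17, 3), (18, 3), (19, 3), (20, 3), (21, 3), (32, 3), (33, 3), (34, 3), (35, 2)], []⟩]),
  (72, 8089, 8689, [
    ⟨3776, 128, 640, 231, 31, 35, [(24, 15), (25, 3), (26, 4), (27, 3), (28, 3), (29, 3), (30, 3), (31, 3)], [(32, 4), (33, 3), (34, 3), (35, 1)]⟩,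
    ⟨0, 128, 128, 231, 35, 35, [(0, 14), (14, 1), (0, 2), (15, 1), (0, 1), (16, 3), (17, 3), (18, 3), (19, 3), (20, 3), (21, 3), (22, 1), (32, 3), (33, 3), (34, 3), (35, 1)], []⟩]),
  (80, 8580, 9159, [
    ⟨0, 128, 640, 231, 32, 35, [(24, 16), (25, 4), (26, 3), (27, 3), (28, 4), (29, 3), (30, 3), (31, 4), (32, 3)], [(33, 3), (34, 4), (35, 1)]⟩]),
  (90, 9044, 9715, [
    ⟨0, 128, 640, 231, 33, 35, [(24, 17), (25, 4), (26, 3), (27, 4), (28, 3), (29, 4), (30, 3), (31, 4), (32, 3), (33, 4)], [(34, 3), (35, 2)]⟩]),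
  (100, 9593, 10240, [
    ⟨0, 128, 640, 231, 35, 35, [(24, 18), (25, 4), (26, 4), (27, 4), (28, 3), (29, 4), (30, 4), (31, 3), (32, 4), (33, 4), (34, 4), (35, 2)], []⟩])]

theorem gok1000 : allN 1024 1050 537600 pf1000 60 gs1000 = true := by decide +kernel

theorem mid1000 {N : ℕ} {z w : Fin N → ℂ} {R : ℝ} {σ : Fin N → ℂ} (hC : Cfg2 N z w R σ)
    (hN0 : 60 ≤ N) (hN1 : N < 100) (h0 : 1 ≤ R) (h1 : R ≤ 41 / 40) (hm : (av (uu w)).re ≤ R / 2) :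
    False := by
  have hN : 1 ≤ N := by omega
  have hw := hC.cfg.far
  have ht := hC.dist.le
  have hpf : ∀ p ∈ pf1000, Ok N w R p := ok_pfs (ln389_1000_ok h0 h1 hN hw ht) (ln205_1000_ok h0 h1 hN hw ht) (tab1000_ok (by linarith) (by linarith) hN hw ht)
  exact allN_sound hC (by norm_num; linarith) (by norm_num; linarith) (by norm_num; linarith) hpf gs1000 60 gok1000 hN0 (by
    show N < 100
    exact hN1)

/-- profiles, `41 / 40 ≤ R ≤ 21 / 20` -/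
def pf1025 : List Pf := pfs 51 ln389_1025 ln205_1025 tab1025

def gs1025 : List (ℕ × ℕ × ℕ × List En) := [
  (64, 7737, 8094, [
    ⟨3680, 128, 640, 263, 31, 35, [(24, 15), (25, 3), (26, 3), (27, 3), (28, 3), (29, 3), (30, 3), (31, 3)], [(32, 3), (33, 3), (34, 3), (35, 1)]⟩,
    ⟨0, 128, 128, 263, 35, 35, [(0, 8), (12, 1), (0, 2), (13, 1), (0, 1), (14, 2), (0, 1), (15, 2), (16, 3), (17, 3), (18, 3), (19, 3), (20, 3), (21, 3), (22, 2), (32, 1), (33, 3), (34, 3), (35, 1)], []⟩]),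
  (72, 7991, 8585, [
    ⟨3992, 128, 640, 263, 31, 35, [(24, 15), (25, 3), (26, 3), (27, 3), (28, 4), (29, 3), (30, 3), (31, 3)], [(32, 3), (33, 3), (34, 3), (35, 1)]⟩,
    ⟨0, 128, 128, 263, 35, 35, [(0, 14), (14, 1), (0, 2), (15, 1), (0, 2), (16, 1), (0, 1), (17, 2), (0, 1), (18, 3), (19, 3), (20, 3), (21, 3), (22, 3), (33, 3), (34, 3), (35, 1)], []⟩]),
  (80, 8476, 9050, [
    ⟨4536, 128, 640, 263, 31, 35, [(24, 16), (25, 3), (26, 4), (27, 3), (28, 3), (29, 4), (30, 3), (31, 3)], [(32, 4), (33, 3), (34, 3), (35, 1)]⟩,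
    ⟨0, 128, 128, 207, 36, 36, [(0, 22), (16, 1), (0, 2), (17, 1), (0, 2), (18, 1), (0, 2), (19, 2), (0, 1), (20, 2), (0, 2), (21, 1), (0, 2), (22, 2), (0, 2), (33, 1), (0, 8)], []⟩]),
  (90, 8934, 9599, [
    ⟨0, 128, 640, 207, 33, 36, [(24, 17), (25, 3), (26, 4), (27, 3), (28, 4), (29, 3), (30, 4), (31, 3), (32, 4), (33, 3)], [(34, 4), (35, 3), (36, 2)]⟩]),
  (100, 9476, 10118, [
    ⟨0, 128, 640, 207, 35, 36, [(24, 18), (25, 4), (26, 3), (27, 4), (28, 4), (29, 4), (30, 3), (31, 4), (32, 4), (33, 3), (34, 4), (35, 4)], [(36, 1)]⟩])]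

theorem gok1025 : allN 1049 1076 550912 pf1025 60 gs1025 = true := by decide +kernel

theorem mid1025 {N : ℕ} {z w : Fin N → ℂ} {R : ℝ} {σ : Fin N → ℂ} (hC : Cfg2 N z w R σ)
    (hN0 : 60 ≤ N) (hN1 : N < 100) (h0 : 41 / 40 ≤ R) (h1 : R ≤ 21 / 20) (hm : (av (uu w)).re ≤ R / 2) :
    False := by
  have hN : 1 ≤ N := by omega
  have hw := hC.cfg.far
  have ht := hC.dist.le
  have hpf : ∀ p ∈ pf1025, Ok N w R p := ok_pfs (ln389_1025_ok h0 h1 hN hw ht) (ln205_1025_ok h0 h1 hN hw ht) (tab1025_ok (by linarith) (by linarith) hN hw ht)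
  exact allN_sound hC (by norm_num; linarith) (by norm_num; linarith) (by norm_num; linarith) hpf gs1025 60 gok1025 hN0 (by
    show N < 100
    exact hN1)

/-- profiles, `21 / 20 ≤ R ≤ 43 / 40` -/
def pf1050 : List Pf := pfs 52 ln389_1050 ln205_1050 tab1050

def gs1050 : List (ℕ × ℕ × ℕ × List En) := [
  (64, 7649, 7996, [
    ⟨3784, 128, 640, 287, 32, 36, [(25, 14), (26, 3), (27, 3), (28, 3), (29, 3), (30, 3), (31, 3), (32, 3)], [(33, 3), (34, 3), (35, 3), (36, 1)]⟩,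
    ⟨0, 128, 128, 231, 37, 37, [(0, 13), (14, 1), (0, 1), (15, 2), (0, 1), (16, 2), (17, 3), (18, 3), (19, 3), (20, 3), (21, 3), (22, 3), (34, 3), (35, 3), (36, 3), (37, 2)], []⟩]),
  (72, 7900, 8481, [
    ⟨4144, 128, 640, 231, 32, 37, [(25, 15), (26, 3), (27, 3), (28, 3), (29, 3), (30, 3), (31, 3), (32, 4)], [(33, 3), (34, 3), (35, 3), (36, 3), (37, 1)]⟩,
    ⟨0, 128, 128, 231, 37, 37, [(0, 14), (14, 1), (0, 2), (15, 1), (0, 1), (16, 2), (0, 1), (17, 2), (18, 3), (19, 3), (20, 3), (21, 4), (22, 3), (23, 1), (34, 2), (35, 3), (36, 3), (37, 1)], []⟩]),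
  (80, 8379, 8940, [
    ⟨0, 128, 640, 231, 33, 37, [(25, 16), (26, 3), (27, 3), (28, 4), (29, 3), (30, 3), (31, 3), (32, 4), (33, 3)], [(34, 3), (35, 4), (36, 3), (37, 1)]⟩]),
  (90, 8832, 9482, [
    ⟨0, 128, 640, 231, 35, 37, [(25, 17), (26, 3), (27, 4), (28, 3), (29, 4), (30, 3), (31, 3), (32, 4), (33, 3), (34, 4), (35, 3)], [(36, 4), (37, 1)]⟩]),
  (100, 9368, 9995, [
    ⟨0, 128, 640, 231, 37, 37, [(25, 18), (26, 3), (27, 4), (28, 4), (29, 3), (30, 4), (31, 4), (32, 3), (33, 4), (34, 4), (35, 3), (36, 4), (37, 2)], []⟩])]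

theorem gok1050 : allN 1075 1101 563712 pf1050 60 gs1050 = true := by decide +kernel

theorem mid1050 {N : ℕ} {z w : Fin N → ℂ} {R : ℝ} {σ : Fin N → ℂ} (hC : Cfg2 N z w R σ)
    (hN0 : 60 ≤ N) (hN1 : N < 100) (h0 : 21 / 20 ≤ R) (h1 : R ≤ 43 / 40) (hm : (av (uu w)).re ≤ R / 2) :
    False := by
  have hN : 1 ≤ N := by omega
  have hw := hC.cfg.far
  have ht := hC.dist.le
  have hpf : ∀ p ∈ pf1050, Ok N w R p := ok_pfs (ln389_1050_ok h0 h1 hN hw ht) (ln205_1050_ok h0 h1 hN hw ht) (tab1050_ok (by linarith) (by linarith) hN hw ht)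
  exact allN_sound hC (by norm_num; linarith) (by norm_num; linarith) (by norm_num; linarith) hpf gs1050 60 gok1050 hN0 (by
    show N < 100
    exact hN1)

/-- profiles, `43 / 40 ≤ R ≤ 11 / 10` -/
def pf1075 : List Pf := pfs 51 ln389_1075 ln205_1075 tab1075

def gs1075 : List (ℕ × ℕ × ℕ × List En) := [
  (64, 7560, 7904, [
    ⟨3912, 128, 640, 263, 33, 38, [(26, 14), (27, 3), (28, 3), (29, 3), (30, 3), (31, 3), (32, 3), (33, 3)], [(34, 3), (35, 3), (36, 3), (37, 3), (38, 1)]⟩,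
    ⟨0, 128, 128, 263, 38, 38, [(0, 13), (15, 1), (0, 1), (16, 2), (0, 1), (17, 2), (18, 3), (19, 3), (20, 3), (21, 3), (22, 3), (23, 3), (24, 1), (35, 2), (36, 3), (37, 3), (38, 1)], []⟩]),
  (72, 7808, 8384, [
    ⟨4280, 128, 640, 263, 33, 38, [(26, 15), (27, 3), (28, 3), (29, 3), (30, 3), (31, 3), (32, 3), (33, 3)], [(34, 3), (35, 3), (36, 3), (37, 3), (38, 1)]⟩,
    ⟨0, 128, 128, 263, 38, 38, [(0, 14), (15, 1), (0, 2), (16, 1), (0, 1), (17, 2), (0, 1), (18, 2), (19, 3), (20, 3), (21, 3), (22, 3), (23, 3), (24, 3), (36, 3), (37, 3), (38, 1)], []⟩]),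
  (80, 8282, 8837, [
    ⟨0, 128, 640, 263, 34, 38, [(26, 16), (27, 3), (28, 3), (29, 3), (30, 4), (31, 3), (32, 3), (33, 3), (34, 4)], [(35, 3), (36, 3), (37, 3), (38, 1)]⟩]),
  (90, 8730, 9373, [
    ⟨0, 128, 640, 207, 35, 39, [(26, 17), (27, 3), (28, 3), (29, 4), (30, 3), (31, 4), (32, 3), (33, 3), (34, 4), (35, 3)], [(36, 4), (37, 3), (38, 3), (39, 2)]⟩]),
  (100, 9259, 9880, [
    ⟨0, 128, 640, 207, 38, 39, [(26, 18), (27, 3), (28, 4), (29, 3), (30, 4), (31, 4), (32, 3), (33, 4), (34, 4), (35, 3), (36, 4), (37, 3), (38, 4)], [(39, 2)]⟩])]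

theorem gok1075 : allN 1100 1127 577024 pf1075 60 gs1075 = true := by decide +kernel

theorem mid1075 {N : ℕ} {z w : Fin N → ℂ} {R : ℝ} {σ : Fin N → ℂ} (hC : Cfg2 N z w R σ)
    (hN0 : 60 ≤ N) (hN1 : N < 100) (h0 : 43 / 40 ≤ R) (h1 : R ≤ 11 / 10) (hm : (av (uu w)).re ≤ R / 2) :
    False := by
  have hN : 1 ≤ N := by omega
  have hw := hC.cfg.far
  have ht := hC.dist.le
  have hpf : ∀ p ∈ pf1075, Ok N w R p := ok_pfs (ln389_1075_ok h0 h1 hN hw ht) (ln205_1075_ok h0 h1 hN hw ht) (tab1075_ok (by linarith) (by linarith) hN hw ht)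
  exact allN_sound hC (by norm_num; linarith) (by norm_num; linarith) (by norm_num; linarith) hpf gs1075 60 gok1075 hN0 (by
    show N < 100
    exact hN1)

end Pool.Agent.Lib.MP_af3a4a_an.P1.CHK.H21.D60
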