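import Pool.Agent.Lib.MP_af3a4a_an.P1.CHK.H21.KL
import Pool.Agent.Lib.MP_af3a4a_an.P1.CHK.H39.Line5
import Pool.Agent.Lib.MP_af3a4a_an.P1.CHK.H39.Line6
import Pool.Agent.Lib.MP_af3a4a_an.P1.CHK.H39.Tab1
import Pool.Agent.Lib.MP_af3a4a_an.P1.CHK.H39.Tab2

/-!
# Data, `60 ≤ N < 100`, `11 / 10 ≤ R ≤ 13 / 10` (helper21)
-/

set_option autoImplicit false

namespace Pool.Agent.Lib.MP_af3a4a_an.P1.CHK.H21.D60

open Pool.Agent.Lib.MP_af3a4a_an.SV (uu av)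
open Pool.Agent.Lib.MP_af3a4a_an.P1.H80
open Pool.Agent.Lib.MP_af3a4a_an.P1.H74
open Pool.Agent.Lib.MP_af3a4a_an.P1.CHK.H39.Tab
open Pool.Agent.Lib.MP_af3a4a_an.P1.CHK.H39.TabS

/-- profiles, `11 / 10 ≤ R ≤ 9 / 8` -/
def pf1100 : List Pf := pfs 51 ln389_1100 ln205_1100 tab1100

def gs1100 : List (ℕ × ℕ × ℕ × List En) := [
  (64, 7478, 7813, [
    ⟨3976, 128, 640, 287, 34, 39, [(27, 14), (28, 3), (29, 3), (30, 3), (31, 3), (32, 3), (33, 3), (34, 3)], [(35, 2), (36, 3), (37, 3), (38, 3), (39, 1)]⟩,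
    ⟨0, 128, 128, 231, 40, 40, [(0, 10), (14, 1), (0, 2), (15, 1), (0, 1), (16, 2), (17, 3), (18, 3), (19, 3), (20, 3), (21, 3), (22, 3), (23, 2), (24, 3), (37, 3), (38, 3), (39, 3), (40, 2)], []⟩]),
  (72, 7723, 8287, [
    ⟨4344, 128, 640, 287, 35, 39, [(27, 15), (28, 3), (29, 3), (30, 3), (31, 3), (32, 3), (33, 3), (34, 3), (35, 3)], [(36, 3), (37, 3), (38, 3), (39, 1)]⟩,
    ⟨0, 128, 128, 231, 40, 40, [(0, 11), (14, 1), (0, 2), (15, 1), (0, 1), (16, 2), (0, 1), (17, 2), (18, 3), (19, 3), (20, 3), (21, 3), (22, 3), (23, 3), (24, 3), (37, 3), (38, 3), (39, 3), (40, 1)], []⟩]),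
  (80, 8192, 8735, [
    ⟨0, 128, 640, 231, 35, 40, [(27, 16), (28, 3), (29, 3), (30, 3), (31, 3), (32, 4), (33, 3), (34, 3), (35, 3)], [(36, 3), (37, 4), (38, 3), (39, 3), (40, 1)]⟩]),
  (90, 8635, 9265, [
    ⟨0, 128, 640, 231, 37, 40, [(27, 16), (28, 4), (29, 3), (30, 4), (31, 3), (32, 3), (33, 4), (34, 3), (35, 3), (36, 4), (37, 3)], [(38, 3), (39, 4), (40, 1)]⟩]),
  (100, 9158, 9766, [
    ⟨0, 128, 640, 231, 39, 40, [(27, 17), (28, 4), (29, 4), (30, 3), (31, 4), (32, 3), (33, 4), (34, 3), (35, 4), (36, 4), (37, 3), (38, 4), (39, 3)], [(40, 2)]⟩])]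

theorem gok1100 : allN 1126 1152 589824 pf1100 60 gs1100 = true := by decide +kernel

theorem mid1100 {N : ℕ} {z w : Fin N → ℂ} {R : ℝ} {σ : Fin N → ℂ} (hC : Cfg2 N z w R σ)
    (hN0 : 60 ≤ N) (hN1 : N < 100) (h0 : 11 / 10 ≤ R) (h1 : R ≤ 9 / 8) (hm : (av (uu w)).re ≤ R / 2) :
    False := by
  have hN : 1 ≤ N := by omega
  have hw := hC.cfg.far
  have ht := hC.dist.le
  have hpf : ∀ p ∈ pf1100, Ok N w R p := ok_pfs (ln389_1100_ok h0 h1 hN hw ht) (ln205_1100_ok h0 h1 hN hw ht) (tab1100_ok (by linarith) (by linarith) hN hw ht)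
  exact allN_sound hC (by norm_num; linarith) (by norm_num; linarith) (by norm_num; linarith) hpf gs1100 60 gok1100 hN0 (by
    show N < 100
    exact hN1)

/-- profiles, `9 / 8 ≤ R ≤ 23 / 20` -/
def pf1125 : List Pf := pfs 51 ln389_1125 ln205_1125 tab1125

def gs1125 : List (ℕ × ℕ × ℕ × List En) := [
  (64, 7395, 7724, [
    ⟨3920, 128, 640, 311, 35, 39, [(27, 14), (28, 3), (29, 3), (30, 3), (31, 3), (32, 2), (33, 3), (34, 3), (35, 3)], [(36, 3), (37, 3), (38, 3), (39, 1)]⟩,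
    ⟨0, 128, 128, 263, 40, 40, [(0, 10), (14, 1), (0, 1), (15, 2), (16, 3), (17, 3), (18, 3), (19, 3), (20, 2), (21, 3), (22, 3), (23, 3), (24, 3), (37, 3), (38, 3), (39, 3), (40, 1)], []⟩]),
  (72, 7637, 8192, [
    ⟨4328, 128, 640, 263, 35, 40, [(27, 14), (28, 3), (29, 3), (30, 3), (31, 3), (32, 3), (33, 3), (34, 3), (35, 3)], [(36, 3), (37, 3), (38, 3), (39, 3), (40, 1)]⟩,
    ⟨0, 128, 128, 263, 40, 40, [(0, 13), (15, 1), (0, 2), (16, 1), (0, 1), (17, 2), (18, 3), (19, 3), (20, 3), (21, 3), (22, 3), (23, 3), (24, 3), (25, 2), (37, 1), (26, 1), (38, 2), (39, 3), (40, 1)], []⟩]),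
  (80, 8101, 8636, [
    ⟨5136, 128, 640, 263, 35, 40, [(27, 15), (28, 3), (29, 4), (30, 3), (31, 3), (32, 3), (33, 3), (34, 3), (35, 4)], [(36, 3), (37, 3), (38, 3), (39, 3), (40, 1)]⟩,
    ⟨0, 128, 128, 263, 40, 40, [(0, 21), (17, 1), (0, 2), (18, 1), (0, 2), (19, 1), (0, 1), (20, 2), (0, 1), (21, 2), (0, 1), (22, 2), (0, 1), (23, 3), (24, 3), (25, 3), (0, 1), (26, 2), (0, 2), (39, 1), (0, 1)], []⟩]),
  (90, 8539, 9159, [
    ⟨0, 128, 640, 263, 36, 40, [(27, 16), (28, 4), (29, 3), (30, 3), (31, 4), (32, 3), (33, 3), (34, 4), (35, 3), (36, 3)], [(37, 4), (38, 3), (39, 3), (40, 1)]⟩]),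
  (100, 9057, 9655, [
    ⟨0, 128, 640, 263, 38, 40, [(27, 17), (28, 4), (29, 3), (30, 4), (31, 3), (32, 4), (33, 3), (34, 4), (35, 4), (36, 3), (37, 4), (38, 3)], [(39, 4), (40, 1)]⟩])]

theorem gok1125 : allN 1152 1178 603136 pf1125 60 gs1125 = true := by decide +kernel

theorem mid1125 {N : ℕ} {z w : Fin N → ℂ} {R : ℝ} {σ : Fin N → ℂ} (hC : Cfg2 N z w R σ)
    (hN0 : 60 ≤ N) (hN1 : N < 100) (h0 : 9 / 8 ≤ R) (h1 : R ≤ 23 / 20) (hm : (av (uu w)).re ≤ R / 2) :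
    False := by
  have hN : 1 ≤ N := by omega
  have hw := hC.cfg.far
  have ht := hC.dist.le
  have hpf : ∀ p ∈ pf1125, Ok N w R p := ok_pfs (ln389_1125_ok h0 h1 hN hw ht) (ln205_1125_ok h0 h1 hN hw ht) (tab1125_ok (by linarith) (by linarith) hN hw ht)
  exact allN_sound hC (by norm_num; linarith) (by norm_num; linarith) (by norm_num; linarith) hpf gs1125 60 gok1125 hN0 (by
    show N < 100
    exact hN1)

/-- profiles, `23 / 20 ≤ R ≤ 47 / 40` -/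
def pf1150 : List Pf := pfs 52 ln389_1150 ln205_1150 tab1150

def gs1150 : List (ℕ × ℕ × ℕ × List En) := [
  (64, 7314, 7642, [
    ⟨3680, 128, 640, 335, 37, 41, [(29, 14), (30, 3), (31, 2), (32, 3), (33, 3), (34, 3), (35, 3), (36, 3), (37, 3)], [(38, 3), (39, 2), (40, 3), (41, 1)]⟩,
    ⟨0, 128, 128, 231, 43, 43, [(0, 7), (14, 1), (0, 1), (15, 2), (16, 3), (17, 3), (18, 2), (19, 3), (20, 3), (21, 3), (22, 3), (23, 3), (24, 3), (25, 2), (38, 1), (39, 2), (40, 3), (41, 3), (42, 3), (43, 1)], []⟩]),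
  (72, 7554, 8105, [
    ⟨4224, 128, 640, 287, 37, 42, [(29, 14), (30, 3), (31, 3), (32, 3), (33, 3), (34, 3), (35, 3), (36, 3), (37, 3)], [(38, 3), (39, 3), (40, 3), (41, 3), (42, 1)]⟩,
    ⟨0, 128, 128, 231, 43, 43, [(0, 10), (15, 1), (0, 2), (16, 1), (0, 1), (17, 2), (18, 3), (19, 3), (20, 3), (21, 3), (22, 3), (23, 3), (24, 3), (25, 3), (26, 1), (39, 2), (40, 3), (41, 3), (42, 3), (43, 1)], []⟩]),
  (80, 8013, 8543, [
    ⟨5056, 128, 640, 231, 37, 43, [(29, 15), (30, 3), (31, 3), (32, 4), (33, 3), (34, 3), (35, 3), (36, 3), (37, 3)], [(38, 3), (39, 3), (40, 4), (41, 3), (42, 3), (43, 1)]⟩,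
    ⟨0, 128, 128, 231, 43, 43, [(0, 20), (18, 1), (0, 2), (19, 2), (20, 3), (21, 3), (22, 3), (23, 3), (24, 3), (25, 3), (26, 3), (27, 4), (28, 3), (42, 3), (43, 1)], []⟩]),
  (90, 8446, 9062, [
    ⟨0, 128, 640, 231, 38, 43, [(29, 16), (30, 3), (31, 4), (32, 3), (33, 3), (34, 3), (35, 4), (36, 3), (37, 3), (38, 4)], [(39, 3), (40, 3), (41, 4), (42, 3), (43, 1)]⟩]),
  (100, 8958, 9552, [
    ⟨0, 128, 640, 231, 41, 43, [(29, 17), (30, 3), (31, 4), (32, 4), (33, 3), (34, 3), (35, 4), (36, 3), (37, 4), (38, 4), (39, 3), (40, 3), (41, 4)], [(42, 4), (43, 1)]⟩])]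

theorem gok1150 : allN 1177 1204 616448 pf1150 60 gs1150 = true := by decide +kernel

theorem mid1150 {N : ℕ} {z w : Fin N → ℂ} {R : ℝ} {σ : Fin N → ℂ} (hC : Cfg2 N z w R σ)
    (hN0 : 60 ≤ N) (hN1 : N < 100) (h0 : 23 / 20 ≤ R) (h1 : R ≤ 47 / 40) (hm : (av (uu w)).re ≤ R / 2) :
    False := by
  have hN : 1 ≤ N := by omega
  have hw := hC.cfg.far
  have ht := hC.dist.le
  have hpf : ∀ p ∈ pf1150, Ok N w R p := ok_pfs (ln389_1150_ok h0 h1 hN hw ht) (ln205_1150_ok h0 h1 hN hw ht) (tab1150_ok (by linarith) (by linarith) hN hw ht)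
  exact allN_sound hC (by norm_num; linarith) (by norm_num; linarith) (by norm_num; linarith) hpf gs1150 60 gok1150 hN0 (by
    show N < 100
    exact hN1)

/-- profiles, `47 / 40 ≤ R ≤ 6 / 5` -/
def pf1175 : List Pf := pfs 52 ln389_1175 ln205_1175 tab1175

def gs1175 : List (ℕ × ℕ × ℕ × List En) := [
  (64, 7240, 7559, [
    ⟨3216, 128, 640, 359, 37, 41, [(29, 14), (30, 2), (31, 3), (32, 3), (33, 3), (34, 3), (35, 3), (36, 2), (37, 3)], [(38, 3), (39, 3), (40, 3), (41, 1)]⟩,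
    ⟨0, 128, 128, 263, 43, 43, [(0, 4), (13, 1), (0, 1), (14, 2), (15, 3), (16, 3), (17, 2), (18, 3), (19, 3), (20, 3), (21, 3), (22, 3), (23, 2), (24, 2), (12, 1), (38, 3), (39, 3), (40, 3), (41, 3), (42, 2), (43, 1)], []⟩]),
  (72, 7477, 8017, [
    ⟨3776, 128, 640, 311, 36, 42, [(29, 14), (30, 3), (31, 3), (32, 3), (33, 3), (34, 3), (35, 3), (36, 3)], [(37, 2), (38, 3), (39, 3), (40, 3), (41, 3), (42, 1)]⟩,
    ⟨0, 128, 128, 263, 43, 43, [(0, 7), (14, 1), (0, 1), (15, 2), (16, 3), (17, 3), (18, 3), (19, 3), (20, 3), (21, 3), (22, 3), (23, 3), (24, 2), (25, 3), (39, 3), (40, 3), (41, 3), (42, 3), (43, 1)], []⟩]),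
  (80, 7931, 8451, [
    ⟨4792, 128, 640, 263, 37, 43, [(29, 15), (30, 3), (31, 3), (32, 3), (33, 3), (34, 3), (35, 4), (36, 3), (37, 3)], [(38, 3), (39, 3), (40, 3), (41, 3), (42, 3), (43, 1)]⟩,
    ⟨0, 128, 128, 263, 43, 43, [(0, 11), (15, 1), (0, 2), (16, 1), (0, 1), (17, 2), (18, 3), (19, 3), (20, 3), (21, 3), (22, 4), (23, 3), (24, 3), (25, 3), (26, 3), (27, 2), (40, 1), (41, 3), (42, 3), (43, 1)], []⟩]),
  (90, 8360, 8963, [
    ⟨5696, 128, 640, 263, 37, 43, [(29, 16), (30, 3), (31, 3), (32, 4), (33, 3), (34, 3), (35, 3), (36, 4), (37, 3)], [(38, 3), (39, 3), (40, 4), (41, 3), (42, 3), (43, 1)]⟩,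
    ⟨0, 128, 0, 263, 43, 43, [(0, 25), (19, 1), (0, 1), (20, 2), (0, 1), (21, 2), (0, 1), (22, 2), (0, 1), (23, 3), (24, 3), (25, 3), (26, 3), (27, 4), (28, 3), (0, 1), (42, 2), (0, 1)], []⟩]),
  (100, 8867, 9448, [
    ⟨0, 128, 640, 263, 39, 43, [(29, 17), (30, 3), (31, 4), (32, 3), (33, 4), (34, 3), (35, 4), (36, 3), (37, 4), (38, 3), (39, 3)], [(40, 4), (41, 3), (42, 4), (43, 1)]⟩])]

theorem gok1175 : allN 1203 1229 629248 pf1175 60 gs1175 = true := by decide +kernel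

theorem mid1175 {N : ℕ} {z w : Fin N → ℂ} {R : ℝ} {σ : Fin N → ℂ} (hC : Cfg2 N z w R σ)
    (hN0 : 60 ≤ N) (hN1 : N < 100) (h0 : 47 / 40 ≤ R) (h1 : R ≤ 6 / 5) (hm : (av (uu w)).re ≤ R / 2) :
    False := by
  have hN : 1 ≤ N := by omega
  have hw := hC.cfg.far
  have ht := hC.dist.le
  have hpf : ∀ p ∈ pf1175, Ok N w R p := ok_pfs (ln389_1175_ok h0 h1 hN hw ht) (ln205_1175_ok h0 h1 hN hw ht) (tab1175_ok (by linarith) (by linarith) hN hw ht)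
  exact allN_sound hC (by norm_num; linarith) (by norm_num; linarith) (by norm_num; linarith) hpf gs1175 60 gok1175 hN0 (by
    show N < 100
    exact hN1)

/-- profiles, `6 / 5 ≤ R ≤ 5 / 4` -/
def pf1200 : List Pf := pfs 51 ln389_1200 ln205_1200 tab1200

def gs1200 : List (ℕ × ℕ × ℕ × List En) := [
  (64, 7094, 7481, [
    ⟨1224, 128, 640, 359, 38, 44, [(31, 13), (32, 3), (33, 3), (34, 3), (35, 2), (36, 3), (37, 3), (38, 3)], [(39, 3), (40, 2), (41, 3), (42, 3), (43, 3)]⟩,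
    ⟨0, 128, 512, 263, 43, 46, [(0, 3), (14, 2), (15, 1), (2, 2), (3, 3), (4, 2), (5, 3), (6, 3), (7, 3), (8, 2), (9, 1), (36, 2), (37, 3), (38, 3), (39, 3), (40, 2), (41, 3), (42, 3), (43, 3)], [(44, 2), (45, 3)]⟩]),
  (72, 7327, 7935, [
    ⟨1728, 128, 640, 359, 38, 44, [(31, 14), (32, 3), (33, 3), (34, 2), (35, 3), (36, 3), (37, 3), (38, 3)], [(39, 3), (40, 3), (41, 2), (42, 3), (43, 3)]⟩,
    ⟨0, 128, 384, 263, 44, 46, [(0, 4), (14, 1), (15, 3), (16, 2), (3, 1), (17, 1), (4, 2), (5, 3), (6, 3), (7, 2), (8, 3), (9, 3), (37, 3), (38, 3), (39, 3), (40, 3), (41, 2), (42, 3), (43, 3), (44, 3)], [(45, 2)]⟩]),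
  (80, 7771, 8364, [
    ⟨2772, 128, 640, 359, 38, 44, [(31, 15), (32, 3), (33, 3), (34, 3), (35, 3), (36, 3), (37, 3), (38, 3)], [(39, 3), (40, 3), (41, 3), (42, 3), (43, 3)]⟩,
    ⟨0, 128, 256, 263, 45, 46, [(0, 4), (14, 2), (15, 3), (16, 3), (17, 3), (18, 3), (19, 3), (20, 3), (21, 3), (22, 2), (9, 1), (10, 3), (11, 3), (39, 3), (40, 3), (41, 3), (42, 3), (43, 3), (44, 3), (45, 3)], []⟩]),
  (90, 8192, 8871, [
    ⟨3808, 128, 640, 359, 39, 44, [(31, 16), (32, 3), (33, 3), (34, 3), (35, 3), (36, 4), (37, 3), (38, 3), (39, 3)], [(40, 3), (41, 4), (42, 3), (43, 3)]⟩,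
    ⟨0, 128, 128, 263, 45, 46, [(0, 5), (14, 1), (0, 1), (15, 2), (16, 3), (17, 4), (18, 3), (19, 3), (20, 3), (21, 3), (22, 4), (23, 3), (24, 3), (25, 3), (26, 1), (40, 2), (41, 4), (42, 3), (43, 3), (44, 3), (45, 3)], []⟩]),
  (100, 8688, 9351, [
    ⟨5056, 128, 640, 311, 39, 45, [(31, 16), (32, 4), (33, 3), (34, 4), (35, 3), (36, 3), (37, 4), (38, 3), (39, 4)], [(40, 3), (41, 3), (42, 4), (43, 3), (44, 3)]⟩,
    ⟨0, 128, 128, 263, 45, 46, [(0, 9), (15, 1), (0, 2), (16, 1), (0, 1), (17, 2), (18, 4), (19, 3), (20, 4), (21, 3), (22, 3), (23, 4), (24, 3), (25, 4), (26, 3), (27, 3), (28, 1), (42, 3), (43, 3), (44, 4), (45, 2)], []⟩])]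

theorem gok1200 : allN 1228 1280 655360 pf1200 60 gs1200 = true := by decide +kernel

theorem mid1200 {N : ℕ} {z w : Fin N → ℂ} {R : ℝ} {σ : Fin N → ℂ} (hC : Cfg2 N z w R σ)
    (hN0 : 60 ≤ N) (hN1 : N < 100) (h0 : 6 / 5 ≤ R) (h1 : R ≤ 5 / 4) (hm : (av (uu w)).re ≤ R / 2) :
    False := by
  have hN : 1 ≤ N := by omega
  have hw := hC.cfg.far
  have ht := hC.dist.le
  have hpf : ∀ p ∈ pf1200, Ok N w R p := ok_pfs (ln389_1200_ok h0 h1 hN hw ht) (ln205_1200_ok h0 h1 hN hw ht) (tab1200_ok (by linarith) (by linarith) hN hw ht)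
  exact allN_sound hC (by norm_num; linarith) (by norm_num; linarith) (by norm_num; linarith) hpf gs1200 60 gok1200 hN0 (by
    show N < 100
    exact hN1)

/-- profiles, `5 / 4 ≤ R ≤ 13 / 10` -/
def pf1250 : List Pf := pfs 51 ln389_1250 ln205_1250 tab1250

def gs1250 : List (ℕ × ℕ × ℕ × List En) := [
  (64, 6954, 7328, [
    ⟨1066, 128, 640, 367, 38, 45, [(31, 13), (32, 3), (33, 2), (34, 3), (35, 3), (36, 3), (37, 2), (38, 3)], [(39, 3), (40, 3), (41, 2), (42, 3), (43, 3), (44, 2)]⟩,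
    ⟨0, 128, 512, 263, 43, 47, [(0, 3), (14, 1), (1, 1), (2, 3), (3, 2), (4, 3), (5, 3), (6, 2), (7, 3), (8, 3), (36, 3), (37, 2), (38, 3), (39, 3), (40, 3), (41, 2), (42, 3), (43, 3)], [(44, 2), (45, 3), (46, 2)]⟩]),
  (72, 7182, 7772, [
    ⟨1148, 128, 640, 367, 38, 45, [(31, 14), (32, 2), (33, 3), (34, 3), (35, 3), (36, 3), (37, 2), (38, 3)], [(39, 3), (40, 3), (41, 3), (42, 2), (43, 3), (44, 3)]⟩,
    ⟨0, 128, 512, 263, 44, 47, [(0, 4), (1, 1), (2, 3), (3, 3), (4, 3), (5, 2), (6, 3), (7, 3), (8, 3), (9, 1), (36, 2), (37, 2), (38, 3), (39, 3), (40, 3), (41, 3), (42, 2), (43, 3), (44, 3)], [(45, 3), (46, 2)]⟩]),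
  (80, 7618, 8192, [
    ⟨1300, 128, 640, 367, 40, 45, [(31, 14), (32, 3), (33, 3), (34, 3), (35, 3), (36, 3), (37, 3), (38, 3), (39, 3), (40, 3)], [(41, 3), (42, 3), (43, 3), (44, 3)]⟩,
    ⟨0, 128, 512, 263, 45, 47, [(0, 4), (1, 1), (15, 1), (2, 2), (3, 3), (4, 3), (5, 3), (6, 3), (7, 3), (8, 3), (9, 3), (37, 3), (38, 3), (39, 3), (40, 3), (41, 3), (42, 3), (43, 3), (44, 3), (45, 3)], [(46, 3)]⟩]),
  (90, 8030, 8689, [
    ⟨1450, 128, 640, 359, 39, 45, [(31, 15), (32, 3), (33, 3), (34, 4), (35, 3), (36, 3), (37, 3), (38, 3), (39, 3)], [(40, 3), (41, 4), (42, 3), (43, 3), (44, 3)]⟩,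
    ⟨0, 128, 384, 263, 46, 47, [(0, 4), (14, 1), (1, 1), (15, 1), (2, 2), (3, 3), (4, 3), (5, 3), (6, 3), (7, 4), (8, 3), (9, 3), (37, 3), (38, 3), (39, 3), (40, 3), (41, 4), (42, 3), (43, 3), (44, 3), (45, 3), (46, 2)], [(46, 1)]⟩]),
  (100, 8517, 9159, [
    ⟨2132, 128, 640, 359, 40, 45, [(31, 16), (32, 3), (33, 4), (34, 3), (35, 3), (36, 4), (37, 3), (38, 3), (39, 4), (40, 3)], [(41, 3), (42, 4), (43, 3), (44, 3)]⟩,
    ⟨0, 128, 256, 263, 46, 47, [(0, 4), (14, 2), (15, 4), (16, 3), (17, 2), (4, 1), (18, 1), (5, 2), (6, 4), (7, 3), (8, 3), (9, 4), (10, 3), (38, 3), (39, 4), (40, 3), (41, 3), (42, 4), (43, 3), (44, 3), (45, 4), (46, 1)], [(46, 2)]⟩])]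

theorem gok1250 : allN 1280 1332 681984 pf1250 60 gs1250 = true := by decide +kernel

theorem mid1250 {N : ℕ} {z w : Fin N → ℂ} {R : ℝ} {σ : Fin N → ℂ} (hC : Cfg2 N z w R σ)
    (hN0 : 60 ≤ N) (hN1 : N < 100) (h0 : 5 / 4 ≤ R) (h1 : R ≤ 13 / 10) (hm : (av (uu w)).re ≤ R / 2) :
    False := by
  have hN : 1 ≤ N := by omega
  have hw := hC.cfg.far
  have ht := hC.dist.le
  have hpf : ∀ p ∈ pf1250, Ok N w R p := ok_pfs (ln389_1250_ok h0 h1 hN hw ht) (ln205_1250_ok h0 h1 hN hw ht) (tab1250_ok (by linarith) (by linarith) hN hw ht)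
  exact allN_sound hC (by norm_num; linarith) (by norm_num; linarith) (by norm_num; linarith) hpf gs1250 60 gok1250 hN0 (by
    show N < 100
    exact hN1)

end Pool.Agent.Lib.MP_af3a4a_an.P1.CHK.H21.D60
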