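import Pool.Agent.Lib.MP_af3a4a_an.P1.CHK.H21.KL
import Pool.Agent.Lib.MP_af3a4a_an.P1.CHK.H39.Line6
import Pool.Agent.Lib.MP_af3a4a_an.P1.CHK.H39.Line7
import Pool.Agent.Lib.MP_af3a4a_an.P1.CHK.H39.Tab2

/-!
# Data, `60 ≤ N < 100`, `13 / 10 ≤ R ≤ 8 / 5` (helper21)
-/

set_option autoImplicit false

namespace Pool.Agent.Lib.MP_af3a4a_an.P1.CHK.H21.D60

open Pool.Agent.Lib.MP_af3a4a_an.SV (uu av)
open Pool.Agent.Lib.MP_af3a4a_an.P1.H80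
open Pool.Agent.Lib.MP_af3a4a_an.P1.H74
open Pool.Agent.Lib.MP_af3a4a_an.P1.CHK.H39.Tab
open Pool.Agent.Lib.MP_af3a4a_an.P1.CHK.H39.TabS

/-- profiles, `13 / 10 ≤ R ≤ 27 / 20` -/
def pf1300 : List Pf := pfs 52 ln389_1300 ln205_1300 tab1300

def gs1300 : List (ℕ × ℕ × ℕ × List En) := [
  (64, 6825, 7186, [
    ⟨1078, 128, 640, 367, 39, 47, [(32, 13), (33, 2), (34, 3), (35, 3), (36, 3), (37, 2), (38, 3), (39, 2)], [(40, 3), (41, 3), (42, 2), (43, 3), (44, 3), (45, 3), (46, 2)]⟩,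
    ⟨0, 128, 512, 263, 45, 49, [(0, 3), (15, 1), (1, 1), (2, 3), (3, 2), (4, 3), (5, 2), (6, 3), (7, 3), (8, 3), (9, 2), (38, 3), (39, 2), (40, 3), (41, 3), (42, 2), (43, 3), (44, 3), (45, 2)], [(45, 1), (46, 2), (47, 3), (48, 2)]⟩]),
  (72, 7049, 7622, [
    ⟨1160, 128, 640, 359, 39, 47, [(32, 13), (33, 3), (34, 3), (35, 3), (36, 2), (37, 3), (38, 3), (39, 3)], [(40, 2), (41, 3), (42, 3), (43, 3), (44, 2), (45, 3), (46, 3)]⟩,
    ⟨0, 128, 512, 263, 46, 49, [(0, 4), (1, 1), (2, 3), (3, 3), (4, 2), (5, 3), (6, 3), (7, 3), (8, 2), (9, 3), (38, 3), (39, 3), (40, 2), (41, 3), (42, 3), (43, 3), (44, 2), (45, 3), (46, 2)], [(46, 1), (47, 3), (48, 2)]⟩]),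
  (80, 7476, 8034, [
    ⟨1314, 128, 640, 359, 39, 47, [(32, 14), (33, 3), (34, 3), (35, 3), (36, 3), (37, 3), (38, 3), (39, 3)], [(40, 2), (41, 3), (42, 3), (43, 3), (44, 3), (45, 3), (46, 3)]⟩,
    ⟨0, 128, 512, 263, 47, 49, [(0, 4), (1, 1), (16, 1), (2, 2), (3, 3), (4, 3), (5, 3), (6, 3), (7, 3), (8, 3), (9, 3), (38, 3), (39, 3), (40, 2), (41, 3), (42, 3), (43, 3), (44, 3), (45, 3), (46, 3), (47, 1)], [(47, 2), (48, 2)]⟩]),
  (90, 7881, 8521, [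
    ⟨1458, 128, 640, 359, 44, 47, [(32, 15), (33, 3), (34, 3), (35, 3), (36, 3), (37, 3), (38, 3), (39, 3), (40, 4), (41, 3), (42, 3), (43, 3), (44, 3)], [(45, 3), (46, 3)]⟩,
    ⟨0, 128, 384, 263, 47, 49, [(0, 4), (15, 1), (1, 1), (16, 1), (2, 2), (3, 3), (4, 3), (5, 3), (6, 3), (7, 3), (8, 3), (9, 3), (38, 3), (39, 3), (40, 4), (41, 3), (42, 3), (43, 3), (44, 3), (45, 3), (46, 3), (47, 2)], [(47, 1), (48, 3)]⟩]),
  (100, 8359, 8982, [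
    ⟨1628, 128, 640, 367, 46, 47, [(32, 16), (33, 3), (34, 3), (35, 4), (36, 3), (37, 3), (38, 3), (39, 4), (40, 3), (41, 3), (42, 3), (43, 4), (44, 3), (45, 3), (46, 3)], []⟩,
    ⟨0, 128, 384, 263, 47, 49, [(0, 4), (15, 2), (16, 1), (2, 2), (3, 4), (4, 3), (5, 3), (6, 3), (7, 4), (8, 3), (9, 3), (10, 1), (38, 2), (39, 4), (40, 3), (41, 3), (42, 3), (43, 4), (44, 3), (45, 3), (46, 4), (47, 1)], [(47, 2), (48, 3)]⟩])]

theorem gok1300 : allN 1331 1383 708096 pf1300 60 gs1300 = true := by decide +kernel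

theorem mid1300 {N : ℕ} {z w : Fin N → ℂ} {R : ℝ} {σ : Fin N → ℂ} (hC : Cfg2 N z w R σ)
    (hN0 : 60 ≤ N) (hN1 : N < 100) (h0 : 13 / 10 ≤ R) (h1 : R ≤ 27 / 20) (hm : (av (uu w)).re ≤ R / 2) :
    False := by
  have hN : 1 ≤ N := by omega
  have hw := hC.cfg.far
  have ht := hC.dist.le
  have hpf : ∀ p ∈ pf1300, Ok N w R p := ok_pfs (ln389_1300_ok h0 h1 hN hw ht) (ln205_1300_ok h0 h1 hN hw ht) (tab1300_ok (by linarith) (by linarith) hN hw ht)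
  exact allN_sound hC (by norm_num; linarith) (by norm_num; linarith) (by norm_num; linarith) hpf gs1300 60 gok1300 hN0 (by
    show N < 100
    exact hN1)

/-- profiles, `27 / 20 ≤ R ≤ 7 / 5` -/
def pf1350 : List Pf := pfs 51 ln389_1350 ln205_1350 tab1350

def gs1350 : List (ℕ × ℕ × ℕ × List En) := [
  (64, 6702, 7052, [
    ⟨1086, 128, 640, 359, 41, 49, [(33, 13), (34, 2), (35, 3), (36, 2), (37, 3), (38, 3), (39, 2), (40, 3), (41, 2)], [(41, 1), (42, 2), (43, 3), (44, 2), (45, 3), (46, 3), (47, 2), (48, 3)]⟩,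
    ⟨0, 128, 512, 263, 46, 51, [(0, 3), (16, 1), (1, 1), (2, 2), (3, 3), (4, 3), (5, 2), (6, 3), (7, 2), (8, 3), (9, 3), (39, 2), (40, 3), (41, 3), (42, 2), (43, 3), (44, 2), (45, 3), (46, 3)], [(47, 2), (48, 3), (49, 2), (50, 3)]⟩]),
  (72, 6922, 7480, [
    ⟨1168, 128, 640, 359, 40, 49, [(33, 13), (34, 3), (35, 2), (36, 3), (37, 3), (38, 3), (39, 2), (40, 3)], [(41, 3), (42, 2), (43, 3), (44, 3), (45, 2), (46, 3), (47, 3), (48, 3)]⟩,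
    ⟨0, 128, 512, 263, 47, 51, [(0, 3), (16, 1), (1, 1), (2, 3), (3, 2), (4, 3), (5, 3), (6, 2), (7, 3), (8, 3), (9, 3), (39, 2), (40, 3), (41, 3), (42, 2), (43, 3), (44, 3), (45, 2), (46, 3), (47, 3)], [(48, 3), (49, 2), (50, 3)]⟩]),
  (80, 7342, 7884, [
    ⟨1322, 128, 640, 359, 45, 49, [(33, 14), (34, 3), (35, 3), (36, 2), (37, 3), (38, 3), (39, 3), (40, 3), (41, 3), (42, 3), (43, 3), (44, 2), (45, 2)], [(45, 1), (46, 3), (47, 3), (48, 3)]⟩,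
    ⟨0, 128, 512, 263, 48, 51, [(0, 4), (1, 1), (17, 1), (2, 2), (3, 3), (4, 3), (5, 3), (6, 3), (7, 2), (8, 3), (9, 3), (10, 1), (39, 2), (40, 3), (41, 3), (42, 3), (43, 3), (44, 2), (45, 3), (46, 3), (47, 3), (48, 2)], [(48, 1), (49, 3), (50, 2)]⟩]),
  (90, 7739, 8363, [
    ⟨1468, 128, 640, 359, 48, 49, [(33, 15), (34, 3), (35, 3), (36, 3), (37, 3), (38, 3), (39, 3), (40, 3), (41, 3), (42, 3), (43, 3), (44, 3), (45, 3), (46, 3), (47, 3), (48, 1)], [(48, 2)]⟩,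
    ⟨0, 128, 384, 263, 48, 51, [(0, 4), (16, 1), (1, 1), (17, 1), (2, 2), (3, 3), (4, 3), (5, 3), (6, 3), (7, 3), (8, 3), (9, 3), (10, 2), (39, 1), (40, 3), (41, 3), (42, 3), (43, 3), (44, 3), (45, 3), (46, 3), (47, 3), (48, 2)], [(48, 1), (49, 3), (50, 3)]⟩]),
  (100, 8209, 8815, [
    ⟨1640, 128, 640, 359, 48, 49, [(33, 16), (34, 3), (35, 3), (36, 3), (37, 3), (38, 4), (39, 3), (40, 3), (41, 3), (42, 3), (43, 4), (44, 3), (45, 3), (46, 3), (47, 3), (48, 2)], [(48, 2)]⟩,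
    ⟨0, 128, 384, 263, 48, 51, [(0, 4), (16, 1), (1, 1), (17, 1), (2, 2), (3, 3), (4, 4), (5, 3), (6, 3), (7, 3), (8, 3), (9, 4), (10, 3), (40, 3), (41, 3), (42, 3), (43, 4), (44, 3), (45, 3), (46, 3), (47, 3), (48, 2)], [(48, 2), (49, 3), (50, 3)]⟩])]

theorem gok1350 : allN 1382 1434 734208 pf1350 60 gs1350 = true := by decide +kernel

theorem mid1350 {N : ℕ} {z w : Fin N → ℂ} {R : ℝ} {σ : Fin N → ℂ} (hC : Cfg2 N z w R σ)
    (hN0 : 60 ≤ N) (hN1 : N < 100) (h0 : 27 / 20 ≤ R) (h1 : R ≤ 7 / 5) (hm : (av (uu w)).re ≤ R / 2) :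
    False := by
  have hN : 1 ≤ N := by omega
  have hw := hC.cfg.far
  have ht := hC.dist.le
  have hpf : ∀ p ∈ pf1350, Ok N w R p := ok_pfs (ln389_1350_ok h0 h1 hN hw ht) (ln205_1350_ok h0 h1 hN hw ht) (tab1350_ok (by linarith) (by linarith) hN hw ht)
  exact allN_sound hC (by norm_num; linarith) (by norm_num; linarith) (by norm_num; linarith) hpf gs1350 60 gok1350 hN0 (by
    show N < 100
    exact hN1)

/-- profiles, `7 / 5 ≤ R ≤ 29 / 20` -/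
def pf1400 : List Pf := pfs 52 ln389_1400 ln205_1400 tab1400

def gs1400 : List (ℕ × ℕ × ℕ × List En) := [
  (64, 6586, 6925, [
    ⟨1090, 128, 640, 375, 42, 51, [(34, 12), (35, 3), (36, 2), (37, 3), (38, 3), (39, 2), (40, 3), (41, 2), (42, 3)], [(43, 3), (44, 2), (45, 3), (46, 2), (47, 3), (48, 2), (49, 3), (50, 2)]⟩,
    ⟨0, 128, 512, 263, 47, 53, [(0, 3), (17, 1), (1, 1), (2, 2), (3, 3), (4, 2), (5, 3), (6, 2), (7, 3), (8, 3), (9, 2), (10, 1), (40, 2), (41, 2), (42, 3), (43, 3), (44, 2), (45, 3), (46, 2), (47, 3)], [(48, 2), (49, 3), (50, 3), (51, 2), (52, 2)]⟩]),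
  (72, 6802, 7346, [
    ⟨1172, 128, 640, 367, 43, 51, [(34, 13), (35, 2), (36, 3), (37, 3), (38, 2), (39, 3), (40, 3), (41, 2), (42, 3), (43, 3)], [(44, 2), (45, 3), (46, 3), (47, 2), (48, 3), (49, 3), (50, 2)]⟩,
    ⟨0, 128, 512, 263, 48, 53, [(0, 3), (17, 1), (1, 1), (2, 2), (3, 3), (4, 3), (5, 2), (6, 3), (7, 3), (8, 2), (9, 3), (10, 2), (40, 1), (41, 2), (42, 3), (43, 3), (44, 2), (45, 3), (46, 3), (47, 2), (48, 3)], [(49, 3), (50, 2), (51, 3), (52, 2)]⟩]),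
  (80, 7215, 7743, [
    ⟨1330, 128, 640, 359, 43, 51, [(34, 14), (35, 2), (36, 3), (37, 3), (38, 3), (39, 3), (40, 2), (41, 3), (42, 3), (43, 3)], [(44, 3), (45, 3), (46, 2), (47, 3), (48, 3), (49, 3), (50, 3)]⟩,
    ⟨0, 128, 512, 263, 49, 53, [(0, 4), (17, 1), (18, 1), (2, 2), (3, 3), (4, 3), (5, 2), (6, 3), (7, 3), (8, 3), (9, 3), (10, 2), (41, 3), (42, 3), (43, 3), (44, 3), (45, 3), (46, 2), (47, 3), (48, 3), (49, 2)], [(49, 1), (50, 3), (51, 2), (52, 3)]⟩]),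
  (90, 7605, 8212, [
    ⟨1478, 128, 640, 359, 49, 51, [(34, 14), (35, 3), (36, 3), (37, 3), (38, 3), (39, 3), (40, 3), (41, 3), (42, 3), (43, 3), (44, 3), (45, 3), (46, 3), (47, 3), (48, 3), (49, 1)], [(49, 2), (50, 3)]⟩,
    ⟨0, 128, 384, 263, 49, 53, [(0, 4), (17, 1), (18, 2), (2, 1), (3, 3), (4, 3), (5, 3), (6, 3), (7, 3), (8, 3), (9, 3), (10, 3), (41, 3), (42, 3), (43, 3), (44, 3), (45, 3), (46, 3), (47, 3), (48, 3), (49, 2)], [(49, 1), (50, 3), (51, 3), (52, 2)]⟩]),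
  (100, 8066, 8657, [
    ⟨1652, 128, 640, 359, 49, 51, [(34, 15), (35, 3), (36, 4), (37, 3), (38, 3), (39, 3), (40, 3), (41, 3), (42, 3), (43, 4), (44, 3), (45, 3), (46, 3), (47, 3), (48, 3), (49, 2)], [(49, 2), (50, 3)]⟩,
    ⟨0, 128, 384, 263, 49, 53, [(0, 4), (17, 2), (18, 1), (2, 2), (3, 3), (4, 3), (5, 3), (6, 4), (7, 3), (8, 3), (9, 3), (10, 3), (41, 3), (42, 3), (43, 4), (44, 3), (45, 3), (46, 3), (47, 3), (48, 3), (49, 2)], [(49, 2), (50, 3), (51, 3), (52, 3)]⟩])]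

theorem gok1400 : allN 1433 1485 760320 pf1400 60 gs1400 = true := by decide +kernel

theorem mid1400 {N : ℕ} {z w : Fin N → ℂ} {R : ℝ} {σ : Fin N → ℂ} (hC : Cfg2 N z w R σ)
    (hN0 : 60 ≤ N) (hN1 : N < 100) (h0 : 7 / 5 ≤ R) (h1 : R ≤ 29 / 20) (hm : (av (uu w)).re ≤ R / 2) :
    False := by
  have hN : 1 ≤ N := by omega
  have hw := hC.cfg.far
  have ht := hC.dist.le
  have hpf : ∀ p ∈ pf1400, Ok N w R p := ok_pfs (ln389_1400_ok h0 h1 hN hw ht) (ln205_1400_ok h0 h1 hN hw ht) (tab1400_ok (by linarith) (by linarith) hN hw ht)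
  exact allN_sound hC (by norm_num; linarith) (by norm_num; linarith) (by norm_num; linarith) hpf gs1400 60 gok1400 hN0 (by
    show N < 100
    exact hN1)

/-- profiles, `29 / 20 ≤ R ≤ 3 / 2` -/
def pf1450 : List Pf := pfs 51 ln389_1450 ln205_1450 tab1450

def gs1450 : List (ℕ × ℕ × ℕ × List En) := [
  (64, 6476, 6805, [
    ⟨1094, 128, 640, 367, 42, 52, [(34, 12), (35, 3), (36, 2), (37, 3), (38, 2), (39, 3), (40, 2), (41, 3), (42, 2)], [(43, 3), (44, 2), (45, 3), (46, 2), (47, 3), (48, 3), (49, 2), (50, 3), (51, 2)]⟩,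
    ⟨0, 128, 512, 263, 48, 54, [(0, 3), (17, 1), (1, 1), (2, 2), (3, 3), (4, 2), (5, 3), (6, 2), (7, 3), (8, 2), (9, 3), (10, 2), (41, 3), (42, 2), (43, 3), (44, 2), (45, 3), (46, 2), (47, 3), (48, 2)], [(48, 1), (49, 2), (50, 3), (51, 2), (52, 3), (53, 2)]⟩]),
  (72, 6688, 7218, [
    ⟨1176, 128, 640, 359, 43, 52, [(34, 13), (35, 2), (36, 3), (37, 2), (38, 3), (39, 3), (40, 2), (41, 3), (42, 2), (43, 3)], [(44, 3), (45, 2), (46, 3), (47, 3), (48, 2), (49, 3), (50, 2), (51, 3)]⟩,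
    ⟨0, 128, 512, 263, 49, 54, [(0, 3), (17, 1), (1, 1), (2, 2), (3, 3), (4, 3), (5, 2), (6, 3), (7, 2), (8, 3), (9, 3), (10, 2), (41, 3), (42, 2), (43, 3), (44, 3), (45, 2), (46, 3), (47, 3), (48, 2), (49, 1)], [(49, 2), (50, 2), (51, 3), (52, 3), (53, 2)]⟩]),
  (80, 7094, 7609, [
    ⟨1334, 128, 640, 375, 49, 52, [(34, 13), (35, 3), (36, 3), (37, 3), (38, 2), (39, 3), (40, 3), (41, 3), (42, 3), (43, 2), (44, 3), (45, 3), (46, 3), (47, 2), (48, 3), (49, 1)], [(49, 2), (50, 3), (51, 2)]⟩,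
    ⟨0, 128, 512, 263, 49, 54, [(0, 3), (17, 1), (1, 1), (18, 1), (2, 2), (3, 3), (4, 2), (5, 3), (6, 3), (7, 3), (8, 2), (9, 3), (10, 3), (41, 3), (42, 3), (43, 2), (44, 3), (45, 3), (46, 3), (47, 2), (48, 3), (49, 2)], [(49, 1), (50, 3), (51, 2), (52, 3), (53, 3)]⟩]),
  (90, 7478, 8070, [
    ⟨1486, 128, 640, 359, 44, 52, [(34, 14), (35, 3), (36, 3), (37, 3), (38, 3), (39, 3), (40, 3), (41, 3), (42, 2), (43, 3), (44, 3)], [(45, 3), (46, 3), (47, 3), (48, 3), (49, 3), (50, 3), (51, 3)]⟩,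
    ⟨0, 128, 384, 263, 49, 54, [(0, 4), (17, 1), (18, 1), (2, 2), (3, 3), (4, 3), (5, 3), (6, 3), (7, 3), (8, 3), (9, 3), (10, 3), (41, 3), (42, 2), (43, 3), (44, 3), (45, 3), (46, 3), (47, 3), (48, 3), (49, 2)], [(49, 1), (50, 3), (51, 3), (52, 3), (53, 2)]⟩]),
  (100, 7931, 8507, [
    ⟨1664, 128, 640, 359, 49, 52, [(34, 15), (35, 3), (36, 3), (37, 3), (38, 3), (39, 3), (40, 4), (41, 3), (42, 3), (43, 3), (44, 3), (45, 3), (46, 3), (47, 3), (48, 3), (49, 2)], [(49, 1), (50, 4), (51, 3)]⟩,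
    ⟨0, 128, 384, 263, 49, 54, [(0, 4), (17, 2), (18, 1), (2, 2), (3, 3), (4, 3), (5, 3), (6, 3), (7, 3), (8, 3), (9, 3), (10, 4), (11, 1), (41, 2), (42, 3), (43, 3), (44, 3), (45, 3), (46, 3), (47, 3), (48, 3), (49, 2)], [(49, 1), (50, 4), (51, 3), (52, 3), (53, 2)]⟩])]

theorem gok1450 : allN 1484 1536 786432 pf1450 60 gs1450 = true := by decide +kernel

theorem mid1450 {N : ℕ} {z w : Fin N → ℂ} {R : ℝ} {σ : Fin N → ℂ} (hC : Cfg2 N z w R σ)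
    (hN0 : 60 ≤ N) (hN1 : N < 100) (h0 : 29 / 20 ≤ R) (h1 : R ≤ 3 / 2) (hm : (av (uu w)).re ≤ R / 2) :
    False := by
  have hN : 1 ≤ N := by omega
  have hw := hC.cfg.far
  have ht := hC.dist.le
  have hpf : ∀ p ∈ pf1450, Ok N w R p := ok_pfs (ln389_1450_ok h0 h1 hN hw ht) (ln205_1450_ok h0 h1 hN hw ht) (tab1450_ok (by linarith) (by linarith) hN hw ht)
  exact allN_sound hC (by norm_num; linarith) (by norm_num; linarith) (by norm_num; linarith) hpf gs1450 60 gok1450 hN0 (by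
    show N < 100
    exact hN1)

/-- profiles, `3 / 2 ≤ R ≤ 31 / 20` -/
def pf1500 : List Pf := pfs 51 ln389_1500 ln205_1500 tab1500

def gs1500 : List (ℕ × ℕ × ℕ × List En) := [
  (64, 6369, 6689, [
    ⟨1082, 128, 640, 359, 43, 54, [(35, 12), (36, 2), (37, 3), (38, 2), (39, 3), (40, 2), (41, 3), (42, 2), (43, 2)], [(43, 1), (44, 2), (45, 3), (46, 2), (47, 3), (48, 2), (49, 3), (50, 2), (51, 3), (52, 2), (53, 3)]⟩,
    ⟨0, 128, 512, 311, 49, 55, [(0, 3), (1, 1), (19, 1), (2, 2), (3, 2), (4, 3), (5, 2), (6, 3), (7, 2), (8, 3), (9, 2), (10, 3), (42, 2), (43, 3), (44, 2), (45, 3), (46, 2), (47, 3), (48, 2), (49, 2)], [(49, 1), (50, 2), (51, 3), (52, 2), (53, 3), (54, 2)]⟩]),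
  (72, 6578, 7095, [
    ⟨1164, 128, 640, 359, 44, 54, [(35, 12), (36, 3), (37, 2), (38, 3), (39, 3), (40, 2), (41, 3), (42, 2), (43, 3), (44, 2)], [(45, 3), (46, 3), (47, 2), (48, 3), (49, 2), (50, 3), (51, 2), (52, 3), (53, 3)]⟩,
    ⟨0, 128, 512, 311, 50, 55, [(0, 3), (18, 1), (1, 1), (2, 2), (3, 3), (4, 2), (5, 3), (6, 2), (7, 3), (8, 3), (9, 2), (10, 3), (42, 2), (43, 3), (44, 2), (45, 3), (46, 3), (47, 2), (48, 3), (49, 2), (50, 1)], [(50, 2), (51, 2), (52, 3), (53, 3), (54, 2)]⟩]),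
  (80, 6977, 7479, [
    ⟨1326, 128, 640, 367, 44, 54, [(35, 13), (36, 3), (37, 3), (38, 2), (39, 3), (40, 3), (41, 2), (42, 3), (43, 3), (44, 2)], [(44, 1), (45, 2), (46, 3), (47, 3), (48, 3), (49, 2), (50, 3), (51, 3), (52, 2), (53, 3)]⟩,
    ⟨0, 128, 512, 263, 50, 56, [(0, 3), (18, 1), (1, 1), (19, 1), (2, 2), (3, 2), (4, 3), (5, 3), (6, 3), (7, 2), (8, 3), (9, 3), (10, 2), (11, 1), (42, 2), (43, 3), (44, 3), (45, 2), (46, 3), (47, 3), (48, 3), (49, 2), (50, 2)], [(50, 1), (51, 3), (52, 2), (53, 3), (54, 3), (55, 2)]⟩]),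
  (90, 7354, 7932, [
    ⟨1478, 128, 640, 359, 50, 54, [(35, 14), (36, 3), (37, 3), (38, 3), (39, 2), (40, 3), (41, 3), (42, 3), (43, 3), (44, 3), (45, 3), (46, 2), (47, 3), (48, 3), (49, 3), (50, 2)], [(50, 1), (51, 3), (52, 3), (53, 3)]⟩,
    ⟨0, 128, 384, 263, 50, 56, [(0, 4), (18, 1), (19, 1), (2, 2), (3, 3), (4, 3), (5, 3), (6, 3), (7, 3), (8, 2), (9, 3), (10, 3), (11, 2), (42, 1), (43, 3), (44, 3), (45, 3), (46, 2), (47, 3), (48, 3), (49, 3), (50, 2)], [(50, 1), (51, 3), (52, 3), (53, 3), (54, 2), (55, 3)]⟩]),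
  (100, 7800, 8361, [
    ⟨1660, 128, 640, 359, 50, 54, [(35, 15), (36, 3), (37, 3), (38, 3), (39, 3), (40, 3), (41, 3), (42, 3), (43, 3), (44, 3), (45, 3), (46, 3), (47, 3), (48, 3), (49, 3), (50, 2)], [(50, 1), (51, 3), (52, 4), (53, 3)]⟩,
    ⟨0, 128, 384, 263, 50, 56, [(0, 4), (18, 1), (1, 1), (19, 1), (2, 2), (3, 3), (4, 3), (5, 3), (6, 3), (7, 3), (8, 3), (9, 3), (10, 3), (11, 3), (43, 3), (44, 3), (45, 3), (46, 3), (47, 3), (48, 3), (49, 3), (50, 2)], [(50, 1), (51, 3), (52, 4), (53, 3), (54, 3), (55, 2)]⟩])]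

theorem gok1500 : allN 1536 1588 813056 pf1500 60 gs1500 = true := by decide +kernel

theorem mid1500 {N : ℕ} {z w : Fin N → ℂ} {R : ℝ} {σ : Fin N → ℂ} (hC : Cfg2 N z w R σ)
    (hN0 : 60 ≤ N) (hN1 : N < 100) (h0 : 3 / 2 ≤ R) (h1 : R ≤ 31 / 20) (hm : (av (uu w)).re ≤ R / 2) :
    False := by
  have hN : 1 ≤ N := by omega
  have hw := hC.cfg.far
  have ht := hC.dist.le
  have hpf : ∀ p ∈ pf1500, Ok N w R p := ok_pfs (ln389_1500_ok h0 h1 hN hw ht) (ln205_1500_ok h0 h1 hN hw ht) (tab1500_ok (by linarith) (by linarith) hN hw ht)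
  exact allN_sound hC (by norm_num; linarith) (by norm_num; linarith) (by norm_num; linarith) hpf gs1500 60 gok1500 hN0 (by
    show N < 100
    exact hN1)

/-- profiles, `31 / 20 ≤ R ≤ 8 / 5` -/
def pf1550 : List Pf := pfs 51 ln389_1550 ln205_1550 tab1550

def gs1550 : List (ℕ × ℕ × ℕ × List En) := [
  (64, 6269, 6581, [
    ⟨1056, 128, 640, 367, 44, 55, [(35, 12), (36, 2), (37, 3), (38, 2), (39, 3), (40, 2), (41, 2), (42, 3), (43, 2), (44, 1)], [(44, 2), (45, 2), (46, 3), (47, 2), (48, 3), (49, 2), (50, 2), (51, 3), (52, 2), (53, 3), (54, 2)]⟩,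
    ⟨0, 128, 512, 311, 49, 56, [(0, 3), (1, 1), (2, 3), (3, 2), (4, 3), (5, 2), (6, 3), (7, 2), (8, 3), (9, 2), (10, 2), (42, 3), (43, 2), (44, 3), (45, 2), (46, 3), (47, 2), (48, 3), (49, 1)], [(49, 1), (50, 2), (51, 3), (52, 2), (53, 3), (54, 2), (55, 3)]⟩]),
  (72, 6475, 6980, [
    ⟨1138, 128, 640, 367, 48, 55, [(35, 12), (36, 3), (37, 2), (38, 3), (39, 2), (40, 3), (41, 2), (42, 3), (43, 2), (44, 3), (45, 2), (46, 3), (47, 2), (48, 3)], [(49, 3), (50, 2), (51, 3), (52, 2), (53, 3), (54, 2)]⟩,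
    ⟨0, 128, 512, 311, 50, 56, [(0, 3), (18, 1), (1, 1), (2, 2), (3, 3), (4, 2), (5, 3), (6, 2), (7, 3), (8, 2), (9, 3), (10, 2), (42, 3), (43, 2), (44, 3), (45, 2), (46, 3), (47, 2), (48, 3), (49, 3), (50, 1)], [(50, 1), (51, 3), (52, 2), (53, 3), (54, 2), (55, 3)]⟩]),
  (80, 6867, 7358, [
    ⟨1298, 128, 640, 359, 50, 55, [(35, 13), (36, 3), (37, 2), (38, 3), (39, 3), (40, 2), (41, 3), (42, 3), (43, 2), (44, 3), (45, 3), (46, 2), (47, 3), (48, 3), (49, 2), (50, 1)], [(50, 2), (51, 3), (52, 2), (53, 3), (54, 3)]⟩,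
    ⟨0, 128, 512, 263, 50, 57, [(0, 3), (18, 1), (1, 1), (2, 3), (3, 2), (4, 3), (5, 3), (6, 2), (7, 3), (8, 3), (9, 2), (10, 3), (11, 2), (42, 1), (43, 2), (44, 3), (45, 3), (46, 2), (47, 3), (48, 3), (49, 2), (50, 2)], [(50, 1), (51, 3), (52, 2), (53, 3), (54, 3), (55, 3), (56, 2)]⟩]),
  (90, 7239, 7804, [
    ⟨1448, 128, 640, 367, 50, 55, [(35, 14), (36, 2), (37, 3), (38, 3), (39, 3), (40, 3), (41, 3), (42, 2), (43, 3), (44, 3), (45, 3), (46, 3), (47, 3), (48, 2), (49, 3), (50, 2)], [(50, 1), (51, 3), (52, 3), (53, 3), (54, 2)]⟩,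
    ⟨0, 128, 384, 263, 50, 57, [(0, 4), (18, 1), (19, 1), (2, 2), (3, 3), (4, 3), (5, 2), (6, 3), (7, 3), (8, 3), (9, 3), (10, 3), (11, 2), (43, 3), (44, 3), (45, 3), (46, 3), (47, 3), (48, 2), (49, 3), (50, 2)], [(50, 1), (51, 3), (52, 3), (53, 3), (54, 2), (55, 3), (56, 3)]⟩]),
  (100, 7678, 8226, [
    ⟨1628, 128, 640, 367, 50, 55, [(35, 14), (36, 3), (37, 3), (38, 4), (39, 3), (40, 2), (41, 3), (42, 3), (43, 4), (44, 3), (45, 2), (46, 3), (47, 3), (48, 4), (49, 2), (50, 2)], [(50, 1), (51, 3), (52, 3), (53, 4), (54, 2)]⟩,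
    ⟨0, 128, 384, 263, 50, 57, [(0, 4), (18, 1), (19, 2), (2, 2), (3, 3), (4, 2), (5, 3), (6, 3), (7, 4), (8, 3), (9, 2), (10, 3), (11, 3), (43, 4), (44, 3), (45, 2), (46, 3), (47, 3), (48, 4), (49, 2), (50, 2)], [(50, 1), (51, 3), (52, 3), (53, 4), (54, 2), (55, 3), (56, 3)]⟩])]

theorem gok1550 : allN 1587 1639 839168 pf1550 60 gs1550 = true := by decide +kernel

theorem mid1550 {N : ℕ} {z w : Fin N → ℂ} {R : ℝ} {σ : Fin N → ℂ} (hC : Cfg2 N z w R σ)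
    (hN0 : 60 ≤ N) (hN1 : N < 100) (h0 : 31 / 20 ≤ R) (h1 : R ≤ 8 / 5) (hm : (av (uu w)).re ≤ R / 2) :
    False := by
  have hN : 1 ≤ N := by omega
  have hw := hC.cfg.far
  have ht := hC.dist.le
  have hpf : ∀ p ∈ pf1550, Ok N w R p := ok_pfs (ln389_1550_ok h0 h1 hN hw ht) (ln205_1550_ok h0 h1 hN hw ht) (tab1550_ok (by linarith) (by linarith) hN hw ht)
  exact allN_sound hC (by norm_num; linarith) (by norm_num; linarith) (by norm_num; linarith) hpf gs1550 60 gok1550 hN0 (by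
    show N < 100
    exact hN1)

end Pool.Agent.Lib.MP_af3a4a_an.P1.CHK.H21.D60
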