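import Pool.Agent.Lib.MP_af3a4a_an.P1.CHK.H21.KL
import Pool.Agent.Lib.MP_af3a4a_an.P1.CHK.H39.Line7
import Pool.Agent.Lib.MP_af3a4a_an.P1.CHK.H39.Line8
import Pool.Agent.Lib.MP_af3a4a_an.P1.CHK.H39.Tab2
import Pool.Agent.Lib.MP_af3a4a_an.P1.CHK.H39.Tab3

/-!
# Data, `60 ≤ N < 100`, `8 / 5 ≤ R ≤ 19 / 10` (helper21)
-/

set_option autoImplicit false

namespace Pool.Agent.Lib.MP_af3a4a_an.P1.CHK.H21.D60

open Pool.Agent.Lib.MP_af3a4a_an.SV (uu av)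
open Pool.Agent.Lib.MP_af3a4a_an.P1.H80
open Pool.Agent.Lib.MP_af3a4a_an.P1.H74
open Pool.Agent.Lib.MP_af3a4a_an.P1.CHK.H39.Tab
open Pool.Agent.Lib.MP_af3a4a_an.P1.CHK.H39.TabS

/-- profiles, `8 / 5 ≤ R ≤ 33 / 20` -/
def pf1600 : List Pf := pfs 51 ln389_1600 ln205_1600 tab1600

def gs1600 : List (ℕ × ℕ × ℕ × List En) := [
  (64, 6174, 6478, [
    ⟨1030, 128, 640, 359, 45, 56, [(35, 12), (36, 2), (37, 2), (38, 3), (39, 2), (40, 3), (41, 2), (42, 2), (43, 3), (44, 2), (45, 2)], [(45, 1), (46, 2), (47, 2), (48, 3), (49, 2), (50, 3), (51, 2), (52, 3), (53, 2), (54, 2), (55, 3)]⟩,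
    ⟨7970, 128, 512, 311, 43, 57, [(0, 3), (1, 1), (2, 3), (3, 2), (4, 3), (5, 2), (6, 2), (7, 3), (8, 2), (9, 3), (10, 2), (11, 1), (42, 1), (43, 2)], [(43, 1), (44, 2), (45, 3), (46, 2), (47, 2), (48, 3), (49, 2), (50, 3), (51, 2), (52, 3), (53, 2), (54, 2), (55, 3), (56, 2)]⟩,
    ⟨0, 128, 0, 311, 50, 57, [(0, 37), (32, 1), (0, 1), (33, 1), (0, 1), (34, 2), (0, 4)], [(50, 1), (51, 2), (52, 3), (53, 2), (54, 2), (55, 3), (56, 2)]⟩]),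
  (72, 6376, 6871, [
    ⟨1114, 128, 640, 359, 44, 56, [(35, 12), (36, 2), (37, 3), (38, 2), (39, 3), (40, 2), (41, 3), (42, 2), (43, 3), (44, 1)], [(44, 1), (45, 3), (46, 2), (47, 3), (48, 2), (49, 3), (50, 2), (51, 3), (52, 2), (53, 3), (54, 2), (55, 3)]⟩,
    ⟨0, 128, 512, 311, 50, 57, [(0, 3), (1, 1), (19, 1), (2, 2), (3, 2), (4, 3), (5, 2), (6, 3), (7, 2), (8, 3), (9, 2), (10, 3), (11, 2), (43, 3), (44, 2), (45, 3), (46, 2), (47, 3), (48, 2), (49, 3), (50, 1)], [(50, 1), (51, 3), (52, 2), (53, 3), (54, 2), (55, 3), (56, 2)]⟩]),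
  (80, 6763, 7242, [
    ⟨1274, 128, 640, 375, 50, 56, [(35, 13), (36, 2), (37, 3), (38, 3), (39, 2), (40, 3), (41, 3), (42, 2), (43, 3), (44, 2), (45, 3), (46, 3), (47, 2), (48, 3), (49, 3), (50, 1)], [(50, 1), (51, 3), (52, 3), (53, 2), (54, 3), (55, 2)]⟩,
    ⟨0, 128, 512, 311, 50, 57, [(0, 3), (18, 1), (1, 1), (2, 2), (3, 3), (4, 3), (5, 2), (6, 3), (7, 3), (8, 2), (9, 3), (10, 3), (11, 2), (43, 3), (44, 2), (45, 3), (46, 3), (47, 2), (48, 3), (49, 3), (50, 1)], [(50, 1), (51, 3), (52, 3), (53, 2), (54, 3), (55, 3), (56, 2)]⟩]),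
  (90, 7129, 7681, [
    ⟨1426, 128, 640, 367, 50, 56, [(35, 13), (36, 3), (37, 3), (38, 3), (39, 3), (40, 2), (41, 3), (42, 3), (43, 3), (44, 2), (45, 3), (46, 3), (47, 3), (48, 3), (49, 2), (50, 2)], [(50, 1), (51, 3), (52, 3), (53, 3), (54, 2), (55, 3)]⟩,
    ⟨0, 128, 384, 263, 50, 58, [(0, 3), (18, 1), (1, 1), (19, 1), (2, 2), (3, 3), (4, 2), (5, 3), (6, 3), (7, 3), (8, 3), (9, 2), (10, 3), (11, 3), (43, 3), (44, 2), (45, 3), (46, 3), (47, 3), (48, 3), (49, 2), (50, 2)], [(50, 1), (51, 3), (52, 3), (53, 3), (54, 2), (55, 3), (56, 3), (57, 2)]⟩]),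
  (100, 7561, 8097, [
    ⟨1608, 128, 640, 367, 50, 56, [(35, 14), (36, 3), (37, 3), (38, 3), (39, 3), (40, 3), (41, 3), (42, 3), (43, 3), (44, 3), (45, 3), (46, 3), (47, 3), (48, 3), (49, 3), (50, 1)], [(50, 2), (51, 3), (52, 2), (53, 3), (54, 3), (55, 3)]⟩,
    ⟨0, 128, 384, 263, 50, 58, [(0, 4), (18, 1), (19, 2), (2, 1), (20, 1), (3, 2), (4, 3), (5, 3), (6, 3), (7, 3), (8, 3), (9, 3), (10, 3), (11, 3), (12, 1), (43, 2), (44, 3), (45, 3), (46, 3), (47, 3), (48, 3), (49, 3), (50, 1)], [(50, 2), (51, 3), (52, 2), (53, 3), (54, 3), (55, 3), (56, 3), (57, 3)]⟩])]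

theorem gok1600 : allN 1638 1690 865280 pf1600 60 gs1600 = true := by decide +kernel

theorem mid1600 {N : ℕ} {z w : Fin N → ℂ} {R : ℝ} {σ : Fin N → ℂ} (hC : Cfg2 N z w R σ)
    (hN0 : 60 ≤ N) (hN1 : N < 100) (h0 : 8 / 5 ≤ R) (h1 : R ≤ 33 / 20) (hm : (av (uu w)).re ≤ R / 2) :
    False := by
  have hN : 1 ≤ N := by omega
  have hw := hC.cfg.far
  have ht := hC.dist.le
  have hpf : ∀ p ∈ pf1600, Ok N w R p := ok_pfs (ln389_1600_ok h0 h1 hN hw ht) (ln205_1600_ok h0 h1 hN hw ht) (tab1600_ok (by linarith) (by linarith) hN hw ht)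
  exact allN_sound hC (by norm_num; linarith) (by norm_num; linarith) (by norm_num; linarith) hpf gs1600 60 gok1600 hN0 (by
    show N < 100
    exact hN1)

/-- profiles, `33 / 20 ≤ R ≤ 17 / 10` -/
def pf1650 : List Pf := pfs 51 ln389_1650 ln205_1650 tab1650

def gs1650 : List (ℕ × ℕ × ℕ × List En) := [
  (64, 6083, 6379, [
    ⟨1000, 128, 640, 367, 44, 57, [(35, 11), (36, 3), (37, 2), (38, 3), (39, 2), (40, 2), (41, 3), (42, 2), (43, 2), (44, 1)], [(44, 2), (45, 2), (46, 3), (47, 2), (48, 2), (49, 3), (50, 2), (51, 2), (52, 3), (53, 2), (54, 3), (55, 2), (56, 2)]⟩,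
    ⟨5450, 128, 512, 359, 43, 57, [(0, 3), (1, 1), (2, 3), (3, 2), (4, 2), (5, 3), (6, 2), (7, 3), (8, 2), (9, 2), (10, 3), (11, 2), (43, 1)], [(43, 1), (44, 3), (45, 2), (46, 3), (47, 2), (48, 2), (49, 3), (50, 2), (51, 2), (52, 3), (53, 2), (54, 3), (55, 2), (56, 2)]⟩,
    ⟨0, 128, 128, 311, 50, 58, [(0, 8), (20, 1), (0, 1), (21, 1), (0, 1), (22, 2), (23, 2), (24, 3), (25, 2), (26, 2), (27, 3), (28, 2), (29, 2), (30, 3), (31, 2), (32, 3), (33, 2), (34, 2), (49, 3), (50, 1)], [(50, 1), (51, 2), (52, 3), (53, 2), (54, 3), (55, 2), (56, 2), (57, 2)]⟩]),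
  (72, 6282, 6766, [
    ⟨1084, 128, 640, 367, 46, 57, [(35, 12), (36, 2), (37, 3), (38, 2), (39, 3), (40, 2), (41, 2), (42, 3), (43, 2), (44, 3), (45, 2), (46, 3)], [(47, 2), (48, 3), (49, 2), (50, 3), (51, 2), (52, 2), (53, 3), (54, 2), (55, 3), (56, 2)]⟩,
    ⟨0, 128, 512, 311, 49, 58, [(0, 3), (1, 1), (19, 1), (2, 2), (3, 2), (4, 3), (5, 2), (6, 3), (7, 2), (8, 3), (9, 2), (10, 2), (11, 3), (43, 2), (44, 3), (45, 2), (46, 3), (47, 2), (48, 3), (49, 2)], [(50, 3), (51, 2), (52, 2), (53, 3), (54, 2), (55, 3), (56, 2), (57, 3)]⟩]),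
  (80, 6663, 7132, [
    ⟨1246, 128, 640, 367, 50, 57, [(35, 13), (36, 2), (37, 3), (38, 2), (39, 3), (40, 3), (41, 2), (42, 3), (43, 2), (44, 3), (45, 3), (46, 2), (47, 3), (48, 2), (49, 3), (50, 1)], [(50, 2), (51, 2), (52, 3), (53, 2), (54, 3), (55, 3), (56, 2)]⟩,
    ⟨0, 128, 512, 311, 50, 58, [(0, 3), (18, 1), (1, 1), (2, 2), (3, 3), (4, 3), (5, 2), (6, 3), (7, 2), (8, 3), (9, 3), (10, 2), (11, 3), (43, 2), (44, 3), (45, 3), (46, 2), (47, 3), (48, 2), (49, 3), (50, 1)], [(50, 2), (51, 2), (52, 3), (53, 2), (54, 3), (55, 3), (56, 2), (57, 3)]⟩]),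
  (90, 7024, 7565, [
    ⟨1398, 128, 640, 359, 50, 57, [(35, 13), (36, 3), (37, 3), (38, 2), (39, 3), (40, 3), (41, 3), (42, 2), (43, 3), (44, 3), (45, 3), (46, 2), (47, 3), (48, 3), (49, 3), (50, 1)], [(50, 1), (51, 3), (52, 3), (53, 3), (54, 2), (55, 3), (56, 3)]⟩,
    ⟨0, 128, 384, 263, 50, 59, [(0, 3), (18, 1), (1, 1), (19, 1), (2, 2), (3, 2), (4, 3), (5, 3), (6, 3), (7, 2), (8, 3), (9, 3), (10, 3), (11, 2), (12, 2), (43, 1), (44, 3), (45, 3), (46, 2), (47, 3), (48, 3), (49, 3), (50, 1)], [(50, 1), (51, 3), (52, 3), (53, 3), (54, 2), (55, 3), (56, 3), (57, 3), (58, 2)]⟩]),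
  (100, 7450, 7974, [
    ⟨1582, 128, 640, 367, 50, 57, [(35, 14), (36, 3), (37, 3), (38, 3), (39, 3), (40, 3), (41, 3), (42, 2), (43, 3), (44, 3), (45, 3), (46, 3), (47, 3), (48, 3), (49, 3), (50, 1)], [(50, 2), (51, 3), (52, 3), (53, 2), (54, 3), (55, 3), (56, 3)]⟩,
    ⟨0, 128, 384, 263, 50, 59, [(0, 4), (18, 1), (19, 2), (2, 1), (3, 3), (4, 3), (5, 3), (6, 3), (7, 3), (8, 3), (9, 3), (10, 3), (11, 2), (12, 3), (44, 3), (45, 3), (46, 3), (47, 3), (48, 3), (49, 3), (50, 1)], [(50, 2), (51, 3), (52, 3), (53, 2), (54, 3), (55, 3), (56, 3), (57, 3), (58, 3)]⟩])]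

theorem gok1650 : allN 1689 1741 891392 pf1650 60 gs1650 = true := by decide +kernel

theorem mid1650 {N : ℕ} {z w : Fin N → ℂ} {R : ℝ} {σ : Fin N → ℂ} (hC : Cfg2 N z w R σ)
    (hN0 : 60 ≤ N) (hN1 : N < 100) (h0 : 33 / 20 ≤ R) (h1 : R ≤ 17 / 10) (hm : (av (uu w)).re ≤ R / 2) :
    False := by
  have hN : 1 ≤ N := by omega
  have hw := hC.cfg.far
  have ht := hC.dist.le
  have hpf : ∀ p ∈ pf1650, Ok N w R p := ok_pfs (ln389_1650_ok h0 h1 hN hw ht) (ln205_1650_ok h0 h1 hN hw ht) (tab1650_ok (by linarith) (by linarith) hN hw ht)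
  exact allN_sound hC (by norm_num; linarith) (by norm_num; linarith) (by norm_num; linarith) hpf gs1650 60 gok1650 hN0 (by
    show N < 100
    exact hN1)

/-- profiles, `17 / 10 ≤ R ≤ 7 / 4` -/
def pf1700 : List Pf := pfs 51 ln389_1700 ln205_1700 tab1700

def gs1700 : List (ℕ × ℕ × ℕ × List En) := [
  (64, 5995, 6285, [
    ⟨968, 128, 640, 359, 44, 58, [(35, 11), (36, 3), (37, 2), (38, 2), (39, 3), (40, 2), (41, 2), (42, 3), (43, 2), (44, 2)], [(45, 3), (46, 2), (47, 2), (48, 3), (49, 2), (50, 2), (51, 3), (52, 2), (53, 2), (54, 3), (55, 2), (56, 2), (57, 3)]⟩,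
    ⟨3432, 128, 512, 359, 11, 58, [(0, 3), (1, 1), (2, 3), (3, 2), (4, 2), (5, 3), (6, 2), (7, 2), (8, 3), (9, 2), (10, 2), (11, 3)], [(43, 2), (44, 2), (45, 3), (46, 2), (47, 2), (48, 3), (49, 2), (50, 2), (51, 3), (52, 2), (53, 2), (54, 3), (55, 2), (56, 2), (57, 3)]⟩,
    ⟨0, 128, 128, 263, 50, 60, [(0, 3), (18, 1), (19, 3), (20, 2), (21, 2), (22, 3), (23, 2), (24, 2), (25, 3), (26, 2), (27, 2), (28, 3), (29, 2), (30, 2), (31, 3), (32, 2), (16, 2), (17, 3), (49, 2), (50, 1)], [(50, 1), (51, 3), (52, 2), (53, 2), (54, 3), (55, 2), (56, 2), (57, 3), (58, 2), (59, 2)]⟩]),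
  (72, 6192, 6666, [
    ⟨1054, 128, 640, 359, 43, 58, [(35, 12), (36, 2), (37, 2), (38, 3), (39, 2), (40, 3), (41, 2), (42, 3), (43, 2)], [(44, 2), (45, 3), (46, 2), (47, 3), (48, 2), (49, 2), (50, 3), (51, 2), (52, 3), (53, 2), (54, 3), (55, 2), (56, 2), (57, 3)]⟩,
    ⟨7084, 128, 512, 359, 11, 58, [(0, 3), (1, 1), (2, 3), (3, 2), (4, 3), (5, 2), (6, 2), (7, 3), (8, 2), (9, 3), (10, 2), (11, 3)], [(43, 2), (44, 2), (45, 3), (46, 2), (47, 3), (48, 2), (49, 2), (50, 3), (51, 2), (52, 3), (53, 2), (54, 3), (55, 2), (56, 2), (57, 3)]⟩,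
    ⟨0, 128, 0, 263, 50, 60, [(0, 18), (24, 1), (0, 1), (25, 1), (0, 1), (26, 2), (27, 2), (28, 3), (29, 2), (30, 2), (31, 3), (32, 2), (33, 3), (34, 2), (49, 2), (50, 2)], [(50, 1), (51, 2), (52, 3), (53, 2), (54, 3), (55, 2), (56, 2), (57, 3), (58, 2), (59, 2)]⟩]),
  (80, 6568, 7027, [
    ⟨1216, 128, 640, 359, 50, 58, [(35, 12), (36, 3), (37, 2), (38, 3), (39, 3), (40, 2), (41, 3), (42, 2), (43, 3), (44, 2), (45, 3), (46, 3), (47, 2), (48, 3), (49, 2), (50, 2)], [(50, 1), (51, 2), (52, 3), (53, 3), (54, 2), (55, 3), (56, 2), (57, 3)]⟩,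
    ⟨0, 128, 512, 263, 50, 60, [(0, 3), (18, 1), (1, 1), (2, 2), (3, 3), (4, 2), (5, 3), (6, 2), (7, 3), (8, 3), (9, 2), (10, 3), (11, 2), (12, 1), (43, 2), (44, 2), (45, 3), (46, 3), (47, 2), (48, 3), (49, 2), (50, 1)], [(50, 2), (51, 2), (52, 3), (53, 3), (54, 2), (55, 3), (56, 2), (57, 3), (58, 2), (59, 3)]⟩]),
  (90, 6923, 7453, [
    ⟨1372, 128, 640, 375, 44, 58, [(35, 13), (36, 3), (37, 2), (38, 3), (39, 3), (40, 3), (41, 2), (42, 3), (43, 3), (44, 1)], [(44, 1), (45, 3), (46, 3), (47, 2), (48, 3), (49, 3), (50, 3), (51, 2), (52, 3), (53, 3), (54, 2), (55, 3), (56, 3), (57, 2)]⟩,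
    ⟨0, 128, 512, 263, 50, 60, [(0, 3), (18, 1), (1, 1), (19, 1), (2, 2), (3, 2), (4, 3), (5, 3), (6, 2), (7, 3), (8, 3), (9, 3), (10, 2), (11, 3), (12, 3), (44, 2), (45, 3), (46, 3), (47, 2), (48, 3), (49, 3), (50, 1)], [(50, 2), (51, 2), (52, 3), (53, 3), (54, 2), (55, 3), (56, 3), (57, 2), (58, 3), (59, 3)]⟩]),
  (100, 7343, 7856, [
    ⟨1556, 128, 640, 359, 50, 58, [(35, 14), (36, 3), (37, 3), (38, 2), (39, 3), (40, 3), (41, 3), (42, 3), (43, 3), (44, 3), (45, 3), (46, 2), (47, 3), (48, 3), (49, 3), (50, 2)], [(50, 1), (51, 3), (52, 3), (53, 2), (54, 3), (55, 3), (56, 3), (57, 3)]⟩,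
    ⟨0, 128, 384, 263, 50, 60, [(0, 4), (18, 1), (19, 2), (2, 1), (3, 3), (4, 3), (5, 3), (6, 3), (7, 2), (8, 3), (9, 3), (10, 3), (11, 3), (12, 3), (44, 3), (45, 3), (46, 2), (47, 3), (48, 3), (49, 3), (50, 2)], [(50, 1), (51, 3), (52, 3), (53, 2), (54, 3), (55, 3), (56, 3), (57, 3), (58, 3), (59, 2)]⟩])]

theorem gok1700 : allN 1740 1792 1048576 pf1700 60 gs1700 = true := by decide +kernel

theorem mid1700 {N : ℕ} {z w : Fin N → ℂ} {R : ℝ} {σ : Fin N → ℂ} (hC : Cfg2 N z w R σ)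
    (hN0 : 60 ≤ N) (hN1 : N < 100) (h0 : 17 / 10 ≤ R) (h1 : R ≤ 7 / 4) :
    False := by
  have hN : 1 ≤ N := by omega
  have hw := hC.cfg.far
  have ht := hC.dist.le
  have hpf : ∀ p ∈ pf1700, Ok N w R p := ok_pfs (ln389_1700_ok h0 h1 hN hw ht) (ln205_1700_ok h0 h1 hN hw ht) (tab1700_ok (by linarith) (by linarith) hN hw ht)
  exact allN_sound hC (by norm_num; linarith) (by norm_num; linarith) (by norm_num; exact m1_le_one hN hC) hpf gs1700 60 gok1700 hN0 (by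
    show N < 100
    exact hN1)

/-- profiles, `7 / 4 ≤ R ≤ 9 / 5` -/
def pf1750 : List Pf := pfs 51 ln389_1750 ln205_1750 tab1750

def gs1750 : List (ℕ × ℕ × ℕ × List En) := [
  (64, 5910, 6193, [
    ⟨938, 128, 640, 367, 43, 59, [(35, 11), (36, 2), (37, 3), (38, 2), (39, 2), (40, 3), (41, 2), (42, 2), (43, 3)], [(44, 2), (45, 2), (46, 2), (47, 3), (48, 2), (49, 2), (50, 3), (51, 2), (52, 2), (53, 3), (54, 2), (55, 2), (56, 3), (57, 2), (58, 2)]⟩,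
    ⟨3166, 128, 512, 367, 11, 59, [(0, 3), (1, 1), (2, 2), (3, 3), (4, 2), (5, 2), (6, 3), (7, 2), (8, 2), (9, 3), (10, 2), (11, 2)], [(43, 3), (44, 2), (45, 2), (46, 2), (47, 3), (48, 2), (49, 2), (50, 3), (51, 2), (52, 2), (53, 3), (54, 2), (55, 2), (56, 3), (57, 2), (58, 2)]⟩,
    ⟨0, 128, 256, 263, 50, 61, [(0, 3), (18, 1), (19, 2), (20, 3), (21, 2), (22, 2), (23, 3), (24, 2), (25, 2), (26, 3), (27, 2), (28, 2), (29, 3), (30, 2), (31, 1), (14, 1), (15, 2), (16, 3), (17, 2), (49, 2), (50, 2)], [(50, 1), (51, 2), (52, 2), (53, 3), (54, 2), (55, 2), (56, 3), (57, 2), (58, 2), (59, 2), (60, 2)]⟩]),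
  (72, 6104, 6569, [
    ⟨1022, 128, 640, 367, 44, 59, [(35, 11), (36, 3), (37, 2), (38, 3), (39, 2), (40, 2), (41, 3), (42, 2), (43, 3), (44, 1)], [(44, 1), (45, 2), (46, 3), (47, 2), (48, 2), (49, 3), (50, 2), (51, 3), (52, 2), (53, 2), (54, 3), (55, 2), (56, 2), (57, 3), (58, 2)]⟩,
    ⟨4242, 128, 512, 367, 11, 59, [(0, 3), (1, 1), (2, 3), (3, 2), (4, 2), (5, 3), (6, 2), (7, 3), (8, 2), (9, 2), (10, 3), (11, 2)], [(43, 3), (44, 2), (45, 2), (46, 3), (47, 2), (48, 2), (49, 3), (50, 2), (51, 3), (52, 2), (53, 2), (54, 3), (55, 2), (56, 2), (57, 3), (58, 2)]⟩,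
    ⟨0, 128, 128, 263, 50, 61, [(0, 3), (18, 1), (0, 1), (19, 2), (20, 2), (21, 2), (22, 3), (23, 2), (24, 3), (25, 2), (26, 2), (27, 3), (28, 2), (29, 3), (30, 2), (31, 2), (32, 3), (33, 2), (34, 2), (49, 3), (50, 1)], [(50, 1), (51, 3), (52, 2), (53, 2), (54, 3), (55, 2), (56, 2), (57, 3), (58, 2), (59, 3), (60, 2)]⟩]),
  (80, 6474, 6924, [
    ⟨1188, 128, 640, 367, 44, 59, [(35, 12), (36, 3), (37, 2), (38, 3), (39, 2), (40, 3), (41, 2), (42, 3), (43, 2), (44, 2)], [(44, 1), (45, 2), (46, 3), (47, 2), (48, 3), (49, 3), (50, 2), (51, 3), (52, 2), (53, 3), (54, 2), (55, 3), (56, 2), (57, 3), (58, 2)]⟩,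
    ⟨0, 128, 512, 263, 50, 61, [(0, 3), (1, 2), (2, 2), (3, 3), (4, 2), (5, 3), (6, 2), (7, 3), (8, 2), (9, 3), (10, 2), (11, 3), (12, 2), (44, 3), (45, 2), (46, 3), (47, 2), (48, 3), (49, 3), (50, 1)], [(50, 1), (51, 3), (52, 2), (53, 3), (54, 2), (55, 3), (56, 2), (57, 3), (58, 2), (59, 3), (60, 2)]⟩]),
  (90, 6825, 7344, [
    ⟨1344, 128, 640, 367, 44, 59, [(35, 13), (36, 2), (37, 3), (38, 3), (39, 3), (40, 2), (41, 3), (42, 2), (43, 3), (44, 1)], [(44, 2), (45, 2), (46, 3), (47, 3), (48, 3), (49, 2), (50, 3), (51, 2), (52, 3), (53, 3), (54, 2), (55, 3), (56, 3), (57, 2), (58, 3)]⟩,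
    ⟨0, 128, 512, 263, 50, 61, [(0, 3), (18, 1), (1, 1), (19, 1), (2, 2), (3, 2), (4, 3), (5, 2), (6, 3), (7, 3), (8, 3), (9, 2), (10, 3), (11, 2), (12, 3), (44, 3), (45, 2), (46, 3), (47, 3), (48, 3), (49, 2), (50, 2)], [(50, 1), (51, 2), (52, 3), (53, 3), (54, 2), (55, 3), (56, 3), (57, 2), (58, 3), (59, 3), (60, 2)]⟩]),
  (100, 7239, 7741, [
    ⟨1528, 128, 640, 359, 50, 59, [(35, 14), (36, 2), (37, 3), (38, 3), (39, 3), (40, 3), (41, 3), (42, 2), (43, 3), (44, 3), (45, 3), (46, 3), (47, 3), (48, 2), (49, 3), (50, 2)], [(50, 1), (51, 3), (52, 3), (53, 3), (54, 2), (55, 3), (56, 3), (57, 3), (58, 3)]⟩,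
    ⟨0, 128, 384, 263, 50, 61, [(0, 4), (1, 1), (19, 1), (2, 2), (3, 3), (4, 3), (5, 2), (6, 3), (7, 3), (8, 3), (9, 3), (10, 3), (11, 2), (12, 3), (13, 1), (44, 2), (45, 3), (46, 3), (47, 3), (48, 2), (49, 3), (50, 2)], [(50, 1), (51, 3), (52, 3), (53, 3), (54, 2), (55, 3), (56, 3), (57, 3), (58, 3), (59, 3), (60, 2)]⟩])]

theorem gok1750 : allN 1792 1844 1048576 pf1750 60 gs1750 = true := by decide +kernel

theorem mid1750 {N : ℕ} {z w : Fin N → ℂ} {R : ℝ} {σ : Fin N → ℂ} (hC : Cfg2 N z w R σ)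
    (hN0 : 60 ≤ N) (hN1 : N < 100) (h0 : 7 / 4 ≤ R) (h1 : R ≤ 9 / 5) :
    False := by
  have hN : 1 ≤ N := by omega
  have hw := hC.cfg.far
  have ht := hC.dist.le
  have hpf : ∀ p ∈ pf1750, Ok N w R p := ok_pfs (ln389_1750_ok h0 h1 hN hw ht) (ln205_1750_ok h0 h1 hN hw ht) (tab1750_ok (by linarith) (by linarith) hN hw ht)
  exact allN_sound hC (by norm_num; linarith) (by norm_num; linarith) (by norm_num; exact m1_le_one hN hC) hpf gs1750 60 gok1750 hN0 (by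
    show N < 100
    exact hN1)

/-- profiles, `9 / 5 ≤ R ≤ 37 / 20` -/
def pf1800 : List Pf := pfs 52 ln389_1800 ln205_1800 tab1800

def gs1800 : List (ℕ × ℕ × ℕ × List En) := [
  (64, 5830, 6107, [
    ⟨906, 128, 640, 359, 44, 60, [(35, 11), (36, 2), (37, 2), (38, 3), (39, 2), (40, 2), (41, 3), (42, 2), (43, 2), (44, 1)], [(44, 1), (45, 3), (46, 2), (47, 2), (48, 3), (49, 2), (50, 2), (51, 2), (52, 3), (53, 2), (54, 2), (55, 2), (56, 3), (57, 2), (58, 2), (59, 3)]⟩,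
    ⟨3002, 128, 512, 359, 10, 60, [(0, 3), (1, 1), (2, 2), (3, 3), (4, 2), (5, 2), (6, 2), (7, 3), (8, 2), (9, 2), (10, 3)], [(11, 2), (43, 2), (44, 2), (45, 3), (46, 2), (47, 2), (48, 3), (49, 2), (50, 2), (51, 2), (52, 3), (53, 2), (54, 2), (55, 2), (56, 3), (57, 2), (58, 2), (59, 3)]⟩,
    ⟨0, 128, 256, 263, 50, 62, [(0, 3), (18, 1), (19, 2), (20, 3), (21, 2), (22, 2), (23, 2), (24, 3), (25, 2), (26, 2), (27, 3), (28, 2), (29, 2), (30, 2), (31, 1), (14, 2), (15, 2), (16, 2), (17, 3), (49, 2), (50, 1)], [(50, 1), (51, 2), (52, 3), (53, 2), (54, 2), (55, 2), (56, 3), (57, 2), (58, 2), (59, 3), (60, 2), (61, 2)]⟩]),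
  (72, 6021, 6477, [
    ⟨990, 128, 640, 359, 44, 60, [(35, 11), (36, 3), (37, 2), (38, 2), (39, 3), (40, 2), (41, 2), (42, 3), (43, 2), (44, 2)], [(45, 3), (46, 2), (47, 2), (48, 3), (49, 2), (50, 3), (51, 2), (52, 2), (53, 3), (54, 2), (55, 2), (56, 3), (57, 2), (58, 2), (59, 3)]⟩,
    ⟨3686, 128, 512, 359, 11, 60, [(0, 3), (1, 1), (2, 3), (3, 2), (4, 2), (5, 3), (6, 2), (7, 2), (8, 3), (9, 2), (10, 2), (11, 3)], [(12, 1), (43, 1), (44, 2), (45, 3), (46, 2), (47, 2), (48, 3), (49, 2), (50, 3), (51, 2), (52, 2), (53, 3), (54, 2), (55, 2), (56, 3), (57, 2), (58, 2), (59, 3)]⟩,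
    ⟨0, 128, 128, 263, 50, 62, [(0, 3), (18, 1), (19, 3), (20, 2), (21, 2), (22, 3), (23, 2), (24, 2), (25, 3), (26, 2), (27, 2), (28, 3), (29, 2), (30, 2), (31, 3), (32, 2), (33, 2), (34, 1), (17, 2), (49, 2), (50, 1)], [(50, 2), (51, 2), (52, 2), (53, 3), (54, 2), (55, 2), (56, 3), (57, 2), (58, 2), (59, 3), (60, 2), (61, 2)]⟩]),
  (80, 6387, 6828, [
    ⟨1154, 128, 640, 359, 50, 60, [(35, 12), (36, 2), (37, 3), (38, 2), (39, 3), (40, 2), (41, 3), (42, 2), (43, 3), (44, 2), (45, 3), (46, 2), (47, 3), (48, 2), (49, 3), (50, 1)], [(50, 1), (51, 3), (52, 2), (53, 3), (54, 2), (55, 3), (56, 2), (57, 3), (58, 2), (59, 3)]⟩,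
    ⟨10434, 128, 512, 311, 11, 61, [(0, 3), (1, 1), (19, 1), (2, 2), (3, 2), (4, 3), (5, 2), (6, 3), (7, 2), (8, 3), (9, 2), (10, 3), (11, 2)], [(12, 3), (44, 2), (45, 3), (46, 2), (47, 3), (48, 2), (49, 3), (50, 2), (51, 3), (52, 2), (53, 3), (54, 2), (55, 3), (56, 2), (57, 3), (58, 2), (59, 3), (60, 2)]⟩,
    ⟨0, 128, 0, 263, 50, 62, [(0, 48)], [(50, 1), (51, 3), (52, 2), (53, 3), (54, 2), (55, 3), (56, 2), (57, 3), (58, 2), (59, 3), (60, 2), (61, 2)]⟩]),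
  (90, 6732, 7242, [
    ⟨1316, 128, 640, 359, 50, 60, [(35, 13), (36, 2), (37, 3), (38, 3), (39, 2), (40, 3), (41, 2), (42, 3), (43, 3), (44, 2), (45, 3), (46, 3), (47, 2), (48, 3), (49, 2), (50, 2)], [(50, 1), (51, 3), (52, 2), (53, 3), (54, 3), (55, 2), (56, 3), (57, 2), (58, 3), (59, 3)]⟩,
    ⟨0, 128, 512, 263, 50, 62, [(0, 3), (18, 1), (1, 1), (2, 2), (3, 3), (4, 3), (5, 2), (6, 3), (7, 3), (8, 2), (9, 3), (10, 2), (11, 3), (12, 3), (44, 2), (45, 3), (46, 3), (47, 2), (48, 3), (49, 2), (50, 2)], [(50, 1), (51, 3), (52, 2), (53, 3), (54, 3), (55, 2), (56, 3), (57, 2), (58, 3), (59, 3), (60, 2), (61, 3)]⟩]),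
  (100, 7141, 7633, [
    ⟨1500, 128, 640, 367, 44, 60, [(35, 13), (36, 3), (37, 3), (38, 3), (39, 3), (40, 2), (41, 3), (42, 3), (43, 3), (44, 2)], [(44, 1), (45, 2), (46, 3), (47, 3), (48, 3), (49, 3), (50, 2), (51, 3), (52, 3), (53, 3), (54, 2), (55, 3), (56, 3), (57, 3), (58, 3), (59, 2)]⟩,
    ⟨0, 128, 384, 263, 50, 62, [(0, 4), (1, 1), (19, 1), (2, 2), (3, 3), (4, 2), (5, 3), (6, 3), (7, 3), (8, 3), (9, 2), (10, 3), (11, 3), (12, 3), (13, 3), (45, 2), (46, 3), (47, 3), (48, 3), (49, 3), (50, 1)], [(50, 1), (51, 3), (52, 3), (53, 3), (54, 2), (55, 3), (56, 3), (57, 3), (58, 3), (59, 2), (60, 3), (61, 3)]⟩])]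

theorem gok1800 : allN 1843 1895 1048576 pf1800 60 gs1800 = true := by decide +kernel

theorem mid1800 {N : ℕ} {z w : Fin N → ℂ} {R : ℝ} {σ : Fin N → ℂ} (hC : Cfg2 N z w R σ)
    (hN0 : 60 ≤ N) (hN1 : N < 100) (h0 : 9 / 5 ≤ R) (h1 : R ≤ 37 / 20) :
    False := by
  have hN : 1 ≤ N := by omega
  have hw := hC.cfg.far
  have ht := hC.dist.le
  have hpf : ∀ p ∈ pf1800, Ok N w R p := ok_pfs (ln389_1800_ok h0 h1 hN hw ht) (ln205_1800_ok h0 h1 hN hw ht) (tab1800_ok (by linarith) (by linarith) hN hw ht)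
  exact allN_sound hC (by norm_num; linarith) (by norm_num; linarith) (by norm_num; exact m1_le_one hN hC) hpf gs1800 60 gok1800 hN0 (by
    show N < 100
    exact hN1)

/-- profiles, `37 / 20 ≤ R ≤ 19 / 10` -/
def pf1850 : List Pf := pfs 51 ln389_1850 ln205_1850 tab1850

def gs1850 : List (ℕ × ℕ × ℕ × List En) := [
  (64, 5753, 6024, [
    ⟨870, 128, 640, 367, 44, 61, [(35, 11), (36, 2), (37, 2), (38, 2), (39, 3), (40, 2), (41, 2), (42, 2), (43, 3), (44, 1)], [(44, 1), (45, 2), (46, 2), (47, 3), (48, 2), (49, 2), (50, 2), (51, 3), (52, 2), (53, 2), (54, 2), (55, 3), (56, 2), (57, 2), (58, 2), (59, 3), (60, 2)]⟩,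
    ⟨2810, 128, 512, 367, 11, 61, [(0, 3), (1, 1), (2, 2), (3, 2), (4, 3), (5, 2), (6, 2), (7, 2), (8, 3), (9, 2), (10, 2), (11, 2)], [(12, 1), (43, 2), (44, 2), (45, 2), (46, 2), (47, 3), (48, 2), (49, 2), (50, 2), (51, 3), (52, 2), (53, 2), (54, 2), (55, 3), (56, 2), (57, 2), (58, 2), (59, 3), (60, 2)]⟩,
    ⟨0, 128, 256, 311, 50, 62, [(0, 3), (18, 1), (19, 2), (20, 2), (21, 3), (22, 2), (23, 2), (24, 2), (25, 3), (26, 2), (27, 2), (28, 2), (29, 3), (13, 2), (14, 2), (15, 2), (16, 3), (17, 2), (49, 2), (50, 1)], [(50, 1), (51, 3), (52, 2), (53, 2), (54, 2), (55, 3), (56, 2), (57, 2), (58, 2), (59, 3), (60, 2), (61, 2)]⟩]),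
  (72, 5942, 6389, [
    ⟨952, 128, 640, 367, 44, 61, [(35, 11), (36, 2), (37, 3), (38, 2), (39, 2), (40, 3), (41, 2), (42, 2), (43, 3), (44, 2)], [(45, 2), (46, 3), (47, 2), (48, 2), (49, 3), (50, 2), (51, 2), (52, 3), (53, 2), (54, 2), (55, 3), (56, 2), (57, 2), (58, 3), (59, 2), (60, 2)]⟩,
    ⟨3440, 128, 512, 367, 11, 61, [(0, 3), (1, 1), (2, 2), (3, 3), (4, 2), (5, 2), (6, 3), (7, 2), (8, 2), (9, 3), (10, 2), (11, 2)], [(12, 3), (44, 2), (45, 2), (46, 3), (47, 2), (48, 2), (49, 3), (50, 2), (51, 2), (52, 3), (53, 2), (54, 2), (55, 3), (56, 2), (57, 2), (58, 3), (59, 2), (60, 2)]⟩,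
    ⟨0, 128, 128, 311, 50, 62, [(0, 3), (18, 1), (19, 2), (20, 3), (21, 2), (22, 2), (23, 3), (24, 2), (25, 2), (26, 3), (27, 2), (28, 2), (29, 3), (30, 2), (31, 2), (32, 3), (16, 2), (17, 2), (49, 3), (50, 1)], [(50, 1), (51, 2), (52, 3), (53, 2), (54, 2), (55, 3), (56, 2), (57, 2), (58, 3), (59, 2), (60, 2), (61, 2)]⟩]),
  (80, 6302, 6735, [
    ⟨1120, 128, 640, 375, 43, 61, [(35, 12), (36, 2), (37, 3), (38, 2), (39, 3), (40, 2), (41, 3), (42, 2), (43, 3)], [(44, 2), (45, 2), (46, 3), (47, 2), (48, 3), (49, 2), (50, 3), (51, 2), (52, 3), (53, 2), (54, 3), (55, 2), (56, 2), (57, 3), (58, 2), (59, 3), (60, 2)]⟩,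
    ⟨7410, 128, 512, 375, 11, 61, [(0, 3), (1, 1), (2, 3), (3, 2), (4, 3), (5, 2), (6, 3), (7, 2), (8, 3), (9, 2), (10, 3), (11, 2)], [(12, 3), (44, 2), (45, 2), (46, 3), (47, 2), (48, 3), (49, 2), (50, 3), (51, 2), (52, 3), (53, 2), (54, 3), (55, 2), (56, 2), (57, 3), (58, 2), (59, 3), (60, 2)]⟩,
    ⟨0, 128, 0, 311, 50, 62, [(0, 16), (23, 1), (24, 2), (25, 3), (26, 2), (27, 3), (28, 2), (29, 3), (30, 2), (31, 2), (32, 3), (33, 2), (34, 3), (49, 2), (50, 2)], [(50, 1), (51, 2), (52, 3), (53, 2), (54, 3), (55, 2), (56, 2), (57, 3), (58, 2), (59, 3), (60, 2), (61, 3)]⟩]),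
  (90, 6643, 7144, [
    ⟨1276, 128, 640, 367, 50, 61, [(35, 12), (36, 3), (37, 3), (38, 2), (39, 3), (40, 2), (41, 3), (42, 3), (43, 2), (44, 3), (45, 2), (46, 3), (47, 3), (48, 2), (49, 3), (50, 1)], [(50, 1), (51, 3), (52, 3), (53, 2), (54, 3), (55, 2), (56, 3), (57, 3), (58, 2), (59, 3), (60, 2)]⟩,
    ⟨0, 128, 512, 271, 50, 63, [(0, 3), (18, 1), (1, 1), (2, 2), (3, 3), (4, 2), (5, 3), (6, 3), (7, 2), (8, 3), (9, 2), (10, 3), (11, 3), (12, 2), (13, 2), (44, 1), (45, 2), (46, 3), (47, 3), (48, 2), (49, 3), (50, 1)], [(50, 1), (51, 3), (52, 3), (53, 2), (54, 3), (55, 2), (56, 3), (57, 3), (58, 2), (59, 3), (60, 2), (61, 3), (62, 2)]⟩]),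
  (100, 7046, 7530, [
    ⟨1464, 128, 640, 367, 50, 61, [(35, 13), (36, 3), (37, 3), (38, 3), (39, 2), (40, 3), (41, 3), (42, 3), (43, 2), (44, 3), (45, 3), (46, 3), (47, 2), (48, 3), (49, 3), (50, 1)], [(50, 2), (51, 2), (52, 3), (53, 3), (54, 3), (55, 2), (56, 3), (57, 3), (58, 3), (59, 2), (60, 3)]⟩,
    ⟨0, 128, 384, 271, 50, 63, [(0, 3), (18, 1), (1, 1), (19, 1), (2, 2), (3, 3), (4, 2), (5, 3), (6, 3), (7, 3), (8, 2), (9, 3), (10, 3), (11, 3), (12, 2), (13, 3), (45, 3), (46, 3), (47, 2), (48, 3), (49, 3), (50, 1)], [(50, 2), (51, 2), (52, 3), (53, 3), (54, 3), (55, 2), (56, 3), (57, 3), (58, 3), (59, 2), (60, 3), (61, 3), (62, 2)]⟩])]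

theorem gok1850 : allN 1894 1946 1048576 pf1850 60 gs1850 = true := by decide +kernel

theorem mid1850 {N : ℕ} {z w : Fin N → ℂ} {R : ℝ} {σ : Fin N → ℂ} (hC : Cfg2 N z w R σ)
    (hN0 : 60 ≤ N) (hN1 : N < 100) (h0 : 37 / 20 ≤ R) (h1 : R ≤ 19 / 10) :
    False := by
  have hN : 1 ≤ N := by omega
  have hw := hC.cfg.far
  have ht := hC.dist.le
  have hpf : ∀ p ∈ pf1850, Ok N w R p := ok_pfs (ln389_1850_ok h0 h1 hN hw ht) (ln205_1850_ok h0 h1 hN hw ht) (tab1850_ok (by linarith) (by linarith) hN hw ht)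
  exact allN_sound hC (by norm_num; linarith) (by norm_num; linarith) (by norm_num; exact m1_le_one hN hC) hpf gs1850 60 gok1850 hN0 (by
    show N < 100
    exact hN1)

end Pool.Agent.Lib.MP_af3a4a_an.P1.CHK.H21.D60
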