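import Pool.Agent.Lib.MP_af3a4a_an.P1.CHK.H21.KL
import Pool.Agent.Lib.MP_af3a4a_an.P1.CHK.H39.Line8
import Pool.Agent.Lib.MP_af3a4a_an.P1.CHK.H39.Line9
import Pool.Agent.Lib.MP_af3a4a_an.P1.CHK.H39.Pt4
import Pool.Agent.Lib.MP_af3a4a_an.P1.CHK.H39.Pt7
import Pool.Agent.Lib.MP_af3a4a_an.P1.CHK.H39.Tab3

/-!
# Data, `60 ≤ N < 100`, `19 / 10 ≤ R ≤ 11 / 5` (helper21)
-/

set_option autoImplicit false

namespace Pool.Agent.Lib.MP_af3a4a_an.P1.CHK.H21.D60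

open Pool.Agent.Lib.MP_af3a4a_an.SV (uu av)
open Pool.Agent.Lib.MP_af3a4a_an.P1.H80
open Pool.Agent.Lib.MP_af3a4a_an.P1.H74
open Pool.Agent.Lib.MP_af3a4a_an.P1.CHK.H39.Tab
open Pool.Agent.Lib.MP_af3a4a_an.P1.CHK.H39.TabS

/-- profiles, `19 / 10 ≤ R ≤ 39 / 20` -/
def pf1900 : List Pf := pfs 50 ln389_1900 ln205_1900 tab1900

def gs1900 : List (ℕ × ℕ × ℕ × List En) := [
  (64, 5679, 5945, [
    ⟨844, 128, 640, 375, 44, 62, [(35, 11), (36, 2), (37, 2), (38, 2), (39, 2), (40, 3), (41, 2), (42, 2), (43, 2), (44, 1)], [(44, 2), (45, 2), (46, 2), (47, 2), (48, 2), (49, 3), (50, 2), (51, 2), (52, 2), (53, 3), (54, 2), (55, 2), (56, 2), (57, 2), (58, 3), (59, 2), (60, 2), (61, 2)]⟩,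
    ⟨2692, 128, 512, 375, 11, 62, [(0, 3), (1, 1), (2, 2), (3, 2), (4, 3), (5, 2), (6, 2), (7, 2), (8, 2), (9, 3), (10, 2), (11, 2)], [(12, 2), (44, 3), (45, 2), (46, 2), (47, 2), (48, 2), (49, 3), (50, 2), (51, 2), (52, 2), (53, 3), (54, 2), (55, 2), (56, 2), (57, 2), (58, 3), (59, 2), (60, 2), (61, 2)]⟩,
    ⟨0, 128, 256, 311, 50, 63, [(0, 3), (18, 1), (19, 2), (20, 2), (21, 3), (22, 2), (23, 2), (24, 2), (25, 2), (26, 3), (27, 2), (28, 2), (29, 2), (13, 3), (14, 2), (15, 2), (16, 2), (17, 2), (49, 3), (50, 1)], [(50, 1), (51, 2), (52, 2), (53, 3), (54, 2), (55, 2), (56, 2), (57, 2), (58, 3), (59, 2), (60, 2), (61, 2), (62, 2)]⟩]),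
  (72, 5866, 6305, [
    ⟨926, 128, 640, 375, 44, 62, [(35, 11), (36, 2), (37, 3), (38, 2), (39, 2), (40, 2), (41, 3), (42, 2), (43, 2), (44, 2)], [(44, 1), (45, 2), (46, 2), (47, 2), (48, 3), (49, 2), (50, 2), (51, 3), (52, 2), (53, 2), (54, 3), (55, 2), (56, 2), (57, 2), (58, 3), (59, 2), (60, 2), (61, 2)]⟩,
    ⟨3310, 128, 512, 375, 11, 62, [(0, 3), (1, 1), (2, 2), (3, 3), (4, 2), (5, 2), (6, 3), (7, 2), (8, 2), (9, 2), (10, 3), (11, 2)], [(12, 2), (44, 3), (45, 2), (46, 2), (47, 2), (48, 3), (49, 2), (50, 2), (51, 3), (52, 2), (53, 2), (54, 3), (55, 2), (56, 2), (57, 2), (58, 3), (59, 2), (60, 2), (61, 2)]⟩,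
    ⟨0, 128, 256, 311, 50, 63, [(0, 3), (18, 1), (19, 2), (20, 3), (21, 2), (22, 2), (23, 3), (24, 2), (25, 2), (26, 2), (27, 3), (28, 2), (29, 2), (30, 3), (31, 2), (32, 2), (16, 2), (17, 3), (49, 2), (50, 1)], [(50, 1), (51, 3), (52, 2), (53, 2), (54, 3), (55, 2), (56, 2), (57, 2), (58, 3), (59, 2), (60, 2), (61, 3), (62, 2)]⟩]),
  (80, 6221, 6646, [
    ⟨1092, 128, 640, 359, 44, 62, [(35, 12), (36, 2), (37, 2), (38, 3), (39, 2), (40, 3), (41, 2), (42, 3), (43, 2), (44, 1)], [(44, 2), (45, 2), (46, 2), (47, 3), (48, 2), (49, 3), (50, 2), (51, 3), (52, 2), (53, 2), (54, 3), (55, 2), (56, 3), (57, 2), (58, 3), (59, 2), (60, 2), (61, 3)]⟩,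
    ⟨5012, 128, 512, 359, 11, 62, [(0, 3), (1, 1), (2, 3), (3, 2), (4, 3), (5, 2), (6, 2), (7, 3), (8, 2), (9, 3), (10, 2), (11, 3)], [(12, 2), (13, 1), (44, 2), (45, 2), (46, 2), (47, 3), (48, 2), (49, 3), (50, 2), (51, 3), (52, 2), (53, 2), (54, 3), (55, 2), (56, 3), (57, 2), (58, 3), (59, 2), (60, 2), (61, 3)]⟩,
    ⟨0, 128, 128, 311, 50, 63, [(0, 5), (19, 2), (20, 2), (21, 3), (22, 2), (23, 2), (24, 3), (25, 2), (26, 3), (27, 2), (28, 3), (29, 2), (30, 3), (31, 2), (32, 2), (33, 3), (34, 2), (49, 3), (50, 1)], [(50, 1), (51, 3), (52, 2), (53, 2), (54, 3), (55, 2), (56, 3), (57, 2), (58, 3), (59, 2), (60, 2), (61, 3), (62, 2)]⟩]),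
  (90, 6558, 7049, [
    ⟨1250, 128, 640, 359, 50, 62, [(35, 12), (36, 3), (37, 2), (38, 3), (39, 3), (40, 2), (41, 3), (42, 2), (43, 3), (44, 2), (45, 3), (46, 2), (47, 3), (48, 3), (49, 2), (50, 2)], [(50, 1), (51, 2), (52, 3), (53, 2), (54, 3), (55, 3), (56, 2), (57, 3), (58, 2), (59, 3), (60, 2), (61, 3)]⟩,
    ⟨0, 128, 512, 311, 50, 63, [(0, 3), (18, 1), (1, 1), (2, 2), (3, 3), (4, 2), (5, 3), (6, 2), (7, 3), (8, 3), (9, 2), (10, 3), (11, 2), (12, 3), (13, 2), (45, 3), (46, 2), (47, 3), (48, 3), (49, 2), (50, 2)], [(50, 1), (51, 2), (52, 3), (53, 2), (54, 3), (55, 3), (56, 2), (57, 3), (58, 2), (59, 3), (60, 2), (61, 3), (62, 2)]⟩]),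
  (100, 6956, 7431, [
    ⟨1442, 128, 640, 359, 44, 62, [(35, 13), (36, 3), (37, 2), (38, 3), (39, 3), (40, 3), (41, 2), (42, 3), (43, 3), (44, 1)], [(44, 2), (45, 2), (46, 3), (47, 3), (48, 2), (49, 3), (50, 3), (51, 3), (52, 2), (53, 3), (54, 3), (55, 2), (56, 3), (57, 3), (58, 3), (59, 2), (60, 3), (61, 3)]⟩,
    ⟨0, 128, 384, 311, 50, 63, [(0, 3), (18, 1), (1, 1), (19, 1), (2, 2), (3, 2), (4, 3), (5, 3), (6, 2), (7, 3), (8, 3), (9, 3), (10, 2), (11, 3), (12, 3), (13, 3), (45, 2), (46, 3), (47, 3), (48, 2), (49, 3), (50, 2)], [(50, 1), (51, 3), (52, 2), (53, 3), (54, 3), (55, 2), (56, 3), (57, 3), (58, 3), (59, 2), (60, 3), (61, 3), (62, 2)]⟩])]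

theorem gok1900 : allN 1945 1997 1048576 pf1900 60 gs1900 = true := by decide +kernel

theorem mid1900 {N : ℕ} {z w : Fin N → ℂ} {R : ℝ} {σ : Fin N → ℂ} (hC : Cfg2 N z w R σ)
    (hN0 : 60 ≤ N) (hN1 : N < 100) (h0 : 19 / 10 ≤ R) (h1 : R ≤ 39 / 20) :
    False := by
  have hN : 1 ≤ N := by omega
  have hw := hC.cfg.far
  have ht := hC.dist.le
  have hpf : ∀ p ∈ pf1900, Ok N w R p := ok_pfs (ln389_1900_ok h0 h1 hN hw ht) (ln205_1900_ok h0 h1 hN hw ht) (tab1900_ok (by linarith) (by linarith) hN hw ht)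
  exact allN_sound hC (by norm_num; linarith) (by norm_num; linarith) (by norm_num; exact m1_le_one hN hC) hpf gs1900 60 gok1900 hN0 (by
    show N < 100
    exact hN1)

/-- profiles, `39 / 20 ≤ R ≤ 2` -/
def pf1950 : List Pf := pfs 51 ln389_1950 ln205_1950 tab1950

def gs1950 : List (ℕ × ℕ × ℕ × List En) := [
  (64, 5608, 5868, [
    ⟨810, 128, 640, 359, 44, 63, [(35, 10), (36, 3), (37, 2), (38, 2), (39, 2), (40, 2), (41, 3), (42, 2), (43, 2), (44, 1)], [(44, 1), (45, 2), (46, 3), (47, 2), (48, 2), (49, 2), (50, 2), (51, 2), (52, 3), (53, 2), (54, 2), (55, 2), (56, 2), (57, 3), (58, 2), (59, 2), (60, 2), (61, 2), (62, 3)]⟩,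
    ⟨2526, 128, 512, 359, 11, 63, [(0, 3), (1, 1), (2, 2), (3, 2), (4, 2), (5, 3), (6, 2), (7, 2), (8, 2), (9, 2), (10, 3), (11, 2)], [(12, 2), (44, 2), (45, 2), (46, 3), (47, 2), (48, 2), (49, 2), (50, 2), (51, 2), (52, 3), (53, 2), (54, 2), (55, 2), (56, 2), (57, 3), (58, 2), (59, 2), (60, 2), (61, 2), (62, 3)]⟩,
    ⟨0, 128, 256, 311, 50, 64, [(0, 3), (18, 1), (19, 2), (20, 2), (21, 2), (22, 3), (23, 2), (24, 2), (25, 2), (26, 2), (27, 3), (28, 1), (11, 1), (12, 2), (13, 2), (14, 2), (15, 3), (16, 2), (17, 2), (49, 2), (50, 1)], [(50, 1), (51, 2), (52, 3), (53, 2), (54, 2), (55, 2), (56, 2), (57, 3), (58, 2), (59, 2), (60, 2), (61, 2), (62, 3), (63, 2)]⟩]),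
  (72, 5792, 6224, [
    ⟨892, 128, 640, 359, 44, 63, [(35, 11), (36, 2), (37, 2), (38, 3), (39, 2), (40, 2), (41, 2), (42, 3), (43, 2), (44, 1)], [(44, 1), (45, 2), (46, 3), (47, 2), (48, 2), (49, 2), (50, 3), (51, 2), (52, 2), (53, 3), (54, 2), (55, 2), (56, 2), (57, 3), (58, 2), (59, 2), (60, 2), (61, 3), (62, 2)]⟩,
    ⟨3128, 128, 512, 359, 11, 63, [(0, 3), (1, 1), (2, 2), (3, 3), (4, 2), (5, 2), (6, 2), (7, 3), (8, 2), (9, 2), (10, 2), (11, 3)], [(12, 2), (44, 2), (45, 2), (46, 3), (47, 2), (48, 2), (49, 2), (50, 3), (51, 2), (52, 2), (53, 3), (54, 2), (55, 2), (56, 2), (57, 3), (58, 2), (59, 2), (60, 2), (61, 3), (62, 2)]⟩,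
    ⟨0, 128, 256, 311, 50, 64, [(0, 3), (18, 1), (19, 2), (20, 3), (21, 2), (22, 2), (23, 2), (24, 3), (25, 2), (26, 2), (27, 2), (28, 3), (29, 2), (30, 2), (31, 2), (32, 1), (15, 2), (16, 2), (17, 2), (49, 2), (50, 2)], [(50, 1), (51, 2), (52, 2), (53, 3), (54, 2), (55, 2), (56, 2), (57, 3), (58, 2), (59, 2), (60, 2), (61, 3), (62, 2), (63, 2)]⟩]),
  (80, 6144, 6561, [
    ⟨1058, 128, 640, 367, 44, 63, [(35, 12), (36, 2), (37, 2), (38, 3), (39, 2), (40, 3), (41, 2), (42, 2), (43, 3), (44, 2)], [(45, 3), (46, 2), (47, 2), (48, 3), (49, 2), (50, 3), (51, 2), (52, 2), (53, 3), (54, 2), (55, 3), (56, 2), (57, 2), (58, 3), (59, 2), (60, 3), (61, 2), (62, 2)]⟩,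
    ⟨4608, 128, 512, 367, 11, 63, [(0, 3), (1, 1), (2, 3), (3, 2), (4, 3), (5, 2), (6, 2), (7, 3), (8, 2), (9, 3), (10, 2), (11, 2)], [(12, 3), (13, 2), (45, 3), (46, 2), (47, 2), (48, 3), (49, 2), (50, 3), (51, 2), (52, 2), (53, 3), (54, 2), (55, 3), (56, 2), (57, 2), (58, 3), (59, 2), (60, 3), (61, 2), (62, 2)]⟩,
    ⟨0, 128, 128, 311, 50, 64, [(0, 3), (18, 1), (0, 1), (19, 2), (20, 2), (21, 3), (22, 2), (23, 2), (24, 3), (25, 2), (26, 3), (27, 2), (28, 2), (29, 3), (30, 2), (31, 3), (32, 2), (33, 2), (34, 3), (49, 2), (50, 1)], [(50, 2), (51, 2), (52, 2), (53, 3), (54, 2), (55, 3), (56, 2), (57, 2), (58, 3), (59, 2), (60, 3), (61, 2), (62, 2), (63, 2)]⟩]),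
  (90, 6476, 6959, [
    ⟨1216, 128, 640, 375, 46, 63, [(35, 12), (36, 3), (37, 2), (38, 3), (39, 2), (40, 3), (41, 2), (42, 3), (43, 2), (44, 3), (45, 2), (46, 1)], [(46, 2), (47, 2), (48, 3), (49, 3), (50, 2), (51, 3), (52, 2), (53, 3), (54, 2), (55, 3), (56, 2), (57, 3), (58, 2), (59, 3), (60, 2), (61, 3), (62, 2)]⟩,
    ⟨11512, 128, 512, 335, 11, 64, [(0, 3), (1, 2), (2, 2), (3, 3), (4, 2), (5, 3), (6, 2), (7, 3), (8, 2), (9, 3), (10, 2), (11, 3)], [(12, 2), (13, 3), (45, 2), (46, 3), (47, 2), (48, 3), (49, 3), (50, 2), (51, 3), (52, 2), (53, 3), (54, 2), (55, 3), (56, 2), (57, 3), (58, 2), (59, 3), (60, 2), (61, 3), (62, 2), (63, 2)]⟩,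
    ⟨0, 128, 0, 311, 50, 64, [(0, 49)], [(50, 1), (51, 3), (52, 2), (53, 3), (54, 2), (55, 3), (56, 2), (57, 3), (58, 2), (59, 3), (60, 2), (61, 3), (62, 2), (63, 3)]⟩]),
  (100, 6869, 7335, [
    ⟨1408, 128, 640, 367, 50, 63, [(35, 13), (36, 3), (37, 2), (38, 3), (39, 3), (40, 2), (41, 3), (42, 3), (43, 2), (44, 3), (45, 3), (46, 2), (47, 3), (48, 3), (49, 2), (50, 2)], [(50, 1), (51, 3), (52, 3), (53, 2), (54, 3), (55, 3), (56, 2), (57, 3), (58, 3), (59, 2), (60, 3), (61, 3), (62, 2)]⟩,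
    ⟨0, 128, 384, 311, 50, 64, [(0, 3), (18, 1), (1, 1), (2, 3), (3, 2), (4, 3), (5, 3), (6, 2), (7, 3), (8, 3), (9, 2), (10, 3), (11, 3), (12, 2), (13, 3), (14, 2), (45, 1), (46, 2), (47, 3), (48, 3), (49, 2), (50, 2)], [(50, 1), (51, 3), (52, 3), (53, 2), (54, 3), (55, 3), (56, 2), (57, 3), (58, 3), (59, 2), (60, 3), (61, 3), (62, 2), (63, 3)]⟩])]

theorem gok1950 : allN 1996 2048 1048576 pf1950 60 gs1950 = true := by decide +kernel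

theorem mid1950 {N : ℕ} {z w : Fin N → ℂ} {R : ℝ} {σ : Fin N → ℂ} (hC : Cfg2 N z w R σ)
    (hN0 : 60 ≤ N) (hN1 : N < 100) (h0 : 39 / 20 ≤ R) (h1 : R ≤ 2) :
    False := by
  have hN : 1 ≤ N := by omega
  have hw := hC.cfg.far
  have ht := hC.dist.le
  have hpf : ∀ p ∈ pf1950, Ok N w R p := ok_pfs (ln389_1950_ok h0 h1 hN hw ht) (ln205_1950_ok h0 h1 hN hw ht) (tab1950_ok (by linarith) (by linarith) hN hw ht)
  exact allN_sound hC (by norm_num; linarith) (by norm_num; linarith) (by norm_num; exact m1_le_one hN hC) hpf gs1950 60 gok1950 hN0 (by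
    show N < 100
    exact hN1)

/-- profiles, `2 ≤ R ≤ 41 / 20` -/
def pf2000 : List Pf := pfs 51 ln389_2000 ln205_2000 tab2000

def gs2000 : List (ℕ × ℕ × ℕ × List En) := [
  (64, 5538, 5793, [
    ⟨778, 128, 640, 367, 44, 64, [(35, 10), (36, 2), (37, 3), (38, 2), (39, 2), (40, 2), (41, 2), (42, 2), (43, 3), (44, 1)], [(44, 1), (45, 2), (46, 2), (47, 2), (48, 2), (49, 3), (50, 2), (51, 2), (52, 2), (53, 2), (54, 2), (55, 3), (56, 2), (57, 2), (58, 2), (59, 2), (60, 2), (61, 3), (62, 2), (63, 2)]⟩,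
    ⟨2374, 128, 512, 367, 11, 64, [(0, 3), (1, 1), (2, 2), (3, 2), (4, 2), (5, 2), (6, 3), (7, 2), (8, 2), (9, 2), (10, 2), (11, 2)], [(12, 3), (44, 2), (45, 2), (46, 2), (47, 2), (48, 2), (49, 3), (50, 2), (51, 2), (52, 2), (53, 2), (54, 2), (55, 3), (56, 2), (57, 2), (58, 2), (59, 2), (60, 2), (61, 3), (62, 2), (63, 2)]⟩,
    ⟨0, 128, 256, 319, 50, 65, [(0, 3), (18, 1), (19, 2), (20, 2), (21, 2), (22, 2), (23, 3), (24, 2), (25, 2), (26, 2), (27, 2), (28, 1), (11, 1), (12, 3), (13, 2), (14, 2), (15, 2), (16, 2), (17, 2), (49, 3), (50, 1)], [(50, 1), (51, 2), (52, 2), (53, 2), (54, 2), (55, 3), (56, 2), (57, 2), (58, 2), (59, 2), (60, 2), (61, 3), (62, 2), (63, 2), (64, 2)]⟩]),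
  (72, 5720, 6144, [
    ⟨858, 128, 640, 375, 44, 64, [(35, 11), (36, 2), (37, 2), (38, 2), (39, 3), (40, 2), (41, 2), (42, 2), (43, 3), (44, 2)], [(45, 2), (46, 2), (47, 2), (48, 3), (49, 2), (50, 2), (51, 2), (52, 3), (53, 2), (54, 2), (55, 2), (56, 3), (57, 2), (58, 2), (59, 2), (60, 3), (61, 2), (62, 2), (63, 2)]⟩,
    ⟨2942, 128, 512, 375, 11, 64, [(0, 3), (1, 1), (2, 2), (3, 2), (4, 3), (5, 2), (6, 2), (7, 2), (8, 3), (9, 2), (10, 2), (11, 2)], [(12, 3), (44, 2), (45, 2), (46, 2), (47, 2), (48, 3), (49, 2), (50, 2), (51, 2), (52, 3), (53, 2), (54, 2), (55, 2), (56, 3), (57, 2), (58, 2), (59, 2), (60, 3), (61, 2), (62, 2), (63, 2)]⟩,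
    ⟨0, 128, 256, 327, 50, 65, [(0, 3), (18, 1), (19, 2), (20, 2), (21, 3), (22, 2), (23, 2), (24, 2), (25, 3), (26, 2), (27, 2), (28, 2), (29, 3), (30, 2), (31, 1), (14, 1), (15, 2), (16, 2), (17, 3), (49, 2), (50, 1)], [(50, 1), (51, 2), (52, 3), (53, 2), (54, 2), (55, 2), (56, 3), (57, 2), (58, 2), (59, 2), (60, 3), (61, 2), (62, 2), (63, 2), (64, 2)]⟩]),
  (80, 6067, 6477, [
    ⟨1024, 128, 640, 359, 44, 64, [(35, 11), (36, 3), (37, 2), (38, 2), (39, 3), (40, 2), (41, 3), (42, 2), (43, 2), (44, 1)], [(44, 2), (45, 2), (46, 2), (47, 3), (48, 2), (49, 3), (50, 2), (51, 2), (52, 3), (53, 2), (54, 2), (55, 3), (56, 2), (57, 2), (58, 3), (59, 2), (60, 3), (61, 2), (62, 2), (63, 3)]⟩,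
    ⟨4334, 128, 512, 359, 10, 64, [(0, 3), (1, 1), (2, 3), (3, 2), (4, 2), (5, 3), (6, 2), (7, 2), (8, 3), (9, 2), (10, 3)], [(11, 2), (12, 2), (13, 3), (45, 2), (46, 2), (47, 3), (48, 2), (49, 3), (50, 2), (51, 2), (52, 3), (53, 2), (54, 2), (55, 3), (56, 2), (57, 2), (58, 3), (59, 2), (60, 3), (61, 2), (62, 2), (63, 3)]⟩,
    ⟨0, 128, 128, 319, 50, 65, [(0, 3), (18, 1), (19, 3), (20, 2), (21, 2), (22, 3), (23, 2), (24, 2), (25, 3), (26, 2), (27, 3), (28, 2), (29, 2), (30, 3), (31, 2), (32, 2), (33, 3), (34, 2), (49, 3), (50, 1)], [(50, 1), (51, 2), (52, 3), (53, 2), (54, 2), (55, 3), (56, 2), (57, 2), (58, 3), (59, 2), (60, 3), (61, 2), (62, 2), (63, 3), (64, 2)]⟩]),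
  (90, 6395, 6870, [
    ⟨1182, 128, 640, 367, 46, 64, [(35, 12), (36, 2), (37, 3), (38, 3), (39, 2), (40, 2), (41, 3), (42, 2), (43, 3), (44, 2), (45, 3), (46, 2)], [(47, 3), (48, 2), (49, 3), (50, 2), (51, 3), (52, 2), (53, 3), (54, 2), (55, 3), (56, 2), (57, 3), (58, 2), (59, 3), (60, 2), (61, 3), (62, 2), (63, 3)]⟩,
    ⟨7632, 128, 512, 367, 11, 64, [(0, 3), (1, 1), (19, 1), (2, 2), (3, 3), (4, 2), (5, 2), (6, 3), (7, 3), (8, 2), (9, 2), (10, 3), (11, 2)], [(12, 3), (13, 2), (14, 1), (45, 2), (46, 2), (47, 3), (48, 2), (49, 3), (50, 2), (51, 3), (52, 2), (53, 3), (54, 2), (55, 3), (56, 2), (57, 3), (58, 2), (59, 3), (60, 2), (61, 3), (62, 2), (63, 3)]⟩,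
    ⟨0, 128, 0, 327, 50, 65, [(0, 11), (21, 1), (0, 1), (22, 1), (0, 1), (23, 2), (24, 3), (25, 2), (26, 2), (27, 3), (28, 2), (29, 3), (30, 2), (31, 3), (32, 2), (33, 3), (34, 2), (49, 3), (50, 1)], [(50, 1), (51, 3), (52, 2), (53, 3), (54, 2), (55, 3), (56, 2), (57, 3), (58, 2), (59, 3), (60, 2), (61, 3), (62, 2), (63, 3), (64, 1)]⟩]),
  (100, 6783, 7241, [
    ⟨1376, 128, 640, 359, 45, 64, [(35, 13), (36, 2), (37, 3), (38, 3), (39, 2), (40, 3), (41, 3), (42, 2), (43, 3), (44, 3), (45, 1)], [(45, 1), (46, 3), (47, 3), (48, 2), (49, 3), (50, 2), (51, 3), (52, 3), (53, 2), (54, 3), (55, 3), (56, 2), (57, 3), (58, 3), (59, 2), (60, 3), (61, 3), (62, 2), (63, 3)]⟩,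
    ⟨0, 128, 512, 327, 50, 65, [(0, 3), (18, 1), (1, 1), (2, 2), (3, 3), (4, 3), (5, 2), (6, 3), (7, 3), (8, 2), (9, 3), (10, 3), (11, 2), (12, 3), (13, 3), (14, 2), (46, 3), (47, 3), (48, 2), (49, 3), (50, 1)], [(50, 1), (51, 3), (52, 3), (53, 2), (54, 3), (55, 3), (56, 2), (57, 3), (58, 3), (59, 2), (60, 3), (61, 3), (62, 2), (63, 3), (64, 2)]⟩])]

theorem gok2000 : allN 2048 2100 1048576 pf2000 60 gs2000 = true := by decide +kernel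

theorem mid2000 {N : ℕ} {z w : Fin N → ℂ} {R : ℝ} {σ : Fin N → ℂ} (hC : Cfg2 N z w R σ)
    (hN0 : 60 ≤ N) (hN1 : N < 100) (h0 : 2 ≤ R) (h1 : R ≤ 41 / 20) :
    False := by
  have hN : 1 ≤ N := by omega
  have hw := hC.cfg.far
  have ht := hC.dist.le
  have hpf : ∀ p ∈ pf2000, Ok N w R p := ok_pfs (ln389_2000_ok h0 h1 hN hw ht) (ln205_2000_ok h0 h1 hN hw ht) (tab2000_ok (by linarith) (by linarith) hN hw ht)
  exact allN_sound hC (by norm_num; linarith) (by norm_num; linarith) (by norm_num; exact m1_le_one hN hC) hpf gs2000 60 gok2000 hN0 (by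
    show N < 100
    exact hN1)

/-- profiles, `41 / 20 ≤ R ≤ 21 / 10` -/
def pf2050 : List Pf := pfs 51 ln389_2050 ln205_2050 tab2050

def gs2050 : List (ℕ × ℕ × ℕ × List En) := [
  (64, 5472, 5722, [
    ⟨746, 128, 640, 367, 44, 65, [(35, 10), (36, 2), (37, 2), (38, 3), (39, 2), (40, 2), (41, 2), (42, 2), (43, 2), (44, 2)], [(45, 3), (46, 2), (47, 2), (48, 2), (49, 2), (50, 2), (51, 2), (52, 3), (53, 2), (54, 2), (55, 2), (56, 2), (57, 2), (58, 2), (59, 2), (60, 3), (61, 2), (62, 2), (63, 2), (64, 2)]⟩,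
    ⟨2226, 128, 512, 367, 11, 65, [(0, 3), (1, 1), (2, 2), (3, 2), (4, 2), (5, 2), (6, 2), (7, 3), (8, 2), (9, 2), (10, 2), (11, 2)], [(12, 2), (44, 2), (45, 3), (46, 2), (47, 2), (48, 2), (49, 2), (50, 2), (51, 2), (52, 3), (53, 2), (54, 2), (55, 2), (56, 2), (57, 2), (58, 2), (59, 2), (60, 3), (61, 2), (62, 2), (63, 2), (64, 2)]⟩,
    ⟨0, 128, 384, 359, 50, 65, [(0, 3), (18, 1), (19, 2), (20, 2), (21, 2), (22, 2), (23, 2), (24, 3), (25, 2), (26, 1), (9, 1), (10, 2), (11, 2), (12, 2), (13, 2), (14, 3), (15, 2), (16, 2), (17, 2), (49, 2), (50, 1)], [(50, 1), (51, 2), (52, 3), (53, 2), (54, 2), (55, 2), (56, 2), (57, 2), (58, 2), (59, 2), (60, 3), (61, 2), (62, 2), (63, 2), (64, 2)]⟩]),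
  (72, 5652, 6069, [
    ⟨828, 128, 640, 359, 44, 65, [(35, 11), (36, 2), (37, 2), (38, 2), (39, 2), (40, 3), (41, 2), (42, 2), (43, 2), (44, 2)], [(45, 3), (46, 2), (47, 2), (48, 2), (49, 2), (50, 3), (51, 2), (52, 2), (53, 2), (54, 2), (55, 3), (56, 2), (57, 2), (58, 2), (59, 3), (60, 2), (61, 2), (62, 2), (63, 2), (64, 3)]⟩,
    ⟨2792, 128, 512, 359, 11, 65, [(0, 3), (1, 1), (2, 2), (3, 2), (4, 3), (5, 2), (6, 2), (7, 2), (8, 2), (9, 3), (10, 2), (11, 2)], [(12, 2), (13, 1), (44, 1), (45, 3), (46, 2), (47, 2), (48, 2), (49, 2), (50, 3), (51, 2), (52, 2), (53, 2), (54, 2), (55, 3), (56, 2), (57, 2), (58, 2), (59, 3), (60, 2), (61, 2), (62, 2), (63, 2), (64, 3)]⟩,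
    ⟨0, 128, 256, 359, 50, 65, [(0, 3), (18, 1), (19, 2), (20, 2), (21, 3), (22, 2), (23, 2), (24, 2), (25, 2), (26, 3), (27, 2), (28, 2), (29, 2), (30, 2), (14, 3), (15, 2), (16, 2), (17, 2), (49, 2), (50, 2)], [(50, 1), (51, 2), (52, 2), (53, 2), (54, 2), (55, 3), (56, 2), (57, 2), (58, 2), (59, 3), (60, 2), (61, 2), (62, 2), (63, 2), (64, 3)]⟩]),
  (80, 5995, 6398, [
    ⟨994, 128, 640, 367, 44, 65, [(35, 11), (36, 3), (37, 2), (38, 2), (39, 3), (40, 2), (41, 2), (42, 3), (43, 2), (44, 1)], [(44, 1), (45, 3), (46, 2), (47, 2), (48, 3), (49, 2), (50, 2), (51, 3), (52, 2), (53, 2), (54, 3), (55, 2), (56, 2), (57, 3), (58, 2), (59, 2), (60, 3), (61, 2), (62, 2), (63, 3), (64, 2)]⟩,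
    ⟨4146, 128, 512, 367, 11, 65, [(0, 3), (1, 1), (2, 3), (3, 2), (4, 2), (5, 3), (6, 2), (7, 2), (8, 3), (9, 2), (10, 2), (11, 2)], [(11, 1), (12, 2), (13, 2), (45, 3), (46, 2), (47, 2), (48, 3), (49, 2), (50, 2), (51, 3), (52, 2), (53, 2), (54, 3), (55, 2), (56, 2), (57, 3), (58, 2), (59, 2), (60, 3), (61, 2), (62, 2), (63, 3), (64, 2)]⟩,
    ⟨0, 128, 128, 359, 50, 65, [(0, 3), (18, 1), (19, 3), (20, 2), (21, 2), (22, 3), (23, 2), (24, 2), (25, 3), (26, 2), (27, 2), (28, 3), (29, 2), (30, 2), (31, 3), (32, 2), (33, 2), (34, 3), (49, 2), (50, 1)], [(50, 1), (51, 3), (52, 2), (53, 2), (54, 3), (55, 2), (56, 2), (57, 3), (58, 2), (59, 2), (60, 3), (61, 2), (62, 2), (63, 3), (64, 2)]⟩]),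
  (90, 6319, 6786, [
    ⟨1152, 128, 640, 375, 43, 65, [(35, 12), (36, 2), (37, 3), (38, 2), (39, 3), (40, 2), (41, 3), (42, 2), (43, 3)], [(44, 2), (45, 3), (46, 2), (47, 2), (48, 3), (49, 2), (50, 3), (51, 2), (52, 3), (53, 2), (54, 3), (55, 2), (56, 3), (57, 2), (58, 3), (59, 2), (60, 3), (61, 2), (62, 2), (63, 3), (64, 2)]⟩,
    ⟨5902, 128, 512, 375, 11, 65, [(0, 3), (1, 1), (19, 1), (2, 2), (3, 2), (4, 3), (5, 2), (6, 3), (7, 2), (8, 3), (9, 2), (10, 3), (11, 2)], [(12, 3), (13, 2), (14, 2), (45, 1), (46, 2), (47, 2), (48, 3), (49, 2), (50, 3), (51, 2), (52, 3), (53, 2), (54, 3), (55, 2), (56, 3), (57, 2), (58, 3), (59, 2), (60, 3), (61, 2), (62, 2), (63, 3), (64, 2)]⟩,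
    ⟨0, 128, 128, 359, 50, 65, [(0, 6), (19, 1), (20, 2), (21, 3), (22, 2), (23, 3), (24, 2), (25, 3), (26, 2), (27, 3), (28, 2), (29, 3), (30, 2), (31, 3), (32, 2), (33, 2), (34, 3), (49, 2), (50, 2)], [(50, 1), (51, 2), (52, 3), (53, 2), (54, 3), (55, 2), (56, 3), (57, 2), (58, 3), (59, 2), (60, 3), (61, 2), (62, 2), (63, 3), (64, 2)]⟩]),
  (100, 6702, 7153, [
    ⟨1344, 128, 640, 375, 45, 65, [(35, 13), (36, 2), (37, 3), (38, 2), (39, 3), (40, 3), (41, 2), (42, 3), (43, 3), (44, 2), (45, 2)], [(45, 1), (46, 2), (47, 3), (48, 3), (49, 2), (50, 3), (51, 2), (52, 3), (53, 3), (54, 2), (55, 3), (56, 3), (57, 2), (58, 3), (59, 2), (60, 3), (61, 3), (62, 2), (63, 3), (64, 2)]⟩,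
    ⟨0, 128, 512, 351, 50, 66, [(0, 3), (18, 1), (1, 1), (2, 2), (3, 3), (4, 3), (5, 2), (6, 3), (7, 2), (8, 3), (9, 3), (10, 2), (11, 3), (12, 3), (13, 2), (14, 3), (46, 2), (47, 3), (48, 3), (49, 2), (50, 2)], [(50, 1), (51, 2), (52, 3), (53, 3), (54, 2), (55, 3), (56, 3), (57, 2), (58, 3), (59, 2), (60, 3), (61, 3), (62, 2), (63, 3), (64, 3)]⟩])]

theorem gok2050 : allN 2099 2151 1023099 pf2050 60 gs2050 = true := by decide +kernel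

theorem mid2050 {N : ℕ} {z w : Fin N → ℂ} {R : ℝ} {σ : Fin N → ℂ} (hC : Cfg2 N z w R σ)
    (hN0 : 60 ≤ N) (hN1 : N < 100) (h0 : 41 / 20 ≤ R) (h1 : R ≤ 21 / 10) :
    False := by
  have hN : 1 ≤ N := by omega
  have hw := hC.cfg.far
  have ht := hC.dist.le
  have hpf : ∀ p ∈ pf2050, Ok N w R p := ok_pfs (ln389_2050_ok h0 h1 hN hw ht) (ln205_2050_ok h0 h1 hN hw ht) (tab2050_ok (by linarith) (by linarith) hN hw ht)
  have hR : 0 < R := by linarith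
  have hm2 : 2 / R ≤ 2 / (41 / 20) := div_le_div_of_nonneg_left (by norm_num) (by norm_num) h0
  have hm := (m1_le_two hN hC hR).trans hm2
  norm_num at hm
  exact allN_sound hC (by norm_num; linarith) (by norm_num; linarith) (by norm_num; linarith) hpf gs2050 60 gok2050 hN0 (by
    show N < 100
    exact hN1)

/-- profiles, `21 / 10 ≤ R ≤ 43 / 20` -/
def pf2100 : List Pf := (pfs 51 ln389_2100 ln205_2100 []) ++ (pf4 102 pt2100 ++ pf4 51 pu2100)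

def gs2100 : List (ℕ × ℕ × ℕ × List En) := [
  (64, 5408, 5654, [
    ⟨682, 128, 640, 375, 46, 68, [(0, 3), (71, 1), (72, 1), (35, 1), (36, 2), (37, 2), (38, 2), (39, 2), (40, 2), (41, 3), (42, 2), (43, 2), (44, 2), (45, 2), (46, 1)], [(46, 1), (47, 2), (48, 2), (49, 2), (50, 3), (51, 2), (52, 2), (53, 2), (54, 2), (55, 2), (56, 2), (57, 2), (58, 2), (59, 3), (60, 2), (61, 2), (62, 2), (63, 2), (64, 2), (65, 2), (66, 2), (67, 2)]⟩,
    ⟨1978, 128, 512, 375, 11, 68, [(0, 3), (1, 1), (2, 2), (3, 2), (4, 2), (5, 2), (6, 2), (7, 2), (8, 3), (9, 2), (10, 2), (11, 2)], [(12, 2), (46, 2), (47, 2), (48, 2), (49, 2), (50, 3), (51, 2), (52, 2), (53, 2), (54, 2), (55, 2), (56, 2), (57, 2), (58, 2), (59, 3), (60, 2), (61, 2), (62, 2), (63, 2), (64, 2), (65, 2), (66, 2), (67, 2)]⟩,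
    ⟨0, 128, 384, 367, 52, 68, [(0, 3), (18, 1), (19, 2), (20, 2), (21, 2), (22, 2), (23, 2), (24, 2), (25, 1), (8, 2), (9, 2), (10, 2), (11, 2), (12, 2), (13, 2), (14, 2), (15, 2), (16, 2), (17, 3), (51, 2), (52, 1)], [(52, 1), (53, 2), (54, 2), (55, 2), (56, 2), (57, 2), (58, 2), (59, 3), (60, 2), (61, 2), (62, 2), (63, 2), (64, 2), (65, 2), (66, 2), (67, 2)]⟩]),
  (72, 5586, 5997, [
    ⟨758, 128, 640, 359, 46, 68, [(0, 3), (71, 1), (72, 1), (35, 1), (36, 2), (37, 2), (38, 3), (39, 2), (40, 2), (41, 2), (42, 2), (43, 2), (44, 3), (45, 2), (46, 1)], [(46, 1), (47, 2), (48, 2), (49, 3), (50, 2), (51, 2), (52, 2), (53, 2), (54, 2), (55, 3), (56, 2), (57, 2), (58, 2), (59, 2), (60, 3), (61, 2), (62, 2), (63, 2), (64, 2), (65, 3), (66, 2), (67, 2)]⟩,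
    ⟨2462, 128, 512, 359, 11, 68, [(0, 3), (1, 1), (2, 2), (3, 2), (4, 2), (5, 3), (6, 2), (7, 2), (8, 2), (9, 2), (10, 2), (11, 3)], [(12, 2), (46, 2), (47, 2), (48, 2), (49, 3), (50, 2), (51, 2), (52, 2), (53, 2), (54, 2), (55, 3), (56, 2), (57, 2), (58, 2), (59, 2), (60, 3), (61, 2), (62, 2), (63, 2), (64, 2), (65, 3), (66, 2), (67, 2)]⟩,
    ⟨0, 128, 256, 367, 52, 68, [(0, 3), (18, 1), (19, 2), (20, 2), (21, 2), (22, 3), (23, 2), (24, 2), (25, 2), (26, 2), (27, 2), (28, 2), (11, 1), (12, 2), (13, 2), (14, 2), (15, 2), (16, 3), (17, 2), (51, 2), (52, 1)], [(52, 1), (53, 2), (54, 2), (55, 3), (56, 2), (57, 2), (58, 2), (59, 2), (60, 3), (61, 2), (62, 2), (63, 2), (64, 2), (65, 3), (66, 2), (67, 1)]⟩]),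
  (80, 5925, 6321, [
    ⟨918, 128, 640, 375, 46, 68, [(0, 3), (71, 1), (72, 1), (35, 1), (36, 3), (37, 2), (38, 2), (39, 3), (40, 2), (41, 2), (42, 3), (43, 2), (44, 2), (45, 3), (46, 1)], [(46, 1), (47, 2), (48, 3), (49, 2), (50, 2), (51, 2), (52, 3), (53, 2), (54, 2), (55, 3), (56, 2), (57, 2), (58, 3), (59, 2), (60, 2), (61, 3), (62, 2), (63, 2), (64, 3), (65, 2), (66, 2), (67, 2)]⟩,
    ⟨3678, 128, 512, 375, 11, 68, [(0, 3), (1, 1), (2, 2), (3, 3), (4, 2), (5, 2), (6, 3), (7, 2), (8, 2), (9, 3), (10, 2), (11, 2)], [(12, 3), (13, 2), (47, 2), (48, 3), (49, 2), (50, 2), (51, 2), (52, 3), (53, 2), (54, 2), (55, 3), (56, 2), (57, 2), (58, 3), (59, 2), (60, 2), (61, 3), (62, 2), (63, 2), (64, 3), (65, 2), (66, 2), (67, 2)]⟩,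
    ⟨0, 128, 128, 367, 52, 68, [(0, 3), (18, 1), (19, 2), (20, 3), (21, 2), (22, 2), (23, 3), (24, 2), (25, 2), (26, 3), (27, 2), (28, 2), (29, 3), (30, 2), (31, 2), (32, 3), (33, 2), (34, 2), (51, 2), (52, 2)], [(52, 1), (53, 2), (54, 2), (55, 3), (56, 2), (57, 2), (58, 3), (59, 2), (60, 2), (61, 3), (62, 2), (63, 2), (64, 3), (65, 2), (66, 2), (67, 2)]⟩]),
  (90, 6245, 6705, [
    ⟨1070, 128, 640, 359, 46, 68, [(0, 3), (71, 1), (72, 2), (35, 1), (36, 2), (37, 3), (38, 2), (39, 3), (40, 2), (41, 2), (42, 3), (43, 2), (44, 3), (45, 2), (46, 3)], [(47, 2), (48, 3), (49, 2), (50, 2), (51, 3), (52, 2), (53, 3), (54, 2), (55, 3), (56, 2), (57, 2), (58, 3), (59, 2), (60, 3), (61, 2), (62, 3), (63, 2), (64, 3), (65, 2), (66, 2), (67, 3)]⟩,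
    ⟨5170, 128, 512, 359, 11, 68, [(0, 3), (1, 1), (2, 3), (3, 2), (4, 3), (5, 2), (6, 3), (7, 2), (8, 2), (9, 3), (10, 2), (11, 2)], [(11, 1), (12, 2), (13, 3), (14, 2), (48, 3), (49, 2), (50, 2), (51, 3), (52, 2), (53, 3), (54, 2), (55, 3), (56, 2), (57, 2), (58, 3), (59, 2), (60, 3), (61, 2), (62, 3), (63, 2), (64, 3), (65, 2), (66, 2), (67, 3)]⟩,
    ⟨0, 128, 128, 367, 52, 68, [(0, 5), (19, 2), (20, 2), (21, 3), (22, 2), (23, 3), (24, 2), (25, 2), (26, 3), (27, 2), (28, 3), (29, 2), (30, 3), (31, 2), (32, 3), (33, 2), (34, 2), (51, 3), (52, 1)], [(52, 1), (53, 3), (54, 2), (55, 3), (56, 2), (57, 2), (58, 3), (59, 2), (60, 3), (61, 2), (62, 3), (63, 2), (64, 3), (65, 2), (66, 2), (67, 2)]⟩]),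
  (100, 6624, 7067, [
    ⟨1254, 128, 640, 367, 52, 68, [(0, 3), (71, 2), (72, 1), (35, 1), (36, 3), (37, 2), (38, 3), (39, 3), (40, 2), (41, 3), (42, 2), (43, 3), (44, 3), (45, 2), (46, 3), (47, 2), (48, 3), (49, 2), (50, 3), (51, 3), (52, 1)], [(52, 1), (53, 3), (54, 2), (55, 3), (56, 3), (57, 2), (58, 3), (59, 2), (60, 3), (61, 3), (62, 2), (63, 3), (64, 2), (65, 3), (66, 2), (67, 3)]⟩,
    ⟨11166, 128, 512, 399, 11, 68, [(0, 3), (1, 2), (2, 2), (3, 3), (4, 2), (5, 3), (6, 3), (7, 2), (8, 3), (9, 2), (10, 3), (11, 2)], [(11, 1), (12, 2), (13, 3), (14, 2), (48, 3), (49, 2), (50, 3), (51, 3), (52, 2), (53, 3), (54, 2), (55, 3), (56, 3), (57, 2), (58, 3), (59, 2), (60, 3), (61, 3), (62, 2), (63, 3), (64, 2), (65, 3), (66, 2), (67, 1)]⟩,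
    ⟨0, 128, 0, 367, 52, 68, [(0, 34), (30, 2), (31, 2), (32, 3), (33, 2), (34, 3), (0, 4)], [(52, 1), (53, 3), (54, 2), (55, 3), (56, 3), (57, 2), (58, 3), (59, 2), (60, 3), (61, 3), (62, 2), (63, 3), (64, 2), (65, 3), (66, 2), (67, 3)]⟩])]

theorem gok2100 : allN 2150 2202 998830 pf2100 60 gs2100 = true := by decide +kernel

theorem mid2100 {N : ℕ} {z w : Fin N → ℂ} {R : ℝ} {σ : Fin N → ℂ} (hC : Cfg2 N z w R σ)
    (hN0 : 60 ≤ N) (hN1 : N < 100) (h0 : 21 / 10 ≤ R) (h1 : R ≤ 43 / 20) :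
    False := by
  have hN : 1 ≤ N := by omega
  have hw := hC.cfg.far
  have ht := hC.dist.le
  have hpf : ∀ p ∈ pf2100, Ok N w R p := ok_append (ok_pfs (ln389_2100_ok h0 h1 hN hw ht) (ln205_2100_ok h0 h1 hN hw ht) (by simp)) (ok_append (ok_pf4 (pt2100_ok h0 h1 hN hw ht)) (ok_pf4 (pu2100_ok h0 h1 hN hw ht)))
  have hR : 0 < R := by linarith
  have hm2 : 2 / R ≤ 2 / (21 / 10) := div_le_div_of_nonneg_left (by norm_num) (by norm_num) h0
  have hm := (m1_le_two hN hC hR).trans hm2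
  norm_num at hm
  exact allN_sound hC (by norm_num; linarith) (by norm_num; linarith) (by norm_num; linarith) hpf gs2100 60 gok2100 hN0 (by
    show N < 100
    exact hN1)

/-- profiles, `43 / 20 ≤ R ≤ 11 / 5` -/
def pf2150 : List Pf := (pfs 50 ln389_2150 ln205_2150 []) ++ (pf4 102 pt2150 ++ pf4 51 pu2150)

def gs2150 : List (ℕ × ℕ × ℕ × List En) := [
  (64, 5347, 5588, [
    ⟨654, 128, 640, 359, 46, 69, [(0, 3), (72, 1), (73, 1), (35, 1), (36, 2), (37, 2), (38, 2), (39, 2), (40, 2), (41, 2), (42, 2), (43, 2), (44, 3), (45, 2), (46, 1)], [(46, 1), (47, 2), (48, 2), (49, 2), (50, 2), (51, 2), (52, 2), (53, 2), (54, 2), (55, 3), (56, 2), (57, 2), (58, 2), (59, 2), (60, 2), (61, 2), (62, 2), (63, 2), (64, 2), (65, 2), (66, 3), (67, 2), (68, 2)]⟩,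
    ⟨1846, 128, 512, 359, 11, 69, [(0, 3), (1, 1), (2, 2), (3, 2), (4, 2), (5, 2), (6, 2), (7, 2), (8, 2), (9, 2), (10, 2), (11, 3)], [(12, 2), (46, 2), (47, 2), (48, 2), (49, 2), (50, 2), (51, 2), (52, 2), (53, 2), (54, 2), (55, 3), (56, 2), (57, 2), (58, 2), (59, 2), (60, 2), (61, 2), (62, 2), (63, 2), (64, 2), (65, 2), (66, 3), (67, 2), (68, 2)]⟩,
    ⟨0, 128, 384, 383, 52, 69, [(0, 3), (18, 1), (19, 2), (20, 2), (21, 2), (22, 2), (23, 1), (6, 1), (24, 1), (7, 1), (8, 2), (9, 2), (10, 2), (11, 3), (12, 2), (13, 2), (14, 2), (15, 2), (16, 2), (17, 2), (51, 2), (52, 1)], [(52, 1), (53, 2), (54, 2), (55, 3), (56, 2), (57, 2), (58, 2), (59, 2), (60, 2), (61, 2), (62, 2), (63, 2), (64, 2), (65, 2), (66, 3), (67, 2), (68, 1)]⟩]),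
  (72, 5522, 5927, [
    ⟨730, 128, 640, 367, 46, 69, [(0, 3), (72, 1), (73, 1), (35, 1), (36, 2), (37, 2), (38, 2), (39, 3), (40, 2), (41, 2), (42, 2), (43, 2), (44, 2), (45, 3), (46, 1)], [(46, 1), (47, 2), (48, 2), (49, 2), (50, 2), (51, 2), (52, 3), (53, 2), (54, 2), (55, 2), (56, 2), (57, 2), (58, 3), (59, 2), (60, 2), (61, 2), (62, 2), (63, 2), (64, 3), (65, 2), (66, 2), (67, 2), (68, 2)]⟩,
    ⟨2310, 128, 512, 367, 11, 69, [(0, 3), (1, 1), (2, 2), (3, 2), (4, 2), (5, 2), (6, 3), (7, 2), (8, 2), (9, 2), (10, 2), (11, 2)], [(12, 3), (13, 1), (46, 1), (47, 2), (48, 2), (49, 2), (50, 2), (51, 2), (52, 3), (53, 2), (54, 2), (55, 2), (56, 2), (57, 2), (58, 3), (59, 2), (60, 2), (61, 2), (62, 2), (63, 2), (64, 3), (65, 2), (66, 2), (67, 2), (68, 2)]⟩,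
    ⟨0, 128, 256, 391, 52, 69, [(0, 3), (18, 1), (19, 2), (20, 2), (21, 2), (22, 2), (23, 3), (24, 2), (25, 2), (26, 2), (27, 1), (10, 1), (11, 2), (12, 3), (13, 2), (14, 2), (15, 2), (16, 2), (17, 2), (51, 2), (52, 2)], [(52, 1), (53, 2), (54, 2), (55, 2), (56, 2), (57, 2), (58, 3), (59, 2), (60, 2), (61, 2), (62, 2), (63, 2), (64, 3), (65, 2), (66, 2), (67, 2), (68, 1)]⟩]),
  (80, 5857, 6248, [
    ⟨890, 128, 640, 359, 46, 69, [(0, 3), (72, 1), (73, 1), (35, 1), (36, 3), (37, 2), (38, 2), (39, 2), (40, 3), (41, 2), (42, 2), (43, 3), (44, 2), (45, 2), (46, 1)], [(46, 2), (47, 2), (48, 2), (49, 2), (50, 3), (51, 2), (52, 2), (53, 3), (54, 2), (55, 2), (56, 2), (57, 3), (58, 2), (59, 2), (60, 3), (61, 2), (62, 2), (63, 2), (64, 3), (65, 2), (66, 2), (67, 3), (68, 2)]⟩,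
    ⟨3474, 128, 512, 359, 11, 69, [(0, 3), (1, 1), (2, 2), (3, 3), (4, 2), (5, 2), (6, 2), (7, 3), (8, 2), (9, 2), (10, 3), (11, 2)], [(12, 2), (13, 3), (47, 2), (48, 2), (49, 2), (50, 3), (51, 2), (52, 2), (53, 3), (54, 2), (55, 2), (56, 2), (57, 3), (58, 2), (59, 2), (60, 3), (61, 2), (62, 2), (63, 2), (64, 3), (65, 2), (66, 2), (67, 3), (68, 2)]⟩,
    ⟨0, 128, 128, 391, 52, 69, [(0, 3), (18, 1), (19, 2), (20, 3), (21, 2), (22, 2), (23, 2), (24, 3), (25, 2), (26, 2), (27, 3), (28, 2), (29, 2), (30, 3), (31, 2), (32, 2), (33, 2), (34, 1), (17, 2), (51, 2), (52, 1)], [(52, 1), (53, 3), (54, 2), (55, 2), (56, 2), (57, 3), (58, 2), (59, 2), (60, 3), (61, 2), (62, 2), (63, 2), (64, 3), (65, 2), (66, 2), (67, 3)]⟩]),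
  (90, 6174, 6627, [
    ⟨1044, 128, 640, 359, 46, 69, [(0, 3), (72, 1), (73, 2), (35, 1), (36, 2), (37, 3), (38, 2), (39, 2), (40, 3), (41, 2), (42, 3), (43, 2), (44, 2), (45, 3), (46, 1)], [(46, 1), (47, 3), (48, 2), (49, 2), (50, 3), (51, 2), (52, 3), (53, 2), (54, 3), (55, 2), (56, 2), (57, 3), (58, 2), (59, 3), (60, 2), (61, 2), (62, 3), (63, 2), (64, 3), (65, 2), (66, 3), (67, 2), (68, 2)]⟩,
    ⟨4944, 128, 512, 375, 11, 69, [(0, 3), (1, 1), (2, 3), (3, 2), (4, 3), (5, 2), (6, 2), (7, 3), (8, 2), (9, 3), (10, 2), (11, 2)], [(12, 3), (13, 2), (14, 3), (48, 2), (49, 2), (50, 3), (51, 2), (52, 3), (53, 2), (54, 3), (55, 2), (56, 2), (57, 3), (58, 2), (59, 3), (60, 2), (61, 2), (62, 3), (63, 2), (64, 3), (65, 2), (66, 3), (67, 2), (68, 2)]⟩,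
    ⟨0, 128, 128, 391, 52, 69, [(0, 3), (18, 1), (0, 1), (19, 2), (20, 2), (21, 3), (22, 2), (23, 2), (24, 3), (25, 2), (26, 3), (27, 2), (28, 2), (29, 3), (30, 2), (31, 3), (32, 2), (33, 2), (34, 3), (51, 2), (52, 2)], [(52, 1), (53, 2), (54, 3), (55, 2), (56, 2), (57, 3), (58, 2), (59, 3), (60, 2), (61, 2), (62, 3), (63, 2), (64, 3), (65, 2), (66, 3), (67, 2), (68, 1)]⟩]),
  (100, 6549, 6985, [
    ⟨1230, 128, 640, 359, 47, 69, [(0, 3), (72, 2), (73, 1), (35, 1), (36, 3), (37, 2), (38, 3), (39, 2), (40, 3), (41, 3), (42, 2), (43, 3), (44, 2), (45, 3), (46, 2), (47, 3)], [(48, 2), (49, 3), (50, 3), (51, 2), (52, 3), (53, 2), (54, 3), (55, 2), (56, 3), (57, 2), (58, 3), (59, 3), (60, 2), (61, 3), (62, 2), (63, 3), (64, 2), (65, 3), (66, 2), (67, 3), (68, 3)]⟩,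
    ⟨7902, 128, 512, 359, 11, 69, [(0, 3), (1, 2), (2, 2), (3, 3), (4, 2), (5, 3), (6, 2), (7, 3), (8, 3), (9, 2), (10, 3), (11, 2)], [(12, 3), (13, 2), (14, 3), (15, 1), (48, 1), (49, 3), (50, 3), (51, 2), (52, 3), (53, 2), (54, 3), (55, 2), (56, 3), (57, 2), (58, 3), (59, 3), (60, 2), (61, 3), (62, 2), (63, 3), (64, 2), (65, 3), (66, 2), (67, 3), (68, 3)]⟩,
    ⟨0, 128, 0, 391, 52, 69, [(0, 9), (20, 1), (0, 1), (21, 1), (0, 1), (22, 2), (23, 2), (24, 3), (25, 3), (26, 2), (27, 3), (28, 2), (29, 3), (30, 2), (31, 3), (32, 2), (33, 3), (34, 3), (51, 2), (52, 1)], [(52, 2), (53, 2), (54, 3), (55, 2), (56, 3), (57, 2), (58, 3), (59, 3), (60, 2), (61, 3), (62, 2), (63, 3), (64, 2), (65, 3), (66, 2), (67, 3), (68, 1)]⟩])]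

theorem gok2150 : allN 2201 2253 975686 pf2150 60 gs2150 = true := by decide +kernel

theorem mid2150 {N : ℕ} {z w : Fin N → ℂ} {R : ℝ} {σ : Fin N → ℂ} (hC : Cfg2 N z w R σ)
    (hN0 : 60 ≤ N) (hN1 : N < 100) (h0 : 43 / 20 ≤ R) (h1 : R ≤ 11 / 5) :
    False := by
  have hN : 1 ≤ N := by omega
  have hw := hC.cfg.far
  have ht := hC.dist.le
  have hpf : ∀ p ∈ pf2150, Ok N w R p := ok_append (ok_pfs (ln389_2150_ok h0 h1 hN hw ht) (ln205_2150_ok h0 h1 hN hw ht) (by simp)) (ok_append (ok_pf4 (pt2150_ok h0 h1 hN hw ht)) (ok_pf4 (pu2150_ok h0 h1 hN hw ht)))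
  have hR : 0 < R := by linarith
  have hm2 : 2 / R ≤ 2 / (43 / 20) := div_le_div_of_nonneg_left (by norm_num) (by norm_num) h0
  have hm := (m1_le_two hN hC hR).trans hm2
  norm_num at hm
  exact allN_sound hC (by norm_num; linarith) (by norm_num; linarith) (by norm_num; linarith) hpf gs2150 60 gok2150 hN0 (by
    show N < 100
    exact hN1)

end Pool.Agent.Lib.MP_af3a4a_an.P1.CHK.H21.D60
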