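import Pool.Agent.Lib.MP_af3a4a_an.P1.CHK.H21.KL
import Pool.Agent.Lib.MP_af3a4a_an.P1.CHK.H39.Line9
import Pool.Agent.Lib.MP_af3a4a_an.P1.CHK.H39.Pt4
import Pool.Agent.Lib.MP_af3a4a_an.P1.CHK.H39.Pt5
import Pool.Agent.Lib.MP_af3a4a_an.P1.CHK.H39.Pt7

/-!
# Data, `60 ≤ N < 100`, `11 / 5 ≤ R ≤ 49 / 20` (helper21)
-/

set_option autoImplicit false

namespace Pool.Agent.Lib.MP_af3a4a_an.P1.CHK.H21.D60

open Pool.Agent.Lib.MP_af3a4a_an.SV (uu av)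
open Pool.Agent.Lib.MP_af3a4a_an.P1.H80
open Pool.Agent.Lib.MP_af3a4a_an.P1.H74
open Pool.Agent.Lib.MP_af3a4a_an.P1.CHK.H39.Tab
open Pool.Agent.Lib.MP_af3a4a_an.P1.CHK.H39.TabS

/-- profiles, `11 / 5 ≤ R ≤ 9 / 4` -/
def pf2200 : List Pf := (pfs 51 ln389_2200 ln205_2200 []) ++ (pf4 102 pt2200 ++ pf4 51 pu2200)

def gs2200 : List (ℕ × ℕ × ℕ × List En) := [
  (64, 5287, 5525, [
    ⟨622, 128, 640, 367, 46, 70, [(0, 3), (73, 1), (74, 1), (35, 1), (36, 2), (37, 2), (38, 2), (39, 2), (40, 2), (41, 2), (42, 2), (43, 2), (44, 2), (45, 2), (46, 2)], [(47, 2), (48, 3), (49, 2), (50, 2), (51, 2), (52, 2), (53, 2), (54, 2), (55, 2), (56, 2), (57, 2), (58, 2), (59, 2), (60, 2), (61, 2), (62, 2), (63, 3), (64, 2), (65, 2), (66, 2), (67, 2), (68, 2), (69, 2)]⟩,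
    ⟨1722, 128, 512, 367, 12, 70, [(0, 3), (1, 1), (2, 2), (3, 2), (4, 2), (5, 2), (6, 2), (7, 2), (8, 2), (9, 2), (10, 2), (11, 2), (12, 2)], [(46, 2), (47, 2), (48, 3), (49, 2), (50, 2), (51, 2), (52, 2), (53, 2), (54, 2), (55, 2), (56, 2), (57, 2), (58, 2), (59, 2), (60, 2), (61, 2), (62, 2), (63, 3), (64, 2), (65, 2), (66, 2), (67, 2), (68, 2), (69, 2)]⟩,
    ⟨0, 128, 384, 399, 52, 70, [(0, 3), (18, 1), (19, 2), (20, 2), (21, 2), (22, 1), (5, 1), (6, 2), (7, 2), (8, 2), (9, 2), (10, 2), (11, 2), (12, 2), (13, 2), (14, 2), (15, 3), (16, 2), (17, 2), (51, 2), (52, 1)], [(52, 1), (53, 2), (54, 2), (55, 2), (56, 2), (57, 2), (58, 2), (59, 2), (60, 2), (61, 2), (62, 2), (63, 3), (64, 2), (65, 2), (66, 2), (67, 2), (68, 2)]⟩]),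
  (72, 5461, 5860, [
    ⟨698, 128, 640, 375, 46, 70, [(0, 3), (73, 1), (74, 1), (35, 1), (36, 2), (37, 2), (38, 2), (39, 2), (40, 3), (41, 2), (42, 2), (43, 2), (44, 2), (45, 2), (46, 1)], [(46, 1), (47, 2), (48, 3), (49, 2), (50, 2), (51, 2), (52, 2), (53, 2), (54, 2), (55, 3), (56, 2), (57, 2), (58, 2), (59, 2), (60, 2), (61, 2), (62, 2), (63, 3), (64, 2), (65, 2), (66, 2), (67, 2), (68, 2), (69, 2)]⟩,
    ⟨2166, 128, 512, 375, 11, 70, [(0, 3), (1, 1), (2, 2), (3, 2), (4, 2), (5, 2), (6, 2), (7, 3), (8, 2), (9, 2), (10, 2), (11, 2)], [(12, 2), (13, 2), (47, 2), (48, 3), (49, 2), (50, 2), (51, 2), (52, 2), (53, 2), (54, 2), (55, 3), (56, 2), (57, 2), (58, 2), (59, 2), (60, 2), (61, 2), (62, 2), (63, 3), (64, 2), (65, 2), (66, 2), (67, 2), (68, 2), (69, 2)]⟩,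
    ⟨0, 128, 384, 399, 52, 70, [(0, 3), (18, 1), (19, 2), (20, 2), (21, 2), (22, 2), (23, 2), (24, 3), (25, 1), (8, 1), (26, 1), (9, 1), (10, 2), (11, 2), (12, 2), (13, 2), (14, 2), (15, 3), (16, 2), (17, 2), (51, 2), (52, 1)], [(52, 1), (53, 2), (54, 2), (55, 3), (56, 2), (57, 2), (58, 2), (59, 2), (60, 2), (61, 2), (62, 2), (63, 3), (64, 2), (65, 2), (66, 2), (67, 2), (68, 2), (69, 1)]⟩]),
  (80, 5792, 6177, [
    ⟨858, 128, 640, 367, 46, 70, [(0, 3), (73, 1), (74, 1), (35, 1), (36, 3), (37, 2), (38, 2), (39, 2), (40, 3), (41, 2), (42, 2), (43, 2), (44, 3), (45, 2), (46, 1)], [(46, 1), (47, 2), (48, 3), (49, 2), (50, 2), (51, 2), (52, 3), (53, 2), (54, 2), (55, 3), (56, 2), (57, 2), (58, 2), (59, 3), (60, 2), (61, 2), (62, 2), (63, 3), (64, 2), (65, 2), (66, 2), (67, 3), (68, 2), (69, 2)]⟩,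
    ⟨3306, 128, 512, 367, 11, 70, [(0, 3), (1, 1), (2, 2), (3, 3), (4, 2), (5, 2), (6, 2), (7, 3), (8, 2), (9, 2), (10, 2), (11, 3)], [(12, 2), (13, 2), (14, 2), (48, 3), (49, 2), (50, 2), (51, 2), (52, 3), (53, 2), (54, 2), (55, 3), (56, 2), (57, 2), (58, 2), (59, 3), (60, 2), (61, 2), (62, 2), (63, 3), (64, 2), (65, 2), (66, 2), (67, 3), (68, 2), (69, 2)]⟩,
    ⟨0, 128, 256, 399, 52, 70, [(0, 3), (18, 1), (19, 2), (20, 3), (21, 2), (22, 2), (23, 2), (24, 3), (25, 2), (26, 2), (27, 2), (28, 3), (29, 2), (30, 2), (31, 2), (32, 3), (33, 2), (17, 2), (51, 2), (52, 2)], [(52, 1), (53, 2), (54, 2), (55, 3), (56, 2), (57, 2), (58, 2), (59, 3), (60, 2), (61, 2), (62, 2), (63, 3), (64, 2), (65, 2), (66, 2), (67, 3), (68, 2)]⟩]),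
  (90, 6105, 6551, [
    ⟨1008, 128, 640, 359, 46, 70, [(0, 3), (73, 1), (74, 2), (35, 1), (36, 2), (37, 2), (38, 3), (39, 2), (40, 3), (41, 2), (42, 2), (43, 3), (44, 2), (45, 3), (46, 1)], [(46, 1), (47, 2), (48, 3), (49, 2), (50, 2), (51, 3), (52, 2), (53, 3), (54, 2), (55, 2), (56, 3), (57, 2), (58, 2), (59, 3), (60, 2), (61, 3), (62, 2), (63, 2), (64, 3), (65, 2), (66, 3), (67, 2), (68, 2), (69, 3)]⟩,
    ⟨4678, 128, 512, 359, 10, 70, [(0, 3), (1, 1), (2, 3), (3, 2), (4, 2), (5, 3), (6, 2), (7, 3), (8, 2), (9, 2), (10, 3)], [(11, 2), (12, 3), (13, 2), (14, 2), (48, 3), (49, 2), (50, 2), (51, 3), (52, 2), (53, 3), (54, 2), (55, 2), (56, 3), (57, 2), (58, 2), (59, 3), (60, 2), (61, 3), (62, 2), (63, 2), (64, 3), (65, 2), (66, 3), (67, 2), (68, 2), (69, 3)]⟩,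
    ⟨0, 128, 128, 399, 52, 70, [(0, 3), (18, 1), (19, 3), (20, 2), (21, 2), (22, 3), (23, 2), (24, 3), (25, 2), (26, 2), (27, 3), (28, 2), (29, 3), (30, 2), (31, 2), (32, 3), (33, 2), (34, 2), (51, 3), (52, 1)], [(52, 1), (53, 3), (54, 2), (55, 2), (56, 3), (57, 2), (58, 2), (59, 3), (60, 2), (61, 3), (62, 2), (63, 2), (64, 3), (65, 2), (66, 3), (67, 2), (68, 2), (69, 1)]⟩]),
  (100, 6476, 6906, [
    ⟨1196, 128, 640, 359, 46, 70, [(0, 3), (73, 2), (74, 1), (35, 1), (36, 3), (37, 2), (38, 3), (39, 2), (40, 3), (41, 2), (42, 3), (43, 2), (44, 3), (45, 2), (46, 1)], [(46, 2), (47, 2), (48, 3), (49, 2), (50, 3), (51, 3), (52, 2), (53, 3), (54, 2), (55, 3), (56, 2), (57, 3), (58, 2), (59, 3), (60, 2), (61, 3), (62, 2), (63, 3), (64, 2), (65, 3), (66, 3), (67, 2), (68, 3), (69, 2)]⟩,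
    ⟨7026, 128, 512, 367, 11, 70, [(0, 3), (1, 2), (2, 2), (3, 3), (4, 2), (5, 3), (6, 2), (7, 3), (8, 2), (9, 3), (10, 2), (11, 2)], [(11, 1), (12, 2), (13, 3), (14, 2), (15, 3), (49, 2), (50, 3), (51, 3), (52, 2), (53, 3), (54, 2), (55, 3), (56, 2), (57, 3), (58, 2), (59, 3), (60, 2), (61, 3), (62, 2), (63, 3), (64, 2), (65, 3), (66, 3), (67, 2), (68, 3), (69, 2)]⟩,
    ⟨0, 128, 0, 399, 52, 70, [(0, 6), (19, 1), (0, 1), (20, 2), (21, 2), (22, 3), (23, 2), (24, 3), (25, 2), (26, 3), (27, 2), (28, 3), (29, 2), (30, 3), (31, 2), (32, 3), (33, 2), (34, 3), (51, 3), (52, 1)], [(52, 1), (53, 3), (54, 2), (55, 3), (56, 2), (57, 3), (58, 2), (59, 3), (60, 2), (61, 3), (62, 2), (63, 3), (64, 2), (65, 3), (66, 3), (67, 2), (68, 3)]⟩])]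

theorem gok2200 : allN 2252 2304 953590 pf2200 60 gs2200 = true := by decide +kernel

theorem mid2200 {N : ℕ} {z w : Fin N → ℂ} {R : ℝ} {σ : Fin N → ℂ} (hC : Cfg2 N z w R σ)
    (hN0 : 60 ≤ N) (hN1 : N < 100) (h0 : 11 / 5 ≤ R) (h1 : R ≤ 9 / 4) :
    False := by
  have hN : 1 ≤ N := by omega
  have hw := hC.cfg.far
  have ht := hC.dist.le
  have hpf : ∀ p ∈ pf2200, Ok N w R p := ok_append (ok_pfs (ln389_2200_ok h0 h1 hN hw ht) (ln205_2200_ok h0 h1 hN hw ht) (by simp)) (ok_append (ok_pf4 (pt2200_ok h0 h1 hN hw ht)) (ok_pf4 (pu2200_ok h0 h1 hN hw ht)))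
  have hR : 0 < R := by linarith
  have hm2 : 2 / R ≤ 2 / (11 / 5) := div_le_div_of_nonneg_left (by norm_num) (by norm_num) h0
  have hm := (m1_le_two hN hC hR).trans hm2
  norm_num at hm
  exact allN_sound hC (by norm_num; linarith) (by norm_num; linarith) (by norm_num; linarith) hpf gs2200 60 gok2200 hN0 (by
    show N < 100
    exact hN1)

/-- profiles, `9 / 4 ≤ R ≤ 23 / 10` -/
def pf2250 : List Pf := (pfs 50 ln389_2250 ln205_2250 []) ++ (pf4 102 pt2250 ++ pf4 51 pu2250)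

def gs2250 : List (ℕ × ℕ × ℕ × List En) := [
  (64, 5229, 5462, [
    ⟨598, 128, 640, 367, 46, 71, [(0, 3), (75, 1), (76, 1), (35, 1), (36, 2), (37, 2), (38, 2), (39, 2), (40, 2), (41, 2), (42, 2), (43, 2), (44, 2), (45, 2), (46, 1)], [(46, 1), (47, 2), (48, 2), (49, 2), (50, 2), (51, 2), (52, 2), (53, 2), (54, 2), (55, 2), (56, 3), (57, 2), (58, 2), (59, 2), (60, 2), (61, 2), (62, 2), (63, 2), (64, 2), (65, 2), (66, 2), (67, 2), (68, 2), (69, 2), (70, 2)]⟩,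
    ⟨1630, 128, 512, 367, 12, 71, [(0, 3), (1, 1), (2, 2), (3, 2), (4, 2), (5, 2), (6, 2), (7, 2), (8, 2), (9, 2), (10, 2), (11, 2), (12, 2)], [(46, 2), (47, 2), (48, 2), (49, 2), (50, 2), (51, 2), (52, 2), (53, 2), (54, 2), (55, 2), (56, 3), (57, 2), (58, 2), (59, 2), (60, 2), (61, 2), (62, 2), (63, 2), (64, 2), (65, 2), (66, 2), (67, 2), (68, 2), (69, 2), (70, 2)]⟩,
    ⟨8334, 128, 384, 367, 10, 71, [(0, 3), (18, 1), (19, 2), (20, 2), (21, 1), (4, 1), (22, 1), (5, 1), (6, 2), (7, 2), (8, 2), (9, 2), (10, 2)], [(11, 2), (12, 2), (13, 2), (14, 2), (15, 2), (16, 2), (17, 2), (51, 2), (52, 2), (53, 2), (54, 2), (55, 2), (56, 3), (57, 2), (58, 2), (59, 2), (60, 2), (61, 2), (62, 2), (63, 2), (64, 2), (65, 2), (66, 2), (67, 2), (68, 2), (69, 2), (70, 2)]⟩,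
    ⟨0, 128, 0, 399, 52, 71, [(0, 19), (26, 1), (27, 2), (28, 2), (29, 2), (30, 2), (31, 2), (32, 2), (33, 2), (34, 2), (0, 3)], [(52, 1), (53, 2), (54, 2), (55, 2), (56, 3), (57, 2), (58, 2), (59, 2), (60, 2), (61, 2), (62, 2), (63, 2), (64, 2), (65, 2), (66, 2), (67, 2), (68, 2), (69, 2)]⟩]),
  (72, 5400, 5793, [
    ⟨668, 128, 640, 359, 46, 71, [(0, 3), (75, 1), (76, 1), (35, 1), (36, 2), (37, 2), (38, 2), (39, 2), (40, 2), (41, 2), (42, 3), (43, 2), (44, 2), (45, 2), (46, 1)], [(46, 1), (47, 2), (48, 2), (49, 2), (50, 2), (51, 3), (52, 2), (53, 2), (54, 2), (55, 2), (56, 2), (57, 2), (58, 2), (59, 2), (60, 3), (61, 2), (62, 2), (63, 2), (64, 2), (65, 2), (66, 2), (67, 2), (68, 2), (69, 3), (70, 2)]⟩,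
    ⟨2016, 128, 512, 359, 11, 71, [(0, 3), (1, 1), (2, 2), (3, 2), (4, 2), (5, 2), (6, 2), (7, 2), (8, 2), (9, 3), (10, 2), (11, 2)], [(12, 2), (13, 2), (47, 2), (48, 2), (49, 2), (50, 2), (51, 3), (52, 2), (53, 2), (54, 2), (55, 2), (56, 2), (57, 2), (58, 2), (59, 2), (60, 3), (61, 2), (62, 2), (63, 2), (64, 2), (65, 2), (66, 2), (67, 2), (68, 2), (69, 3), (70, 2)]⟩,
    ⟨0, 128, 384, 399, 52, 71, [(0, 3), (18, 1), (19, 2), (20, 2), (21, 2), (22, 2), (23, 2), (24, 2), (25, 1), (8, 1), (9, 3), (10, 2), (11, 2), (12, 2), (13, 2), (14, 2), (15, 2), (16, 2), (17, 2), (51, 3), (52, 1)], [(52, 1), (53, 2), (54, 2), (55, 2), (56, 2), (57, 2), (58, 2), (59, 2), (60, 3), (61, 2), (62, 2), (63, 2), (64, 2), (65, 2), (66, 2), (67, 2), (68, 2), (69, 3)]⟩]),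
  (80, 5728, 6106, [
    ⟨828, 128, 640, 359, 46, 71, [(0, 3), (75, 1), (76, 1), (35, 1), (36, 2), (37, 3), (38, 2), (39, 2), (40, 2), (41, 3), (42, 2), (43, 2), (44, 2), (45, 3), (46, 1)], [(46, 1), (47, 2), (48, 2), (49, 3), (50, 2), (51, 2), (52, 2), (53, 2), (54, 3), (55, 2), (56, 2), (57, 2), (58, 3), (59, 2), (60, 2), (61, 2), (62, 3), (63, 2), (64, 2), (65, 2), (66, 3), (67, 2), (68, 2), (69, 2), (70, 2)]⟩,
    ⟨3108, 128, 512, 375, 11, 71, [(0, 3), (1, 1), (2, 2), (3, 2), (4, 3), (5, 2), (6, 2), (7, 2), (8, 3), (9, 2), (10, 2), (11, 2)], [(12, 3), (13, 2), (14, 2), (48, 2), (49, 3), (50, 2), (51, 2), (52, 2), (53, 2), (54, 3), (55, 2), (56, 2), (57, 2), (58, 3), (59, 2), (60, 2), (61, 2), (62, 3), (63, 2), (64, 2), (65, 2), (66, 3), (67, 2), (68, 2), (69, 2), (70, 2)]⟩,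
    ⟨0, 128, 256, 399, 52, 71, [(0, 3), (18, 1), (19, 2), (20, 2), (21, 3), (22, 2), (23, 2), (24, 2), (25, 3), (26, 2), (27, 2), (28, 2), (29, 3), (30, 2), (31, 2), (32, 2), (33, 1), (16, 2), (17, 2), (51, 2), (52, 1)], [(52, 1), (53, 2), (54, 3), (55, 2), (56, 2), (57, 2), (58, 3), (59, 2), (60, 2), (61, 2), (62, 3), (63, 2), (64, 2), (65, 2), (66, 3), (67, 2), (68, 2), (69, 2), (70, 1)]⟩]),
  (90, 6038, 6477, [
    ⟨978, 128, 640, 359, 46, 71, [(0, 3), (75, 1), (76, 2), (35, 1), (36, 2), (37, 2), (38, 3), (39, 2), (40, 2), (41, 3), (42, 2), (43, 2), (44, 3), (45, 2), (46, 2)], [(46, 1), (47, 2), (48, 2), (49, 3), (50, 2), (51, 2), (52, 3), (53, 2), (54, 2), (55, 3), (56, 2), (57, 2), (58, 3), (59, 2), (60, 3), (61, 2), (62, 2), (63, 3), (64, 2), (65, 2), (66, 3), (67, 2), (68, 2), (69, 3), (70, 2)]⟩,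
    ⟨4442, 128, 512, 367, 11, 71, [(0, 3), (1, 1), (2, 3), (3, 2), (4, 2), (5, 3), (6, 2), (7, 2), (8, 3), (9, 2), (10, 2), (11, 2)], [(11, 1), (12, 2), (13, 3), (14, 2), (15, 1), (48, 1), (49, 3), (50, 2), (51, 2), (52, 3), (53, 2), (54, 2), (55, 3), (56, 2), (57, 2), (58, 3), (59, 2), (60, 3), (61, 2), (62, 2), (63, 3), (64, 2), (65, 2), (66, 3), (67, 2), (68, 2), (69, 3), (70, 2)]⟩,
    ⟨0, 128, 128, 399, 52, 71, [(0, 3), (18, 1), (19, 3), (20, 2), (21, 2), (22, 3), (23, 2), (24, 2), (25, 3), (26, 2), (27, 2), (28, 3), (29, 2), (30, 3), (31, 2), (32, 2), (33, 3), (34, 2), (51, 2), (52, 2)], [(52, 1), (53, 2), (54, 2), (55, 3), (56, 2), (57, 2), (58, 3), (59, 2), (60, 3), (61, 2), (62, 2), (63, 3), (64, 2), (65, 2), (66, 3), (67, 2), (68, 2), (69, 3)]⟩]),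
  (100, 6404, 6827, [
    ⟨1166, 128, 640, 359, 46, 71, [(0, 3), (75, 1), (76, 2), (35, 1), (36, 3), (37, 2), (38, 2), (39, 3), (40, 3), (41, 2), (42, 3), (43, 2), (44, 2), (45, 3), (46, 2)], [(46, 1), (47, 2), (48, 3), (49, 2), (50, 3), (51, 2), (52, 3), (53, 2), (54, 3), (55, 2), (56, 3), (57, 2), (58, 3), (59, 2), (60, 3), (61, 2), (62, 3), (63, 2), (64, 3), (65, 2), (66, 3), (67, 2), (68, 3), (69, 2), (70, 3)]⟩,
    ⟨6586, 128, 512, 359, 11, 71, [(0, 3), (1, 1), (2, 3), (3, 3), (4, 2), (5, 2), (6, 3), (7, 3), (8, 2), (9, 3), (10, 2), (11, 1)], [(11, 1), (12, 3), (13, 3), (14, 2), (15, 3), (49, 2), (50, 3), (51, 2), (52, 3), (53, 2), (54, 3), (55, 2), (56, 3), (57, 2), (58, 3), (59, 2), (60, 3), (61, 2), (62, 3), (63, 2), (64, 3), (65, 2), (66, 3), (67, 2), (68, 3), (69, 2), (70, 3)]⟩,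
    ⟨0, 128, 0, 399, 52, 71, [(0, 6), (19, 1), (20, 3), (21, 2), (22, 2), (23, 3), (24, 3), (25, 2), (26, 3), (27, 2), (28, 2), (29, 3), (30, 3), (31, 2), (32, 3), (33, 2), (34, 3), (51, 2), (52, 1)], [(52, 2), (53, 2), (54, 3), (55, 2), (56, 3), (57, 2), (58, 3), (59, 2), (60, 3), (61, 2), (62, 3), (63, 2), (64, 3), (65, 2), (66, 3), (67, 2), (68, 3), (69, 2), (70, 1)]⟩])]

theorem gok2250 : allN 2304 2356 932068 pf2250 60 gs2250 = true := by decide +kernel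

theorem mid2250 {N : ℕ} {z w : Fin N → ℂ} {R : ℝ} {σ : Fin N → ℂ} (hC : Cfg2 N z w R σ)
    (hN0 : 60 ≤ N) (hN1 : N < 100) (h0 : 9 / 4 ≤ R) (h1 : R ≤ 23 / 10) :
    False := by
  have hN : 1 ≤ N := by omega
  have hw := hC.cfg.far
  have ht := hC.dist.le
  have hpf : ∀ p ∈ pf2250, Ok N w R p := ok_append (ok_pfs (ln389_2250_ok h0 h1 hN hw ht) (ln205_2250_ok h0 h1 hN hw ht) (by simp)) (ok_append (ok_pf4 (pt2250_ok h0 h1 hN hw ht)) (ok_pf4 (pu2250_ok h0 h1 hN hw ht)))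
  have hR : 0 < R := by linarith
  have hm2 : 2 / R ≤ 2 / (9 / 4) := div_le_div_of_nonneg_left (by norm_num) (by norm_num) h0
  have hm := (m1_le_two hN hC hR).trans hm2
  norm_num at hm
  exact allN_sound hC (by norm_num; linarith) (by norm_num; linarith) (by norm_num; linarith) hpf gs2250 60 gok2250 hN0 (by
    show N < 100
    exact hN1)

/-- profiles, `23 / 10 ≤ R ≤ 47 / 20` -/
def pf2300 : List Pf := (pfs 51 ln389_2300 ln205_2300 []) ++ (pf4 102 pt2300 ++ pf4 51 pu2300)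

def gs2300 : List (ℕ × ℕ × ℕ × List En) := [
  (64, 5173, 5402, [
    ⟨570, 128, 640, 375, 46, 72, [(0, 3), (76, 1), (77, 1), (35, 1), (36, 2), (37, 2), (38, 2), (39, 2), (40, 2), (41, 2), (42, 2), (43, 2), (44, 2), (45, 2), (46, 1)], [(46, 1), (47, 2), (48, 2), (49, 2), (50, 2), (51, 2), (52, 2), (53, 2), (54, 2), (55, 2), (56, 2), (57, 2), (58, 2), (59, 2), (60, 2), (61, 2), (62, 2), (63, 2), (64, 2), (65, 2), (66, 2), (67, 2), (68, 2), (69, 2), (70, 2), (71, 2)]⟩,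
    ⟨1532, 128, 512, 375, 12, 72, [(0, 3), (1, 1), (2, 2), (3, 2), (4, 2), (5, 2), (6, 2), (7, 2), (8, 2), (9, 2), (10, 2), (11, 2), (12, 1)], [(12, 1), (13, 1), (46, 1), (47, 2), (48, 2), (49, 2), (50, 2), (51, 2), (52, 2), (53, 2), (54, 2), (55, 2), (56, 2), (57, 2), (58, 2), (59, 2), (60, 2), (61, 2), (62, 2), (63, 2), (64, 2), (65, 2), (66, 2), (67, 2), (68, 2), (69, 2), (70, 2), (71, 2)]⟩,
    ⟨5998, 128, 512, 375, 10, 72, [(0, 3), (18, 1), (19, 2), (20, 1), (3, 1), (21, 1), (4, 1), (5, 2), (6, 2), (7, 2), (8, 2), (9, 2), (10, 2)], [(11, 2), (12, 2), (13, 2), (14, 2), (15, 2), (16, 2), (17, 2), (51, 2), (52, 2), (53, 2), (54, 2), (55, 2), (56, 2), (57, 2), (58, 2), (59, 2), (60, 2), (61, 2), (62, 2), (63, 2), (64, 2), (65, 2), (66, 2), (67, 2), (68, 2), (69, 2), (70, 2), (71, 2)]⟩,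
    ⟨0, 128, 128, 399, 52, 72, [(0, 5), (19, 1), (0, 1), (20, 1), (21, 2), (22, 2), (23, 2), (24, 2), (25, 2), (26, 2), (27, 2), (28, 2), (29, 2), (30, 2), (31, 2), (32, 2), (33, 2), (34, 2), (51, 2), (52, 1)], [(52, 1), (53, 2), (54, 2), (55, 2), (56, 2), (57, 2), (58, 2), (59, 2), (60, 2), (61, 2), (62, 2), (63, 2), (64, 2), (65, 2), (66, 2), (67, 2), (68, 2), (69, 2), (70, 2), (71, 1)]⟩]),
  (72, 5343, 5730, [
    ⟨636, 128, 640, 367, 46, 72, [(0, 3), (76, 1), (77, 1), (35, 1), (36, 2), (37, 2), (38, 2), (39, 2), (40, 2), (41, 2), (42, 2), (43, 2), (44, 3), (45, 2), (46, 1)], [(46, 1), (47, 2), (48, 2), (49, 2), (50, 2), (51, 2), (52, 2), (53, 2), (54, 2), (55, 3), (56, 2), (57, 2), (58, 2), (59, 2), (60, 2), (61, 2), (62, 2), (63, 2), (64, 2), (65, 2), (66, 2), (67, 3), (68, 2), (69, 2), (70, 2), (71, 2)]⟩,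
    ⟨1876, 128, 512, 367, 11, 72, [(0, 3), (1, 1), (2, 2), (3, 2), (4, 2), (5, 2), (6, 2), (7, 2), (8, 2), (9, 2), (10, 2), (11, 3)], [(12, 2), (13, 2), (47, 2), (48, 2), (49, 2), (50, 2), (51, 2), (52, 2), (53, 2), (54, 2), (55, 3), (56, 2), (57, 2), (58, 2), (59, 2), (60, 2), (61, 2), (62, 2), (63, 2), (64, 2), (65, 2), (66, 2), (67, 3), (68, 2), (69, 2), (70, 2), (71, 2)]⟩,
    ⟨0, 128, 384, 399, 52, 72, [(0, 3), (18, 1), (19, 2), (20, 2), (21, 2), (22, 2), (23, 1), (6, 1), (24, 1), (7, 1), (8, 2), (9, 2), (10, 2), (11, 3), (12, 2), (13, 2), (14, 2), (15, 2), (16, 2), (17, 2), (51, 2), (52, 1)], [(52, 1), (53, 2), (54, 2), (55, 3), (56, 2), (57, 2), (58, 2), (59, 2), (60, 2), (61, 2), (62, 2), (63, 2), (64, 2), (65, 2), (66, 2), (67, 3), (68, 2), (69, 2), (70, 2)]⟩]),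
  (80, 5667, 6040, [
    ⟨796, 128, 640, 359, 46, 72, [(0, 3), (76, 1), (77, 1), (35, 1), (36, 2), (37, 3), (38, 2), (39, 2), (40, 2), (41, 2), (42, 3), (43, 2), (44, 2), (45, 2), (46, 2)], [(46, 1), (47, 2), (48, 2), (49, 2), (50, 2), (51, 3), (52, 2), (53, 2), (54, 2), (55, 2), (56, 3), (57, 2), (58, 2), (59, 2), (60, 3), (61, 2), (62, 2), (63, 2), (64, 2), (65, 3), (66, 2), (67, 2), (68, 2), (69, 2), (70, 3), (71, 2)]⟩,
    ⟨2932, 128, 512, 359, 11, 72, [(0, 3), (1, 1), (2, 2), (3, 2), (4, 3), (5, 2), (6, 2), (7, 2), (8, 2), (9, 3), (10, 2), (11, 2)], [(12, 2), (13, 3), (14, 2), (48, 2), (49, 2), (50, 2), (51, 3), (52, 2), (53, 2), (54, 2), (55, 2), (56, 3), (57, 2), (58, 2), (59, 2), (60, 3), (61, 2), (62, 2), (63, 2), (64, 2), (65, 3), (66, 2), (67, 2), (68, 2), (69, 2), (70, 3), (71, 2)]⟩,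
    ⟨0, 128, 256, 399, 52, 72, [(0, 3), (18, 1), (19, 2), (20, 2), (21, 3), (22, 2), (23, 2), (24, 2), (25, 2), (26, 3), (27, 2), (28, 2), (29, 2), (30, 3), (31, 2), (15, 2), (16, 2), (17, 2), (51, 3), (52, 1)], [(52, 1), (53, 2), (54, 2), (55, 2), (56, 3), (57, 2), (58, 2), (59, 2), (60, 3), (61, 2), (62, 2), (63, 2), (64, 2), (65, 3), (66, 2), (67, 2), (68, 2), (69, 2), (70, 3)]⟩]),
  (90, 5973, 6406, [
    ⟨946, 128, 640, 359, 46, 72, [(0, 3), (76, 1), (77, 1), (35, 2), (36, 2), (37, 2), (38, 2), (39, 3), (40, 2), (41, 3), (42, 2), (43, 2), (44, 2), (45, 3), (46, 1)], [(46, 1), (47, 2), (48, 3), (49, 2), (50, 3), (51, 2), (52, 2), (53, 2), (54, 3), (55, 2), (56, 3), (57, 2), (58, 2), (59, 2), (60, 3), (61, 2), (62, 2), (63, 3), (64, 2), (65, 3), (66, 2), (67, 2), (68, 2), (69, 3), (70, 2), (71, 2)]⟩,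
    ⟨4202, 128, 512, 359, 11, 72, [(0, 3), (1, 1), (2, 3), (3, 2), (4, 2), (5, 2), (6, 3), (7, 2), (8, 3), (9, 2), (10, 2), (11, 2)], [(12, 3), (13, 2), (14, 2), (15, 3), (49, 2), (50, 3), (51, 2), (52, 2), (53, 2), (54, 3), (55, 2), (56, 3), (57, 2), (58, 2), (59, 2), (60, 3), (61, 2), (62, 2), (63, 3), (64, 2), (65, 3), (66, 2), (67, 2), (68, 2), (69, 3), (70, 2), (71, 2)]⟩,
    ⟨0, 128, 128, 399, 52, 72, [(0, 3), (18, 1), (19, 3), (20, 2), (21, 2), (22, 2), (23, 3), (24, 2), (25, 3), (26, 2), (27, 2), (28, 2), (29, 3), (30, 2), (31, 2), (32, 3), (33, 2), (34, 3), (51, 2), (52, 1)], [(52, 1), (53, 2), (54, 3), (55, 2), (56, 3), (57, 2), (58, 2), (59, 2), (60, 3), (61, 2), (62, 2), (63, 3), (64, 2), (65, 3), (66, 2), (67, 2), (68, 2), (69, 3), (70, 2), (71, 1)]⟩]),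
  (100, 6336, 6753, [
    ⟨1130, 128, 640, 359, 46, 72, [(0, 3), (76, 1), (77, 2), (35, 1), (36, 2), (37, 3), (38, 2), (39, 3), (40, 2), (41, 3), (42, 2), (43, 3), (44, 2), (45, 3), (46, 2)], [(47, 3), (48, 2), (49, 3), (50, 2), (51, 3), (52, 2), (53, 2), (54, 3), (55, 2), (56, 3), (57, 2), (58, 3), (59, 2), (60, 3), (61, 2), (62, 3), (63, 2), (64, 3), (65, 2), (66, 3), (67, 2), (68, 3), (69, 2), (70, 3), (71, 2)]⟩,
    ⟨6180, 128, 512, 359, 11, 72, [(0, 3), (1, 1), (2, 3), (3, 2), (4, 3), (5, 2), (6, 3), (7, 2), (8, 3), (9, 2), (10, 3), (11, 1)], [(11, 1), (12, 3), (13, 2), (14, 3), (15, 2), (16, 1), (49, 2), (50, 2), (51, 3), (52, 2), (53, 2), (54, 3), (55, 2), (56, 3), (57, 2), (58, 3), (59, 2), (60, 3), (61, 2), (62, 3), (63, 2), (64, 3), (65, 2), (66, 3), (67, 2), (68, 3), (69, 2), (70, 3), (71, 2)]⟩,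
    ⟨0, 128, 128, 399, 52, 72, [(0, 5), (19, 2), (20, 2), (21, 3), (22, 2), (23, 3), (24, 2), (25, 3), (26, 2), (27, 3), (28, 2), (29, 3), (30, 2), (31, 3), (32, 2), (33, 3), (34, 2), (51, 3), (52, 1)], [(52, 1), (53, 2), (54, 3), (55, 2), (56, 3), (57, 2), (58, 3), (59, 2), (60, 3), (61, 2), (62, 3), (63, 2), (64, 3), (65, 2), (66, 3), (67, 2), (68, 3), (69, 2), (70, 3)]⟩])]

theorem gok2300 : allN 2355 2407 911883 pf2300 60 gs2300 = true := by decide +kernel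

theorem mid2300 {N : ℕ} {z w : Fin N → ℂ} {R : ℝ} {σ : Fin N → ℂ} (hC : Cfg2 N z w R σ)
    (hN0 : 60 ≤ N) (hN1 : N < 100) (h0 : 23 / 10 ≤ R) (h1 : R ≤ 47 / 20) :
    False := by
  have hN : 1 ≤ N := by omega
  have hw := hC.cfg.far
  have ht := hC.dist.le
  have hpf : ∀ p ∈ pf2300, Ok N w R p := ok_append (ok_pfs (ln389_2300_ok h0 h1 hN hw ht) (ln205_2300_ok h0 h1 hN hw ht) (by simp)) (ok_append (ok_pf4 (pt2300_ok h0 h1 hN hw ht)) (ok_pf4 (pu2300_ok h0 h1 hN hw ht)))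
  have hR : 0 < R := by linarith
  have hm2 : 2 / R ≤ 2 / (23 / 10) := div_le_div_of_nonneg_left (by norm_num) (by norm_num) h0
  have hm := (m1_le_two hN hC hR).trans hm2
  norm_num at hm
  exact allN_sound hC (by norm_num; linarith) (by norm_num; linarith) (by norm_num; linarith) hpf gs2300 60 gok2300 hN0 (by
    show N < 100
    exact hN1)

/-- profiles, `47 / 20 ≤ R ≤ 12 / 5` -/
def pf2350 : List Pf := (pfs 52 ln389_2350 ln205_2350 []) ++ (pf4 102 pt2350)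

def gs2350 : List (ℕ × ℕ × ℕ × List En) := [
  (64, 5119, 5345, [
    ⟨538, 128, 640, 383, 45, 73, [(0, 3), (2, 2), (35, 1), (36, 2), (37, 1), (38, 2), (39, 2), (40, 3), (41, 2), (42, 1), (43, 2), (44, 2), (45, 3)], [(46, 2), (47, 1), (48, 2), (49, 2), (50, 3), (51, 2), (52, 1), (53, 2), (54, 2), (55, 3), (56, 1), (57, 2), (58, 2), (59, 2), (60, 3), (61, 1), (62, 2), (63, 2), (64, 2), (65, 3), (66, 1), (67, 2), (68, 2), (69, 2), (70, 3), (71, 1), (72, 2)]⟩,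
    ⟨1382, 128, 512, 383, 12, 73, [(0, 3), (2, 3), (3, 2), (4, 1), (5, 2), (6, 2), (7, 3), (8, 2), (9, 1), (10, 2), (11, 2), (12, 2)], [(12, 1), (13, 1), (46, 1), (47, 1), (48, 2), (49, 2), (50, 3), (51, 2), (52, 1), (53, 2), (54, 2), (55, 3), (56, 1), (57, 2), (58, 2), (59, 2), (60, 3), (61, 1), (62, 2), (63, 2), (64, 2), (65, 3), (66, 1), (67, 2), (68, 2), (69, 2), (70, 3), (71, 1), (72, 2)]⟩,
    ⟨4778, 128, 512, 383, 10, 73, [(0, 3), (19, 2), (2, 1), (20, 1), (3, 1), (4, 1), (5, 2), (6, 2), (7, 3), (8, 2), (9, 1), (10, 2)], [(11, 2), (12, 3), (13, 2), (14, 1), (15, 2), (16, 2), (17, 3), (51, 2), (52, 1), (53, 2), (54, 2), (55, 3), (56, 1), (57, 2), (58, 2), (59, 2), (60, 3), (61, 1), (62, 2), (63, 2), (64, 2), (65, 3), (66, 1), (67, 2), (68, 2), (69, 2), (70, 3), (71, 1), (72, 2)]⟩,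
    ⟨0, 128, 128, 399, 52, 73, [(0, 4), (19, 2), (20, 2), (21, 1), (22, 2), (23, 2), (24, 3), (25, 2), (26, 1), (27, 2), (28, 2), (29, 3), (30, 2), (31, 1), (32, 2), (33, 2), (34, 3), (51, 2), (52, 1)], [(53, 2), (54, 2), (55, 3), (56, 1), (57, 2), (58, 2), (59, 2), (60, 3), (61, 1), (62, 2), (63, 2), (64, 2), (65, 3), (66, 1), (67, 2), (68, 2), (69, 2), (70, 3), (71, 1), (72, 1)]⟩]),
  (72, 5287, 5669, [
    ⟨610, 128, 640, 359, 46, 73, [(0, 3), (1, 1), (2, 1), (35, 1), (36, 2), (37, 2), (38, 2), (39, 2), (40, 2), (41, 2), (42, 2), (43, 2), (44, 2), (45, 2), (46, 2)], [(47, 2), (48, 3), (49, 2), (50, 2), (51, 2), (52, 2), (53, 2), (54, 2), (55, 2), (56, 2), (57, 2), (58, 2), (59, 2), (60, 2), (61, 2), (62, 2), (63, 3), (64, 2), (65, 2), (66, 2), (67, 2), (68, 2), (69, 2), (70, 2), (71, 2), (72, 2)]⟩,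
    ⟨1774, 128, 512, 367, 12, 73, [(0, 3), (1, 1), (2, 2), (3, 2), (4, 2), (5, 2), (6, 2), (7, 2), (8, 2), (9, 2), (10, 2), (11, 2), (12, 2)], [(13, 2), (47, 2), (48, 3), (49, 2), (50, 2), (51, 2), (52, 2), (53, 2), (54, 2), (55, 2), (56, 2), (57, 2), (58, 2), (59, 2), (60, 2), (61, 2), (62, 2), (63, 3), (64, 2), (65, 2), (66, 2), (67, 2), (68, 2), (69, 2), (70, 2), (71, 2), (72, 2)]⟩,
    ⟨0, 128, 384, 399, 52, 73, [(0, 3), (18, 1), (19, 2), (20, 2), (21, 2), (22, 1), (5, 1), (23, 1), (6, 1), (7, 2), (8, 2), (9, 2), (10, 2), (11, 2), (12, 2), (13, 2), (14, 2), (15, 3), (16, 2), (17, 2), (51, 2), (52, 1)], [(52, 1), (53, 2), (54, 2), (55, 2), (56, 2), (57, 2), (58, 2), (59, 2), (60, 2), (61, 2), (62, 2), (63, 3), (64, 2), (65, 2), (66, 2), (67, 2), (68, 2), (69, 2), (70, 2), (71, 2)]⟩]),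
  (80, 5608, 5976, [
    ⟨768, 128, 640, 359, 46, 73, [(0, 3), (1, 1), (2, 1), (35, 1), (36, 2), (37, 2), (38, 3), (39, 2), (40, 2), (41, 2), (42, 2), (43, 3), (44, 2), (45, 2), (46, 1)], [(46, 1), (47, 2), (48, 3), (49, 2), (50, 2), (51, 2), (52, 2), (53, 2), (54, 3), (55, 2), (56, 2), (57, 2), (58, 2), (59, 3), (60, 2), (61, 2), (62, 2), (63, 2), (64, 3), (65, 2), (66, 2), (67, 2), (68, 2), (69, 3), (70, 2), (71, 2), (72, 2)]⟩,
    ⟨2772, 128, 512, 359, 11, 73, [(0, 3), (1, 1), (2, 2), (3, 2), (4, 2), (5, 3), (6, 2), (7, 2), (8, 2), (9, 2), (10, 3), (11, 2)], [(12, 2), (13, 2), (14, 2), (15, 1), (48, 2), (49, 2), (50, 2), (51, 2), (52, 2), (53, 2), (54, 3), (55, 2), (56, 2), (57, 2), (58, 2), (59, 3), (60, 2), (61, 2), (62, 2), (63, 2), (64, 3), (65, 2), (66, 2), (67, 2), (68, 2), (69, 3), (70, 2), (71, 2), (72, 2)]⟩,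
    ⟨0, 128, 256, 399, 52, 73, [(0, 3), (18, 1), (19, 2), (20, 2), (21, 2), (22, 3), (23, 2), (24, 2), (25, 2), (26, 2), (27, 3), (28, 2), (29, 2), (30, 2), (31, 1), (14, 1), (15, 3), (16, 2), (17, 2), (51, 2), (52, 1)], [(52, 1), (53, 2), (54, 3), (55, 2), (56, 2), (57, 2), (58, 2), (59, 3), (60, 2), (61, 2), (62, 2), (63, 2), (64, 3), (65, 2), (66, 2), (67, 2), (68, 2), (69, 3), (70, 2), (71, 2)]⟩]),
  (90, 5911, 6338, [
    ⟨920, 128, 640, 359, 45, 73, [(0, 3), (1, 1), (2, 1), (35, 1), (36, 3), (37, 2), (38, 2), (39, 3), (40, 2), (41, 2), (42, 3), (43, 2), (44, 2), (45, 3)], [(46, 2), (47, 2), (48, 2), (49, 3), (50, 2), (51, 2), (52, 3), (53, 2), (54, 2), (55, 3), (56, 2), (57, 2), (58, 3), (59, 2), (60, 2), (61, 2), (62, 3), (63, 2), (64, 2), (65, 3), (66, 2), (67, 2), (68, 3), (69, 2), (70, 2), (71, 3), (72, 2)]⟩,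
    ⟨4024, 128, 512, 359, 11, 73, [(0, 3), (1, 1), (2, 2), (3, 3), (4, 2), (5, 2), (6, 3), (7, 2), (8, 2), (9, 3), (10, 2), (11, 2)], [(12, 3), (13, 2), (14, 2), (15, 2), (49, 3), (50, 2), (51, 2), (52, 3), (53, 2), (54, 2), (55, 3), (56, 2), (57, 2), (58, 3), (59, 2), (60, 2), (61, 2), (62, 3), (63, 2), (64, 2), (65, 3), (66, 2), (67, 2), (68, 3), (69, 2), (70, 2), (71, 3), (72, 2)]⟩,
    ⟨0, 128, 128, 399, 52, 73, [(0, 3), (18, 1), (19, 2), (20, 3), (21, 2), (22, 2), (23, 3), (24, 2), (25, 2), (26, 3), (27, 2), (28, 2), (29, 3), (30, 2), (31, 2), (32, 2), (33, 3), (34, 2), (51, 2), (52, 2)], [(52, 1), (53, 2), (54, 2), (55, 3), (56, 2), (57, 2), (58, 3), (59, 2), (60, 2), (61, 2), (62, 3), (63, 2), (64, 2), (65, 3), (66, 2), (67, 2), (68, 3), (69, 2), (70, 2), (71, 3)]⟩]),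
  (100, 6270, 6681, [
    ⟨1104, 128, 640, 311, 46, 74, [(0, 3), (1, 1), (2, 2), (35, 1), (36, 2), (37, 3), (38, 2), (39, 3), (40, 2), (41, 3), (42, 2), (43, 2), (44, 3), (45, 2), (46, 2)], [(46, 1), (47, 2), (48, 3), (49, 2), (50, 3), (51, 2), (52, 2), (53, 3), (54, 2), (55, 3), (56, 2), (57, 3), (58, 2), (59, 3), (60, 2), (61, 3), (62, 2), (63, 2), (64, 3), (65, 2), (66, 3), (67, 2), (68, 3), (69, 2), (70, 3), (71, 2), (72, 2), (73, 3)]⟩,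
    ⟨5984, 128, 512, 311, 11, 74, [(0, 3), (1, 1), (2, 3), (3, 2), (4, 3), (5, 2), (6, 3), (7, 2), (8, 3), (9, 2), (10, 2), (11, 1)], [(11, 2), (12, 2), (13, 3), (14, 2), (15, 3), (16, 2), (50, 3), (51, 2), (52, 2), (53, 3), (54, 2), (55, 3), (56, 2), (57, 3), (58, 2), (59, 3), (60, 2), (61, 3), (62, 2), (63, 2), (64, 3), (65, 2), (66, 3), (67, 2), (68, 3), (69, 2), (70, 3), (71, 2), (72, 2), (73, 3)]⟩,
    ⟨0, 128, 128, 399, 52, 73, [(0, 5), (19, 2), (20, 2), (21, 3), (22, 2), (23, 3), (24, 2), (25, 3), (26, 2), (27, 2), (28, 3), (29, 2), (30, 3), (31, 2), (32, 3), (33, 2), (34, 3), (51, 2), (52, 1)], [(52, 1), (53, 3), (54, 2), (55, 3), (56, 2), (57, 3), (58, 2), (59, 3), (60, 2), (61, 3), (62, 2), (63, 2), (64, 3), (65, 2), (66, 3), (67, 2), (68, 3), (69, 2), (70, 3), (71, 2), (72, 1)]⟩])]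

theorem gok2350 : allN 2406 2458 892554 pf2350 60 gs2350 = true := by decide +kernel

theorem mid2350 {N : ℕ} {z w : Fin N → ℂ} {R : ℝ} {σ : Fin N → ℂ} (hC : Cfg2 N z w R σ)
    (hN0 : 60 ≤ N) (hN1 : N < 100) (h0 : 47 / 20 ≤ R) (h1 : R ≤ 12 / 5) :
    False := by
  have hN : 1 ≤ N := by omega
  have hw := hC.cfg.far
  have ht := hC.dist.le
  have hpf : ∀ p ∈ pf2350, Ok N w R p := ok_append (ok_pfs (ln389_2350_ok h0 h1 hN hw ht) (ln205_2350_ok h0 h1 hN hw ht) (by simp)) (ok_pf4 (pt2350_ok h0 h1 hN hw ht))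
  have hR : 0 < R := by linarith
  have hm2 : 2 / R ≤ 2 / (47 / 20) := div_le_div_of_nonneg_left (by norm_num) (by norm_num) h0
  have hm := (m1_le_two hN hC hR).trans hm2
  norm_num at hm
  exact allN_sound hC (by norm_num; linarith) (by norm_num; linarith) (by norm_num; linarith) hpf gs2350 60 gok2350 hN0 (by
    show N < 100
    exact hN1)

/-- profiles, `12 / 5 ≤ R ≤ 49 / 20` -/
def pf2400 : List Pf := (pfs 51 ln389_2400 ln205_2400 []) ++ (pf4 102 pt2400)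

def gs2400 : List (ℕ × ℕ × ℕ × List En) := [
  (64, 5067, 5289, [
    ⟨506, 128, 640, 359, 46, 74, [(0, 3), (2, 2), (36, 2), (37, 2), (38, 2), (39, 2), (40, 2), (41, 2), (42, 2), (43, 2), (44, 2), (45, 2), (46, 2)], [(47, 2), (48, 2), (49, 2), (50, 2), (51, 2), (52, 2), (53, 2), (54, 2), (55, 2), (56, 2), (57, 2), (58, 2), (59, 2), (60, 2), (61, 2), (62, 2), (63, 2), (64, 2), (65, 2), (66, 2), (67, 2), (68, 2), (69, 2), (70, 2), (71, 2), (72, 2), (73, 2)]⟩,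
    ⟨1252, 128, 512, 359, 12, 74, [(0, 3), (2, 2), (3, 2), (4, 2), (5, 2), (6, 2), (7, 2), (8, 2), (9, 2), (10, 2), (11, 2), (12, 2)], [(13, 1), (46, 1), (47, 2), (48, 2), (49, 2), (50, 2), (51, 2), (52, 2), (53, 2), (54, 2), (55, 2), (56, 2), (57, 2), (58, 2), (59, 2), (60, 2), (61, 2), (62, 2), (63, 2), (64, 2), (65, 2), (66, 2), (67, 2), (68, 2), (69, 2), (70, 2), (71, 2), (72, 2), (73, 2)]⟩,
    ⟨3976, 128, 512, 359, 11, 74, [(0, 3), (19, 2), (20, 1), (3, 1), (4, 2), (5, 2), (6, 2), (7, 2), (8, 2), (9, 2), (10, 2), (11, 2)], [(12, 2), (13, 2), (14, 2), (15, 2), (16, 2), (17, 2), (51, 2), (52, 2), (53, 2), (54, 2), (55, 2), (56, 2), (57, 2), (58, 2), (59, 2), (60, 2), (61, 2), (62, 2), (63, 2), (64, 2), (65, 2), (66, 2), (67, 2), (68, 2), (69, 2), (70, 2), (71, 2), (72, 2), (73, 2)]⟩,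
    ⟨0, 128, 128, 399, 52, 74, [(0, 3), (19, 2), (20, 2), (21, 2), (22, 2), (23, 2), (24, 2), (25, 2), (26, 2), (27, 2), (28, 2), (29, 2), (30, 2), (31, 2), (32, 2), (33, 2), (34, 2), (51, 2), (52, 1)], [(52, 1), (53, 2), (54, 2), (55, 2), (56, 2), (57, 2), (58, 2), (59, 2), (60, 2), (61, 2), (62, 2), (63, 2), (64, 2), (65, 2), (66, 2), (67, 2), (68, 2), (69, 2), (70, 2), (71, 2), (72, 2)]⟩]),
  (72, 5233, 5610, [
    ⟨584, 128, 640, 359, 46, 74, [(0, 3), (1, 1), (2, 1), (35, 1), (36, 2), (37, 2), (38, 2), (39, 2), (40, 2), (41, 2), (42, 2), (43, 2), (44, 2), (45, 2), (46, 1)], [(46, 1), (47, 2), (48, 2), (49, 2), (50, 2), (51, 2), (52, 2), (53, 2), (54, 2), (55, 3), (56, 2), (57, 2), (58, 2), (59, 2), (60, 2), (61, 2), (62, 2), (63, 2), (64, 2), (65, 2), (66, 2), (67, 2), (68, 2), (69, 2), (70, 2), (71, 2), (72, 2), (73, 2)]⟩,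
    ⟨1668, 128, 512, 367, 12, 74, [(0, 3), (1, 1), (2, 2), (3, 2), (4, 2), (5, 2), (6, 2), (7, 2), (8, 2), (9, 2), (10, 2), (11, 2), (12, 2)], [(13, 2), (47, 2), (48, 2), (49, 2), (50, 2), (51, 2), (52, 2), (53, 2), (54, 2), (55, 3), (56, 2), (57, 2), (58, 2), (59, 2), (60, 2), (61, 2), (62, 2), (63, 2), (64, 2), (65, 2), (66, 2), (67, 2), (68, 2), (69, 2), (70, 2), (71, 2), (72, 2), (73, 2)]⟩,
    ⟨7956, 128, 384, 375, 10, 74, [(0, 3), (18, 1), (19, 2), (20, 2), (21, 1), (4, 1), (22, 1), (5, 1), (6, 2), (7, 2), (8, 2), (9, 2), (10, 2)], [(11, 2), (12, 2), (13, 2), (14, 2), (15, 2), (16, 2), (17, 2), (51, 2), (52, 2), (53, 2), (54, 2), (55, 3), (56, 2), (57, 2), (58, 2), (59, 2), (60, 2), (61, 2), (62, 2), (63, 2), (64, 2), (65, 2), (66, 2), (67, 2), (68, 2), (69, 2), (70, 2), (71, 2), (72, 2), (73, 2)]⟩,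
    ⟨0, 128, 0, 399, 52, 74, [(0, 11), (22, 1), (0, 1), (23, 1), (24, 2), (25, 2), (26, 2), (27, 2), (28, 2), (29, 2), (30, 2), (31, 2), (32, 2), (33, 2), (34, 2), (0, 2), (52, 1)], [(52, 1), (53, 2), (54, 2), (55, 3), (56, 2), (57, 2), (58, 2), (59, 2), (60, 2), (61, 2), (62, 2), (63, 2), (64, 2), (65, 2), (66, 2), (67, 2), (68, 2), (69, 2), (70, 2), (71, 2), (72, 2), (73, 1)]⟩]),
  (80, 5550, 5913, [
    ⟨736, 128, 640, 359, 46, 74, [(0, 3), (1, 1), (2, 1), (35, 1), (36, 2), (37, 2), (38, 2), (39, 3), (40, 2), (41, 2), (42, 2), (43, 2), (44, 2), (45, 3), (46, 1)], [(46, 1), (47, 2), (48, 2), (49, 2), (50, 3), (51, 2), (52, 2), (53, 2), (54, 2), (55, 2), (56, 3), (57, 2), (58, 2), (59, 2), (60, 2), (61, 2), (62, 3), (63, 2), (64, 2), (65, 2), (66, 2), (67, 2), (68, 3), (69, 2), (70, 2), (71, 2), (72, 2), (73, 2)]⟩,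
    ⟨2576, 128, 512, 359, 11, 74, [(0, 3), (1, 1), (2, 2), (3, 2), (4, 2), (5, 2), (6, 3), (7, 2), (8, 2), (9, 2), (10, 2), (11, 2)], [(12, 3), (13, 2), (14, 2), (15, 1), (48, 1), (49, 2), (50, 3), (51, 2), (52, 2), (53, 2), (54, 2), (55, 2), (56, 3), (57, 2), (58, 2), (59, 2), (60, 2), (61, 2), (62, 3), (63, 2), (64, 2), (65, 2), (66, 2), (67, 2), (68, 3), (69, 2), (70, 2), (71, 2), (72, 2), (73, 2)]⟩,
    ⟨0, 128, 256, 399, 52, 74, [(0, 3), (18, 1), (19, 2), (20, 2), (21, 2), (22, 2), (23, 3), (24, 2), (25, 2), (26, 2), (27, 2), (28, 2), (29, 2), (12, 1), (13, 2), (14, 2), (15, 2), (16, 2), (17, 3), (51, 2), (52, 1)], [(52, 1), (53, 2), (54, 2), (55, 2), (56, 3), (57, 2), (58, 2), (59, 2), (60, 2), (61, 2), (62, 3), (63, 2), (64, 2), (65, 2), (66, 2), (67, 2), (68, 3), (69, 2), (70, 2), (71, 2), (72, 2), (73, 1)]⟩]),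
  (90, 5851, 6272, [
    ⟨886, 128, 640, 359, 46, 74, [(0, 3), (1, 1), (2, 1), (35, 1), (36, 3), (37, 2), (38, 2), (39, 2), (40, 3), (41, 2), (42, 2), (43, 3), (44, 2), (45, 2), (46, 2)], [(46, 1), (47, 2), (48, 2), (49, 2), (50, 3), (51, 2), (52, 2), (53, 2), (54, 3), (55, 2), (56, 2), (57, 3), (58, 2), (59, 2), (60, 3), (61, 2), (62, 2), (63, 2), (64, 3), (65, 2), (66, 2), (67, 2), (68, 3), (69, 2), (70, 2), (71, 3), (72, 2), (73, 2)]⟩,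
    ⟨3766, 128, 512, 359, 11, 74, [(0, 3), (1, 1), (2, 2), (3, 3), (4, 2), (5, 2), (6, 2), (7, 3), (8, 2), (9, 2), (10, 3), (11, 2)], [(12, 2), (13, 3), (14, 2), (15, 2), (49, 2), (50, 3), (51, 2), (52, 2), (53, 2), (54, 3), (55, 2), (56, 2), (57, 3), (58, 2), (59, 2), (60, 3), (61, 2), (62, 2), (63, 2), (64, 3), (65, 2), (66, 2), (67, 2), (68, 3), (69, 2), (70, 2), (71, 3), (72, 2), (73, 2)]⟩,
    ⟨0, 128, 128, 399, 52, 74, [(0, 3), (18, 1), (19, 2), (20, 3), (21, 2), (22, 2), (23, 2), (24, 3), (25, 2), (26, 2), (27, 3), (28, 2), (29, 2), (30, 3), (31, 2), (32, 2), (33, 2), (34, 3), (51, 2), (52, 1)], [(52, 1), (53, 2), (54, 3), (55, 2), (56, 2), (57, 3), (58, 2), (59, 2), (60, 3), (61, 2), (62, 2), (63, 2), (64, 3), (65, 2), (66, 2), (67, 2), (68, 3), (69, 2), (70, 2), (71, 3), (72, 2)]⟩]),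
  (100, 6206, 6611, [
    ⟨1072, 128, 640, 359, 45, 74, [(0, 3), (1, 1), (2, 2), (35, 1), (36, 2), (37, 3), (38, 2), (39, 2), (40, 3), (41, 2), (42, 3), (43, 2), (44, 3), (45, 2)], [(46, 2), (47, 3), (48, 2), (49, 3), (50, 2), (51, 3), (52, 2), (53, 2), (54, 3), (55, 2), (56, 3), (57, 2), (58, 3), (59, 2), (60, 2), (61, 3), (62, 2), (63, 3), (64, 2), (65, 3), (66, 2), (67, 2), (68, 3), (69, 2), (70, 3), (71, 2), (72, 2), (73, 3)]⟩,
    ⟨5662, 128, 512, 359, 11, 74, [(0, 3), (1, 1), (2, 3), (3, 2), (4, 3), (5, 2), (6, 2), (7, 3), (8, 2), (9, 3), (10, 2), (11, 1)], [(11, 2), (12, 2), (13, 2), (14, 3), (15, 2), (16, 3), (50, 2), (51, 3), (52, 2), (53, 2), (54, 3), (55, 2), (56, 3), (57, 2), (58, 3), (59, 2), (60, 2), (61, 3), (62, 2), (63, 3), (64, 2), (65, 3), (66, 2), (67, 2), (68, 3), (69, 2), (70, 3), (71, 2), (72, 2), (73, 3)]⟩,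
    ⟨0, 128, 128, 399, 52, 74, [(0, 3), (18, 1), (0, 1), (19, 2), (20, 2), (21, 3), (22, 2), (23, 2), (24, 3), (25, 2), (26, 3), (27, 2), (28, 3), (29, 2), (30, 2), (31, 3), (32, 2), (33, 3), (34, 2), (51, 3), (52, 1)], [(52, 1), (53, 2), (54, 3), (55, 2), (56, 3), (57, 2), (58, 3), (59, 2), (60, 2), (61, 3), (62, 2), (63, 3), (64, 2), (65, 3), (66, 2), (67, 2), (68, 3), (69, 2), (70, 3), (71, 2), (72, 2), (73, 1)]⟩])]

theorem gok2400 : allN 2457 2509 874027 pf2400 60 gs2400 = true := by decide +kernel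

theorem mid2400 {N : ℕ} {z w : Fin N → ℂ} {R : ℝ} {σ : Fin N → ℂ} (hC : Cfg2 N z w R σ)
    (hN0 : 60 ≤ N) (hN1 : N < 100) (h0 : 12 / 5 ≤ R) (h1 : R ≤ 49 / 20) :
    False := by
  have hN : 1 ≤ N := by omega
  have hw := hC.cfg.far
  have ht := hC.dist.le
  have hpf : ∀ p ∈ pf2400, Ok N w R p := ok_append (ok_pfs (ln389_2400_ok h0 h1 hN hw ht) (ln205_2400_ok h0 h1 hN hw ht) (by simp)) (ok_pf4 (pt2400_ok h0 h1 hN hw ht))
  have hR : 0 < R := by linarith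
  have hm2 : 2 / R ≤ 2 / (12 / 5) := div_le_div_of_nonneg_left (by norm_num) (by norm_num) h0
  have hm := (m1_le_two hN hC hR).trans hm2
  norm_num at hm
  exact allN_sound hC (by norm_num; linarith) (by norm_num; linarith) (by norm_num; linarith) hpf gs2400 60 gok2400 hN0 (by
    show N < 100
    exact hN1)

end Pool.Agent.Lib.MP_af3a4a_an.P1.CHK.H21.D60
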