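import Pool.Agent.Lib.MP_af3a4a_an.P1.CHK.H21.D601
import Pool.Agent.Lib.MP_af3a4a_an.P1.CHK.H21.D602
import Pool.Agent.Lib.MP_af3a4a_an.P1.CHK.H21.D603
import Pool.Agent.Lib.MP_af3a4a_an.P1.CHK.H21.D604
import Pool.Agent.Lib.MP_af3a4a_an.P1.CHK.H21.D605
import Pool.Agent.Lib.MP_af3a4a_an.P1.CHK.H21.D606
import Pool.Agent.Lib.MP_af3a4a_an.P1.CHK.H21.D607

/-!
# `60 ≤ N < 100`, `4 / 5 ≤ R ≤ 49 / 20` (helper21)
-/

set_option autoImplicit false

namespace Pool.Agent.Lib.MP_af3a4a_an.P1.CHK.H21.D60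

open Pool.Agent.Lib.MP_af3a4a_an.SV (uu av)
open Pool.Agent.Lib.MP_af3a4a_an.P1.H80
open Pool.Agent.Lib.MP_af3a4a_an.P1.H74

/-- **`60 ≤ N < 100`, `4 / 5 ≤ R ≤ 49 / 20`** -/
theorem mid60 {N : ℕ} {z w : Fin N → ℂ} {R : ℝ} {σ : Fin N → ℂ} (hN0 : 60 ≤ N) (hN1 : N < 100)
    (hC : Cfg2 N z w R σ) (h0 : 4 / 5 ≤ R) (h1 : R ≤ 49 / 20)
    (hm : R < 17 / 10 → (av (uu w)).re ≤ R / 2) : False := by
  rcases lt_or_ge R (33 / 40) with g825 | g825
  · exact mid800 hC hN0 hN1 h0 g825.le (hm (by linarith))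
  rcases lt_or_ge R (17 / 20) with g850 | g850
  · exact mid825 hC hN0 hN1 g825 g850.le (hm (by linarith))
  rcases lt_or_ge R (7 / 8) with g875 | g875
  · exact mid850 hC hN0 hN1 g850 g875.le (hm (by linarith))
  rcases lt_or_ge R (9 / 10) with g900 | g900
  · exact mid875 hC hN0 hN1 g875 g900.le (hm (by linarith))
  rcases lt_or_ge R (37 / 40) with g925 | g925
  · exact mid900 hC hN0 hN1 g900 g925.le (hm (by linarith))
  rcases lt_or_ge R (19 / 20) with g950 | g950
  · exact mid925 hC hN0 hN1 g925 g950.le (hm (by linarith))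
  rcases lt_or_ge R (39 / 40) with g975 | g975
  · exact mid950 hC hN0 hN1 g950 g975.le (hm (by linarith))
  rcases lt_or_ge R (1) with g1000 | g1000
  · exact mid975 hC hN0 hN1 g975 g1000.le (hm (by linarith))
  rcases lt_or_ge R (41 / 40) with g1025 | g1025
  · exact mid1000 hC hN0 hN1 g1000 g1025.le (hm (by linarith))
  rcases lt_or_ge R (21 / 20) with g1050 | g1050
  · exact mid1025 hC hN0 hN1 g1025 g1050.le (hm (by linarith))
  rcases lt_or_ge R (43 / 40) with g1075 | g1075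
  · exact mid1050 hC hN0 hN1 g1050 g1075.le (hm (by linarith))
  rcases lt_or_ge R (11 / 10) with g1100 | g1100
  · exact mid1075 hC hN0 hN1 g1075 g1100.le (hm (by linarith))
  rcases lt_or_ge R (9 / 8) with g1125 | g1125
  · exact mid1100 hC hN0 hN1 g1100 g1125.le (hm (by linarith))
  rcases lt_or_ge R (23 / 20) with g1150 | g1150
  · exact mid1125 hC hN0 hN1 g1125 g1150.le (hm (by linarith))
  rcases lt_or_ge R (47 / 40) with g1175 | g1175
  · exact mid1150 hC hN0 hN1 g1150 g1175.le (hm (by linarith))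
  rcases lt_or_ge R (6 / 5) with g1200 | g1200
  · exact mid1175 hC hN0 hN1 g1175 g1200.le (hm (by linarith))
  rcases lt_or_ge R (5 / 4) with g1250 | g1250
  · exact mid1200 hC hN0 hN1 g1200 g1250.le (hm (by linarith))
  rcases lt_or_ge R (13 / 10) with g1300 | g1300
  · exact mid1250 hC hN0 hN1 g1250 g1300.le (hm (by linarith))
  rcases lt_or_ge R (27 / 20) with g1350 | g1350
  · exact mid1300 hC hN0 hN1 g1300 g1350.le (hm (by linarith))
  rcases lt_or_ge R (7 / 5) with g1400 | g1400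
  · exact mid1350 hC hN0 hN1 g1350 g1400.le (hm (by linarith))
  rcases lt_or_ge R (29 / 20) with g1450 | g1450
  · exact mid1400 hC hN0 hN1 g1400 g1450.le (hm (by linarith))
  rcases lt_or_ge R (3 / 2) with g1500 | g1500
  · exact mid1450 hC hN0 hN1 g1450 g1500.le (hm (by linarith))
  rcases lt_or_ge R (31 / 20) with g1550 | g1550
  · exact mid1500 hC hN0 hN1 g1500 g1550.le (hm (by linarith))
  rcases lt_or_ge R (8 / 5) with g1600 | g1600
  · exact mid1550 hC hN0 hN1 g1550 g1600.le (hm (by linarith))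
  rcases lt_or_ge R (33 / 20) with g1650 | g1650
  · exact mid1600 hC hN0 hN1 g1600 g1650.le (hm (by linarith))
  rcases lt_or_ge R (17 / 10) with g1700 | g1700
  · exact mid1650 hC hN0 hN1 g1650 g1700.le (hm (by linarith))
  rcases lt_or_ge R (7 / 4) with g1750 | g1750
  · exact mid1700 hC hN0 hN1 g1700 g1750.le
  rcases lt_or_ge R (9 / 5) with g1800 | g1800
  · exact mid1750 hC hN0 hN1 g1750 g1800.le
  rcases lt_or_ge R (37 / 20) with g1850 | g1850
  · exact mid1800 hC hN0 hN1 g1800 g1850.le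
  rcases lt_or_ge R (19 / 10) with g1900 | g1900
  · exact mid1850 hC hN0 hN1 g1850 g1900.le
  rcases lt_or_ge R (39 / 20) with g1950 | g1950
  · exact mid1900 hC hN0 hN1 g1900 g1950.le
  rcases lt_or_ge R (2) with g2000 | g2000
  · exact mid1950 hC hN0 hN1 g1950 g2000.le
  rcases lt_or_ge R (41 / 20) with g2050 | g2050
  · exact mid2000 hC hN0 hN1 g2000 g2050.le
  rcases lt_or_ge R (21 / 10) with g2100 | g2100
  · exact mid2050 hC hN0 hN1 g2050 g2100.le
  rcases lt_or_ge R (43 / 20) with g2150 | g2150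
  · exact mid2100 hC hN0 hN1 g2100 g2150.le
  rcases lt_or_ge R (11 / 5) with g2200 | g2200
  · exact mid2150 hC hN0 hN1 g2150 g2200.le
  rcases lt_or_ge R (9 / 4) with g2250 | g2250
  · exact mid2200 hC hN0 hN1 g2200 g2250.le
  rcases lt_or_ge R (23 / 10) with g2300 | g2300
  · exact mid2250 hC hN0 hN1 g2250 g2300.le
  rcases lt_or_ge R (47 / 20) with g2350 | g2350
  · exact mid2300 hC hN0 hN1 g2300 g2350.le
  rcases lt_or_ge R (12 / 5) with g2400 | g2400
  · exact mid2350 hC hN0 hN1 g2350 g2400.le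
  exact mid2400 hC hN0 hN1 g2400 h1

end Pool.Agent.Lib.MP_af3a4a_an.P1.CHK.H21.D60
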