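import Pool.Agent.Lib.MP_af3a4a_an.P1.CHK.H58.MD

/-!
# The Bool checker for `40 ≤ N < 100`, `R ∈ [4/5, 29/12]` (helper21, after helper58's MD)

`s, h, κ, β, θ, R, y, a, x-bounds of the profiles` in units of `2^-10`; `x, mx, S, K, ρ` in units
of `2^-20`; exponents, `E, U, V, T, W, Z` in units of `2^-40`.
-/

set_option autoImplicit false

namespace Pool.Agent.Lib.MP_af3a4a_an.P1.CHK.H21

open Pool.Agent.Lib.MP_af3a4a_an.P1.CHK.Arith
open Pool.Agent.Lib.MP_af3a4a_an.P1.CHK.H58.M (kapU xlo seg eA)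

/-- a profile: `|q(x)| ≤ exp(-N (c/1024 x²/M + g/1024 x m₁))` for `X0/1024 ≤ x ≤ X/1024` -/
structure Pf where
  (c g X0 X : ℕ)

def nth : List Pf → ℕ → (Pf → Bool) → Bool
  | [], _, _ => false
  | p :: _, 0, k => k p
  | _ :: l, n + 1, k => nth l n k

/-- node value of a profile -/
def eL (c g k0 h s : ℕ) : ℕ :=
  ev (c * (h * h) * 256) fun p =>
    es p (Nat.min ((c * (s * s) + g * s * k0) * 1024) (p + 70368744177664))

/-- upper bound of `M (1 + x m₁) / (1 - x²)` for `x ≤ xh` -/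
def kerU (M1 mx xh : ℕ) : ℕ :=
  (M1 * (1048576 + ((mx * xh) >>> 20 + 1))) * 1073741824 / (1099511627776 - xh * xh) + 1

/-- the kernel of a cell -/
def kf (fl : Bool) (M1 mx Sm gp gn R1 Ba Bb s s' : ℕ) : ℕ :=
  ev (s' * 1048576 / Ba + 1) fun xh => ev (kerU M1 mx xh) fun a =>
    bif fl then ev (kapU Sm gp gn R1 (xlo Bb s) xh) fun b => bif Nat.ble a b then a else b else a

/-- the segments of the mass part -/
def body (pf : List Pf) (Kf : ℕ → ℕ → ℕ) (Ba Bb Sq k0 yB h th : ℕ) :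
    List (ℕ × ℕ) → ℕ → ℕ → ℕ → (ℕ → ℕ → ℕ → Bool) → Bool
  | [], s, U, V, k => k s U V
  | q :: l, s, U, V, k =>
    bif Nat.beq q.1 0 then
      ev (eA Sq k0 s) fun E => seg (eA Sq k0) Kf yB h th q.2 s E U V
        fun s U V => body pf Kf Ba Bb Sq k0 yB h th l s U V k
    else nth pf (q.1 - 1) fun p =>
      Nat.ble (p.X0 * Bb) (s * 1024) && (Nat.ble ((s + q.2 * h) * 1024) (p.X * Ba) &&
      ev (eL p.c p.g k0 h s) fun E => seg (eL p.c p.g k0 h) Kf yB h th q.2 s E U V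
        fun s U V => body pf Kf Ba Bb Sq k0 yB h th l s U V k)

def segZ (e : ℕ → ℕ) (h : ℕ) : ℕ → ℕ → ℕ → ℕ → (ℕ → ℕ → Bool) → Bool
  | 0, s, _, Z, k => k s Z
  | n + 1, s, E, Z, k =>
    ev (s + h) fun s' => ev (e s') fun E' => ev (Z + ((h * (E + E')) >>> 11 + 1)) fun Z' =>
      segZ e h n s' E' Z' k

/-- the segments of the tail -/
def tail (pf : List Pf) (Ba Bb k0 h : ℕ) : List (ℕ × ℕ) → ℕ → ℕ → (ℕ → ℕ → Bool) → Bool
  | [], s, Z, k => k s Z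
  | q :: l, s, Z, k => nth pf (q.1 - 1) fun p =>
      Nat.ble (p.X0 * Bb) (s * 1024) && (Nat.ble ((s + q.2 * h) * 1024) (p.X * Ba) &&
      ev (eL p.c p.g k0 h s) fun E => segZ (eL p.c p.g k0 h) h q.2 s E Z
        fun s Z => tail pf Ba Bb k0 h l s Z k)

/-- a cell in `κ`: upper end, step, `θ`, length of the ray, profiles at the ends, segments;
`iG = 0`: the segments of the tail go beyond `R - a` -/
structure En where
  (k1 h th a i0 iG : ℕ)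
  (bd tl : List (ℕ × ℕ))

/-- a group; `mc` is the bound of `m₁` -/
structure Gr where
  (R0 R1 N0 N1 Ba Bb mc : ℕ)

/-- the final test -/
def fin (g : Gr) (mx rho S2 th a s U V T Z EG c sf : ℕ) : Bool :=
  ev (th * V / g.Ba + 1) fun X =>
  ev (T + U + X) fun L =>
  ev (Z + (EG * 524288 / (c * sf) + 1)) fun Z' =>
  ev (Nat.max 1024 g.R1 * g.Bb * Z' / 1048576 + 1) fun Q =>
  ev (a * a * 524288 + (a * a * (a * a) / 4 + 1) + (a * a * (a * a) * (a * a) / 4194304 + 1))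
    fun qa =>
  ev (g.N0 * (qa + a * mx * 1024) + 1099511627776 + a * (g.R1 - a - 1024) * 1048576 +
    a * mx * 1024) fun p =>
  ev (g.N0 * (a * (g.R0 - a) * 1048576) + a * 1073741824 + (g.R0 - a) * 1073741824) fun m =>
  ev (es p (Nat.min m (p + 70368744177664))) fun E =>
  Nat.ble th s && (Nat.ble L 1099511627776 &&
  (Nat.ble (qa + a * mx * 1024) (a * (g.R0 - a) * 1048576) &&
  Nat.ble ((rho + (th * S2 / g.Ba + 1)) * (Q + ((g.R1 - a) * E * g.N1 / (1024 * (g.N1 + 1)) + 1)))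
    ((1099511627776 - L) * 1048576)))

/-- one cell in `κ` -/
def one (g : Gr) (pf : List Pf) (k0 : ℕ) (e : En) : Bool :=
  ev (bif Nat.beq e.k1 0 then g.mc else
    Nat.min (e.k1 * 1073741824 / (Nat.max 1024 g.R0 * g.Ba) + 1) g.mc) fun mx =>
  ev (1048576 + 2 * mx) fun Sm =>
  ev (Nat.min (Nat.max 1024 g.R1 * 1024) Sm) fun Sq =>
  ev (Nat.min 1048576 (Sm * 1024 / g.R0 + 1)) fun S2 =>
  ev (Nat.min 1048576 (isq (mx * 2147483648 / g.R0 + 1))) fun rho =>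
  ev ((g.R0 - 1024) * 1048576 / g.R0) fun gp =>
  ev ((3 * g.R1 + (1048576 / g.R0 + 1) - 2048) * mx / 1024 + 1) fun gn =>
  ev (1000 * g.Ba) fun yB =>
  ev (Nat.max 1024 g.R1) fun M1 =>
  Nat.ble 1 e.h && (Nat.ble e.a 399 && (Nat.ble (g.R1 - e.a) 2150 && (Nat.ble e.a (2 * (g.R0 - e.a))
    && (Nat.ble (e.a + 1) g.R0 &&
  body pf (kf (Nat.ble 1024 g.R0) M1 mx Sm gp gn g.R1 g.Ba g.Bb) g.Ba g.Bb Sq k0 yB e.h e.th e.bd
    0 0 0 fun s U V =>
  nth pf (e.i0 - 1) fun p0 =>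
  Nat.ble (p0.X0 * g.Bb) (s * 1024) && (Nat.ble (s * 1024) (p0.X * g.Ba) &&
  ev (eL p0.c p0.g k0 0 s) fun T =>
  tail pf g.Ba g.Bb k0 e.h e.tl s 0 fun sf Z =>
  bif Nat.beq e.iG 0 then
    Nat.ble ((g.R1 - e.a) * g.Bb) (sf * 1024) && (Nat.ble (s * 1024) ((g.R0 - e.a) * g.Ba) &&
    fin g mx rho S2 e.th e.a s U V T Z 0 1 1)
  else
  nth pf (e.iG - 1) fun pG =>
  Nat.ble (pG.X0 * g.Bb) (sf * 1024) && (Nat.ble g.R1 (pG.X + e.a) &&
  (Nat.ble (sf * 1024) ((g.R0 - e.a) * g.Ba) && (Nat.ble 1 (pG.c * sf) &&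
  ev (em (Nat.min (pG.c * (sf * sf) * 1024) 70368744177664)) fun EG =>
  fin g mx rho S2 e.th e.a s U V T Z EG pG.c sf))))))))

def goK (g : Gr) (pf : List Pf) : ℕ → List En → Bool
  | _, [] => false
  | k0, e :: l => one g pf k0 e && bif Nat.beq e.k1 0 then true else goK g pf e.k1 l

/-- **the checker of a group** -/
def chk (g : Gr) (pf : List Pf) (l : List En) : Bool :=
  Nat.ble 40 g.N0 && (Nat.ble 1 g.Ba && (Nat.ble 1 g.R0 &&
  (Nat.ble (Nat.max 1024 g.R1 * (g.Ba * g.Ba)) (g.N0 * 1073741824) &&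
  (Nat.ble (g.N1 * 1073741824) (Nat.max 1024 g.R0 * (g.Bb * g.Bb)) &&
  (Nat.ble g.mc 1048576 && goK g pf 0 l)))))

/-- the profiles: lines `389`, `205`, pure -/
def pfs (X0 : ℕ) (A B P : List (ℕ × ℕ)) : List Pf :=
  A.map (fun q => ⟨389, q.2, X0, q.1⟩) ++ (B.map (fun q => ⟨205, q.2, X0, q.1⟩) ++
    P.map (fun q => ⟨q.2, 0, 0, q.1⟩))

end Pool.Agent.Lib.MP_af3a4a_an.P1.CHK.H21
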