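import Pool.Agent.Lib.MP_af3a4a_an.P1.CHK.H21.KS

/-!
# Soundness of the mass part and of the tail (helper21, after helper58)
-/

set_option autoImplicit false

namespace Pool.Agent.Lib.MP_af3a4a_an.P1.CHK.H21

open Finset MeasureTheory ComplexConjugate
open Pool.Agent.Lib.MP_af3a4a_an.SV (uu av)
open Pool.Agent.Lib.MP_af3a4a_an.P1.H80
open Pool.Agent.Lib.MP_af3a4a_an.P1.H74
open Pool.Agent.Lib.MP_af3a4a_an.P1.H81
open Pool.Agent.Lib.MP_af3a4a_an.P1.CHK.Arith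
open Pool.Agent.Lib.MP_af3a4a_an.P1.CHK.H58.M (kapU xlo seg eA Inv CellQ kapU_sound xlo_sound
  seg_sound node_le exp_chord)

theorem nth_sound {k : Pf → Bool} : ∀ (l : List Pf) (n : ℕ), nth l n k = true →
    ∃ p ∈ l, k p = true := by
  intro l
  induction l with
  | nil => intro n h; simp [nth] at h
  | cons p l ih =>
    intro n h
    cases n with
    | zero => exact ⟨p, List.mem_cons_self, by simpa [nth] using h⟩
    | succ n =>
      obtain ⟨q, hq, hk⟩ := ih n (by simpa [nth] using h)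
      exact ⟨q, List.mem_cons_of_mem _ hq, hk⟩

section

variable {N : ℕ} {w : Fin N → ℂ} {R β : ℝ} {g : Gr}

theorem Cf.hY (c : Cf N w R β g) : ∀ s : ℕ, s * 1024 ≤ 1000 * g.Ba →
    (s : ℝ) / 2 ^ 10 / β ≤ 1000 / 1024 := by
  intro s hs
  have hBar : (0 : ℝ) < g.Ba := by exact_mod_cast c.hBa
  have h1 : (s : ℝ) / 2 ^ 10 / β ≤ (s : ℝ) / 2 ^ 10 / ((g.Ba : ℝ) / 2 ^ 10) :=
    div_le_div_of_nonneg_left (by positivity) (by positivity) c.hβa
  refine h1.trans ?_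
  have h2 : (s : ℝ) * 1024 ≤ 1000 * g.Ba := by exact_mod_cast hs
  rw [div_le_iff₀ (by positivity)]
  have e : (1000 : ℝ) / 1024 * ((g.Ba : ℝ) / 2 ^ 10) = (1000 * g.Ba) / 2 ^ 20 := by ring
  rw [e, div_le_div_iff₀ (by positivity) (by positivity)]
  nlinarith

/-- **the mass part** -/
theorem body_sound (c : Cf N w R β g) {mx Sm Sq S2 gp gn rho k0 h th : ℕ}
    (mb : Mb w R mx Sm Sq S2 gp gn rho)
    (hk : (k0 : ℝ) / 2 ^ 10 ≤ (av (uu w)).re * max 1 R * β) {pf : List Pf}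
    (hpf : ∀ p ∈ pf, Ok N w R p) (hh : 1 ≤ h) {k : ℕ → ℕ → ℕ → Bool} :
    ∀ (l : List (ℕ × ℕ)) (s U V : ℕ),
      body pf (kf (Nat.ble 1024 g.R0) (Nat.max 1024 g.R1) mx Sm gp gn g.R1 g.Ba g.Bb) g.Ba g.Bb Sq k0
        (1000 * g.Ba) h th l s U V k = true → s * 1024 ≤ 1000 * g.Ba →
      Inv N (uu w) β (kM (uu w)) th s U V →
      ∃ s' U' V', s' * 1024 ≤ 1000 * g.Ba ∧ Inv N (uu w) β (kM (uu w)) th s' U' V' ∧
        k s' U' V' = true := by
  have hkc : ContinuousOn (kM (uu w)) (Set.Icc 0 (1000 / 1024)) :=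
    kM_cont (uu_le c.hw) (by norm_num)
  have hK : ∀ s : ℕ, (s + h) * 1024 ≤ 1000 * g.Ba →
      ∀ x ∈ Set.Icc ((s : ℝ) / 2 ^ 10 / β) (((s + h : ℕ) : ℝ) / 2 ^ 10 / β),
        max 1 R * kM (uu w) x ≤ (kf (Nat.ble 1024 g.R0) (Nat.max 1024 g.R1) mx Sm gp gn g.R1 g.Ba
          g.Bb s (s + h) : ℝ) / 2 ^ 20 :=
    fun s hs x hx => kf_sound c mb hs hx.1 hx.2
  intro l
  induction l with
  | nil =>
    intro s U V hc hs hI
    exact ⟨s, U, V, hs, hI, by simpa [body] using hc⟩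
  | cons q l ih =>
    intro s U V hc hs hI
    unfold body at hc
    by_cases hq : q.1 = 0
    · rw [hq, show Nat.beq 0 0 = true from rfl, cond_true, ev_eq] at hc
      obtain ⟨U1, V1, hl1, h1, hI1⟩ :=
        seg_sound (u := uu w) (e := eA Sq k0) c.hM c.hβ c.hβN hkc hh c.hY hK q.2 s U V hc
      exact ih _ _ _ h1 (hl1 hs) (hI1 hI fun j _ _ => cellA c mb hk h j)
    · have hb' : Nat.beq q.1 0 = false := by
        rw [Bool.eq_false_iff]
        intro hc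
        exact hq (Nat.eq_of_beq_eq_true hc)
      rw [hb', cond_false] at hc
      obtain ⟨p, hp, hc⟩ := nth_sound _ _ hc
      rw [Bool.and_eq_true, Bool.and_eq_true, Nat.ble_eq, Nat.ble_eq, ev_eq] at hc
      obtain ⟨hX0, hX, hc⟩ := hc
      obtain ⟨U1, V1, hl1, h1, hI1⟩ :=
        seg_sound (u := uu w) (e := eL p.c p.g k0 h) c.hM c.hβ c.hβN hkc hh c.hY hK q.2 s U V hc
      refine ih _ _ _ h1 (hl1 hs) (hI1 hI fun j hj1 hj2 => cellL c (hpf p hp) hk h j ?_ ?_)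
      · exact hX0.trans (Nat.mul_le_mul_right 1024 hj1)
      · exact (Nat.mul_le_mul_right 1024 hj2).trans hX

/-! ### the tail -/

theorem zcell {u : Fin N → ℂ} (hβ : 0 < β) {s0 s1 E0 E1 : ℝ} (hs : s0 < s1)
    (hq : ∀ τ ∈ Set.Icc (0 : ℝ) 1, ‖qq u ((s0 + τ * (s1 - s0)) / β)‖ ≤ E0 + (E1 - E0) * τ) :
    β * ∫ x in (s0 / β)..(s1 / β), ‖qq u x‖ ≤ (s1 - s0) * (E0 + E1) / 2 := by
  have hlt : s0 / β < s1 / β := div_lt_div_of_pos_right hs hβ
  have hd : 0 < s1 - s0 := sub_pos.2 hs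
  have hmono : ∫ x in (s0 / β)..(s1 / β), ‖qq u x‖ ≤
      ∫ x in (s0 / β)..(s1 / β), (1 + (1 - 1) * ((x - s0 / β) / (s1 / β - s0 / β))) *
        (E0 + (E1 - E0) * ((x - s0 / β) / (s1 / β - s0 / β))) := by
    apply intervalIntegral.integral_mono_on hlt.le
    · exact (qq_cont u).norm.intervalIntegrable _ _
    · apply Continuous.intervalIntegrable
      fun_prop
    · intro x hx
      obtain ⟨τ, hτ⟩ : ∃ τ, τ = (x - s0 / β) / (s1 / β - s0 / β) := ⟨_, rfl⟩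
      have hd' : 0 < s1 / β - s0 / β := sub_pos.2 hlt
      have hτ0 : 0 ≤ τ := by rw [hτ]; exact div_nonneg (by linarith [hx.1]) hd'.le
      have hτ1 : τ ≤ 1 := by rw [hτ, div_le_one hd']; linarith [hx.2]
      have hxτ : x = (s0 + τ * (s1 - s0)) / β := by
        have h1 : x = s0 / β + τ * (s1 / β - s0 / β) := by
          rw [hτ, div_mul_cancel₀ _ hd'.ne']
          ring
        rw [h1]
        field_simp
      rw [← hτ]
      have h2 := hq τ ⟨hτ0, hτ1⟩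
      rw [← hxτ] at h2
      linarith
  rw [H58.M.quad_int hlt] at hmono
  have h3 := mul_le_mul_of_nonneg_left hmono hβ.le
  refine h3.trans (le_of_eq ?_)
  field_simp
  ring

/-- the invariant of the tail -/
def InvZ (N : ℕ) (u : Fin N → ℂ) (β : ℝ) (s0 s Z : ℕ) : Prop :=
  β * ∫ x in ((s0 : ℝ) / 2 ^ 10 / β)..((s : ℝ) / 2 ^ 10 / β), ‖qq u x‖ ≤ (Z : ℝ) / 2 ^ 40

theorem segZ_sound {u : Fin N → ℂ} (hβ : 0 < β) {e : ℕ → ℕ} {h s0 : ℕ} (hh : 1 ≤ h)
    {k : ℕ → ℕ → Bool} (n : ℕ) :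
    ∀ s Z : ℕ, segZ e h n s (e s) Z k = true → InvZ N u β s0 s Z →
      (∀ j, s ≤ j → j + h ≤ s + n * h → CellQ N u β e h j) →
      ∃ Z', InvZ N u β s0 (s + n * h) Z' ∧ k (s + n * h) Z' = true := by
  induction n with
  | zero =>
    intro s Z hc hI _
    exact ⟨Z, by simpa using hI, by simpa [segZ] using hc⟩
  | succ n ih =>
    intro s Z hc hI hcell
    unfold segZ at hc
    simp only [ev_eq] at hc
    have e1 : s + h + n * h = s + (n + 1) * h := by ring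
    have hq := hcell s le_rfl (by
      have : h ≤ (n + 1) * h := Nat.le_mul_of_pos_left h (Nat.succ_pos n)
      omega)
    have hlt : (s : ℝ) / 2 ^ 10 < ((s + h : ℕ) : ℝ) / 2 ^ 10 := by
      apply div_lt_div_of_pos_right _ (by positivity)
      exact_mod_cast (by omega : s < s + h)
    have h1 := zcell (u := u) hβ hlt hq
    have ehh : ((s + h : ℕ) : ℝ) / 2 ^ 10 - (s : ℝ) / 2 ^ 10 = (h : ℝ) / 2 ^ 10 := by
      push_cast
      ring
    rw [ehh] at h1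
    have hI' : InvZ N u β s0 (s + h) (Z + ((h * (e s + e (s + h))) >>> 11 + 1)) := by
      unfold InvZ at hI ⊢
      have hadd := intervalIntegral.integral_add_adjacent_intervals
        ((qq_cont u).norm.intervalIntegrable ((s0 : ℝ) / 2 ^ 10 / β) ((s : ℝ) / 2 ^ 10 / β)
          (μ := volume))
        ((qq_cont u).norm.intervalIntegrable ((s : ℝ) / 2 ^ 10 / β)
          (((s + h : ℕ) : ℝ) / 2 ^ 10 / β) (μ := volume))
      rw [← hadd, mul_add]
      have h2 := le_shr (h * (e s + e (s + h))) 11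
      obtain ⟨q, hq⟩ : ∃ q, q = (h * (e s + e (s + h))) >>> 11 + 1 := ⟨_, rfl⟩
      rw [← hq] at h2 ⊢
      have e4 : ((Z + q : ℕ) : ℝ) / 2 ^ 40 = (Z : ℝ) / 2 ^ 40 + (q : ℝ) / 2 ^ 40 := by
        push_cast
        ring
      rw [e4]
      have h3 : (h : ℝ) / 2 ^ 10 * ((e s : ℝ) / 2 ^ 40 + (e (s + h) : ℝ) / 2 ^ 40) / 2 ≤
          (q : ℝ) / 2 ^ 40 := by
        rw [le_div_iff₀ (by positivity)]
        refine le_trans (le_of_eq ?_) h2
        push_cast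
        ring
      exact add_le_add hI (h1.trans h3)
    obtain ⟨Z', hZ1, hZ2⟩ := ih _ _ hc hI' fun j h1 h2 => hcell j (by omega) (by rw [← e1]; exact h2)
    rw [e1] at hZ1 hZ2
    exact ⟨Z', hZ1, hZ2⟩

theorem tail_sound (c : Cf N w R β g) {k0 h s0 : ℕ}
    (hk : (k0 : ℝ) / 2 ^ 10 ≤ (av (uu w)).re * max 1 R * β) {pf : List Pf}
    (hpf : ∀ p ∈ pf, Ok N w R p) (hh : 1 ≤ h) {k : ℕ → ℕ → Bool} :
    ∀ (l : List (ℕ × ℕ)) (s Z : ℕ),
      tail pf g.Ba g.Bb k0 h l s Z k = true → s0 ≤ s →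
      InvZ N (uu w) β s0 s Z →
      ∃ s' Z', s0 ≤ s' ∧ InvZ N (uu w) β s0 s' Z' ∧ k s' Z' = true := by
  intro l
  induction l with
  | nil =>
    intro s Z hc hs hI
    exact ⟨s, Z, hs, hI, by simpa [tail] using hc⟩
  | cons q l ih =>
    intro s Z hc hs hI
    unfold tail at hc
    obtain ⟨p, hp, hc⟩ := nth_sound _ _ hc
    rw [Bool.and_eq_true, Bool.and_eq_true, Nat.ble_eq, Nat.ble_eq, ev_eq] at hc
    obtain ⟨hX0, hX, hc⟩ := hc
    obtain ⟨Z1, hI1, h1⟩ :=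
      segZ_sound (u := uu w) (e := eL p.c p.g k0 h) (s0 := s0) c.hβ hh q.2 s Z hc hI
        fun j hj1 hj2 => cellL c (hpf p hp) hk h j
          (hX0.trans (Nat.mul_le_mul_right 1024 hj1))
          ((Nat.mul_le_mul_right 1024 hj2).trans hX)
    exact ih _ _ h1 (hs.trans (Nat.le_add_right _ _)) hI1

end

end Pool.Agent.Lib.MP_af3a4a_an.P1.CHK.H21
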