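import Pool.Agent.Lib.MP_af3a4a_an.P1.CHK.H21.KF
import Pool.Agent.Lib.MP_af3a4a_an.P1.CHK.H58.MW

/-!
# Soundness of the final test (helper21, after helper58)
-/

set_option autoImplicit false

namespace Pool.Agent.Lib.MP_af3a4a_an.P1.CHK.H21

open Finset MeasureTheory ComplexConjugate
open Pool.Agent.Lib.MP_af3a4a_an.SV (uu av)
open Pool.Agent.Lib.MP_af3a4a_an.P1.H80
open Pool.Agent.Lib.MP_af3a4a_an.P1.H74
open Pool.Agent.Lib.MP_af3a4a_an.P1.H81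
open Pool.Agent.Lib.MP_af3a4a_an.P1.CHK.Arith
open Pool.Agent.Lib.MP_af3a4a_an.P1.CHK.H58.M (kapU xlo seg eA Inv CellQ kapU_sound xlo_sound
  seg_sound node_le exp_chord gauss_tail end_ray24)

/-- the two parts of the exponent of the final test -/
theorem lam_sound {N : ℕ} {R m1 a y : ℝ} {R0 R1 N0 ai mx qa p m : ℕ}
    (hN0 : N0 ≤ N) (hR0 : (R0 : ℝ) / 2 ^ 10 ≤ R) (hR1 : R ≤ (R1 : ℝ) / 2 ^ 10)
    (hai : a = (ai : ℝ) / 2 ^ 10) (hy : y = R - a) (haR : ai ≤ R0) (haR1 : R0 ≤ R1)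
    (hm : m1 ≤ (mx : ℝ) / 2 ^ 20)
    (hqa : qa = ai * ai * 524288 + (ai * ai * (ai * ai) / 4 + 1) +
      (ai * ai * (ai * ai) * (ai * ai) / 4194304 + 1))
    (hp : p = N0 * (qa + ai * mx * 1024) + 1099511627776 + ai * (R1 - ai - 1024) * 1048576 +
      ai * mx * 1024)
    (hme : m = N0 * (ai * (R0 - ai) * 1048576) + ai * 1073741824 + (R0 - ai) * 1073741824)
    (hc : qa + ai * mx * 1024 ≤ ai * (R0 - ai) * 1048576) :
    1 - y + a * max 0 (y - 1) ≤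
      N * (a * (y - m1) - (a ^ 2 / 2 + a ^ 4 / 4 + a ^ 6 / 4)) + a * (1 - m1)
        + ((p : ℝ) / 2 ^ 40 - (m : ℝ) / 2 ^ 40) := by
  have ha0 : 0 ≤ a := by rw [hai]; positivity
  obtain ⟨y0, hy0⟩ : ∃ y0, y0 = R0 - ai := ⟨_, rfl⟩
  have hy0r : (y0 : ℝ) / 2 ^ 10 ≤ y := by
    rw [hy0, Nat.cast_sub haR, hy, hai, sub_div]
    linarith
  obtain ⟨Y, hY⟩ : ∃ Y, Y = (y0 : ℝ) / 2 ^ 10 := ⟨_, rfl⟩
  obtain ⟨mu, hmu⟩ : ∃ mu, mu = (mx : ℝ) / 2 ^ 20 := ⟨_, rfl⟩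
  obtain ⟨Q, hQ⟩ : ∃ Q, Q = (qa : ℝ) / 2 ^ 40 := ⟨_, rfl⟩
  -- `q ≤ Q`
  have hq : a ^ 2 / 2 + a ^ 4 / 4 + a ^ 6 / 4 ≤ Q := by
    have h1 := real_le_div (ai * ai * (ai * ai)) 4 (by norm_num)
    have h2 := real_le_div (ai * ai * (ai * ai) * (ai * ai)) 4194304 (by norm_num)
    obtain ⟨A, hA⟩ : ∃ A, A = ai * ai * (ai * ai) / 4 + 1 := ⟨_, rfl⟩
    obtain ⟨B, hB⟩ : ∃ B, B = ai * ai * (ai * ai) * (ai * ai) / 4194304 + 1 := ⟨_, rfl⟩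
    rw [← hA] at h1 hqa
    rw [← hB] at h2 hqa
    rw [hQ, hqa, le_div_iff₀ (by positivity), hai]
    push_cast at h1 h2 ⊢
    linarith
  have hcr : Q + a * mu ≤ a * Y := by
    have h1 : (qa : ℝ) + ai * mx * 1024 ≤ ai * (y0 : ℝ) * 1048576 := by
      rw [hy0]
      exact_mod_cast hc
    rw [hQ, hmu, hY, hai]
    have e1 : (qa : ℝ) / 2 ^ 40 + (ai : ℝ) / 2 ^ 10 * ((mx : ℝ) / 2 ^ 20) =
        (qa + ai * mx * 1024) / 2 ^ 40 := by ring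
    have e2 : (ai : ℝ) / 2 ^ 10 * ((y0 : ℝ) / 2 ^ 10) = (ai * y0 * 1048576) / 2 ^ 40 := by ring
    rw [e1, e2]
    exact div_le_div_of_nonneg_right h1 (by positivity)
  have hb1 : a * (Y - mu) - Q ≤ a * (y - m1) - (a ^ 2 / 2 + a ^ 4 / 4 + a ^ 6 / 4) := by
    have h1 : a * (Y - mu) ≤ a * (y - m1) := by
      apply mul_le_mul_of_nonneg_left _ ha0
      rw [hY, hmu]
      linarith
    linarith
  have hb0 : 0 ≤ a * (Y - mu) - Q := by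
    rw [mul_sub]
    linarith
  have hNr : (N0 : ℝ) ≤ N := by exact_mod_cast hN0
  have hb2 : (N0 : ℝ) * (a * (Y - mu) - Q) ≤
      N * (a * (y - m1) - (a ^ 2 / 2 + a ^ 4 / 4 + a ^ 6 / 4)) :=
    mul_le_mul hNr hb1 hb0 (Nat.cast_nonneg N)
  -- the maximum
  obtain ⟨e, he⟩ : ∃ e, e = R1 - ai - 1024 := ⟨_, rfl⟩
  have hmax : a * max 0 (y - 1) ≤ a * ((e : ℝ) / 2 ^ 10) := by
    apply mul_le_mul_of_nonneg_left _ ha0
    have hn : (0 : ℝ) ≤ (e : ℝ) / 2 ^ 10 := div_nonneg (Nat.cast_nonneg e) (by norm_num)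
    refine max_le hn ?_
    · have h1 : (R1 : ℝ) - ai - 1024 ≤ e := by
        have h2 := sub_le_cast (R1 - ai) 1024
        have h3 : ((1024 : ℕ) : ℝ) = 1024 := by norm_num
        rw [← he, Nat.cast_sub (haR.trans haR1), h3] at h2
        exact h2
      rw [hy, hai]
      rw [le_div_iff₀ (by positivity)]
      rw [le_div_iff₀ (by positivity)] at hR1
      have e3 : (R - (ai : ℝ) / 2 ^ 10 - 1) * 2 ^ 10 = R * 2 ^ 10 - ai - 1024 := by ring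
      rw [e3]
      linarith
  have hpm : (p : ℝ) / 2 ^ 40 - (m : ℝ) / 2 ^ 40 = -(N0 * (a * (Y - mu) - Q)) + 1 - Y +
      a * ((e : ℝ) / 2 ^ 10) + a * mu - a := by
    rw [hp, hme, ← hy0, ← he, hQ, hmu, hY, hai]
    push_cast
    ring
  have h3 : a * m1 ≤ a * mu := mul_le_mul_of_nonneg_left (by rw [hmu]; exact hm) ha0
  have h4 : Y ≤ y := by rw [hY]; exact hy0r
  rw [hpm]
  linarith

section

variable {N : ℕ} {w : Fin N → ℂ} {R β : ℝ} {g : Gr}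

/-- the integral over the tail -/
theorem tail_int (c : Cf N w R β g) {s sf Z EG pc Z' Q : ℕ} {y : ℝ} (hsf : s ≤ sf)
    (hZ : InvZ N (uu w) β s sf Z) (hxf : (sf : ℝ) / 2 ^ 10 / β ≤ y)
    (hG : ∀ x ∈ Set.Icc ((sf : ℝ) / 2 ^ 10 / β) y,
      ‖qq (uu w) x‖ ≤ Real.exp (-((pc : ℝ) / 1024 * β ^ 2 * x ^ 2)))
    (hE : Real.exp (-((pc : ℝ) / 1024 * ((sf : ℝ) / 2 ^ 10) ^ 2)) ≤ (EG : ℝ) / 2 ^ 40)
    (hc : 1 ≤ pc * sf) (hZ' : Z' = Z + (EG * 524288 / (pc * sf) + 1))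
    (hQ : Q = Nat.max 1024 g.R1 * g.Bb * Z' / 1048576 + 1) :
    (N : ℝ) * ‖∫ x in ((s : ℝ) / 2 ^ 10 / β)..y, qq (uu w) x‖ ≤ (Q : ℝ) / 2 ^ 40 := by
  have hβ := c.hβ
  have hM := c.hM
  have hN := c.hβN
  have hMM := c.hMM
  obtain ⟨M, hMe⟩ : ∃ M, M = max 1 R := ⟨_, rfl⟩
  rw [← hMe] at hM hN hMM
  have hsf0 : 0 < sf := Nat.pos_of_ne_zero (by rintro rfl; simp at hc)
  have hpc0 : 0 < pc := Nat.pos_of_ne_zero (by rintro rfl; simp at hc)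
  have hsfr : (0 : ℝ) < sf := by exact_mod_cast hsf0
  have hpcr : (0 : ℝ) < pc := by exact_mod_cast hpc0
  obtain ⟨xs, hxs⟩ : ∃ xs, xs = (s : ℝ) / 2 ^ 10 / β := ⟨_, rfl⟩
  obtain ⟨xf, hxfd⟩ : ∃ xf, xf = (sf : ℝ) / 2 ^ 10 / β := ⟨_, rfl⟩
  unfold InvZ at hZ
  rw [← hxs, ← hxfd] at hZ
  rw [← hxfd] at hxf hG
  rw [← hxs]
  have hxf0 : 0 < xf := by rw [hxfd]; positivity
  have hle : xs ≤ xf := by
    rw [hxs, hxfd]
    apply div_le_div_of_nonneg_right _ hβ.le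
    apply div_le_div_of_nonneg_right _ (by positivity)
    exact_mod_cast hsf
  have hadd : (∫ x in xs..y, qq (uu w) x) = (∫ x in xs..xf, qq (uu w) x) +
      ∫ x in xf..y, qq (uu w) x :=
    (intervalIntegral.integral_add_adjacent_intervals
      ((qq_cont (uu w)).intervalIntegrable _ _) ((qq_cont (uu w)).intervalIntegrable _ _)).symm
  have h1 : ‖∫ x in xs..xf, qq (uu w) x‖ ≤ ∫ x in xs..xf, ‖qq (uu w) x‖ :=
    intervalIntegral.norm_integral_le_integral_norm hle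
  have hcc : (0 : ℝ) < (pc : ℝ) / 1024 * β ^ 2 := by positivity
  have h2 : ‖∫ x in xf..y, qq (uu w) x‖ ≤ (EG : ℝ) / 2 ^ 40 / (2 * ((pc : ℝ) / 1024 * β ^ 2) * xf) := by
    refine (intervalIntegral.norm_integral_le_integral_norm hxf).trans ?_
    have h3 : ∫ x in xf..y, ‖qq (uu w) x‖ ≤
        ∫ x in xf..y, Real.exp (-((pc : ℝ) / 1024 * β ^ 2 * x ^ 2)) := by
      apply intervalIntegral.integral_mono_on hxf
      · exact (qq_cont (uu w)).norm.intervalIntegrable _ _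
      · apply Continuous.intervalIntegrable
        fun_prop
      · exact hG
    refine (h3.trans (gauss_tail hcc hxf0 hxf)).trans ?_
    apply div_le_div_of_nonneg_right _ (by positivity)
    refine le_trans (le_of_eq ?_) hE
    congr 1
    rw [hxfd]
    field_simp
  obtain ⟨q, hq⟩ : ∃ q, q = EG * 524288 / (pc * sf) + 1 := ⟨_, rfl⟩
  have h4 : (EG : ℝ) * 524288 / (pc * sf) ≤ q := by
    have := real_le_div (EG * 524288) (pc * sf) hc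
    rw [← hq] at this
    push_cast at this
    exact this
  rw [← hq] at hZ'
  have hZr : (Z' : ℝ) = Z + q := by rw [hZ']; push_cast; ring
  -- together
  have h5 : (N : ℝ) * ‖∫ x in xs..y, qq (uu w) x‖ ≤ M * β * ((Z' : ℝ) / 2 ^ 40) := by
    have h6 : ‖∫ x in xs..y, qq (uu w) x‖ ≤ (∫ x in xs..xf, ‖qq (uu w) x‖) +
        (EG : ℝ) / 2 ^ 40 / (2 * ((pc : ℝ) / 1024 * β ^ 2) * xf) := by
      rw [hadd]
      exact (norm_add_le _ _).trans (add_le_add h1 h2)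
    have h7 := mul_le_mul_of_nonneg_left h6 (Nat.cast_nonneg (α := ℝ) N)
    refine h7.trans ?_
    rw [mul_add]
    have e1 : (N : ℝ) * (∫ x in xs..xf, ‖qq (uu w) x‖) =
        M * β * (β * ∫ x in xs..xf, ‖qq (uu w) x‖) := by
      rw [← hN]; ring
    have e2 : (N : ℝ) * ((EG : ℝ) / 2 ^ 40 / (2 * ((pc : ℝ) / 1024 * β ^ 2) * xf)) =
        M * β * ((EG : ℝ) * 524288 / (pc * sf) / 2 ^ 40) := by
      rw [← hN, hxfd]
      field_simp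
      norm_num
      ring
    rw [e1, e2, ← mul_add]
    apply mul_le_mul_of_nonneg_left _ (by positivity)
    rw [hZr, add_div]
    exact add_le_add hZ (div_le_div_of_nonneg_right h4 (by positivity))
  refine h5.trans ?_
  have h8 : M * β ≤ ((Nat.max 1024 g.R1 : ℕ) : ℝ) / 2 ^ 10 * ((g.Bb : ℝ) / 2 ^ 10) :=
    mul_le_mul hMM c.hβb hβ.le (by positivity)
  have h9 := real_le_div (Nat.max 1024 g.R1 * g.Bb * Z') 1048576 (by norm_num)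
  rw [← hQ] at h9
  have h10 : M * β * ((Z' : ℝ) / 2 ^ 40) ≤
      ((Nat.max 1024 g.R1 : ℕ) : ℝ) / 2 ^ 10 * ((g.Bb : ℝ) / 2 ^ 10) * ((Z' : ℝ) / 2 ^ 40) :=
    mul_le_mul_of_nonneg_right h8 (by positivity)
  refine h10.trans ?_
  rw [le_div_iff₀ (by positivity)]
  refine le_trans (le_of_eq ?_) h9
  push_cast
  ring

/-- the integral over the tail, segments only -/
theorem tail_int0 (c : Cf N w R β g) {s sf Z Z' Q : ℕ} {y : ℝ}
    (hZ : InvZ N (uu w) β s sf Z) (hxs : (s : ℝ) / 2 ^ 10 / β ≤ y) (hxf : y ≤ (sf : ℝ) / 2 ^ 10 / β)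
    (hZ' : Z ≤ Z') (hQ : Q = Nat.max 1024 g.R1 * g.Bb * Z' / 1048576 + 1) :
    (N : ℝ) * ‖∫ x in ((s : ℝ) / 2 ^ 10 / β)..y, qq (uu w) x‖ ≤ (Q : ℝ) / 2 ^ 40 := by
  have hβ := c.hβ
  have hM := c.hM
  have hN := c.hβN
  have hMM := c.hMM
  obtain ⟨M, hMe⟩ : ∃ M, M = max 1 R := ⟨_, rfl⟩
  rw [← hMe] at hM hN hMM
  obtain ⟨xs, hxsd⟩ : ∃ xs, xs = (s : ℝ) / 2 ^ 10 / β := ⟨_, rfl⟩
  obtain ⟨xf, hxfd⟩ : ∃ xf, xf = (sf : ℝ) / 2 ^ 10 / β := ⟨_, rfl⟩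
  unfold InvZ at hZ
  rw [← hxsd, ← hxfd] at hZ
  rw [← hxfd] at hxf
  rw [← hxsd] at hxs ⊢
  have h1 : ‖∫ x in xs..y, qq (uu w) x‖ ≤ ∫ x in xs..y, ‖qq (uu w) x‖ :=
    intervalIntegral.norm_integral_le_integral_norm hxs
  have hadd : (∫ x in xs..xf, ‖qq (uu w) x‖) = (∫ x in xs..y, ‖qq (uu w) x‖) +
      ∫ x in y..xf, ‖qq (uu w) x‖ :=
    (intervalIntegral.integral_add_adjacent_intervals
      ((qq_cont (uu w)).norm.intervalIntegrable _ _)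
      ((qq_cont (uu w)).norm.intervalIntegrable _ _)).symm
  have h2 : 0 ≤ ∫ x in y..xf, ‖qq (uu w) x‖ :=
    intervalIntegral.integral_nonneg hxf fun x _ => norm_nonneg _
  have h5 : (N : ℝ) * ‖∫ x in xs..y, qq (uu w) x‖ ≤ M * β * ((Z' : ℝ) / 2 ^ 40) := by
    have h6 : ‖∫ x in xs..y, qq (uu w) x‖ ≤ ∫ x in xs..xf, ‖qq (uu w) x‖ := by
      linarith
    have h7 := mul_le_mul_of_nonneg_left h6 (Nat.cast_nonneg (α := ℝ) N)
    refine h7.trans ?_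
    have e1 : (N : ℝ) * (∫ x in xs..xf, ‖qq (uu w) x‖) =
        M * β * (β * ∫ x in xs..xf, ‖qq (uu w) x‖) := by
      rw [← hN]; ring
    rw [e1]
    apply mul_le_mul_of_nonneg_left _ (by positivity)
    refine hZ.trans ?_
    apply div_le_div_of_nonneg_right _ (by positivity)
    exact_mod_cast hZ'
  refine h5.trans ?_
  have h8 : M * β ≤ ((Nat.max 1024 g.R1 : ℕ) : ℝ) / 2 ^ 10 * ((g.Bb : ℝ) / 2 ^ 10) :=
    mul_le_mul hMM c.hβb hβ.le (by positivity)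
  have h9 := real_le_div (Nat.max 1024 g.R1 * g.Bb * Z') 1048576 (by norm_num)
  rw [← hQ] at h9
  have h10 : M * β * ((Z' : ℝ) / 2 ^ 40) ≤
      ((Nat.max 1024 g.R1 : ℕ) : ℝ) / 2 ^ 10 * ((g.Bb : ℝ) / 2 ^ 10) * ((Z' : ℝ) / 2 ^ 40) :=
    mul_le_mul_of_nonneg_right h8 (by positivity)
  refine h10.trans ?_
  rw [le_div_iff₀ (by positivity)]
  refine le_trans (le_of_eq ?_) h9
  push_cast
  ring

end

end Pool.Agent.Lib.MP_af3a4a_an.P1.CHK.H21
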