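import Pool.Agent.Lib.MP_af3a4a_an.P1.CHK.H21.KG

/-!
# Soundness of the checker (helper21, after helper58)
-/

set_option autoImplicit false

namespace Pool.Agent.Lib.MP_af3a4a_an.P1.CHK.H21

open Finset MeasureTheory ComplexConjugate
open Pool.Agent.Lib.MP_af3a4a_an.SV (uu av)
open Pool.Agent.Lib.MP_af3a4a_an.P1.H80
open Pool.Agent.Lib.MP_af3a4a_an.P1.H74
open Pool.Agent.Lib.MP_af3a4a_an.P1.H81
open Pool.Agent.Lib.MP_af3a4a_an.P1.CHK.Arith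
open Pool.Agent.Lib.MP_af3a4a_an.P1.CHK.H58.M (kapU xlo seg eA Inv CellQ kapU_sound xlo_sound
  seg_sound node_le exp_chord gauss_tail end_ray24)

section

variable {N : ℕ} {w : Fin N → ℂ} {R β : ℝ} {g : Gr}

theorem fin_sound (c : Cf N w R β g) {z σ : Fin N → ℂ} (hC : Cfg2 N z w R σ)
    {mx Sm Sq S2 gp gn rho th a s U V T Z EG pc sf : ℕ}
    (mb : Mb w R mx Sm Sq S2 gp gn rho) (hR01 : g.R0 ≤ g.R1)
    (ha : a ≤ 399) (ha1 : g.R1 - a ≤ 2150) (ha2 : a ≤ 2 * (g.R0 - a)) (ha3 : a + 1 ≤ g.R0)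
    (hs : s * 1024 ≤ 1000 * g.Ba)
    (hI : Inv N (uu w) β (kM (uu w)) th s U V)
    (hT : ‖qq (uu w) ((s : ℝ) / 2 ^ 10 / β)‖ ≤ (T : ℝ) / 2 ^ 40)
    (htl : ∀ Z' Q : ℕ, Z' = Z + (EG * 524288 / (pc * sf) + 1) →
      Q = Nat.max 1024 g.R1 * g.Bb * Z' / 1048576 + 1 →
      (N : ℝ) * ‖∫ x in ((s : ℝ) / 2 ^ 10 / β)..(R - (a : ℝ) / 2 ^ 10), qq (uu w) x‖ ≤
        (Q : ℝ) / 2 ^ 40)
    (h : fin g mx rho S2 th a s U V T Z EG pc sf = true) : False := by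
  unfold fin at h
  simp only [ev_eq, Bool.and_eq_true, Nat.ble_eq] at h
  obtain ⟨hths, hL, hcr, hf⟩ := h
  obtain ⟨X, hX⟩ : ∃ X, X = th * V / g.Ba + 1 := ⟨_, rfl⟩
  rw [← hX] at hL hf
  obtain ⟨L, hLdef⟩ : ∃ L, L = T + U + X := ⟨_, rfl⟩
  rw [← hLdef] at hL hf
  obtain ⟨Z', hZ'⟩ : ∃ Z', Z' = Z + (EG * 524288 / (pc * sf) + 1) := ⟨_, rfl⟩
  rw [← hZ'] at hf
  obtain ⟨Q, hQ⟩ : ∃ Q, Q = Nat.max 1024 g.R1 * g.Bb * Z' / 1048576 + 1 := ⟨_, rfl⟩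
  rw [← hQ] at hf
  obtain ⟨qa, hqa⟩ : ∃ qa, qa = a * a * 524288 + (a * a * (a * a) / 4 + 1) +
      (a * a * (a * a) * (a * a) / 4194304 + 1) := ⟨_, rfl⟩
  rw [← hqa] at hf hcr
  obtain ⟨p, hp⟩ : ∃ p, p = g.N0 * (qa + a * mx * 1024) + 1099511627776 +
      a * (g.R1 - a - 1024) * 1048576 + a * mx * 1024 := ⟨_, rfl⟩
  rw [← hp] at hf
  obtain ⟨m, hme⟩ : ∃ m, m = g.N0 * (a * (g.R0 - a) * 1048576) + a * 1073741824 +
      (g.R0 - a) * 1073741824 := ⟨_, rfl⟩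
  rw [← hme] at hf
  obtain ⟨E, hEd⟩ : ∃ E, E = es p (Nat.min m (p + 70368744177664)) := ⟨_, rfl⟩
  rw [← hEd] at hf
  have hβ := c.hβ
  have hR := c.hR
  have hBar : (0 : ℝ) < g.Ba := by exact_mod_cast c.hBa
  have hNpos : (0 : ℝ) < N := by
    have := c.hN1'
    exact_mod_cast (by omega : 0 < N)
  obtain ⟨xs, hxs⟩ : ∃ xs, xs = (s : ℝ) / 2 ^ 10 / β := ⟨_, rfl⟩
  obtain ⟨t, htd⟩ : ∃ t, t = (th : ℝ) / 2 ^ 10 / β := ⟨_, rfl⟩
  have ht0 : 0 ≤ t := by rw [htd]; positivity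
  have htxs : t ≤ xs := by
    rw [htd, hxs]
    apply div_le_div_of_nonneg_right _ hβ.le
    apply div_le_div_of_nonneg_right _ (by positivity)
    exact_mod_cast hths
  have hxs0 : 0 ≤ xs := ht0.trans htxs
  have hxs1 : xs < 1 := by
    have h1 := c.hY s hs
    rw [← hxs] at h1
    refine lt_of_le_of_lt h1 (by norm_num)
  have htail := htl Z' Q hZ' hQ
  clear htl
  rw [← hxs] at hT htail
  have hmass := massM c.hN1' (uu_le c.hw) ht0 htxs hxs1 hT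
  have hU := hI.hU
  have hV := hI.hV
  rw [← htd, ← hxs] at hU
  rw [← hxs] at hV
  obtain ⟨I1, hI1⟩ : ∃ I1, I1 = ∫ x in (0 : ℝ)..xs, |x - t| * kM (uu w) x * ‖qq (uu w) x‖ :=
    ⟨_, rfl⟩
  obtain ⟨I2, hI2⟩ : ∃ I2, I2 = ∫ x in (0 : ℝ)..xs, x * kM (uu w) x * ‖qq (uu w) x‖ := ⟨_, rfl⟩
  obtain ⟨J, hJ⟩ : ∃ J, J = ‖∫ x in (0 : ℝ)..xs, qq (uu w) x‖ := ⟨_, rfl⟩
  rw [← hI1] at hU
  rw [← hI2] at hV
  rw [← hI1, ← hI2, ← hJ] at hmass
  have hJ0 : 0 ≤ J := by rw [hJ]; exact norm_nonneg _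
  have htB : t ≤ (th : ℝ) / g.Ba := by
    rw [htd]
    refine (div_le_div_of_nonneg_left (by positivity) (by positivity) c.hβa).trans (le_of_eq ?_)
    field_simp
  have hI20 : 0 ≤ (N : ℝ) * I2 := by
    apply mul_nonneg hNpos.le
    rw [hI2]
    apply intervalIntegral.integral_nonneg hxs0
    intro x hx
    exact mul_nonneg (mul_nonneg hx.1 (kM_nonneg x)) (norm_nonneg _)
  have hXb : t * (N * I2) ≤ (X : ℝ) / 2 ^ 40 := by
    have h1 : t * (N * I2) ≤ (th : ℝ) / g.Ba * ((V : ℝ) / 2 ^ 40) :=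
      mul_le_mul htB hV hI20 (by positivity)
    refine h1.trans ?_
    have h2 := real_le_div (th * V) g.Ba c.hBa
    rw [← hX] at h2
    rw [le_div_iff₀ (by positivity)]
    refine le_trans (le_of_eq ?_) h2
    push_cast
    field_simp
  obtain ⟨W, hW⟩ : ∃ W, W = 1099511627776 - L := ⟨_, rfl⟩
  rw [← hW] at hf
  have hWr : (W : ℝ) / 2 ^ 40 ≤ N * (J * (‖av (uu w)‖ + t * SV.sq (uu w))) := by
    refine le_trans ?_ hmass
    have e1 : (W : ℝ) = 1099511627776 - L := by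
      rw [hW, Nat.cast_sub hL]
      norm_num
    have e2 : (L : ℝ) = T + U + X := by
      rw [hLdef]
      push_cast
      ring
    have e3 : (W : ℝ) / 2 ^ 40 = 1 - (T : ℝ) / 2 ^ 40 - (U : ℝ) / 2 ^ 40 - (X : ℝ) / 2 ^ 40 := by
      rw [e1, e2]
      ring
    rw [e3]
    have e4 : (N : ℝ) * (I1 + t * I2) = N * I1 + t * (N * I2) := by ring
    rw [e4]
    linarith only [hU, hXb]
  -- the denominator
  obtain ⟨D, hD⟩ : ∃ D, D = rho + (th * S2 / g.Ba + 1) := ⟨_, rfl⟩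
  rw [← hD] at hf
  have hsq0 : 0 ≤ SV.sq (uu w) := by
    unfold SV.sq
    positivity
  have hDr : ‖av (uu w)‖ + t * SV.sq (uu w) ≤ (D : ℝ) / 2 ^ 20 := by
    have h1 := mb.hr
    have h3 : t * SV.sq (uu w) ≤ (th : ℝ) / g.Ba * ((S2 : ℝ) / 2 ^ 20) :=
      mul_le_mul htB mb.hs hsq0 (by positivity)
    have h4 := real_le_div (th * S2) g.Ba c.hBa
    obtain ⟨q, hq⟩ : ∃ q, q = th * S2 / g.Ba + 1 := ⟨_, rfl⟩
    rw [← hq] at h4 hD
    have h5 : (th : ℝ) / g.Ba * ((S2 : ℝ) / 2 ^ 20) ≤ (q : ℝ) / 2 ^ 20 := by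
      rw [le_div_iff₀ (by positivity)]
      refine le_trans (le_of_eq ?_) h4
      push_cast
      field_simp
    have e1 : (D : ℝ) = rho + q := by
      rw [hD]
      push_cast
      ring
    rw [e1, add_div]
    linarith only [h1, h3, h5]
  have hDpos : (0 : ℝ) < (D : ℝ) / 2 ^ 20 := by
    have h1 : 1 ≤ D := by
      rw [hD]
      exact le_trans (Nat.le_add_left 1 (th * S2 / g.Ba)) (Nat.le_add_left _ rho)
    have : (0 : ℝ) < D := by exact_mod_cast h1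
    positivity
  -- `F`
  obtain ⟨y1, hy1⟩ : ∃ y1, y1 = g.R1 - a := ⟨_, rfl⟩
  rw [← hy1] at hf ha1
  obtain ⟨y, hy⟩ : ∃ y, y = R - (a : ℝ) / 2 ^ 10 := ⟨_, rfl⟩
  rw [← hy] at htail
  have hy1r : y ≤ (y1 : ℝ) / 2 ^ 10 := by
    rw [hy, hy1, Nat.cast_sub (by omega), sub_div]
    have := c.hR1
    linarith only [this]
  have hy0r : (((g.R0 - a : ℕ)) : ℝ) / 2 ^ 10 ≤ y := by
    rw [hy, Nat.cast_sub (by omega), sub_div]
    have := c.hR0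
    linarith only [this]
  have hy0 : 0 < y := by
    refine lt_of_lt_of_le ?_ hy0r
    have : (0 : ℝ) < ((g.R0 - a : ℕ) : ℝ) := by exact_mod_cast (by omega : 0 < g.R0 - a)
    positivity
  have hy1p : (0 : ℝ) < (y1 : ℝ) / 2 ^ 10 := lt_of_lt_of_le hy0 hy1r
  obtain ⟨F, hF⟩ : ∃ F, F = (y1 : ℝ) / 2 ^ 10 * Real.exp ((p : ℝ) / 2 ^ 40 - (m : ℝ) / 2 ^ 40) :=
    ⟨_, rfl⟩
  have hF0 : 0 < F := by rw [hF]; positivity
  have hEb : Real.exp ((p : ℝ) / 2 ^ 40 - (m : ℝ) / 2 ^ 40) ≤ (E : ℝ) / 2 ^ 40 := by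
    rw [hEd]
    refine le_trans (Real.exp_le_exp.2 ?_) (es_spec _ _)
    have h1 : Nat.min m (p + 70368744177664) ≤ m := Nat.min_le_left _ _
    have h2 : ((Nat.min m (p + 70368744177664) : ℕ) : ℝ) / 2 ^ 40 ≤ (m : ℝ) / 2 ^ 40 := by
      apply div_le_div_of_nonneg_right _ (by positivity)
      exact_mod_cast h1
    linarith only [h2]
  obtain ⟨G, hGd⟩ : ∃ G, G = y1 * E * g.N1 / (1024 * (g.N1 + 1)) + 1 := ⟨_, rfl⟩
  rw [← hGd] at hf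
  have hFG : F * (N / (N + 1)) ≤ (G : ℝ) / 2 ^ 40 := by
    have h1 : F ≤ (y1 : ℝ) / 2 ^ 10 * ((E : ℝ) / 2 ^ 40) := by
      rw [hF]
      exact mul_le_mul_of_nonneg_left hEb hy1p.le
    have h2 : (N : ℝ) / (N + 1) ≤ (g.N1 : ℝ) / (g.N1 + 1) := by
      have h3 : (N : ℝ) ≤ g.N1 := by exact_mod_cast c.hN1
      rw [div_le_div_iff₀ (by positivity) (by positivity)]
      linarith only [h3]
    have h3 : F * (N / (N + 1)) ≤ (y1 : ℝ) / 2 ^ 10 * ((E : ℝ) / 2 ^ 40) *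
        ((g.N1 : ℝ) / (g.N1 + 1)) := mul_le_mul h1 h2 (by positivity) (by positivity)
    refine h3.trans ?_
    have h4 := real_le_div (y1 * E * g.N1) (1024 * (g.N1 + 1)) (by positivity)
    rw [← hGd] at h4
    rw [le_div_iff₀ (by positivity)]
    refine le_trans (le_of_eq ?_) h4
    push_cast
    field_simp
    norm_num
    ring
  -- `N J`
  have hNJ : (Q : ℝ) / 2 ^ 40 + (G : ℝ) / 2 ^ 40 ≤ N * J := by
    have h1 : (D : ℝ) / 2 ^ 20 * ((Q : ℝ) / 2 ^ 40 + (G : ℝ) / 2 ^ 40) ≤ (W : ℝ) / 2 ^ 40 := by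
      have h2 : (D : ℝ) * (Q + G) ≤ W * 1048576 := by exact_mod_cast hf
      calc (D : ℝ) / 2 ^ 20 * ((Q : ℝ) / 2 ^ 40 + (G : ℝ) / 2 ^ 40) =
          (D : ℝ) * (Q + G) / 2 ^ 60 := by ring
        _ ≤ (W : ℝ) * 1048576 / 2 ^ 60 := div_le_div_of_nonneg_right h2 (by positivity)
        _ = (W : ℝ) / 2 ^ 40 := by ring
    have h2 : N * (J * (‖av (uu w)‖ + t * SV.sq (uu w))) ≤ N * (J * ((D : ℝ) / 2 ^ 20)) := by
      apply mul_le_mul_of_nonneg_left _ hNpos.le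
      exact mul_le_mul_of_nonneg_left hDr hJ0
    have h3 : (D : ℝ) / 2 ^ 20 * ((Q : ℝ) / 2 ^ 40 + (G : ℝ) / 2 ^ 40) ≤
        (D : ℝ) / 2 ^ 20 * (N * J) := by
      have e : N * (J * ((D : ℝ) / 2 ^ 20)) = (D : ℝ) / 2 ^ 20 * (N * J) := by ring
      rw [← e]
      linarith only [hWr, h1, h2]
    exact le_of_mul_le_mul_left h3 hDpos
  -- together
  have hadd : (∫ x in (0 : ℝ)..xs, qq (uu w) x) = (∫ x in (0 : ℝ)..y, qq (uu w) x) -
      ∫ x in xs..y, qq (uu w) x := by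
    rw [eq_sub_iff_add_eq]
    exact intervalIntegral.integral_add_adjacent_intervals
      ((qq_cont (uu w)).intervalIntegrable _ _) ((qq_cont (uu w)).intervalIntegrable _ _)
  have hJle : J ≤ ‖∫ x in (0 : ℝ)..y, qq (uu w) x‖ + ‖∫ x in xs..y, qq (uu w) x‖ := by
    rw [hJ, hadd]
    exact norm_sub_le _ _
  obtain ⟨J', hJ'⟩ : ∃ J', J' = ‖∫ x in (0 : ℝ)..y, qq (uu w) x‖ := ⟨_, rfl⟩
  have hFq : F ≤ ((N : ℝ) + 1) * ‖∫ x in (0 : ℝ)..y, qq (uu w) x‖ := by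
    have h1 := mul_le_mul_of_nonneg_left hJle hNpos.le
    rw [mul_add] at h1
    rw [← hJ'] at h1 ⊢
    have h2 : F * (N / (N + 1)) ≤ N * J' := by linarith only [htail, hFG, hNJ, h1]
    have h3 : F * (N / (N + 1)) = (N : ℝ) * (F / (N + 1)) := by ring
    rw [h3] at h2
    have h4 := le_of_mul_le_mul_left h2 hNpos
    rw [div_le_iff₀ (by positivity)] at h4
    linarith only [h4]
  have har : (a : ℝ) / 2 ^ 10 ≤ 39 / 100 := by
    have : (a : ℝ) ≤ 399 := by exact_mod_cast ha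
    rw [div_le_iff₀ (by positivity)]
    refine this.trans ?_
    norm_num
  have hlam := lam_sound (N := N) (R := R) (m1 := (av (uu w)).re) (y := y) c.hN0 c.hR0 c.hR1
    (a := (a : ℝ) / 2 ^ 10) rfl hy (by omega) hR01 mb.hm hqa hp hme hcr
  refine end_ray24 hC c.hN (a := (a : ℝ) / 2 ^ 10) (y := y) (F := F) (by positivity) har hy0
    ?_ ?_ ?_ ?_ hF0 hFq ?_
  · rw [hy]
    have : (0 : ℝ) ≤ (a : ℝ) / 2 ^ 10 := by positivity
    linarith only [this]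
  · refine hy1r.trans ?_
    have : (y1 : ℝ) ≤ 2150 := by exact_mod_cast ha1
    rw [div_le_iff₀ (by positivity)]
    refine this.trans ?_
    norm_num
  · rw [hy]
    linarith only []
  · have h1 : (a : ℝ) ≤ 2 * ((g.R0 - a : ℕ) : ℝ) := by exact_mod_cast ha2
    have h2 : (a : ℝ) / 2 ^ 10 ≤ 2 * (((g.R0 - a : ℕ) : ℝ) / 2 ^ 10) := by
      rw [← mul_div_assoc]
      exact div_le_div_of_nonneg_right h1 (by positivity)
    linarith only [hy0r, h1]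
  · refine hlam.trans ?_
    have h1 : (p : ℝ) / 2 ^ 40 - (m : ℝ) / 2 ^ 40 ≤ Real.log (F / y) := by
      rw [Real.le_log_iff_exp_le (by positivity), hF, le_div_iff₀ hy0, mul_comm]
      exact mul_le_mul_of_nonneg_right hy1r (Real.exp_pos _).le
    linarith only [h1]

end

end Pool.Agent.Lib.MP_af3a4a_an.P1.CHK.H21
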