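import Pool.Agent.Lib.MP_af3a4a_an.P1.CHK.H21.KH

/-!
# Soundness of the checker, last part (helper21, after helper58)
-/

set_option autoImplicit false

namespace Pool.Agent.Lib.MP_af3a4a_an.P1.CHK.H21

open Finset MeasureTheory ComplexConjugate
open Pool.Agent.Lib.MP_af3a4a_an.SV (uu av)
open Pool.Agent.Lib.MP_af3a4a_an.P1.H80
open Pool.Agent.Lib.MP_af3a4a_an.P1.H74
open Pool.Agent.Lib.MP_af3a4a_an.P1.H81
open Pool.Agent.Lib.MP_af3a4a_an.P1.CHK.Arith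
open Pool.Agent.Lib.MP_af3a4a_an.P1.CHK.H58.M (kapU xlo seg eA Inv CellQ kapU_sound xlo_sound
  seg_sound node_le exp_chord gauss_tail end_ray24)

section

variable {N : ℕ} {w : Fin N → ℂ} {R β : ℝ} {g : Gr}

theorem cast_nmin (a b : ℕ) : ((Nat.min a b : ℕ) : ℝ) = min (a : ℝ) b := by
  rw [show Nat.min a b = min a b from rfl, Nat.cast_min]

theorem Cf.mb (c : Cf N w R β g) {mx : ℕ} (hm : (av (uu w)).re ≤ (mx : ℝ) / 2 ^ 20) :
    Mb w R mx (1048576 + 2 * mx) (Nat.min (Nat.max 1024 g.R1 * 1024) (1048576 + 2 * mx))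
      (Nat.min 1048576 ((1048576 + 2 * mx) * 1024 / g.R0 + 1))
      ((g.R0 - 1024) * 1048576 / g.R0)
      ((3 * g.R1 + (1048576 / g.R0 + 1) - 2048) * mx / 1024 + 1)
      (Nat.min 1048576 (isq (mx * 2147483648 / g.R0 + 1))) := by
  have hR := c.hR
  have hR0n : 0 < g.R0 := c.hg0
  have hR0p : (0 : ℝ) < g.R0 := by exact_mod_cast hR0n
  have hm0 := c.m_nonneg
  have h1 := first_moment c.hN1' c.hw c.ht hR
  have hsq := sq_bound c.hN1' c.hw c.ht hR
  have hsq1 := sq_le_one' c.hN1' (uu_le c.hw)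
  have hsq0 : 0 ≤ SV.sq (uu w) := by
    unfold SV.sq
    positivity
  have hav1 : ‖av (uu w)‖ ≤ 1 := by
    refine (av_le _ (fun _ => (1 : ℝ)) fun k => uu_le c.hw k).trans ?_
    have hNp : (0 : ℝ) < N := by
      have := c.hN1'
      exact_mod_cast (by omega : 0 < N)
    simp only [Finset.sum_const, Finset.card_univ, Fintype.card_fin, nsmul_eq_mul, mul_one]
    rw [one_div, inv_mul_cancel₀ hNp.ne']
  obtain ⟨m1, hm1⟩ : ∃ m1, m1 = (av (uu w)).re := ⟨_, rfl⟩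
  rw [← hm1] at hm hm0 h1 hsq
  have hS : 1 + 2 * m1 ≤ ((1048576 + 2 * mx : ℕ) : ℝ) / 2 ^ 20 := by
    push_cast
    have : (1048576 + 2 * (mx : ℝ)) / 2 ^ 20 = 1 + 2 * (mx / 2 ^ 20) := by ring
    rw [this]
    linarith
  obtain ⟨Sm, hSm⟩ : ∃ Sm, Sm = 1048576 + 2 * mx := ⟨_, rfl⟩
  rw [← hSm] at hS ⊢
  refine ⟨by rw [← hm1]; exact hm, by rw [← hm1]; exact hS, ?_, ?_, ?_, ?_⟩
  · -- `Sq`
    rw [cast_nmin, le_div_iff₀ (by positivity)]
    refine le_min ?_ ?_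
    · have h2 : max 1 R * SV.sq (uu w) ≤ ((Nat.max 1024 g.R1 : ℕ) : ℝ) / 2 ^ 10 * 1 :=
        mul_le_mul c.hMM hsq1 hsq0 (by positivity)
      rw [mul_one, le_div_iff₀ (by positivity)] at h2
      have e : ((Nat.max 1024 g.R1 * 1024 : ℕ) : ℝ) = ((Nat.max 1024 g.R1 : ℕ) : ℝ) * 1024 := by
        rw [Nat.cast_mul]
        norm_num
      rw [e]
      have h3 := mul_le_mul_of_nonneg_right h2 (by norm_num : (0 : ℝ) ≤ 1024)
      refine le_trans (le_of_eq ?_) h3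
      ring
    · rw [le_div_iff₀ (by positivity)] at hS
      refine le_trans ?_ hS
      apply mul_le_mul_of_nonneg_right _ (by positivity)
      rcases le_total 1 R with h | h
      · rw [max_eq_right h]
        exact hsq
      · rw [max_eq_left h, one_mul]
        linarith
  · -- `S2`
    rw [cast_nmin, le_div_iff₀ (by positivity)]
    refine le_min ?_ ?_
    · refine (mul_le_mul_of_nonneg_right hsq1 (by positivity)).trans (le_of_eq ?_)
      norm_num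
    · have h2 : SV.sq (uu w) ≤ (1 + 2 * m1) / R := by
        rw [le_div_iff₀ hR, mul_comm]
        exact hsq
      have h3 : (1 + 2 * m1) / R ≤ (Sm : ℝ) / 2 ^ 20 / ((g.R0 : ℝ) / 2 ^ 10) :=
        div_le_div₀ (by positivity) hS (by positivity) c.hR0
      have h4 := real_le_div (Sm * 1024) g.R0 hR0n
      have h5 := mul_le_mul_of_nonneg_right (h2.trans h3) (by positivity : (0 : ℝ) ≤ 2 ^ 20)
      refine h5.trans (le_trans (le_of_eq ?_) h4)
      push_cast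
      field_simp
      norm_num
  · intro hR1
    rw [← hm1]
    -- `gp`
    have hgp : (((g.R0 - 1024) * 1048576 / g.R0 : ℕ) : ℝ) / 2 ^ 20 ≤ max 0 ((R - 1) / R) := by
      rcases le_or_gt 1024 g.R0 with hcase | hcase
      · have h2 := div_le_real ((g.R0 - 1024) * 1048576) g.R0
        have hc : ((g.R0 - 1024 : ℕ) : ℝ) = g.R0 - 1024 := by
          rw [Nat.cast_sub hcase]
          norm_num
        rw [Nat.cast_mul, hc] at h2
        have h3 : ((g.R0 : ℝ) - 1024) / g.R0 ≤ (R - 1) / R := by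
          rw [div_le_div_iff₀ hR0p hR]
          have h4 := c.hR0
          rw [div_le_iff₀ (by positivity)] at h4
          norm_num at h4
          linarith
        refine le_trans ?_ (le_max_right _ _)
        rw [div_le_iff₀ (by positivity)]
        refine h2.trans ?_
        have e : ((g.R0 : ℝ) - 1024) * ((1048576 : ℕ) : ℝ) / g.R0 =
            ((g.R0 : ℝ) - 1024) / g.R0 * 2 ^ 20 := by
          push_cast
          ring
        rw [e]
        exact mul_le_mul_of_nonneg_right h3 (by positivity)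
      · rw [Nat.sub_eq_zero_of_le hcase.le, zero_mul, Nat.zero_div, Nat.cast_zero, zero_div]
        exact le_max_left _ _
    -- `gn`
    have hgn : (3 * R ^ 2 - 2 * R + 1) / R * m1 ≤
        (((3 * g.R1 + (1048576 / g.R0 + 1) - 2048) * mx / 1024 + 1 : ℕ) : ℝ) / 2 ^ 20 := by
      obtain ⟨A, hA⟩ : ∃ A, A = 3 * g.R1 + (1048576 / g.R0 + 1) - 2048 := ⟨_, rfl⟩
      rw [← hA]
      have h2 := real_le_div (A * mx) 1024 (by norm_num)
      have h3 := sub_le_cast (3 * g.R1 + (1048576 / g.R0 + 1)) 2048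
      rw [← hA] at h3
      have h4 := real_le_div 1048576 g.R0 hR0n
      have h5 : (3 * R ^ 2 - 2 * R + 1) / R ≤ (A : ℝ) / 2 ^ 10 := by
        have e : (3 * R ^ 2 - 2 * R + 1) / R = 3 * R + 1 / R - 2 := by
          field_simp
          ring
        rw [e]
        have h6 : 1 / R ≤ 1 / ((g.R0 : ℝ) / 2 ^ 10) :=
          div_le_div_of_nonneg_left (by norm_num) (by positivity) c.hR0
        have h7 : 1 / ((g.R0 : ℝ) / 2 ^ 10) = ((1048576 : ℕ) : ℝ) / g.R0 / 2 ^ 10 := by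
          push_cast
          field_simp
          norm_num
        rw [h7] at h6
        have h8 := div_le_div_of_nonneg_right h4 (by positivity : (0 : ℝ) ≤ 2 ^ 10)
        have h9 := div_le_div_of_nonneg_right h3 (by positivity : (0 : ℝ) ≤ 2 ^ 10)
        have h10 := c.hR1
        refine le_trans ?_ h9
        obtain ⟨q, hq⟩ : ∃ q, q = 1048576 / g.R0 + 1 := ⟨_, rfl⟩
        rw [← hq] at h8 ⊢
        have e3 : (((3 * g.R1 + q : ℕ) : ℝ) - ((2048 : ℕ) : ℝ)) / 2 ^ 10 =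
            3 * ((g.R1 : ℝ) / 2 ^ 10) + (q : ℝ) / 2 ^ 10 - 2 := by
          push_cast
          ring
        rw [e3]
        linarith
      have h6 : (3 * R ^ 2 - 2 * R + 1) / R * m1 ≤ (A : ℝ) / 2 ^ 10 * ((mx : ℝ) / 2 ^ 20) :=
        mul_le_mul h5 hm hm0 (div_nonneg (Nat.cast_nonneg A) (by norm_num))
      refine h6.trans ?_
      rw [le_div_iff₀ (by positivity)]
      refine le_trans (le_of_eq ?_) h2
      push_cast
      ring
    have hmx : max 0 ((R - 1) / R) = (R - 1) / R :=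
      max_eq_right (div_nonneg (sub_nonneg.2 hR1) hR.le)
    rw [hmx] at hgp
    linarith
  · -- `rho`
    rw [cast_nmin, le_div_iff₀ (by positivity)]
    refine le_min ?_ ?_
    · refine (mul_le_mul_of_nonneg_right hav1 (by positivity)).trans (le_of_eq ?_)
      norm_num
    · have h2 : ‖av (uu w)‖ ^ 2 ≤ 2 * m1 / R := by
        rw [le_div_iff₀ hR, mul_comm]
        exact h1
      have h3 : 2 * m1 / R ≤ 2 * ((mx : ℝ) / 2 ^ 20) / ((g.R0 : ℝ) / 2 ^ 10) :=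
        div_le_div₀ (by positivity) (by linarith) (by positivity) c.hR0
      have h4 := real_le_div (mx * 2147483648) g.R0 hR0n
      obtain ⟨a, ha⟩ : ∃ a, a = mx * 2147483648 / g.R0 + 1 := ⟨_, rfl⟩
      rw [← ha] at h4 ⊢
      have h5 := sqrt_le_isq a
      have h6 : ‖av (uu w)‖ ^ 2 ≤ (a : ℝ) / 2 ^ 40 := by
        refine (h2.trans h3).trans ?_
        rw [le_div_iff₀ (by positivity)]
        refine le_trans (le_of_eq ?_) h4
        push_cast
        field_simp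
        ring
      have h7 : ‖av (uu w)‖ ≤ Real.sqrt ((a : ℝ) / 2 ^ 40) := Real.le_sqrt_of_sq_le h6
      rw [Real.sqrt_div (Nat.cast_nonneg a)] at h7
      have e : Real.sqrt (2 ^ 40) = 2 ^ 20 := by
        rw [show (2 : ℝ) ^ 40 = (2 ^ 20) ^ 2 by norm_num, Real.sqrt_sq (by positivity)]
      rw [e, le_div_iff₀ (by positivity)] at h7
      exact h7.trans h5

theorem mx_sound (c : Cf N w R β g) {k1 : ℕ}
    (hk : k1 ≠ 0 → (av (uu w)).re * max 1 R * β ≤ (k1 : ℝ) / 2 ^ 10) :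
    (av (uu w)).re ≤ ((bif Nat.beq k1 0 then g.mc else
      Nat.min (k1 * 1073741824 / (Nat.max 1024 g.R0 * g.Ba) + 1) g.mc : ℕ) : ℝ) / 2 ^ 20 := by
  by_cases h : k1 = 0
  · subst h
    rw [show Nat.beq 0 0 = true from rfl, cond_true]
    exact c.hm
  · have hb' : Nat.beq k1 0 = false := by
      rw [Bool.eq_false_iff]
      intro hc
      exact h (Nat.eq_of_beq_eq_true hc)
    rw [hb', cond_false, cast_nmin, le_div_iff₀ (by positivity)]
    have hm0 := c.m_nonneg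
    have hBar : (0 : ℝ) < g.Ba := by exact_mod_cast c.hBa
    refine le_min ?_ ?_
    · have h1 := hk h
      have hMm := c.hMm
      obtain ⟨M0, hM0⟩ : ∃ M0, M0 = Nat.max 1024 g.R0 := ⟨_, rfl⟩
      have hM0n : 0 < M0 := by
        rw [hM0]
        exact lt_of_lt_of_le (by norm_num) (Nat.le_max_left _ _)
      rw [← hM0] at hMm ⊢
      have hM0r : (0 : ℝ) < M0 := by exact_mod_cast hM0n
      have h2 : (av (uu w)).re * (((M0 : ℝ) / 2 ^ 10) * ((g.Ba : ℝ) / 2 ^ 10)) ≤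
          (k1 : ℝ) / 2 ^ 10 := by
        refine le_trans ?_ h1
        rw [mul_assoc]
        apply mul_le_mul_of_nonneg_left _ hm0
        exact mul_le_mul hMm c.hβa (by positivity) c.hM.le
      have h3 := real_le_div (k1 * 1073741824) (M0 * g.Ba) (Nat.mul_pos hM0n c.hBa)
      refine le_trans ?_ h3
      push_cast
      rw [le_div_iff₀ (by positivity)]
      rw [le_div_iff₀ (by positivity)] at h2
      nlinarith
    · have := c.hm
      rwa [le_div_iff₀ (by positivity)] at this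

theorem invZ_self {u : Fin N → ℂ} (s : ℕ) : InvZ N u β s s 0 := by
  unfold InvZ
  simp

theorem one_sound (c : Cf N w R β g) {z σ : Fin N → ℂ} (hC : Cfg2 N z w R σ) {pf : List Pf}
    (hpf : ∀ p ∈ pf, Ok N w R p) (hR01 : g.R0 ≤ g.R1) {k0 : ℕ} {e : En}
    (hk0 : (k0 : ℝ) / 2 ^ 10 ≤ (av (uu w)).re * max 1 R * β)
    (hk1 : e.k1 ≠ 0 → (av (uu w)).re * max 1 R * β ≤ (e.k1 : ℝ) / 2 ^ 10)
    (h : one g pf k0 e = true) : False := by
  have hI0 : Inv N (uu w) β (kM (uu w)) e.th 0 0 0 := by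
    constructor <;> simp
  have hmx := mx_sound c hk1
  unfold one at h
  simp only [ev_eq] at h
  obtain ⟨mx, hmx'⟩ : ∃ mx, mx = (bif Nat.beq e.k1 0 then g.mc else
      Nat.min (e.k1 * 1073741824 / (Nat.max 1024 g.R0 * g.Ba) + 1) g.mc : ℕ) := ⟨_, rfl⟩
  rw [← hmx'] at hmx h
  have mb := c.mb hmx
  clear hmx'
  obtain ⟨Sm, hSm⟩ : ∃ Sm, Sm = 1048576 + 2 * mx := ⟨_, rfl⟩
  rw [← hSm] at mb h
  obtain ⟨Sq, hSq⟩ : ∃ Sq, Sq = Nat.min (Nat.max 1024 g.R1 * 1024) Sm := ⟨_, rfl⟩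
  obtain ⟨S2, hS2⟩ : ∃ S2, S2 = Nat.min 1048576 (Sm * 1024 / g.R0 + 1) := ⟨_, rfl⟩
  obtain ⟨gp, hgp⟩ : ∃ gp, gp = (g.R0 - 1024) * 1048576 / g.R0 := ⟨_, rfl⟩
  obtain ⟨gn, hgn⟩ : ∃ gn, gn = (3 * g.R1 + (1048576 / g.R0 + 1) - 2048) * mx / 1024 + 1 :=
    ⟨_, rfl⟩
  obtain ⟨rho, hrho⟩ : ∃ rho, rho = Nat.min 1048576 (isq (mx * 2147483648 / g.R0 + 1)) := ⟨_, rfl⟩
  rw [← hSq, ← hS2, ← hgp, ← hgn, ← hrho] at mb h
  clear hSm hSq hS2 hgp hgn hrho
  rw [Bool.and_eq_true, Bool.and_eq_true, Bool.and_eq_true, Bool.and_eq_true, Bool.and_eq_true,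
    Nat.ble_eq, Nat.ble_eq, Nat.ble_eq, Nat.ble_eq, Nat.ble_eq] at h
  obtain ⟨hh, ha, ha1, ha2, ha3, h⟩ := h
  obtain ⟨s, U, V, hs, hI, h⟩ := body_sound c mb hk0 hpf hh e.bd 0 0 0 h (by
    rw [Nat.zero_mul]; exact Nat.zero_le _) hI0
  obtain ⟨p0, hp0, h⟩ := nth_sound _ _ h
  rw [Bool.and_eq_true, Bool.and_eq_true, Nat.ble_eq, Nat.ble_eq] at h
  obtain ⟨hX0, hX1, h⟩ := h
  have hT : ‖qq (uu w) ((s : ℝ) / 2 ^ 10 / β)‖ ≤ (eL p0.c p0.g k0 0 s : ℝ) / 2 ^ 40 := by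
    have h1 := cellL c (hpf p0 hp0) hk0 0 s hX0 hX1 0 ⟨le_rfl, zero_le_one⟩
    rw [zero_mul, add_zero, mul_zero, add_zero] at h1
    exact h1
  obtain ⟨sf, Z, hsf, hZ, h⟩ := tail_sound (s0 := s) c hk0 hpf hh e.tl s 0 h le_rfl (invZ_self s)
  have hβ := c.hβ
  have hBar : (0 : ℝ) < g.Ba := by exact_mod_cast c.hBa
  by_cases hiG : e.iG = 0
  · rw [hiG, show Nat.beq 0 0 = true from rfl, cond_true, Bool.and_eq_true, Bool.and_eq_true,
      Nat.ble_eq, Nat.ble_eq] at h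
    obtain ⟨hf1, hf2, h⟩ := h
    refine fin_sound c hC mb hR01 ha ha1 ha2 ha3 hs hI hT (fun Z' Q hZ' hQ => ?_) h
    clear h hT hI hI0 mb
    refine tail_int0 c hZ ?_ ?_ (by rw [hZ']; exact Nat.le_add_right _ _) hQ
    · have h1 : (s : ℝ) * 1024 ≤ ((g.R0 - e.a : ℕ) : ℝ) * g.Ba := by exact_mod_cast hf2
      rw [Nat.cast_sub (by omega)] at h1
      have h2 : (s : ℝ) / 2 ^ 10 / β ≤ (s : ℝ) / 2 ^ 10 / ((g.Ba : ℝ) / 2 ^ 10) :=
        div_le_div_of_nonneg_left (by positivity) (by positivity) c.hβa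
      refine h2.trans ?_
      rw [div_le_iff₀ (by positivity)]
      have h3 : ((g.R0 : ℝ) / 2 ^ 10 - (e.a : ℝ) / 2 ^ 10) * ((g.Ba : ℝ) / 2 ^ 10) ≤
          (R - (e.a : ℝ) / 2 ^ 10) * ((g.Ba : ℝ) / 2 ^ 10) := by
        apply mul_le_mul_of_nonneg_right _ (by positivity)
        linarith [c.hR0]
      refine le_trans ?_ h3
      have e1 : ((g.R0 : ℝ) / 2 ^ 10 - (e.a : ℝ) / 2 ^ 10) * ((g.Ba : ℝ) / 2 ^ 10) =
          ((g.R0 : ℝ) - e.a) * g.Ba / 2 ^ 20 := by ring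
      rw [e1, div_le_div_iff₀ (by positivity) (by positivity)]
      nlinarith
    · have h1 : ((g.R1 - e.a : ℕ) : ℝ) * g.Bb ≤ sf * 1024 := by exact_mod_cast hf1
      rw [Nat.cast_sub (by omega)] at h1
      rw [le_div_iff₀ hβ]
      have h3 : (R - (e.a : ℝ) / 2 ^ 10) * β ≤
          ((g.R1 : ℝ) / 2 ^ 10 - (e.a : ℝ) / 2 ^ 10) * ((g.Bb : ℝ) / 2 ^ 10) := by
        apply mul_le_mul _ c.hβb hβ.le
        · rw [← sub_div]
          apply div_nonneg _ (by positivity)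
          have : (e.a : ℝ) + 1 ≤ g.R0 := by exact_mod_cast ha3
          have : (g.R0 : ℝ) ≤ g.R1 := by exact_mod_cast hR01
          linarith
        · linarith [c.hR1]
      refine h3.trans ?_
      have e1 : ((g.R1 : ℝ) / 2 ^ 10 - (e.a : ℝ) / 2 ^ 10) * ((g.Bb : ℝ) / 2 ^ 10) =
          ((g.R1 : ℝ) - e.a) * g.Bb / 2 ^ 20 := by ring
      rw [e1, div_le_div_iff₀ (by positivity) (by positivity)]
      nlinarith
  have hb' : Nat.beq e.iG 0 = false := by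
    rw [Bool.eq_false_iff]
    intro hc
    exact hiG (Nat.eq_of_beq_eq_true hc)
  rw [hb', cond_false] at h
  obtain ⟨pG, hpG, h⟩ := nth_sound _ _ h
  rw [Bool.and_eq_true, Bool.and_eq_true, Bool.and_eq_true, Bool.and_eq_true, Nat.ble_eq,
    Nat.ble_eq, Nat.ble_eq, Nat.ble_eq] at h
  obtain ⟨hG0, hG1, hG2, hG3, h⟩ := h
  refine fin_sound c hC mb hR01 ha ha1 ha2 ha3 hs hI hT (fun Z' Q hZ' hQ =>
    tail_int c hsf hZ ?_ ?_ ?_ hG3 hZ' hQ) h
  all_goals clear h hT hZ hI hI0 mb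
  · -- `sf`
    have h1 : (sf : ℝ) * 1024 ≤ ((g.R0 - e.a : ℕ) : ℝ) * g.Ba := by exact_mod_cast hG2
    rw [Nat.cast_sub (by omega)] at h1
    have h2 : (sf : ℝ) / 2 ^ 10 / β ≤ (sf : ℝ) / 2 ^ 10 / ((g.Ba : ℝ) / 2 ^ 10) :=
      div_le_div_of_nonneg_left (by positivity) (by positivity) c.hβa
    refine h2.trans ?_
    rw [div_le_iff₀ (by positivity)]
    have h3 : ((g.R0 : ℝ) / 2 ^ 10 - (e.a : ℝ) / 2 ^ 10) * ((g.Ba : ℝ) / 2 ^ 10) ≤
        (R - (e.a : ℝ) / 2 ^ 10) * ((g.Ba : ℝ) / 2 ^ 10) := by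
      apply mul_le_mul_of_nonneg_right _ (by positivity)
      linarith [c.hR0]
    refine le_trans ?_ h3
    have e1 : ((g.R0 : ℝ) / 2 ^ 10 - (e.a : ℝ) / 2 ^ 10) * ((g.Ba : ℝ) / 2 ^ 10) =
        ((g.R0 : ℝ) - e.a) * g.Ba / 2 ^ 20 := by ring
    rw [e1, div_le_div_iff₀ (by positivity) (by positivity)]
    nlinarith
  · intro x hx
    have hm0 := c.m_nonneg
    have h1 : (pG.X0 : ℝ) / 1024 ≤ x := by
      have h2 : (pG.X0 : ℝ) * g.Bb ≤ sf * 1024 := by exact_mod_cast hG0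
      refine le_trans ?_ hx.1
      rw [le_div_iff₀ hβ]
      have h3 : (pG.X0 : ℝ) / 1024 * β ≤ (pG.X0 : ℝ) / 1024 * ((g.Bb : ℝ) / 2 ^ 10) :=
        mul_le_mul_of_nonneg_left c.hβb (by positivity)
      refine h3.trans ?_
      have e1 : (pG.X0 : ℝ) / 1024 * ((g.Bb : ℝ) / 2 ^ 10) = (pG.X0 * g.Bb) / 2 ^ 20 := by ring
      rw [e1, div_le_div_iff₀ (by positivity) (by positivity)]
      nlinarith
    have h2 : x ≤ (pG.X : ℝ) / 1024 := by
      have h3 : (g.R1 : ℝ) ≤ pG.X + e.a := by exact_mod_cast hG1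
      have h4 := c.hR1
      rw [le_div_iff₀ (by positivity)] at h4
      have h5 := hx.2
      rw [le_div_iff₀ (by norm_num)]
      have h6 : (x : ℝ) * 1024 ≤ (R - (e.a : ℝ) / 2 ^ 10) * 1024 :=
        mul_le_mul_of_nonneg_right h5 (by norm_num)
      refine h6.trans ?_
      have e1 : (R - (e.a : ℝ) / 2 ^ 10) * 1024 = R * 2 ^ 10 - e.a := by ring
      rw [e1]
      linarith
    have hx0 : 0 ≤ x := le_trans (by positivity) hx.1
    refine (hpf pG hpG x ⟨h1, h2⟩).trans (Real.exp_le_exp.2 (neg_le_neg ?_))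
    have hM := c.hM
    have hN := c.hβN
    obtain ⟨M, hMe⟩ : ∃ M, M = max 1 R := ⟨_, rfl⟩
    rw [← hMe] at hM hN ⊢
    have e1 : (pG.c : ℝ) / 1024 * β ^ 2 * x ^ 2 = N * ((pG.c : ℝ) / 1024 * x ^ 2 / M) := by
      rw [← hN]
      field_simp
    rw [e1]
    apply mul_le_mul_of_nonneg_left _ (Nat.cast_nonneg N)
    have : 0 ≤ (pG.g : ℝ) / 1024 * x * (av (uu w)).re := by positivity
    linarith
  · refine le_trans (Real.exp_le_exp.2 (neg_le_neg ?_)) (em_spec _)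
    rw [cast_nmin]
    have h1 : min (((pG.c * (sf * sf) * 1024 : ℕ)) : ℝ) ((70368744177664 : ℕ) : ℝ) ≤
        ((pG.c * (sf * sf) * 1024 : ℕ) : ℝ) := min_le_left _ _
    refine (div_le_div_of_nonneg_right h1 (by positivity)).trans (le_of_eq ?_)
    push_cast
    ring

theorem goK_sound (c : Cf N w R β g) {z σ : Fin N → ℂ} (hC : Cfg2 N z w R σ) {pf : List Pf}
    (hpf : ∀ p ∈ pf, Ok N w R p) (hR01 : g.R0 ≤ g.R1) (l : List En) :
    ∀ k0 : ℕ, (k0 : ℝ) / 2 ^ 10 ≤ (av (uu w)).re * max 1 R * β → goK g pf k0 l = true →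
      False := by
  induction l with
  | nil => intro k0 _ h; simp [goK] at h
  | cons e l ih =>
    intro k0 hk h
    unfold goK at h
    rw [Bool.and_eq_true] at h
    obtain ⟨h1, h2⟩ := h
    by_cases he : e.k1 = 0
    · exact one_sound c hC hpf hR01 hk (fun h => absurd he h) h1
    · have hb' : Nat.beq e.k1 0 = false := by
        rw [Bool.eq_false_iff]
        intro hc
        exact he (Nat.eq_of_beq_eq_true hc)
      rw [hb', cond_false] at h2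
      rcases le_total ((av (uu w)).re * max 1 R * β) ((e.k1 : ℝ) / 2 ^ 10) with h3 | h3
      · exact one_sound c hC hpf hR01 hk (fun _ => h3) h1
      · exact ih _ h3 h2

end

/-- **the checker is sound** -/
theorem chk_sound {N : ℕ} {z w : Fin N → ℂ} {R : ℝ} {σ : Fin N → ℂ} {g : Gr} {pf : List Pf}
    {l : List En} (h : chk g pf l = true) (hC : Cfg2 N z w R σ) (hN0 : g.N0 ≤ N) (hN1 : N ≤ g.N1)
    (hR0 : (g.R0 : ℝ) / 2 ^ 10 ≤ R) (hR1 : R ≤ (g.R1 : ℝ) / 2 ^ 10)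
    (hm : (av (uu w)).re ≤ (g.mc : ℝ) / 2 ^ 20) (hpf : ∀ p ∈ pf, Ok N w R p) : False := by
  unfold chk at h
  simp only [Bool.and_eq_true, Nat.ble_eq] at h
  obtain ⟨hN, hBa, hg0, hA, hB, hmc, hgo⟩ := h
  have hR01 : g.R0 ≤ g.R1 := by
    have := hR0.trans hR1
    rw [div_le_div_iff_of_pos_right (by positivity)] at this
    exact_mod_cast this
  have hRpos : 0 < R := by
    refine lt_of_lt_of_le ?_ hR0
    have : (0 : ℝ) < g.R0 := by exact_mod_cast hg0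
    positivity
  obtain ⟨M, hM⟩ : ∃ M, M = max 1 R := ⟨_, rfl⟩
  have hMp : 0 < M := by rw [hM]; exact lt_of_lt_of_le one_pos (le_max_left _ _)
  obtain ⟨β, hβ⟩ : ∃ β, β = Real.sqrt (N / M) := ⟨_, rfl⟩
  have hNr : (40 : ℝ) ≤ N := by exact_mod_cast hN.trans hN0
  have hβ2 : β ^ 2 = N / M := by
    rw [hβ, Real.sq_sqrt (by positivity)]
  have hβ0 : 0 ≤ β := by rw [hβ]; exact Real.sqrt_nonneg _
  have hMM : M ≤ ((Nat.max 1024 g.R1 : ℕ) : ℝ) / 2 ^ 10 := by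
    have e : ((Nat.max 1024 g.R1 : ℕ) : ℝ) = max 1024 (g.R1 : ℝ) := by
      rw [show Nat.max 1024 g.R1 = max 1024 g.R1 from rfl, Nat.cast_max]
      norm_num
    rw [e, hM]
    apply max_le
    · rw [le_div_iff₀ (by positivity)]
      refine le_trans (le_of_eq (by norm_num)) (le_max_left _ _)
    · exact hR1.trans (div_le_div_of_nonneg_right (le_max_right _ _) (by positivity))
  have hMm : ((Nat.max 1024 g.R0 : ℕ) : ℝ) / 2 ^ 10 ≤ M := by
    have e : ((Nat.max 1024 g.R0 : ℕ) : ℝ) = max 1024 (g.R0 : ℝ) := by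
      rw [show Nat.max 1024 g.R0 = max 1024 g.R0 from rfl, Nat.cast_max]
      norm_num
    rw [e, div_le_iff₀ (by positivity), hM]
    apply max_le
    · have := le_max_left 1 R
      linarith
    · rw [div_le_iff₀ (by positivity)] at hR0
      refine hR0.trans ?_
      exact mul_le_mul_of_nonneg_right (le_max_right _ _) (by positivity)
  obtain ⟨M1, hM1⟩ : ∃ M1, M1 = Nat.max 1024 g.R1 := ⟨_, rfl⟩
  obtain ⟨M0, hM0⟩ : ∃ M0, M0 = Nat.max 1024 g.R0 := ⟨_, rfl⟩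
  rw [← hM1] at hMM hA
  rw [← hM0] at hMm hB
  have hN0r : (g.N0 : ℝ) ≤ N := by exact_mod_cast hN0
  have hN1r : (N : ℝ) ≤ g.N1 := by exact_mod_cast hN1
  have c : Cf N w R β g := by
    refine ⟨hN.trans hN0, hC.cfg.far, hC.dist.le, hRpos, hR0, hR1, hN0, hN1, hg0, hBa, ?_, ?_, ?_,
      hm, hmc⟩
    · apply H58.M.le_of_sq_le_sq' _ hβ0
      rw [hβ2, le_div_iff₀ hMp]
      have h1 : ((g.Ba : ℝ) / 2 ^ 10) ^ 2 * M ≤ ((g.Ba : ℝ) / 2 ^ 10) ^ 2 * ((M1 : ℝ) / 2 ^ 10) :=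
        mul_le_mul_of_nonneg_left hMM (by positivity)
      refine h1.trans ?_
      have h2 : (M1 : ℝ) * (g.Ba * g.Ba) ≤ g.N0 * 1073741824 := by exact_mod_cast hA
      have e : ((g.Ba : ℝ) / 2 ^ 10) ^ 2 * ((M1 : ℝ) / 2 ^ 10) = M1 * (g.Ba * g.Ba) / 2 ^ 30 := by
        ring
      rw [e, div_le_iff₀ (by positivity)]
      refine h2.trans ?_
      have e2 : (1073741824 : ℝ) = 2 ^ 30 := by norm_num
      rw [e2]
      exact mul_le_mul_of_nonneg_right hN0r (by positivity)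
    · apply H58.M.le_of_sq_le_sq' _ (by positivity)
      rw [hβ2, div_le_iff₀ hMp]
      have h1 : ((g.Bb : ℝ) / 2 ^ 10) ^ 2 * ((M0 : ℝ) / 2 ^ 10) ≤ ((g.Bb : ℝ) / 2 ^ 10) ^ 2 * M :=
        mul_le_mul_of_nonneg_left hMm (by positivity)
      refine le_trans ?_ h1
      have h2 : (g.N1 : ℝ) * 1073741824 ≤ M0 * (g.Bb * g.Bb) := by exact_mod_cast hB
      have e : ((g.Bb : ℝ) / 2 ^ 10) ^ 2 * ((M0 : ℝ) / 2 ^ 10) = M0 * (g.Bb * g.Bb) / 2 ^ 30 := by
        ring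
      rw [e, le_div_iff₀ (by positivity)]
      refine le_trans ?_ h2
      have e2 : (1073741824 : ℝ) = 2 ^ 30 := by norm_num
      rw [e2]
      exact mul_le_mul_of_nonneg_right hN1r (by positivity)
    · rw [hβ2, ← hM]
      field_simp
  refine goK_sound c hC hpf hR01 l 0 ?_ hgo
  rw [Nat.cast_zero, zero_div]
  have h1 := c.m_nonneg
  have h2 := c.hβ
  have h3 := c.hM
  positivity

/-- the profiles of a cell -/
theorem ok_pfs {N : ℕ} {w : Fin N → ℂ} {R : ℝ} {X0 : ℕ} {A B P : List (ℕ × ℕ)}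
    (hA : ∀ q ∈ A, ∀ x ∈ Set.Icc ((X0 : ℝ) / 1024) ((q.1 : ℝ) / 1024),
      ‖qq (uu w) x‖ ≤ Real.exp (-(N * (((389 : ℕ) : ℝ) / 1024 * x ^ 2 / max 1 R +
        (q.2 : ℝ) / 1024 * x * (av (uu w)).re))))
    (hB : ∀ q ∈ B, ∀ x ∈ Set.Icc ((X0 : ℝ) / 1024) ((q.1 : ℝ) / 1024),
      ‖qq (uu w) x‖ ≤ Real.exp (-(N * (((205 : ℕ) : ℝ) / 1024 * x ^ 2 / max 1 R +
        (q.2 : ℝ) / 1024 * x * (av (uu w)).re))))
    (hP : ∀ q ∈ P, ∀ x ∈ Set.Icc (0 : ℝ) ((q.1 : ℝ) / 1024),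
      ‖qq (uu w) x‖ ≤ Real.exp (-(N * ((q.2 : ℝ) / 1024 * x ^ 2 / max 1 R)))) :
    ∀ p ∈ pfs X0 A B P, Ok N w R p := by
  intro p hp
  unfold pfs at hp
  rw [List.mem_append, List.mem_append, List.mem_map, List.mem_map, List.mem_map] at hp
  unfold Ok
  rcases hp with ⟨q, hq, rfl⟩ | ⟨q, hq, rfl⟩ | ⟨q, hq, rfl⟩
  · exact hA q hq
  · exact hB q hq
  · intro x hx
    have h1 := hP q hq x (by simpa using hx)
    simpa using h1

end Pool.Agent.Lib.MP_af3a4a_an.P1.CHK.H21
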