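import Pool.Agent.Lib.MP_af3a4a_an.P1.CHK.H21.KI

/-!
# Chains of groups in `N` (helper21)
-/

set_option autoImplicit false

namespace Pool.Agent.Lib.MP_af3a4a_an.P1.CHK.H21

open Finset MeasureTheory ComplexConjugate
open Pool.Agent.Lib.MP_af3a4a_an.SV (uu av)
open Pool.Agent.Lib.MP_af3a4a_an.P1.H80
open Pool.Agent.Lib.MP_af3a4a_an.P1.H74
open Pool.Agent.Lib.MP_af3a4a_an.P1.H81

/-- groups `(N1, Ba, Bb, cells)`, each from the end of the one before -/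
def allN (R0 R1 mc : ℕ) (pf : List Pf) : ℕ → List (ℕ × ℕ × ℕ × List En) → Bool
  | _, [] => true
  | N0, q :: l => chk ⟨R0, R1, N0, q.1, q.2.1, q.2.2.1, mc⟩ pf q.2.2.2 && allN R0 R1 mc pf q.1 l

def lastN : ℕ → List (ℕ × ℕ × ℕ × List En) → ℕ
  | N0, [] => N0
  | _, q :: l => lastN q.1 l

theorem allN_sound {N : ℕ} {z w : Fin N → ℂ} {R : ℝ} {σ : Fin N → ℂ} (hC : Cfg2 N z w R σ)
    {R0 R1 mc : ℕ} {pf : List Pf} (hR0 : (R0 : ℝ) / 2 ^ 10 ≤ R) (hR1 : R ≤ (R1 : ℝ) / 2 ^ 10)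
    (hm : (av (uu w)).re ≤ (mc : ℝ) / 2 ^ 20) (hpf : ∀ p ∈ pf, Ok N w R p) :
    ∀ (l : List (ℕ × ℕ × ℕ × List En)) (N0 : ℕ), allN R0 R1 mc pf N0 l = true → N0 ≤ N →
      N < lastN N0 l → False := by
  intro l
  induction l with
  | nil =>
    intro N0 _ h1 h2
    simp only [lastN] at h2
    omega
  | cons q l ih =>
    intro N0 h h1 h2
    unfold allN at h
    rw [Bool.and_eq_true] at h
    rcases le_total N q.1 with hc | hc
    · exact chk_sound h.1 hC h1 hc hR0 hR1 hm hpf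
    · exact ih _ h.2 hc h2

/-- profiles from the tables of the form `TabS` -/
def pf4 (X0 : ℕ) (P : List (ℕ × ℕ × ℕ × ℕ)) : List Pf := P.map fun q => ⟨q.2.1, 0, X0, q.1⟩

theorem ok_pf4 {N : ℕ} {w : Fin N → ℂ} {R : ℝ} {X0 : ℕ} {P : List (ℕ × ℕ × ℕ × ℕ)}
    (hP : ∀ q ∈ P, ∀ x ∈ Set.Icc ((X0 : ℝ) / 1024) ((q.1 : ℝ) / 1024),
      ‖qq (uu w) x‖ ≤ Real.exp (-(N * ((q.2.1 : ℝ) / 1024 * x ^ 2 / max 1 R)))) :
    ∀ p ∈ pf4 X0 P, Ok N w R p := by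
  intro p hp
  unfold pf4 at hp
  rw [List.mem_map] at hp
  unfold Ok
  obtain ⟨q, hq, rfl⟩ := hp
  intro x hx
  have h1 := hP q hq x hx
  simpa using h1

theorem ok_append {N : ℕ} {w : Fin N → ℂ} {R : ℝ} {l1 l2 : List Pf}
    (h1 : ∀ p ∈ l1, Ok N w R p) (h2 : ∀ p ∈ l2, Ok N w R p) : ∀ p ∈ l1 ++ l2, Ok N w R p := by
  intro p hp
  rcases List.mem_append.1 hp with h | h
  · exact h1 p h
  · exact h2 p h

section

variable {N : ℕ} {z w σ : Fin N → ℂ} {R : ℝ}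

theorem m1_le_one (hN : 1 ≤ N) (hC : Cfg2 N z w R σ) : (av (uu w)).re ≤ 1 := by
  refine (Complex.re_le_norm _).trans ?_
  refine (av_le _ (fun _ => (1 : ℝ)) fun k => uu_le hC.cfg.far k).trans ?_
  have hNp : (0 : ℝ) < N := by exact_mod_cast (by omega : 0 < N)
  simp only [Finset.sum_const, Finset.card_univ, Fintype.card_fin, nsmul_eq_mul, mul_one]
  rw [one_div, inv_mul_cancel₀ hNp.ne']

theorem m1_le_two (hN : 1 ≤ N) (hC : Cfg2 N z w R σ) (hR : 0 < R) : (av (uu w)).re ≤ 2 / R := by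
  have h1 := first_moment hN hC.cfg.far hC.dist.le hR
  obtain ⟨m1, hm1⟩ : ∃ m1, m1 = (av (uu w)).re := ⟨_, rfl⟩
  rw [← hm1] at h1 ⊢
  have hm0 : 0 ≤ m1 := by
    have : 0 ≤ R * ‖av (uu w)‖ ^ 2 := by positivity
    linarith
  have h2 : m1 ≤ ‖av (uu w)‖ := by
    rw [hm1]
    exact Complex.re_le_norm _
  have h3 : R * m1 ^ 2 ≤ 2 * m1 := by
    refine le_trans ?_ h1
    apply mul_le_mul_of_nonneg_left _ hR.le
    exact pow_le_pow_left₀ hm0 h2 2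
  rw [le_div_iff₀ hR]
  rcases hm0.eq_or_lt with h | h
  · rw [← h]; norm_num
  · have h5 : (R * m1) * m1 ≤ 2 * m1 := by nlinarith
    have := le_of_mul_le_mul_right h5 h
    linarith

end

end Pool.Agent.Lib.MP_af3a4a_an.P1.CHK.H21
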