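import Pool.Agent.Lib.MP_af3a4a_an.P1.H81.MassK

/-!
# MASS with the exact mean kernel (helper21, after helper81 and helper58; council 2)

`massM`: no condition on `R`; `kM x = mean |u|²/|1 - x u|`, `kM ≤ kapK` for `R ≥ 1` and
`kM ≤ (1 + x m₁)/(1 - x²)` always.
-/

set_option autoImplicit false

namespace Pool.Agent.Lib.MP_af3a4a_an.P1.CHK.H21

open Finset MeasureTheory intervalIntegral ComplexConjugate
open Pool.Agent.Lib.MP_af3a4a_an.SV (uu av EE)
open Pool.Agent.Lib.MP_af3a4a_an.P1.H80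
open Pool.Agent.Lib.MP_af3a4a_an.P1.H81

/-- the mean kernel -/
noncomputable def kM {N : ℕ} (u : Fin N → ℂ) (x : ℝ) : ℝ :=
  1 / (N : ℝ) * ∑ k, ‖u k‖ ^ 2 / ‖1 - (x : ℂ) * u k‖

section

variable {N : ℕ} {u : Fin N → ℂ}

theorem kM_nonneg (x : ℝ) : 0 ≤ kM u x := by
  unfold kM
  have : 0 ≤ ∑ k, ‖u k‖ ^ 2 / ‖1 - (x : ℂ) * u k‖ :=
    Finset.sum_nonneg fun k _ => div_nonneg (sq_nonneg _) (norm_nonneg _)
  positivity

theorem kM_cont (hu : ∀ k, ‖u k‖ ≤ 1) {y : ℝ} (hy : y < 1) :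
    ContinuousOn (kM u) (Set.Icc 0 y) := by
  unfold kM
  apply ContinuousOn.mul continuousOn_const
  apply continuousOn_finsetSum
  intro k _
  apply ContinuousOn.div continuousOn_const
  · apply Continuous.continuousOn
    fun_prop
  · intro x hx
    have := one_sub_ne' (hu k) hx.1 (lt_of_le_of_lt hx.2 hy)
    exact norm_ne_zero_iff.2 this

/-- the remainder of `λ` -/
theorem lam_M (hu : ∀ k, ‖u k‖ ≤ 1) {x t : ℝ} (ht0 : 0 ≤ t) (h0 : 0 ≤ x) (h1 : x < 1) :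
    ‖lam u x - (av u + t * av (fun k => u k ^ 2))‖ ≤ |x - t| * kM u x + t * (x * kM u x) := by
  have e1 : lam u x - (av u + t * av (fun k => u k ^ 2)) =
      ((x - t : ℝ) : ℂ) * av (fun k => u k ^ 2 / (1 - (x : ℂ) * u k)) +
      (t : ℂ) * ((x : ℂ) * av (fun k => u k ^ 3 / (1 - (x : ℂ) * u k))) := by
    unfold lam
    rw [← av_smul', ← av_smul', ← av_smul', ← av_smul']
    unfold av
    rw [← mul_add, ← mul_add, ← mul_sub, ← Finset.sum_add_distrib, ← Finset.sum_add_distrib,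
      ← Finset.sum_sub_distrib]
    congr 1
    apply Finset.sum_congr rfl
    intro k _
    have hne := one_sub_ne' (hu k) h0 h1
    obtain ⟨D, hD⟩ : ∃ D, D = 1 - (x : ℂ) * u k := ⟨_, rfl⟩
    rw [← hD] at hne ⊢
    push_cast
    have e2 : u k / D - (u k + t * u k ^ 2) = (u k - (u k + t * u k ^ 2) * D) / D := by
      field_simp
    have e3 : (x - t : ℂ) * (u k ^ 2 / D) + t * (x * (u k ^ 3 / D)) =
        ((x - t) * u k ^ 2 + t * (x * u k ^ 3)) / D := by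
      field_simp
    rw [e2, e3]
    congr 1
    rw [hD]
    ring
  rw [e1]
  refine (norm_add_le _ _).trans ?_
  rw [norm_mul, norm_mul, norm_mul, Complex.norm_real, Complex.norm_real, Complex.norm_real,
    Real.norm_of_nonneg h0, Real.norm_of_nonneg ht0, Real.norm_eq_abs]
  have h2 : ‖av (fun k => u k ^ 2 / (1 - (x : ℂ) * u k))‖ ≤ kM u x := by
    refine av_le _ (fun k => ‖u k‖ ^ 2 / ‖1 - (x : ℂ) * u k‖) fun k => ?_
    rw [norm_div, norm_pow]
  have h3 : ‖av (fun k => u k ^ 3 / (1 - (x : ℂ) * u k))‖ ≤ kM u x := by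
    refine av_le _ (fun k => ‖u k‖ ^ 2 / ‖1 - (x : ℂ) * u k‖) fun k => ?_
    rw [norm_div, norm_pow]
    apply div_le_div_of_nonneg_right _ (norm_nonneg _)
    exact pow_le_pow_of_le_one (norm_nonneg _) (hu k) (by norm_num)
  have h4 := mul_le_mul_of_nonneg_left h2 (abs_nonneg (x - t))
  have h5 := mul_le_mul_of_nonneg_left (mul_le_mul_of_nonneg_left h3 h0) ht0
  linarith

/-- **MASS with the exact kernel** -/
theorem massM (hN : 1 ≤ N) (hu : ∀ k, ‖u k‖ ≤ 1) {y t T : ℝ} (ht0 : 0 ≤ t) (hty : t ≤ y)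
    (hy1 : y < 1) (hT : ‖qq u y‖ ≤ T) :
    1 - T - N * ((∫ x in (0 : ℝ)..y, |x - t| * kM u x * ‖qq u x‖) +
        t * ∫ x in (0 : ℝ)..y, x * kM u x * ‖qq u x‖) ≤
      N * (‖∫ x in (0 : ℝ)..y, qq u x‖ * (‖av u‖ + t * SV.sq u)) := by
  have hNpos : (0 : ℝ) < N := by exact_mod_cast (show 0 < N by omega)
  have hy0 : 0 ≤ y := ht0.trans hty
  have hq := qq_cont u
  have hd := one_sub_q hN hu hy0 hy1
  have hlc := lam_contOn hu hy1
  have hkc := kM_cont hu hy1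
  have he : ContinuousOn (fun x => ‖qq u x‖) (Set.Icc 0 y) := hq.norm.continuousOn
  obtain ⟨c, hc⟩ : ∃ c, c = av u + t * av (fun k => u k ^ 2) := ⟨_, rfl⟩
  have hI1 : IntervalIntegrable (fun x => c * qq u x) volume 0 y :=
    (continuous_const.mul hq).intervalIntegrable _ _
  have hI2 : IntervalIntegrable (fun x => (lam u x - c) * qq u x) volume 0 y := by
    apply ContinuousOn.intervalIntegrable
    rw [Set.uIcc_of_le hy0]
    exact (hlc.sub continuousOn_const).mul hq.continuousOn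
  have hsplit : ∫ x in (0 : ℝ)..y, lam u x * qq u x =
      c * (∫ x in (0 : ℝ)..y, qq u x) + ∫ x in (0 : ℝ)..y, (lam u x - c) * qq u x := by
    rw [← intervalIntegral.integral_const_mul, ← intervalIntegral.integral_add hI1 hI2]
    congr 1
    funext x
    ring
  have hb : ‖∫ x in (0 : ℝ)..y, (lam u x - c) * qq u x‖ ≤
      ∫ x in (0 : ℝ)..y, (|x - t| * kM u x * ‖qq u x‖ + t * (x * kM u x * ‖qq u x‖)) := by
    refine (intervalIntegral.norm_integral_le_integral_norm hy0).trans ?_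
    apply intervalIntegral.integral_mono_on hy0 hI2.norm
    · apply ContinuousOn.intervalIntegrable
      rw [Set.uIcc_of_le hy0]
      exact ((((continuous_id.sub continuous_const).abs).continuousOn.mul hkc).mul he).add
        (continuousOn_const.mul ((continuousOn_id.mul hkc).mul he))
    · intro x hx
      rw [norm_mul]
      have h1 := lam_M hu ht0 hx.1 (lt_of_le_of_lt hx.2 hy1)
      rw [← hc] at h1
      have h3 := mul_le_mul_of_nonneg_right h1 (norm_nonneg (qq u x))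
      linarith
  have hJ1 : IntervalIntegrable (fun x => |x - t| * kM u x * ‖qq u x‖) volume 0 y := by
    apply ContinuousOn.intervalIntegrable
    rw [Set.uIcc_of_le hy0]
    exact (((continuous_id.sub continuous_const).abs).continuousOn.mul hkc).mul he
  have hJ2 : IntervalIntegrable (fun x => t * (x * kM u x * ‖qq u x‖)) volume 0 y := by
    apply ContinuousOn.intervalIntegrable
    rw [Set.uIcc_of_le hy0]
    exact continuousOn_const.mul ((continuousOn_id.mul hkc).mul he)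
  rw [intervalIntegral.integral_add hJ1 hJ2, intervalIntegral.integral_const_mul] at hb
  have hcn : ‖c‖ ≤ ‖av u‖ + t * SV.sq u := by
    rw [hc]
    refine (norm_add_le _ _).trans ?_
    rw [norm_mul, Complex.norm_real, Real.norm_of_nonneg ht0]
    have h1 := av_sq_le (u := u) hN
    have h4 := mul_le_mul_of_nonneg_left h1 ht0
    linarith
  have h1 : 1 - T ≤ ‖1 - qq u y‖ := by
    have := norm_sub_norm_le (1 : ℂ) (qq u y)
    rw [norm_one] at this
    linarith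
  rw [hd, hsplit, norm_mul, Complex.norm_natCast] at h1
  have h2 := norm_add_le (c * (∫ x in (0 : ℝ)..y, qq u x))
    (∫ x in (0 : ℝ)..y, (lam u x - c) * qq u x)
  rw [norm_mul] at h2
  have h3 := mul_le_mul_of_nonneg_right hcn (norm_nonneg (∫ x in (0 : ℝ)..y, qq u x))
  have h4 := mul_le_mul_of_nonneg_left (h2.trans (add_le_add h3 hb)) hNpos.le
  linarith

/-- the simple chord bound -/
theorem chord1 {v : ℂ} (hv : ‖v‖ ≤ 1) {x : ℝ} (h0 : 0 ≤ x) (h1 : x < 1) :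
    ‖v‖ ^ 2 / ‖1 - (x : ℂ) * v‖ ≤ (1 + x * v.re) / (1 - x ^ 2) := by
  obtain ⟨τ, hτ⟩ : ∃ τ, τ = ‖1 - (x : ℂ) * v‖ := ⟨_, rfl⟩
  obtain ⟨p, hp⟩ : ∃ p, p = x * ‖v‖ := ⟨_, rfl⟩
  have hp0 : 0 ≤ p := by rw [hp]; positivity
  have hpx : p ≤ x := by rw [hp]; exact mul_le_of_le_one_right h0 hv
  have hlow : 1 - p ≤ τ := by
    have h2 := norm_sub_norm_le (1 : ℂ) ((x : ℂ) * v)
    rw [norm_one, norm_mul, Complex.norm_real, Real.norm_of_nonneg h0] at h2
    rw [hτ, hp]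
    linarith
  have hup : τ ≤ 1 + p := by
    have h2 := norm_sub_le (1 : ℂ) ((x : ℂ) * v)
    rw [norm_one, norm_mul, Complex.norm_real, Real.norm_of_nonneg h0] at h2
    rw [hτ, hp]
    linarith
  have hsq : τ ^ 2 = 1 - 2 * x * v.re + p ^ 2 := by
    rw [hτ, hp, norm_sq_re_im, mul_pow, norm_sq_re_im v]
    simp only [Complex.sub_re, Complex.sub_im, Complex.one_re, Complex.one_im, Complex.mul_re,
      Complex.mul_im, Complex.ofReal_re, Complex.ofReal_im]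
    ring
  rw [← hτ]
  have hτ0 : 0 < τ := by linarith
  have hx : 0 < 1 - x ^ 2 := by nlinarith
  rw [div_le_div_iff₀ hτ0 hx]
  have e1 : 1 + x * v.re = (3 + p ^ 2 - τ ^ 2) / 2 := by
    rw [hsq]; ring
  rw [e1]
  have h4 : 0 ≤ (τ - (1 - p)) * ((1 + p) - τ) * (τ + 2) :=
    mul_nonneg (mul_nonneg (by linarith) (by linarith)) (by linarith)
  have e2 : (τ - (1 - p)) * ((1 + p) - τ) * (τ + 2) =
      (3 + p ^ 2 - τ ^ 2) * τ - 2 * (1 - p ^ 2) := by ring
  rw [e2] at h4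
  have hs1 : ‖v‖ ^ 2 ≤ 1 := pow_le_one₀ (norm_nonneg _) hv
  have h5 : ‖v‖ ^ 2 * (1 - x ^ 2) ≤ 1 - p ^ 2 := by
    rw [hp, mul_pow]
    nlinarith
  linarith

theorem kM_le_one (hN : 1 ≤ N) (hu : ∀ k, ‖u k‖ ≤ 1) {x : ℝ} (h0 : 0 ≤ x) (h1 : x < 1) :
    kM u x ≤ (1 + x * (av u).re) / (1 - x ^ 2) := by
  have hNpos : (0 : ℝ) < N := by exact_mod_cast (show 0 < N by omega)
  have h2 : ∑ k, ‖u k‖ ^ 2 / ‖1 - (x : ℂ) * u k‖ ≤ ∑ k, (1 + x * (u k).re) / (1 - x ^ 2) :=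
    Finset.sum_le_sum fun k _ => chord1 (hu k) h0 h1
  rw [← Finset.sum_div, Finset.sum_add_distrib, ← Finset.mul_sum] at h2
  simp only [Finset.sum_const, Finset.card_univ, Fintype.card_fin, nsmul_eq_mul, mul_one] at h2
  unfold kM
  have h3 := mul_le_mul_of_nonneg_left h2 (by positivity : 0 ≤ 1 / (N : ℝ))
  refine h3.trans (le_of_eq ?_)
  have e : (av u).re = 1 / (N : ℝ) * ∑ k, (u k).re := by
    unfold av
    rw [← Complex.re_sum]
    have : ((1 : ℂ) / (N : ℂ)) = ((1 / (N : ℝ) : ℝ) : ℂ) := by push_cast; rfl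
    rw [this, Complex.re_ofReal_mul]
  rw [e]
  field_simp

theorem kM_le_kapK (hN : 1 ≤ N) {w : Fin N → ℂ} {R : ℝ} (hw : ∀ k, 1 ≤ ‖w k‖)
    (ht : ∑ k, ‖w k - (R : ℂ)‖ ≤ N) (hR : 1 ≤ R) {x : ℝ} (h0 : 0 ≤ x) (h1 : x < 1) :
    kM (uu w) x ≤ kapK R (av (uu w)).re x := kap_bound hN hw ht hR h0 h1

theorem uu_le {w : Fin N → ℂ} (hw : ∀ k, 1 ≤ ‖w k‖) : ∀ k, ‖uu w k‖ ≤ 1 := by
  intro k
  unfold uu
  rw [norm_inv]
  exact inv_le_one_of_one_le₀ (hw k)

theorem sq_le_one' (hN : 1 ≤ N) (hu : ∀ k, ‖u k‖ ≤ 1) : SV.sq u ≤ 1 := by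
  have hNpos : (0 : ℝ) < N := by exact_mod_cast (show 0 < N by omega)
  have h1 : ∑ k, ‖u k‖ ^ 2 ≤ ∑ _k : Fin N, (1 : ℝ) :=
    Finset.sum_le_sum fun k _ => pow_le_one₀ (norm_nonneg _) (hu k)
  rw [sq_sum hN] at h1
  simp only [Finset.sum_const, Finset.card_univ, Fintype.card_fin, nsmul_eq_mul, mul_one] at h1
  nlinarith

end

end Pool.Agent.Lib.MP_af3a4a_an.P1.CHK.H21
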