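import Pool.Agent.Lib.MP_af3a4a_an.P1.CHK.H58.MT
import Pool.Agent.Lib.MP_af3a4a_an.P1.H81.ZoneA
import Pool.Agent.Lib.MP_af3a4a_an.P1.CHK.H21.KM
import Pool.Agent.Lib.MP_af3a4a_an.P1.CHK.H21.KD

/-!
# Soundness of the kernel, the profiles and the segments (helper21, after helper58)
-/

set_option autoImplicit false

namespace Pool.Agent.Lib.MP_af3a4a_an.P1.CHK.H21

open Finset MeasureTheory ComplexConjugate
open Pool.Agent.Lib.MP_af3a4a_an.SV (uu av)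
open Pool.Agent.Lib.MP_af3a4a_an.P1.H80
open Pool.Agent.Lib.MP_af3a4a_an.P1.H74
open Pool.Agent.Lib.MP_af3a4a_an.P1.H81
open Pool.Agent.Lib.MP_af3a4a_an.P1.CHK.Arith
open Pool.Agent.Lib.MP_af3a4a_an.P1.CHK.H58.M (kapU xlo seg eA Inv CellQ kapU_sound xlo_sound
  seg_sound node_le exp_chord)

/-! ### the kernel -/

theorem kerU_sound {M1 mx xh : ℕ} {M m1 x : ℝ} (hM : M ≤ (M1 : ℝ) / 2 ^ 10)
    (hm0 : 0 ≤ m1) (hm : m1 ≤ (mx : ℝ) / 2 ^ 20) (h0 : 0 ≤ x) (hh : x ≤ (xh : ℝ) / 2 ^ 20)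
    (hD : xh < 1048576) :
    M * ((1 + x * m1) / (1 - x ^ 2)) ≤ (kerU M1 mx xh : ℝ) / 2 ^ 20 := by
  unfold kerU
  obtain ⟨A, hA⟩ : ∃ A, A = 1048576 + ((mx * xh) >>> 20 + 1) := ⟨_, rfl⟩
  rw [← hA]
  obtain ⟨X, hX⟩ : ∃ X, X = (xh : ℝ) / 2 ^ 20 := ⟨_, rfl⟩
  rw [← hX] at hh
  have hX0 : 0 ≤ X := h0.trans hh
  have hX1 : X < 1 := by
    rw [hX, div_lt_one (by positivity)]
    exact_mod_cast hD
  have hx1 : x < 1 := lt_of_le_of_lt hh hX1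
  have hxx : 0 < 1 - x ^ 2 := by nlinarith only [h0, hh, hX1]
  have hXX : 0 < 1 - X ^ 2 := by nlinarith only [h0, hh, hX1]
  have h1 : 1 + x * m1 ≤ (A : ℝ) / 2 ^ 20 := by
    have h3 := le_shr (mx * xh) 20
    obtain ⟨q, hq⟩ : ∃ q, q = (mx * xh) >>> 20 + 1 := ⟨_, rfl⟩
    rw [← hq] at h3 hA
    have h4 : x * m1 ≤ X * ((mx : ℝ) / 2 ^ 20) := mul_le_mul hh hm hm0 hX0
    have h5 : X * ((mx : ℝ) / 2 ^ 20) = ((mx * xh : ℕ) : ℝ) / 2 ^ 20 / 2 ^ 20 := by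
      rw [hX]
      push_cast
      ring
    have h7 := div_le_div_of_nonneg_right h3 (by positivity : (0 : ℝ) ≤ 2 ^ 20)
    have h8 : (A : ℝ) / 2 ^ 20 = 1 + (q : ℝ) / 2 ^ 20 := by
      rw [hA, Nat.cast_add, add_div]
      norm_num
    rw [h8]
    linarith only [h3, h4, h5]
  have h2 : (1 + x * m1) / (1 - x ^ 2) ≤ (A : ℝ) / 2 ^ 20 / (1 - X ^ 2) := by
    refine (div_le_div_of_nonneg_right h1 hxx.le).trans ?_
    apply div_le_div_of_nonneg_left (by positivity) hXX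
    have : x ^ 2 ≤ X ^ 2 := pow_le_pow_left₀ h0 hh 2
    linarith only [this]
  have h3 : M * ((1 + x * m1) / (1 - x ^ 2)) ≤ (M1 : ℝ) / 2 ^ 10 * ((A : ℝ) / 2 ^ 20 / (1 - X ^ 2)) :=
    mul_le_mul hM h2 (by positivity) (by positivity)
  refine h3.trans ?_
  have hlt : xh * xh < 1099511627776 := by nlinarith only [hD]
  have h4 := real_le_div ((M1 * A) * 1073741824) (1099511627776 - xh * xh) (by omega)
  rw [Nat.cast_sub hlt.le] at h4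
  push_cast at h4 ⊢
  refine le_trans (le_of_eq ?_) (div_le_div_of_nonneg_right h4 (by positivity))
  have h5 : (1099511627776 - (xh : ℝ) * xh) = (1 - X ^ 2) * 1099511627776 := by
    rw [hX]
    ring
  rw [h5]
  field_simp
  norm_num
  ring

/-- the data of a configuration in the group `g` -/
structure Cf (N : ℕ) (w : Fin N → ℂ) (R β : ℝ) (g : Gr) : Prop where
  hN : 40 ≤ N
  hw : ∀ k, 1 ≤ ‖w k‖
  ht : ∑ k, ‖w k - (R : ℂ)‖ ≤ N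
  hR : 0 < R
  hR0 : (g.R0 : ℝ) / 2 ^ 10 ≤ R
  hR1 : R ≤ (g.R1 : ℝ) / 2 ^ 10
  hN0 : g.N0 ≤ N
  hN1 : N ≤ g.N1
  hg0 : 1 ≤ g.R0
  hBa : 1 ≤ g.Ba
  hβa : (g.Ba : ℝ) / 2 ^ 10 ≤ β
  hβb : β ≤ (g.Bb : ℝ) / 2 ^ 10
  hβN : β ^ 2 * max 1 R = N
  hm : (av (uu w)).re ≤ (g.mc : ℝ) / 2 ^ 20
  hmc : g.mc ≤ 1048576

/-- the bounds which depend on `m₁` -/
structure Mb {N : ℕ} (w : Fin N → ℂ) (R : ℝ) (mx Sm Sq S2 gp gn rho : ℕ) : Prop where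
  hm : (av (uu w)).re ≤ (mx : ℝ) / 2 ^ 20
  hS : 1 + 2 * (av (uu w)).re ≤ (Sm : ℝ) / 2 ^ 20
  hq : max 1 R * SV.sq (uu w) ≤ (Sq : ℝ) / 2 ^ 20
  hs : SV.sq (uu w) ≤ (S2 : ℝ) / 2 ^ 20
  hg : 1 ≤ R → (gp : ℝ) / 2 ^ 20 - (gn : ℝ) / 2 ^ 20 ≤
    (R - 1) / R - (3 * R ^ 2 - 2 * R + 1) / R * (av (uu w)).re
  hr : ‖av (uu w)‖ ≤ (rho : ℝ) / 2 ^ 20

section

variable {N : ℕ} {w : Fin N → ℂ} {R β : ℝ} {g : Gr}

theorem Cf.hN1' (c : Cf N w R β g) : 1 ≤ N := by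
  have := c.hN
  omega

theorem Cf.hM (_c : Cf N w R β g) : (0 : ℝ) < max 1 R := lt_of_lt_of_le one_pos (le_max_left _ _)

theorem Cf.hβ (c : Cf N w R β g) : 0 < β := by
  have : (0 : ℝ) < g.Ba := by exact_mod_cast c.hBa
  exact lt_of_lt_of_le (by positivity) c.hβa

theorem Cf.m_nonneg (c : Cf N w R β g) : 0 ≤ (av (uu w)).re := by
  have hR := c.hR
  have h1 := first_moment c.hN1' c.hw c.ht hR
  have : 0 ≤ R * ‖av (uu w)‖ ^ 2 := by positivity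
  linarith only [h1, this]

theorem Cf.hMM (c : Cf N w R β g) : max 1 R ≤ ((Nat.max 1024 g.R1 : ℕ) : ℝ) / 2 ^ 10 := by
  have e : ((Nat.max 1024 g.R1 : ℕ) : ℝ) = max 1024 (g.R1 : ℝ) := by
    have := Nat.cast_max (α := ℝ) 1024 g.R1
    rw [show Nat.max 1024 g.R1 = max 1024 g.R1 from rfl, this]
    norm_num
  rw [e]
  apply max_le
  · rw [le_div_iff₀ (by positivity)]
    refine le_trans (le_of_eq (by norm_num)) (le_max_left _ _)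
  · exact c.hR1.trans (div_le_div_of_nonneg_right (le_max_right _ _) (by positivity))

theorem Cf.hMm (c : Cf N w R β g) : ((Nat.max 1024 g.R0 : ℕ) : ℝ) / 2 ^ 10 ≤ max 1 R := by
  have e : ((Nat.max 1024 g.R0 : ℕ) : ℝ) = max 1024 (g.R0 : ℝ) := by
    have := Nat.cast_max (α := ℝ) 1024 g.R0
    rw [show Nat.max 1024 g.R0 = max 1024 g.R0 from rfl, this]
    norm_num
  rw [e, div_le_iff₀ (by positivity)]
  apply max_le
  · have := le_max_left 1 R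
    linarith only [this]
  · have h1 := c.hR0
    rw [div_le_iff₀ (by positivity)] at h1
    refine h1.trans ?_
    exact mul_le_mul_of_nonneg_right (le_max_right _ _) (by positivity)

/-- the kernel of a cell -/
theorem kf_sound (c : Cf N w R β g) {mx Sm Sq S2 gp gn rho : ℕ} (mb : Mb w R mx Sm Sq S2 gp gn rho)
    {s s' : ℕ} (hs : s' * 1024 ≤ 1000 * g.Ba) {x : ℝ} (hx0 : (s : ℝ) / 2 ^ 10 / β ≤ x)
    (hx1 : x ≤ (s' : ℝ) / 2 ^ 10 / β) :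
    max 1 R * kM (uu w) x ≤
      (kf (Nat.ble 1024 g.R0) (Nat.max 1024 g.R1) mx Sm gp gn g.R1 g.Ba g.Bb s s' : ℝ) / 2 ^ 20 := by
  have hBar : (0 : ℝ) < g.Ba := by exact_mod_cast c.hBa
  have hβ := c.hβ
  have h0 : 0 ≤ x := le_trans (by positivity) hx0
  obtain ⟨xh, hxh⟩ : ∃ xh, xh = s' * 1048576 / g.Ba + 1 := ⟨_, rfl⟩
  have hh : x ≤ (xh : ℝ) / 2 ^ 20 := by
    rw [hxh]
    have h1 := real_le_div (s' * 1048576) g.Ba c.hBa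
    rw [le_div_iff₀ (by positivity)]
    refine le_trans ?_ h1
    push_cast
    have h2 : x ≤ (s' : ℝ) / 2 ^ 10 / ((g.Ba : ℝ) / 2 ^ 10) :=
      hx1.trans (div_le_div_of_nonneg_left (by positivity) (by positivity) c.hβa)
    have e : (s' : ℝ) * 1048576 / g.Ba = (s' : ℝ) / 2 ^ 10 / ((g.Ba : ℝ) / 2 ^ 10) * 2 ^ 20 := by
      field_simp
      norm_num
    rw [e]
    exact mul_le_mul_of_nonneg_right h2 (by positivity)
  have hD : xh < 1048576 := by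
    have h1 : s' * 1048576 / g.Ba ≤ 1000 * 1024 := by
      apply Nat.div_le_of_le_mul
      linarith only [hs]
    omega
  have hx1' : x < 1 := by
    refine lt_of_le_of_lt hh ?_
    rw [div_lt_one (by positivity)]
    exact_mod_cast hD
  have hu := uu_le c.hw
  have hm0 := c.m_nonneg
  have hM := c.hM
  have hA : max 1 R * kM (uu w) x ≤ (kerU (Nat.max 1024 g.R1) mx xh : ℝ) / 2 ^ 20 := by
    refine le_trans ?_ (kerU_sound c.hMM hm0 mb.hm h0 hh hD)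
    exact mul_le_mul_of_nonneg_left (kM_le_one c.hN1' hu h0 hx1') hM.le
  unfold kf
  simp only [ev_eq]
  rw [← hxh]
  by_cases hf : 1024 ≤ g.R0
  · rw [Nat.ble_eq_true_of_le hf, cond_true]
    have hR1 : 1 ≤ R := by
      refine le_trans ?_ c.hR0
      rw [le_div_iff₀ (by positivity)]
      have : (1024 : ℝ) ≤ g.R0 := by exact_mod_cast hf
      refine le_trans (le_of_eq ?_) this
      norm_num
    have hB : max 1 R * kM (uu w) x ≤ (kapU Sm gp gn g.R1 (xlo g.Bb s) xh : ℝ) / 2 ^ 20 := by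
      rw [max_eq_right hR1]
      refine le_trans ?_ (kapU_sound c.hR c.hR1 mb.hS (mb.hg hR1) h0
        (xlo_sound hβ (fun _ => c.hβb) hx0) hh hD)
      exact mul_le_mul_of_nonneg_left (kM_le_kapK c.hN1' c.hw c.ht hR1 h0 hx1') c.hR.le
    cases Nat.ble (kerU (Nat.max 1024 g.R1) mx xh) (kapU Sm gp gn g.R1 (xlo g.Bb s) xh) with
    | true => rw [cond_true]; exact hA
    | false => rw [cond_false]; exact hB
  · have hf' : Nat.ble 1024 g.R0 = false := by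
      rw [Bool.eq_false_iff, ne_eq, Nat.ble_eq]
      exact hf
    rw [hf', cond_false]
    exact hA

/-! ### the profiles -/

/-- the profile `p` holds -/
def Ok (N : ℕ) (w : Fin N → ℂ) (R : ℝ) (p : Pf) : Prop :=
  ∀ x ∈ Set.Icc ((p.X0 : ℝ) / 1024) ((p.X : ℝ) / 1024),
    ‖qq (uu w) x‖ ≤ Real.exp (-(N * ((p.c : ℝ) / 1024 * x ^ 2 / max 1 R +
      (p.g : ℝ) / 1024 * x * (av (uu w)).re)))

/-- type A -/
theorem cellA (c : Cf N w R β g) {mx Sm Sq S2 gp gn rho : ℕ} (mb : Mb w R mx Sm Sq S2 gp gn rho)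
    {k0 : ℕ} (hk : (k0 : ℝ) / 2 ^ 10 ≤ (av (uu w)).re * max 1 R * β) (h j : ℕ) :
    CellQ N (uu w) β (eA Sq k0) h j := by
  intro τ hτ
  have hM := c.hM
  have hβ := c.hβ
  have hN := c.hβN
  obtain ⟨M, hMe⟩ : ∃ M, M = max 1 R := ⟨_, rfl⟩
  have hS := mb.hq
  rw [← hMe] at hM hk hN hS
  obtain ⟨m1, hm1⟩ : ∃ m1, m1 = (av (uu w)).re := ⟨_, rfl⟩
  rw [← hm1] at hk
  obtain ⟨sq, hsq⟩ : ∃ sq, sq = SV.sq (uu w) := ⟨_, rfl⟩
  have hq := fun x => qq_am2 c.hN1' (x := x) (le_of_eq hsq.symm)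
  rw [← hm1] at hq
  rw [← hsq] at hS
  obtain ⟨s0, hs0⟩ : ∃ s0, s0 = (j : ℝ) / 2 ^ 10 := ⟨_, rfl⟩
  obtain ⟨s1, hs1⟩ : ∃ s1, s1 = ((j + h : ℕ) : ℝ) / 2 ^ 10 := ⟨_, rfl⟩
  have h0 : 0 ≤ s0 := by rw [hs0]; positivity
  have h1 : 0 ≤ s1 := by rw [hs1]; positivity
  obtain ⟨K, hK⟩ : ∃ K, K = (k0 : ℝ) / 2 ^ 10 := ⟨_, rfl⟩
  obtain ⟨S, hS'⟩ : ∃ S, S = (Sq : ℝ) / 2 ^ 20 := ⟨_, rfl⟩
  rw [← hS'] at hS
  rw [← hK] at hk
  have hS0 : 0 ≤ S := by rw [hS']; positivity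
  have hnode : ∀ i : ℕ, Real.exp (-(K * ((i : ℝ) / 2 ^ 10) - S * ((i : ℝ) / 2 ^ 10) ^ 2 / 2)) ≤
      (eA Sq k0 i : ℝ) / 2 ^ 40 := by
    intro i
    unfold eA
    rw [ev_eq]
    apply node_le
    have h2 := real_le_div (Sq * (i * i)) 2 (by norm_num)
    have h3 : ((k0 * i * 1048576 : ℕ) : ℝ) / 2 ^ 40 = K * ((i : ℝ) / 2 ^ 10) := by
      rw [hK]; push_cast; ring
    have h4 : S * ((i : ℝ) / 2 ^ 10) ^ 2 / 2 = ((Sq * (i * i) : ℕ) : ℝ) / (2 : ℕ) / 2 ^ 40 := by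
      rw [hS']; push_cast; ring
    rw [h3, h4]
    have h5 := div_le_div_of_nonneg_right h2 (by positivity : (0 : ℝ) ≤ 2 ^ 40)
    linarith only [h2]
  rw [← hs0, ← hs1]
  refine exp_chord (f0 := K * s0 - S * s0 ^ 2 / 2) (f1 := K * s1 - S * s1 ^ 2 / 2) hτ.1 hτ.2
    (hq _) ?_ (by rw [hs0]; exact hnode j) (by rw [hs1]; exact hnode (j + h))
  obtain ⟨s, hs⟩ : ∃ s, s = s0 + τ * (s1 - s0) := ⟨_, rfl⟩
  rw [← hs]
  have hs_0 : 0 ≤ s := by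
    have : s = (1 - τ) * s0 + τ * s1 := by rw [hs]; ring
    rw [this]
    have := sub_nonneg.2 hτ.2
    have := hτ.1
    positivity
  have e1 : (N : ℝ) * (s / β * m1 - (s / β) ^ 2 * sq / 2) =
      m1 * M * β * s - (M * sq) * s ^ 2 / 2 := by
    rw [← hN]
    field_simp
  rw [e1]
  have e2 : K * s - S * s ^ 2 / 2 = (1 - τ) * (K * s0 - S * s0 ^ 2 / 2) +
      τ * (K * s1 - S * s1 ^ 2 / 2) + S * (τ * (1 - τ)) * (s1 - s0) ^ 2 / 2 := by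
    rw [hs]; ring
  have h6 : 0 ≤ S * (τ * (1 - τ)) * (s1 - s0) ^ 2 / 2 := by
    have := mul_nonneg hτ.1 (sub_nonneg.2 hτ.2)
    positivity
  have h7 := mul_le_mul_of_nonneg_right hk hs_0
  have h8 := mul_le_mul_of_nonneg_right hS (sq_nonneg s)
  linarith only [e2, h6, h7, h8]

/-- type L and P -/
theorem cellL (c : Cf N w R β g) {p : Pf} (hp : Ok N w R p)
    {k0 : ℕ} (hk : (k0 : ℝ) / 2 ^ 10 ≤ (av (uu w)).re * max 1 R * β) (h j : ℕ)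
    (hj0 : p.X0 * g.Bb ≤ j * 1024) (hj1 : (j + h) * 1024 ≤ p.X * g.Ba) :
    CellQ N (uu w) β (eL p.c p.g k0 h) h j := by
  intro τ hτ
  have hM := c.hM
  have hβ := c.hβ
  have hN := c.hβN
  have hq := hp
  unfold Ok at hq
  obtain ⟨M, hMe⟩ : ∃ M, M = max 1 R := ⟨_, rfl⟩
  rw [← hMe] at hM hk hN hq
  obtain ⟨m1, hm1⟩ : ∃ m1, m1 = (av (uu w)).re := ⟨_, rfl⟩
  rw [← hm1] at hk hq
  obtain ⟨C, hC⟩ : ∃ C, C = (p.c : ℝ) / 1024 := ⟨_, rfl⟩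
  obtain ⟨G, hG⟩ : ∃ G, G = (p.g : ℝ) / 1024 := ⟨_, rfl⟩
  rw [← hC, ← hG] at hq
  have hC0 : 0 ≤ C := by rw [hC]; positivity
  have hG0 : 0 ≤ G := by rw [hG]; positivity
  obtain ⟨s0, hs0⟩ : ∃ s0, s0 = (j : ℝ) / 2 ^ 10 := ⟨_, rfl⟩
  obtain ⟨s1, hs1⟩ : ∃ s1, s1 = ((j + h : ℕ) : ℝ) / 2 ^ 10 := ⟨_, rfl⟩
  obtain ⟨H, hH⟩ : ∃ H, H = (h : ℝ) / 2 ^ 10 := ⟨_, rfl⟩
  have h0 : 0 ≤ s0 := by rw [hs0]; positivity
  have h1 : 0 ≤ s1 := by rw [hs1]; positivity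
  have hs10 : s1 - s0 = H := by rw [hs1, hs0, hH]; push_cast; ring
  have hH0 : 0 ≤ H := by rw [hH]; positivity
  obtain ⟨K, hK⟩ : ∃ K, K = (k0 : ℝ) / 2 ^ 10 := ⟨_, rfl⟩
  rw [← hK] at hk
  have hnode : ∀ i : ℕ, Real.exp (-(C * ((i : ℝ) / 2 ^ 10) ^ 2 + G * ((i : ℝ) / 2 ^ 10) * K -
      C * H ^ 2 / 4)) ≤ (eL p.c p.g k0 h i : ℝ) / 2 ^ 40 := by
    intro i
    unfold eL
    rw [ev_eq]
    apply node_le
    have h4 : (((p.c * (i * i) + p.g * i * k0) * 1024 : ℕ) : ℝ) / 2 ^ 40 =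
        C * ((i : ℝ) / 2 ^ 10) ^ 2 + G * ((i : ℝ) / 2 ^ 10) * K := by
      rw [hC, hG, hK]; push_cast; ring
    have h5 : C * H ^ 2 / 4 = ((p.c * (h * h) * 256 : ℕ) : ℝ) / 2 ^ 40 := by
      rw [hH, hC]; push_cast; ring
    rw [h4, h5]
  rw [← hs0, ← hs1]
  obtain ⟨s, hs⟩ : ∃ s, s = s0 + τ * (s1 - s0) := ⟨_, rfl⟩
  have hsc : s = (1 - τ) * s0 + τ * s1 := by rw [hs]; ring
  have hτ1 := sub_nonneg.2 hτ.2
  have hτ0 := hτ.1
  have hs_0 : 0 ≤ s := by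
    rw [hsc]
    positivity
  have hs_1 : s ≤ s1 := by
    have : 0 ≤ (1 - τ) * (s1 - s0) := by
      rw [hs10]; positivity
    rw [hs]
    linarith only [this]
  have hs_2 : s0 ≤ s := by
    have : 0 ≤ τ * (s1 - s0) := by
      rw [hs10]; positivity
    rw [hs]
    linarith only [this]
  have hBar : (0 : ℝ) < g.Ba := by exact_mod_cast c.hBa
  have hxl : (p.X0 : ℝ) / 1024 ≤ s / β := by
    have h2 : (p.X0 : ℝ) * g.Bb ≤ j * 1024 := by exact_mod_cast hj0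
    rw [le_div_iff₀ hβ]
    have h3 : (p.X0 : ℝ) / 1024 * β ≤ (p.X0 : ℝ) / 1024 * ((g.Bb : ℝ) / 2 ^ 10) :=
      mul_le_mul_of_nonneg_left c.hβb (by positivity)
    refine h3.trans (le_trans ?_ hs_2)
    rw [hs0]
    have e : (p.X0 : ℝ) / 1024 * ((g.Bb : ℝ) / 2 ^ 10) = (p.X0 * g.Bb) / 2 ^ 20 := by ring
    rw [e, div_le_div_iff₀ (by positivity) (by positivity)]
    linarith only [h2]
  have hxh : s / β ≤ (p.X : ℝ) / 1024 := by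
    have h2 : ((j + h : ℕ) : ℝ) * 1024 ≤ p.X * g.Ba := by exact_mod_cast hj1
    rw [div_le_iff₀ hβ]
    have h3 : (p.X : ℝ) / 1024 * ((g.Ba : ℝ) / 2 ^ 10) ≤ (p.X : ℝ) / 1024 * β :=
      mul_le_mul_of_nonneg_left c.hβa (by positivity)
    refine le_trans (hs_1.trans ?_) h3
    rw [hs1]
    have e : (p.X : ℝ) / 1024 * ((g.Ba : ℝ) / 2 ^ 10) = (p.X * g.Ba) / 2 ^ 20 := by ring
    rw [e, div_le_div_iff₀ (by positivity) (by positivity)]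
    linarith only [h2]
  refine exp_chord (f0 := C * s0 ^ 2 + G * s0 * K - C * H ^ 2 / 4)
    (f1 := C * s1 ^ 2 + G * s1 * K - C * H ^ 2 / 4)
    hτ.1 hτ.2 (by rw [← hs]; exact hq _ ⟨hxl, hxh⟩) ?_
    (by rw [hs0]; exact hnode j) (by rw [hs1]; exact hnode (j + h))
  have e1 : (N : ℝ) * (C * (s / β) ^ 2 / M + G * (s / β) * m1) = C * s ^ 2 + G * s * (m1 * M * β) := by
    rw [← hN]
    field_simp
  rw [e1]
  have h9 : s ^ 2 = (1 - τ) * s0 ^ 2 + τ * s1 ^ 2 - τ * (1 - τ) * H ^ 2 := by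
    rw [hs, ← hs10]; ring
  have h10 : τ * (1 - τ) * H ^ 2 ≤ H ^ 2 / 4 := by
    have : τ * (1 - τ) ≤ 1 / 4 := by linarith only [sq_nonneg (τ - 1 / 2)]
    have := mul_le_mul_of_nonneg_right this (sq_nonneg H)
    linarith only [this]
  have h11 := mul_le_mul_of_nonneg_left h10 hC0
  have h12 : G * s * K ≤ G * s * (m1 * M * β) :=
    mul_le_mul_of_nonneg_left hk (by positivity)
  have e3 : G * s * K = (1 - τ) * (G * s0 * K) + τ * (G * s1 * K) := by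
    rw [hsc]; ring
  rw [h9]
  linarith only [h11, h12, e3]

end

end Pool.Agent.Lib.MP_af3a4a_an.P1.CHK.H21
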