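import Pool.Agent.Lib.MP_af3a4a_an.P1.CHK.H21.D60Mid
import Pool.Agent.Lib.MP_af3a4a_an.P1.CHK.H39.S040

/-!
# `60 ≤ N < 100`, `4/5 ≤ R ≤ 49/20`, all `m` (helper21, with helper39's `s0_40`)
-/

set_option autoImplicit false

namespace Pool.Agent.Lib.MP_af3a4a_an.P1.CHK.H21

open Pool.Agent.Lib.MP_af3a4a_an.SV (uu av)
open Pool.Agent.Lib.MP_af3a4a_an.P1.H80

/-- **`60 ≤ N < 100`, `4/5 ≤ R ≤ 49/20`** -/
theorem mid60 {N : ℕ} {z w : Fin N → ℂ} {R : ℝ} {σ : Fin N → ℂ} (hN0 : 60 ≤ N) (hN1 : N < 100)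
    (hC : Cfg2 N z w R σ) (h0 : 4 / 5 ≤ R) (h1 : R ≤ 49 / 20) : False := by
  rcases le_or_gt (av (uu w)).re (R / 2) with h | h
  · exact D60.mid60 hN0 hN1 hC h0 h1 fun _ => h
  · rcases lt_or_ge R (17 / 10) with g | g
    · exact H39.S0.s0_40 (by omega) hC h0 (by linarith) (by linarith)
    · exact D60.mid60 hN0 hN1 hC h0 h1 fun hg => absurd hg (not_lt.2 g)

end Pool.Agent.Lib.MP_af3a4a_an.P1.CHK.H21
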